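import Pool.Agent.Q156.GK.Stm

/-!
Project GK, job ALG (helper299): the expansion of the resolvent.
-/

set_option autoImplicit false
set_option linter.unusedSectionVars false

namespace Pool.Agent.Q156.GK

open Pool.Agent.W792.GK
open scoped Matrix.Norms.L2Operator

namespace ALG

theorem one_norm_le {n : Type} [Fintype n] [DecidableEq n] : ‖(1 : Matrix n n ℂ)‖ ≤ 1 := by
  refine (opB_iff (1 : Matrix n n ℂ) zero_le_one).1 fun u => ?_
  simp

variable {Q J : Type} [Fintype Q] [DecidableEq Q] [Fintype J] [DecidableEq J]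

theorem blockDiagonal_const (g : Matrix Q Q ℂ) :
    Matrix.blockDiagonal (fun _ : J => g) = Matrix.kronecker g (1 : Matrix J J ℂ) := by
  ext ⟨x, i⟩ ⟨y, j⟩
  by_cases h : i = j <;>
    simp [Matrix.blockDiagonal_apply, Matrix.kronecker, Matrix.kroneckerMap_apply, h]

theorem blk_bd_mul (X : J → Matrix Q Q ℂ) (M : Matrix (Q × J) (Q × J) ℂ) (i j : J) :
    blk (Matrix.blockDiagonal X * M) i j = X i * blk M i j := by
  ext x y
  have e1 : blk (Matrix.blockDiagonal X * M) i j x y =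
      ∑ q : Q × J, Matrix.blockDiagonal X (x, i) q * M q (y, j) := Matrix.mul_apply
  have e2 : (X i * blk M i j) x y = ∑ w, X i x w * M (w, i) (y, j) := Matrix.mul_apply
  rw [e1, e2, Fintype.sum_prod_type]
  refine Finset.sum_congr rfl fun w _ => ?_
  rw [Finset.sum_eq_single i]
  · simp [Matrix.blockDiagonal_apply]
  · intro b _ hb
    simp [Matrix.blockDiagonal_apply, hb.symm]
  · simp

theorem blk_mul_bd (X : J → Matrix Q Q ℂ) (M : Matrix (Q × J) (Q × J) ℂ) (i j : J) :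
    blk (M * Matrix.blockDiagonal X) i j = blk M i j * X j := by
  ext x y
  have e1 : blk (M * Matrix.blockDiagonal X) i j x y =
      ∑ q : Q × J, M (x, i) q * Matrix.blockDiagonal X q (y, j) := Matrix.mul_apply
  have e2 : (blk M i j * X j) x y = ∑ w, M (x, i) (w, j) * X j w y := Matrix.mul_apply
  rw [e1, e2, Fintype.sum_prod_type]
  refine Finset.sum_congr rfl fun w _ => ?_
  rw [Finset.sum_eq_single j]
  · simp [Matrix.blockDiagonal_apply]
  · intro b _ hb
    simp [Matrix.blockDiagonal_apply, hb]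
  · simp

theorem blk_bd (X : J → Matrix Q Q ℂ) (p : J) : blk (Matrix.blockDiagonal X) p p = X p := by
  ext x y
  simp [blk, Matrix.blockDiagonal_apply]

theorem blk_add (M N : Matrix (Q × J) (Q × J) ℂ) (i j : J) :
    blk (M + N) i j = blk M i j + blk N i j := rfl

theorem blk_sum (K : ℕ) (M : ℕ → Matrix (Q × J) (Q × J) ℂ) (i j : J) :
    blk (∑ k ∈ Finset.range K, M k) i j = ∑ k ∈ Finset.range K, blk (M k) i j := by
  induction K with
  | zero => rfl
  | succ K ih => rw [Finset.sum_range_succ, Finset.sum_range_succ, blk_add, ih]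

/-- the algebra -/
theorem key {R : Type*} [Ring R] {g B S Yd E H V U W : R} (hEY : E * Yd = 1)
    (hH : H = E + B) (hgS : g * S = S * g) (hU : U = 1 + g * S) (hBU : B * U = -S)
    (hV : V = 1 + B * g) (hUV : U * V = 1)
    (hW1 : (1 - S * (Yd - g)) * W = 1) (hW2 : W * (1 - S * (Yd - g)) = 1) :
    H * (Yd + Yd * (W * S) * Yd) = 1 := by
  have hgU : g * U = U * g := by
    rw [hU, mul_add, add_mul, mul_one, one_mul, mul_assoc g S g, hgS]
  have hVU : V * U = 1 := by
    rw [hV, add_mul, one_mul, mul_assoc, hgU, ← mul_assoc, hBU, hU, hgS]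
    noncomm_ring
  have hSU : S * U = U * S := by
    rw [hU, mul_add, add_mul, mul_one, one_mul, ← mul_assoc, ← hgS]
  have hSV : S * V = V * S := by
    calc S * V = (V * U) * (S * V) := by rw [hVU, one_mul]
      _ = V * (U * S) * V := by noncomm_ring
      _ = V * (S * U) * V := by rw [hSU]
      _ = V * S * (U * V) := by noncomm_ring
      _ = V * S := by rw [hUV, mul_one]
  have hB : B = -(V * S) := by
    calc B = B * (U * V) := by rw [hUV, mul_one]
      _ = (B * U) * V := by rw [mul_assoc]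
      _ = -(S * V) := by rw [hBU, neg_mul]
      _ = _ := by rw [hSV]
  have hHY : H * Yd = V * (1 - S * (Yd - g)) := by
    have e1 : B * Yd = B * g + B * (Yd - g) := by noncomm_ring
    have e2 : B * (Yd - g) = -(V * S) * (Yd - g) := congrArg (· * (Yd - g)) hB
    calc H * Yd = 1 + (B * g + B * (Yd - g)) := by rw [hH, add_mul, hEY, e1]
      _ = (1 + B * g) + B * (Yd - g) := by rw [add_assoc]
      _ = V + -(V * S) * (Yd - g) := by rw [← hV, e2]
      _ = V * (1 - S * (Yd - g)) := by noncomm_ring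
  have h1 : H * Yd * W = V := by rw [hHY, mul_assoc, hW1, mul_one]
  have hWU : W * U = 1 + W * S * Yd := by
    have h2 : W = 1 + W * (S * (Yd - g)) := by
      have h3 : W * (1 - S * (Yd - g)) = W - W * (S * (Yd - g)) := by rw [mul_sub, mul_one]
      rw [h3] at hW2
      rw [← hW2]
      noncomm_ring
    calc W * U = W + W * (g * S) := by rw [hU, mul_add, mul_one]
      _ = (1 + W * (S * (Yd - g))) + W * (S * g) := by rw [← h2, hgS]
      _ = _ := by noncomm_ring
  calc H * (Yd + Yd * (W * S) * Yd) = H * Yd * (1 + W * S * Yd) := by noncomm_ring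
    _ = H * Yd * (W * U) := by rw [hWU]
    _ = (H * Yd * W) * U := by noncomm_ring
    _ = 1 := by rw [h1, hVU]

theorem geom {R : Type*} [Ring R] {N W : R} (h : W = 1 + N * W) (K : ℕ) :
    W = ∑ k ∈ Finset.range K, N ^ k + N ^ K * W := by
  induction K with
  | zero => simp
  | succ K ih =>
    rw [Finset.sum_range_succ]
    have : N ^ K * W = N ^ K + N ^ (K + 1) * W := by
      nth_rewrite 1 [h]
      rw [mul_add, mul_one, pow_succ, mul_assoc]
    rw [add_assoc, ← this]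
    exact ih

theorem shift {R : Type*} [Ring R] (S X : R) (k : ℕ) : (S * X) ^ k * S = S * (X * S) ^ k := by
  induction k with
  | zero => simp
  | succ k ih =>
    rw [pow_succ', pow_succ', mul_assoc, ih]
    noncomm_ring

end ALG

open ALG in
theorem main_ALG : S_ALG := by
  intro Q J _ _ _ _ s z hs hz g D Y A S hg hY hYE hEY hS hgS hB
  have hz0 : 0 < ‖z‖ := by linarith
  have h8 : 0 ≤ 8 * s := by linarith
  have hzi : 0 ≤ 2 / ‖z‖ := by positivity
  set g₁ : Matrix (Q × J) (Q × J) ℂ := Matrix.kronecker g (1 : Matrix J J ℂ) with hg₁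
  set B : Matrix (Q × J) (Q × J) ℂ := Matrix.kronecker (1 : Matrix Q Q ℂ) A
    + ((s ^ 2 : ℝ) : ℂ) • g₁ with hBdef
  set Yd : Matrix (Q × J) (Q × J) ℂ := Matrix.blockDiagonal Y with hYd
  set E : Matrix (Q × J) (Q × J) ℂ :=
    Matrix.blockDiagonal (fun j => D j - z • (1 : Matrix Q Q ℂ) - ((s ^ 2 : ℝ) : ℂ) • g) with hE
  set H : Matrix (Q × J) (Q × J) ℂ := Matrix.blockDiagonal D + Matrix.kronecker (1 : Matrix Q Q ℂ) A
        - z • (1 : Matrix (Q × J) (Q × J) ℂ) with hH
  have hgc : g₁ = Matrix.blockDiagonal (fun _ : J => g) := (blockDiagonal_const g).symm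
  have hYE' : Yd * E = 1 := by
    rw [hYd, hE, ← Matrix.blockDiagonal_mul, ← Matrix.blockDiagonal_one]
    congr 1
    funext j
    exact hYE j
  have hEY' : E * Yd = 1 := by
    rw [hYd, hE, ← Matrix.blockDiagonal_mul, ← Matrix.blockDiagonal_one]
    congr 1
    funext j
    exact hEY j
  have hHE : H = E + B := by
    have h1 : E = Matrix.blockDiagonal D - z • (1 : Matrix (Q × J) (Q × J) ℂ)
        - ((s ^ 2 : ℝ) : ℂ) • g₁ := by
      rw [hgc, hE]
      ext ⟨x, i⟩ ⟨y, j⟩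
      by_cases h : i = j
      · subst h
        simp [Matrix.blockDiagonal_apply, Matrix.one_apply]
      · simp [Matrix.blockDiagonal_apply, h]
    rw [h1, hBdef, hH]
    abel
  set U : Matrix (Q × J) (Q × J) ℂ := 1 + g₁ * S with hU
  set V : Matrix (Q × J) (Q × J) ℂ := 1 + B * g₁ with hV
  have hgU : g₁ * U = U * g₁ := by
    rw [hU, mul_add, add_mul, mul_one, one_mul, mul_assoc g₁ S g₁, hgS]
  have hVU : V * U = 1 := by
    rw [hV, add_mul, one_mul, mul_assoc, hgU, ← mul_assoc, hB, hU, hgS]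
    noncomm_ring
  have hUV : U * V = 1 := mul_eq_one_comm.1 hVU
  -- the small operator
  have hXn : ‖Yd - g₁‖ ≤ 4 / ‖z‖ := by
    have h1 : ‖Yd‖ ≤ 2 / ‖z‖ := OpB.norm_le (opB_blockDiagonal hY) hzi
    have h2 : ‖g₁‖ ≤ 2 / ‖z‖ := by
      rw [hgc]
      exact OpB.norm_le (opB_blockDiagonal fun _ => hg) hzi
    calc ‖Yd - g₁‖ ≤ ‖Yd‖ + ‖g₁‖ := norm_sub_le _ _
      _ ≤ 2 / ‖z‖ + 2 / ‖z‖ := add_le_add h1 h2
      _ = 4 / ‖z‖ := by ring
  have hSn : ‖S‖ ≤ 8 * s := OpB.norm_le hS h8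
  have hNn : ‖S * (Yd - g₁)‖ ≤ 1 / 2 := by
    calc ‖S * (Yd - g₁)‖ ≤ ‖S‖ * ‖Yd - g₁‖ := norm_mul_le _ _
      _ ≤ 8 * s * (4 / ‖z‖) := mul_le_mul hSn hXn (norm_nonneg _) h8
      _ ≤ 1 / 2 := by
        rw [mul_div_assoc', div_le_iff₀ hz0]
        linarith
  have : CompleteSpace (Matrix (Q × J) (Q × J) ℂ) := FiniteDimensional.complete ℂ _
  obtain ⟨u, hu⟩ := isUnit_one_sub_of_norm_lt_one (x := S * (Yd - g₁)) (by linarith)
  set W : Matrix (Q × J) (Q × J) ℂ := u⁻¹.val with hW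
  have hW1 : (1 - S * (Yd - g₁)) * W = 1 := by
    rw [← hu]
    exact u.mul_inv
  have hW2 : W * (1 - S * (Yd - g₁)) = 1 := by
    rw [← hu]
    exact u.inv_mul
  have hkey : H * (Yd + Yd * (W * S) * Yd) = 1 :=
    key hEY' hHE hgS rfl hB rfl hUV hW1 hW2
  have hinv : H⁻¹ = Yd + Yd * (W * S) * Yd := Matrix.inv_eq_right_inv hkey
  refine ⟨⟨⟨H, _, hkey, mul_eq_one_comm.1 hkey⟩, rfl⟩, fun p K => ?_⟩
  have hWN : W = 1 + S * (Yd - g₁) * W := by
    rw [sub_mul, one_mul] at hW1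
    rw [← hW1]
    abel
  have hWn : ‖W‖ ≤ 2 := by
    have h1 : ‖W‖ ≤ ‖(1 : Matrix (Q × J) (Q × J) ℂ)‖ + ‖S * (Yd - g₁)‖ * ‖W‖ := by
      calc ‖W‖ = ‖1 + S * (Yd - g₁) * W‖ := by rw [← hWN]
        _ ≤ ‖(1 : Matrix (Q × J) (Q × J) ℂ)‖ + ‖S * (Yd - g₁) * W‖ := norm_add_le _ _
        _ ≤ _ := by
          gcongr
          exact norm_mul_le _ _
    have h2 := one_norm_le (n := Q × J)
    have h3 : ‖S * (Yd - g₁)‖ * ‖W‖ ≤ 1 / 2 * ‖W‖ := mul_le_mul_of_nonneg_right hNn (norm_nonneg _)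
    linarith
  refine ⟨blk ((S * (Yd - g₁)) ^ K * (W * S)) p p, ?_, ?_⟩
  · apply opB_blk
    rw [opB_iff _ (by positivity)]
    have h1 : ‖(S * (Yd - g₁)) ^ K‖ ≤ (1 / 2) ^ K := by
      have h2 : ∀ n : ℕ, ‖(S * (Yd - g₁)) ^ n‖ ≤ (1 / 2) ^ n := by
        intro n
        induction n with
        | zero => simpa using one_norm_le (n := Q × J)
        | succ n ih =>
          rw [pow_succ, pow_succ]
          exact (norm_mul_le _ _).trans (mul_le_mul ih hNn (norm_nonneg _) (by positivity))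
      exact h2 K
    calc ‖(S * (Yd - g₁)) ^ K * (W * S)‖ ≤ ‖(S * (Yd - g₁)) ^ K‖ * (‖W‖ * ‖S‖) :=
          (norm_mul_le _ _).trans (mul_le_mul_of_nonneg_left (norm_mul_le _ _) (norm_nonneg _))
      _ ≤ (1 / 2) ^ K * (2 * (8 * s)) := by gcongr
      _ = 16 * s * (1 / 2) ^ K := by ring
  · rw [hinv, blk_add, hYd, blk_mul_bd, blk_bd_mul, blk_bd, ← hYd]
    congr 3
    have hM : W * S = ∑ k ∈ Finset.range K, Zk S (fun j => Y j - g) k
        + (S * (Yd - g₁)) ^ K * (W * S) := by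
      have h1 := geom hWN K
      have h2 : W * S = (∑ k ∈ Finset.range K, (S * (Yd - g₁)) ^ k) * S
          + (S * (Yd - g₁)) ^ K * (W * S) := by
        nth_rewrite 1 [h1]
        rw [add_mul, mul_assoc ((S * (Yd - g₁)) ^ K)]
      have h3 : (∑ k ∈ Finset.range K, (S * (Yd - g₁)) ^ k) * S =
          ∑ k ∈ Finset.range K, Zk S (fun j => Y j - g) k := by
        rw [Finset.sum_mul]
        refine Finset.sum_congr rfl fun k _ => ?_
        rw [shift]
        unfold Zk
        congr 3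
        rw [hYd, hgc, ← Matrix.blockDiagonal_sub]
        rfl
      rw [h3] at h2
      exact h2
    calc blk (W * S) p p = blk (∑ k ∈ Finset.range K, Zk S (fun j => Y j - g) k
        + (S * (Yd - g₁)) ^ K * (W * S)) p p := congrArg (fun M => blk M p p) hM
      _ = _ := by rw [blk_add, blk_sum]

end Pool.Agent.Q156.GK
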