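import Pool.Agent.Q156.GK.Stm

/-!
# Project GK (helper156), job ALLZ (helper17): the defects are small for every `z`
-/

set_option autoImplicit false

namespace Pool.Agent.Q156.GK

open Pool.Agent.W792.GK MeasureTheory
open scoped ComplexOrder

namespace ALLZ

/-- entries bounded by `b` give the operator bound `|n| b` -/
theorem opB_entries {n : Type} [Fintype n] {M : Matrix n n ℂ} {b : ℝ}
    (h : ∀ x y, ‖M x y‖ ≤ b) : OpB M (Fintype.card n * b) := by
  intro u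
  have h1 : ∀ x, ‖M.mulVec u x‖ ^ 2 ≤ b ^ 2 * (Fintype.card n * ∑ y, ‖u y‖ ^ 2) := by
    intro x
    have h2 : ‖M.mulVec u x‖ ≤ b * ∑ y, ‖u y‖ := by
      unfold Matrix.mulVec dotProduct
      refine (norm_sum_le _ _).trans ?_
      rw [Finset.mul_sum]
      refine Finset.sum_le_sum fun y _ => ?_
      rw [norm_mul]
      exact mul_le_mul_of_nonneg_right (h x y) (norm_nonneg _)
    have h3 : (∑ y, ‖u y‖) ^ 2 ≤ Fintype.card n * ∑ y, ‖u y‖ ^ 2 := by
      have := sq_sum_le_card_mul_sum_sq (s := (Finset.univ : Finset n)) (f := fun y => ‖u y‖)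
      rwa [Finset.card_univ] at this
    calc ‖M.mulVec u x‖ ^ 2 ≤ (b * ∑ y, ‖u y‖) ^ 2 := pow_le_pow_left₀ (norm_nonneg _) h2 2
      _ = b ^ 2 * (∑ y, ‖u y‖) ^ 2 := by ring
      _ ≤ _ := mul_le_mul_of_nonneg_left h3 (sq_nonneg _)
  calc ∑ x, ‖M.mulVec u x‖ ^ 2
      ≤ ∑ _x : n, b ^ 2 * (Fintype.card n * ∑ y, ‖u y‖ ^ 2) := Finset.sum_le_sum fun x _ => h1 x
    _ = _ := by
      rw [Finset.sum_const, Finset.card_univ, nsmul_eq_mul]
      ring

section

variable {Q : Type} [Fintype Q] [DecidableEq Q]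

theorem entry_le {X G : Matrix Q Q ℂ} {a b : ℝ} (ha : 0 ≤ a) (hX : ∀ x y, ‖X x y‖ ≤ a)
    (hG : ∀ x y, ‖G x y‖ ≤ b) (x y : Q) : ‖(1 - X * G) x y‖ ≤ 1 + Fintype.card Q * (a * b) := by
  rw [Matrix.sub_apply, Matrix.mul_apply]
  refine (norm_sub_le _ _).trans (add_le_add ?_ ?_)
  · rw [Matrix.one_apply]
    split_ifs <;> simp
  · refine (norm_sum_le _ _).trans ?_
    calc ∑ w, ‖X x w * G w y‖ ≤ ∑ _w : Q, a * b := by
          refine Finset.sum_le_sum fun w _ => ?_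
          rw [norm_mul]
          exact mul_le_mul (hX x w) (hG w y) (norm_nonneg _) ha
      _ = _ := by rw [Finset.sum_const, Finset.card_univ, nsmul_eq_mul]

theorem diff_mul {U : Set ℂ} {X G : ℂ → Matrix Q Q ℂ}
    (hX : ∀ x y, DifferentiableOn ℂ (fun z => X z x y) U)
    (hG : ∀ x y, DifferentiableOn ℂ (fun z => G z x y) U) (x y : Q) :
    DifferentiableOn ℂ (fun z => (1 - X z * G z) x y) U := by
  have h : (fun z => (1 - X z * G z) x y) =
      fun z => (1 : Matrix Q Q ℂ) x y - ∑ w, X z x w * G z w y := by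
    ext z
    rw [Matrix.sub_apply, Matrix.mul_apply]
  rw [h]
  apply (differentiableOn_const _).sub
  apply DifferentiableOn.fun_sum
  intro w _
  exact (hX x w).mul (hG w y)

theorem meas_mul {Ω : Type} [MeasurableSpace Ω] {X G : Ω → Matrix Q Q ℂ}
    (hX : ∀ x y, Measurable fun ω => X ω x y) (hG : ∀ x y, Measurable fun ω => G ω x y) (x y : Q) :
    Measurable fun ω => (1 - X ω * G ω) x y := by
  have h : (fun ω => (1 - X ω * G ω) x y) =
      fun ω => (1 : Matrix Q Q ℂ) x y - ∑ w, X ω x w * G ω w y := by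
    ext z
    rw [Matrix.sub_apply, Matrix.mul_apply]
  rw [h]
  apply measurable_const.sub
  apply Finset.measurable_fun_sum
  intro w _
  exact (hX x w).mul (hG w y)

theorem e1_le {M : Matrix Q Q ℂ} {b : ℝ} (h : ∀ x y, ‖M x y‖ ≤ b) :
    e1 M ≤ (Fintype.card Q : ℝ) ^ 2 * b := by
  unfold e1
  calc ∑ i, ∑ j, ‖M i j‖ ≤ ∑ _i : Q, ∑ _j : Q, b :=
        Finset.sum_le_sum fun i _ => Finset.sum_le_sum fun j _ => h i j
    _ = _ := by
      simp only [Finset.sum_const, Finset.card_univ, nsmul_eq_mul]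
      ring

theorem e1_nonneg (M : Matrix Q Q ℂ) : 0 ≤ e1 M :=
  Finset.sum_nonneg fun _ _ => Finset.sum_nonneg fun _ _ => norm_nonneg _

/-- the transfer from the points of `S` to `w`, integrated -/
theorem transfer {Ω : Type} [MeasurableSpace Ω] (μ : Measure Ω) [IsProbabilityMeasure μ]
    (H : Ω → ℂ → Matrix Q Q ℂ) (z₀ w : ℂ) (Rad M L ε' ε'' : ℝ) (S : Finset ℂ) (hM : 0 < M)
    (hL : 0 ≤ L)
    (hS : ∀ f : ℂ → ℂ, DifferentiableOn ℂ f (Metric.ball z₀ Rad) →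
        (∀ z ∈ Metric.ball z₀ Rad, ‖f z‖ ≤ 1) → ‖f w‖ ≤ L * ∑ ζ ∈ S, ‖f ζ‖ + ε')
    (hw : w ∈ Metric.ball z₀ Rad) (hSb : ∀ ζ ∈ S, ζ ∈ Metric.ball z₀ Rad)
    (hmeas : ∀ ζ ∈ Metric.ball z₀ Rad, ∀ x y, Measurable fun ω => H ω ζ x y)
    (hgood : ∀ᵐ ω ∂μ, (∀ x y, DifferentiableOn ℂ (fun ζ => H ω ζ x y) (Metric.ball z₀ Rad)) ∧
      ∀ ζ ∈ Metric.ball z₀ Rad, ∀ x y, ‖H ω ζ x y‖ ≤ M)
    (hsmall : ∀ ζ ∈ S, ∫ ω, e1 (H ω ζ) ∂μ ≤ ε'') :
    ∫ ω, e1 (H ω w) ∂μ ≤ L * (S.card * ε'') + (Fintype.card Q : ℝ) ^ 2 * (M * ε') := by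
  have hint : ∀ ζ ∈ Metric.ball z₀ Rad, Integrable (fun ω => e1 (H ω ζ)) μ := by
    intro ζ hζ
    have hm : Measurable fun ω => e1 (H ω ζ) := by
      unfold e1
      apply Finset.measurable_fun_sum
      intro i _
      apply Finset.measurable_fun_sum
      intro j _
      exact (hmeas ζ hζ i j).norm
    apply Integrable.of_bound hm.aestronglyMeasurable ((Fintype.card Q : ℝ) ^ 2 * M)
    filter_upwards [hgood] with ω hω
    rw [Real.norm_eq_abs, abs_of_nonneg (e1_nonneg _)]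
    exact e1_le (hω.2 ζ hζ)
  have hpt : ∀ᵐ ω ∂μ, e1 (H ω w) ≤ L * ∑ ζ ∈ S, e1 (H ω ζ) +
      (Fintype.card Q : ℝ) ^ 2 * (M * ε') := by
    filter_upwards [hgood] with ω hω
    have h1 : ∀ x y, ‖H ω w x y‖ ≤ L * ∑ ζ ∈ S, ‖H ω ζ x y‖ + M * ε' := by
      intro x y
      have h2 := hS (fun ζ => H ω ζ x y / M) ((hω.1 x y).div_const _) (by
        intro ζ hζ
        rw [norm_div, Complex.norm_real, Real.norm_eq_abs, abs_of_pos hM]
        exact (div_le_one hM).2 (hω.2 ζ hζ x y))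
      simp only [norm_div, Complex.norm_real, Real.norm_eq_abs, abs_of_pos hM] at h2
      rw [← Finset.sum_div, div_le_iff₀ hM] at h2
      calc ‖H ω w x y‖ ≤ (L * ((∑ ζ ∈ S, ‖H ω ζ x y‖) / M) + ε') * M := h2
        _ = _ := by field_simp
    unfold e1
    calc ∑ i, ∑ j, ‖H ω w i j‖ ≤ ∑ i : Q, ∑ j : Q, (L * ∑ ζ ∈ S, ‖H ω ζ i j‖ + M * ε') :=
          Finset.sum_le_sum fun i _ => Finset.sum_le_sum fun j _ => h1 i j
      _ = _ := by
        simp only [Finset.sum_add_distrib, Finset.sum_const, Finset.card_univ, nsmul_eq_mul,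
          ← Finset.mul_sum]
        congr 1
        · congr 1
          exact (Finset.sum_congr rfl fun i _ => Finset.sum_comm).trans Finset.sum_comm
        · ring
  have hsum : Integrable (fun ω => L * ∑ ζ ∈ S, e1 (H ω ζ)) μ :=
    (integrable_finsetSum S fun ζ hζ => hint ζ (hSb ζ hζ)).const_mul L
  calc ∫ ω, e1 (H ω w) ∂μ
      ≤ ∫ ω, (L * ∑ ζ ∈ S, e1 (H ω ζ) + (Fintype.card Q : ℝ) ^ 2 * (M * ε')) ∂μ :=
        integral_mono_ae (hint w hw) (hsum.add (integrable_const _)) hpt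
    _ = L * ∑ ζ ∈ S, ∫ ω, e1 (H ω ζ) ∂μ + (Fintype.card Q : ℝ) ^ 2 * (M * ε') := by
        rw [integral_add hsum (integrable_const _), integral_const_mul,
          integral_finsetSum S fun ζ hζ => hint ζ (hSb ζ hζ)]
        simp
    _ ≤ _ := by
        apply add_le_add_left
        apply mul_le_mul_of_nonneg_left _ hL
        calc ∑ ζ ∈ S, ∫ ω, e1 (H ω ζ) ∂μ ≤ ∑ _ζ ∈ S, ε'' := Finset.sum_le_sum hsmall
          _ = _ := by rw [Finset.sum_const, nsmul_eq_mul]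

end

theorem ae_bound {Q J : Type} [Fintype Q] [Fintype J] (ν : Measure ℝ) [IsProbabilityMeasure ν]
    {R : ℝ} (h : ν (Set.Icc (-R) R)ᶜ = 0) : ∀ᵐ v ∂(pm Q J ν), ∀ q, |v q| ≤ R := by
  rw [ae_all_iff]
  intro q
  have h1 : ∀ᵐ t ∂ν, |t| ≤ R := by
    rw [ae_iff]
    refine measure_mono_null ?_ h
    intro t ht ht'
    exact ht (abs_le.2 ht')
  exact (measurePreserving_eval (fun _ : Q × J => ν) q).quasiMeasurePreserving.ae h1

theorem adm_mono {J : Type} [Fintype J] [DecidableEq J] {s δ δ' : ℝ} {n n' : ℕ}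
    {A : Matrix J J ℂ} (h : Adm s δ n A) (hδ : δ ≤ δ') (hn : n' ≤ n) : Adm s δ' n' A :=
  ⟨h.1, h.2.1, fun m h1 h2 i j => (h.2.2 m h1 (h2.trans hn) i j).trans hδ⟩

instance (Q J : Type) [Fintype Q] [Fintype J] (ν : Measure ℝ) [IsProbabilityMeasure ν] :
    IsProbabilityMeasure (pm Q J ν) := by
  unfold pm
  infer_instance

end ALLZ

open ALLZ in
/-- the defects are small for every `z` in the upper half plane -/
theorem main_ALLZ : S_LZ → S_CONT → S_GR → S_HOL → S_ALLZ := by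
  intro hLZ hCONT hGR hHOL Q _ _ _ κ hκ s R hs hR0 z hz ε hε
  classical
  obtain hQ | hQ := isEmpty_or_nonempty Q
  · refine ⟨1, 0, one_pos, fun J _ _ A p ν _ _ _ => ?_⟩
    have h0 : ∀ M : Matrix Q Q ℂ, e1 M = 0 := fun M => by simp [e1]
    simp only [h0, integral_zero]
    exact ⟨hε.le, hε.le⟩
  set y := z.im with hy
  set K := ∑ x, ‖κ x‖ with hK
  have hK0 : 0 ≤ K := Finset.sum_nonneg fun _ _ => norm_nonneg _
  set C := (Fintype.card Q : ℝ) * (K + R) with hC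
  have hC0 : 0 ≤ C := by positivity
  have hddle : ∀ (x y : Q) (t : ℝ), |t| ≤ R → ‖κ (x - y) + (if x = y then (t : ℂ) else 0)‖ ≤ K + R := by
    intro x y t ht
    refine (norm_add_le _ _).trans (add_le_add ?_ ?_)
    · exact Finset.single_le_sum (f := fun x => ‖κ x‖) (fun _ _ => norm_nonneg _)
        (Finset.mem_univ (x - y))
    · split_ifs
      · rw [Complex.norm_real, Real.norm_eq_abs]
        exact ht
      · simpa using hR0.le
  have hCB : ∀ w : Q → ℝ, (∀ x, |w x| ≤ R) →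
      OpB (fun x y : Q => κ (x - y) + (if x = y then (w x : ℂ) else 0)) C := fun w hw =>
    opB_entries fun x y => hddle x y (w x) (hw x)
  -- geometry
  set Y := 64 * (C + s + 1) + 1 + (z.re ^ 2 + y ^ 2) / y + y + 2 with hY
  have hYy : (z.re ^ 2 + y ^ 2) / y * y = z.re ^ 2 + y ^ 2 := div_mul_cancel₀ _ hz.ne'
  have hq0 : 0 ≤ (z.re ^ 2 + y ^ 2) / y := by positivity
  have hY1 : 64 * (C + s + 1) + 1 ≤ Y := by rw [hY]; linarith
  have hYpos : 0 < Y := by rw [hY]; positivity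
  set z₀ : ℂ := ⟨0, Y⟩ with hz₀
  set Rad := Y - y / 2 with hRad
  have hRad1 : 1 < Rad := by
    rw [hRad, hY]
    have : 0 ≤ C + s + 1 := by positivity
    linarith
  have hnz₀ : ‖z₀‖ = Y := by
    have : z₀ = (Y : ℂ) * Complex.I := by
      apply Complex.ext <;> simp [hz₀]
    rw [this, norm_mul, Complex.norm_I, mul_one, Complex.norm_real, Real.norm_eq_abs,
      abs_of_pos hYpos]
  have hzball : ‖z - z₀‖ < Rad := by
    have h1 : ‖z - z₀‖ ^ 2 = z.re ^ 2 + (y - Y) ^ 2 := by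
      rw [← Complex.normSq_eq_norm_sq, Complex.normSq_apply]
      simp only [Complex.sub_re, Complex.sub_im, hz₀, sub_zero]
      ring
    have h2 : z.re ^ 2 + y ^ 2 < Y * y := by
      have h3 : ((z.re ^ 2 + y ^ 2) / y + y) * y ≤ Y * y := by
        apply mul_le_mul_of_nonneg_right _ hz.le
        rw [hY]
        have : 0 ≤ C + s + 1 := by positivity
        linarith
      rw [add_mul, hYy] at h3
      have : 0 < y * y := mul_pos hz hz
      linarith
    apply lt_of_pow_lt_pow_left₀ 2 (by linarith)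
    rw [h1, hRad]
    nlinarith [mul_pos hz hz]
  have him : ∀ ζ ∈ Metric.ball z₀ Rad, y / 2 < ζ.im := by
    intro ζ hζ
    rw [Metric.mem_ball, dist_eq_norm] at hζ
    have h1 : |(ζ - z₀).im| ≤ ‖ζ - z₀‖ := Complex.abs_im_le_norm _
    have h2 : (ζ - z₀).im = ζ.im - Y := by simp [hz₀]
    rw [h2] at h1
    have h3 := (abs_le.1 h1).1
    rw [hRad] at hζ
    linarith
  have hζn : ∀ ζ ∈ Metric.ball z₀ Rad, ‖ζ‖ ≤ 2 * Y := by
    intro ζ hζ
    rw [Metric.mem_ball, dist_eq_norm] at hζ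
    have h1 : ‖ζ‖ ≤ ‖ζ - z₀‖ + ‖z₀‖ := by
      have := norm_add_le (ζ - z₀) z₀
      rwa [sub_add_cancel] at this
    rw [hnz₀] at h1
    rw [hRad] at hζ
    linarith
  -- the bound
  set a := K + R + 2 * Y + s ^ 2 * (2 / y) with ha
  have ha0 : 0 ≤ a := by positivity
  set M := 1 + (Fintype.card Q : ℝ) * (a * (2 / y)) with hM
  have hM0 : 0 < M := by positivity
  set M' := 1 + (Fintype.card Q : ℝ) * (2 / y * a) with hM'
  have hMM : M' = M := by rw [hM, hM', mul_comm a]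
  set N := (Fintype.card Q : ℝ) ^ 2 with hN
  have hN0 : 0 < N := by positivity
  obtain ⟨S, L, hL0, hSρ, hS⟩ := hCONT z₀ z 1 Rad one_pos hRad1 hzball (ε / (2 * N * M)) (by positivity)
  have hSb : ∀ ζ ∈ S, ζ ∈ Metric.ball z₀ Rad := by
    intro ζ hζ
    rw [Metric.mem_ball, dist_eq_norm, hSρ ζ hζ]
    exact hRad1
  have hSn : ∀ ζ ∈ S, 64 * (C + s + 1) ≤ ‖ζ‖ := by
    intro ζ hζ
    have h1 : ‖z₀‖ ≤ ‖ζ - z₀‖ + ‖ζ‖ := by
      have := norm_sub_le ζ (ζ - z₀)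
      rw [sub_sub_cancel] at this
      linarith
    rw [hnz₀, hSρ ζ hζ] at h1
    linarith
  set ε'' := ε / (2 * (L + 1) * (S.card + 1)) with hε''
  have hε''0 : 0 < ε'' := by positivity
  have hex : ∀ ζ : ℂ, ∃ (δ : ℝ) (n₀ : ℕ), 0 < δ ∧ (ζ ∈ S →
    ∀ (J : Type) [Fintype J] [DecidableEq J] (A : Matrix J J ℂ) (p : J) (ν : Measure ℝ)
      [IsProbabilityMeasure ν], ν (Set.Icc (-R) R)ᶜ = 0 → Adm s δ n₀ A →
      (∫ v, e1 (hL s κ A ν v ζ p) ∂(pm Q J ν) ≤ ε'') ∧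
        (∫ v, e1 (hR s κ A ν v ζ p) ∂(pm Q J ν) ≤ ε'')) := by
    intro ζ
    by_cases hζ : ζ ∈ S
    · obtain ⟨δ, n₀, h1, h2⟩ := hLZ Q κ s R C hs hR0 hCB hC0 ζ (hSn ζ hζ) ε'' hε''0
      exact ⟨δ, n₀, h1, fun _ => h2⟩
    · exact ⟨1, 0, one_pos, fun h => absurd h hζ⟩
  choose δ n₀ hδ hsm using hex
  obtain ⟨δ₁, hδ₁, hδle⟩ : ∃ δ₁ : ℝ, 0 < δ₁ ∧ ∀ ζ ∈ S, δ₁ ≤ δ ζ := by
    obtain hS0 | hS0 := S.eq_empty_or_nonempty
    · exact ⟨1, one_pos, by simp [hS0]⟩
    · obtain ⟨ζ, hζ, h1⟩ := S.exists_min_image δ hS0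
      exact ⟨δ ζ, hδ ζ, h1⟩
  refine ⟨δ₁, S.sup n₀, hδ₁, fun J _ _ A p ν _ hν hA => ?_⟩
  obtain ⟨-, -, hcont, hpos, hdiff, -⟩ := hGR Q J κ hκ A hA.1 p
  -- facts on the resolvent
  have hgrle : ∀ (v : Q × J → ℝ) (ζ : ℂ), y / 2 < ζ.im → ∀ x x', ‖gr κ A v ζ p x x'‖ ≤ 2 / y := by
    intro v ζ hζ x x'
    have h0 : 0 < ζ.im := by linarith
    refine norm_entry_le (by positivity) (opB_mono (hpos ζ h0 v).2.2 (by positivity) ?_) x x'
    rw [div_le_div_iff₀ h0 hz]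
    linarith
  have hmgle : ∀ (ζ : ℂ), y / 2 < ζ.im → ∀ x x', ‖mg κ A ν ζ p x x'‖ ≤ 2 / y := by
    intro ζ hζ x x'
    unfold mg
    have h1 := norm_integral_le_of_norm_le_const (μ := pm Q J ν)
      (f := fun v => gr κ A v ζ p x x') (C := 2 / y)
      (Filter.Eventually.of_forall fun v => hgrle v ζ hζ x x')
    simpa using h1
  have hgrmeas : ∀ (ζ : ℂ), y / 2 < ζ.im → ∀ x x', Measurable fun v => gr κ A v ζ p x x' := by
    intro ζ hζ x x'
    have h0 : 0 < ζ.im := by linarith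
    have h1 := hcont ζ h0.ne'
    exact ((continuous_apply x').comp ((continuous_apply x).comp h1)).measurable
  have hmgdiff : ∀ x x', DifferentiableOn ℂ (fun ζ => mg κ A ν ζ p x x') (Metric.ball z₀ Rad) := by
    intro x x'
    have h1 := hHOL (Q × J → ℝ) (pm Q J ν) (fun v ζ => gr κ A v ζ p x x') {ζ | y / 2 < ζ.im}
      (2 / y) (isOpen_lt continuous_const Complex.continuous_im)
      (fun ζ hζ => hgrmeas ζ hζ x x')
      (fun v => (hdiff v x x').mono fun ζ hζ => by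
        have : y / 2 < ζ.im := hζ
        change 0 < ζ.im
        linarith)
      (fun v ζ hζ => hgrle v ζ hζ x x')
    exact h1.mono fun ζ hζ => him ζ hζ
  have hgrdiff : ∀ v x x', DifferentiableOn ℂ (fun ζ => gr κ A v ζ p x x') (Metric.ball z₀ Rad) := by
    intro v x x'
    exact (hdiff v x x').mono fun ζ hζ => by
      have : y / 2 < ζ.im := him ζ hζ
      change 0 < ζ.im
      linarith
  -- the middle factor
  let X : (Q × J → ℝ) → ℂ → Matrix Q Q ℂ := fun v ζ =>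
    dd κ v p - ζ • (1 : Matrix Q Q ℂ) - ((s ^ 2 : ℝ) : ℂ) • mg κ A ν ζ p
  have hXapp : ∀ v ζ x x', X v ζ x x' =
      (κ (x - x') + (if x = x' then (v (x, p) : ℂ) else 0)) - ζ * (1 : Matrix Q Q ℂ) x x' -
        ((s ^ 2 : ℝ) : ℂ) * mg κ A ν ζ p x x' := by
    intro v ζ x x'
    simp only [X, Matrix.sub_apply, Matrix.smul_apply, smul_eq_mul, dd]
  have hXmeas : ∀ (ζ : ℂ) x x', Measurable fun v => X v ζ x x' := by
    intro ζ x x'
    simp only [hXapp]
    apply Measurable.sub _ measurable_const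
    apply Measurable.sub _ measurable_const
    apply measurable_const.add
    split_ifs
    · exact Complex.measurable_ofReal.comp (measurable_pi_apply _)
    · exact measurable_const
  have hXdiff : ∀ v x x', DifferentiableOn ℂ (fun ζ => X v ζ x x') (Metric.ball z₀ Rad) := by
    intro v x x'
    simp only [hXapp]
    apply DifferentiableOn.sub
    · apply DifferentiableOn.sub (differentiableOn_const _)
      exact differentiableOn_id.mul_const _
    · exact (hmgdiff x x').const_mul _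
  have hXle : ∀ v, (∀ q, |v q| ≤ R) → ∀ ζ ∈ Metric.ball z₀ Rad, ∀ x x', ‖X v ζ x x'‖ ≤ a := by
    intro v hv ζ hζ x x'
    rw [hXapp]
    refine (norm_sub_le _ _).trans (add_le_add ((norm_sub_le _ _).trans (add_le_add ?_ ?_)) ?_)
    · exact hddle x x' _ (hv _)
    · rw [norm_mul]
      calc ‖ζ‖ * ‖(1 : Matrix Q Q ℂ) x x'‖ ≤ ‖ζ‖ * 1 := by
            apply mul_le_mul_of_nonneg_left _ (norm_nonneg _)
            rw [Matrix.one_apply]
            split_ifs <;> simp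
        _ ≤ 2 * Y := by rw [mul_one]; exact hζn ζ hζ
    · rw [norm_mul, Complex.norm_real, Real.norm_eq_abs, abs_of_nonneg (sq_nonneg s)]
      exact mul_le_mul_of_nonneg_left (hmgle ζ (him ζ hζ) x x') (sq_nonneg s)
  have hfin : L * (S.card * ε'') + N * (M * (ε / (2 * N * M))) ≤ ε := by
    have h1 : N * (M * (ε / (2 * N * M))) = ε / 2 := by
      field_simp
    have h2 : L * (S.card * ε'') ≤ ε / 2 := by
      have h3 : (2 * (L + 1) * (S.card + 1)) * ε'' = ε := by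
        rw [hε'']
        field_simp
      have h4 : (0 : ℝ) ≤ S.card := Nat.cast_nonneg _
      have h5 : 0 ≤ ε'' * (L + S.card + 1) := by positivity
      nlinarith
    linarith
  have hae := ae_bound (Q := Q) (J := J) ν hν
  constructor
  · refine (transfer (pm Q J ν) (fun v ζ => 1 - X v ζ * gr κ A v ζ p) z₀ z Rad M L
      (ε / (2 * N * M)) ε'' S hM0 hL0 hS (by rw [Metric.mem_ball, dist_eq_norm]; exact hzball) hSb
      (fun ζ hζ x x' => meas_mul (hXmeas ζ) (hgrmeas ζ (him ζ hζ)) x x') ?_ ?_).trans hfin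
    · filter_upwards [hae] with v hv
      refine ⟨fun x x' => diff_mul (hXdiff v) (hgrdiff v) x x', fun ζ hζ x x' => ?_⟩
      exact entry_le ha0 (hXle v hv ζ hζ) (hgrle v ζ (him ζ hζ)) x x'
    · intro ζ hζ
      exact (hsm ζ hζ J A p ν hν (adm_mono hA (hδle ζ hζ) (Finset.le_sup hζ))).1
  · refine (transfer (pm Q J ν) (fun v ζ => 1 - gr κ A v ζ p * X v ζ) z₀ z Rad M L
      (ε / (2 * N * M)) ε'' S hM0 hL0 hS (by rw [Metric.mem_ball, dist_eq_norm]; exact hzball) hSb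
      (fun ζ hζ x x' => meas_mul (hgrmeas ζ (him ζ hζ)) (hXmeas ζ) x x') ?_ ?_).trans hfin
    · filter_upwards [hae] with v hv
      refine ⟨fun x x' => diff_mul (hgrdiff v) (hXdiff v) x x', fun ζ hζ x x' => ?_⟩
      rw [← hMM]
      exact entry_le (by positivity) (hgrle v ζ (him ζ hζ)) (hXle v hv ζ hζ) x x'
    · intro ζ hζ
      exact (hsm ζ hζ J A p ν hν (adm_mono hA (hδle ζ hζ) (Finset.le_sup hζ))).2

end Pool.Agent.Q156.GK
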