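import Pool.Agent.Q156.GK.Stm

/-! Project GK, job APPROX: real trigonometric polynomials are dense. -/

set_option autoImplicit false

namespace Pool.Agent.Q156.GK

open Pool.Agent.W792.GK MeasureTheory UnitAddTorus
open scoped ComplexConjugate

noncomputable section

theorem approx_trig_apply {ι : Type} [Fintype ι] (c : (ι → ℤ) →₀ ℂ) (k : UnitAddTorus ι) :
    trig c k = c.sum fun n a => a * mFourier n k := by
  unfold trig Finsupp.sum
  rw [ContinuousMap.sum_apply]
  rfl

theorem approx_trig_eq {ι : Type} [Fintype ι] (c : (ι → ℤ) →₀ ℂ) :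
    trig c = Finsupp.linearCombination ℂ (mFourier : (ι → ℤ) → C(UnitAddTorus ι, ℂ)) c := by
  rw [Finsupp.linearCombination_apply]
  rfl

/-- the coefficients of the conjugate -/
def cjc {ι : Type} (c : (ι → ℤ) →₀ ℂ) : (ι → ℤ) →₀ ℂ :=
  (c.mapRange conj (map_zero _)).equivMapDomain (Equiv.neg _)

theorem cjc_apply {ι : Type} (c : (ι → ℤ) →₀ ℂ) (n : ι → ℤ) : cjc c n = conj (c (-n)) := by
  unfold cjc
  rw [Finsupp.equivMapDomain_apply]
  rfl

theorem trig_cjc {ι : Type} [Fintype ι] (c : (ι → ℤ) →₀ ℂ) (k : UnitAddTorus ι) :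
    trig (cjc c) k = conj (trig c k) := by
  rw [approx_trig_apply, approx_trig_apply, map_finsuppSum]
  unfold cjc
  rw [Finsupp.equivMapDomain_eq_mapDomain, Finsupp.sum_mapDomain_index (by simp)
    (by intros; ring), Finsupp.sum_mapRange_index (by simp)]
  refine Finsupp.sum_congr fun n _ => ?_
  rw [map_mul, ← mFourier_neg]
  rfl

theorem main_APPROX : S_APPROX := by
  intro ι _ f ε hε
  let g : C(UnitAddTorus ι, ℂ) := ⟨fun k => (f k : ℂ), Complex.continuous_ofReal.comp f.continuous⟩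
  have hg : g ∈ (Submodule.span ℂ (Set.range
      (mFourier : (ι → ℤ) → C(UnitAddTorus ι, ℂ)))).topologicalClosure := by
    rw [span_mFourier_closure_eq_top]
    trivial
  rw [← SetLike.mem_coe, Submodule.topologicalClosure_coe, Metric.mem_closure_iff] at hg
  obtain ⟨p, hp, hpg⟩ := hg ε hε
  rw [SetLike.mem_coe, Finsupp.mem_span_range_iff_exists_finsupp] at hp
  obtain ⟨c, hc⟩ := hp
  have hpc : p = trig c := by rw [← hc]; rfl
  refine ⟨(1 / 2 : ℂ) • (c + cjc c), ⟨fun k => (p k).re, Complex.continuous_re.comp p.continuous⟩,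
    fun n => ?_, fun k => ?_, ?_⟩
  · rw [Finsupp.smul_apply, Finsupp.smul_apply, Finsupp.add_apply, Finsupp.add_apply, cjc_apply,
      cjc_apply, neg_neg]
    change (1 / 2 : ℂ) * (c (-n) + conj (c n)) = conj ((1 / 2 : ℂ) * (c n + conj (c (-n))))
    rw [map_mul, map_add, Complex.conj_conj]
    have : conj (1 / 2 : ℂ) = 1 / 2 := by
      rw [show (1 / 2 : ℂ) = ((1 / 2 : ℝ) : ℂ) by norm_num, Complex.conj_ofReal]
    rw [this]
    ring
  · rw [approx_trig_eq, map_smul, map_add, ← approx_trig_eq, ← approx_trig_eq]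
    change (((p k).re : ℝ) : ℂ) = (1 / 2 : ℂ) * (trig c k + trig (cjc c) k)
    rw [trig_cjc, ← hpc, Complex.add_conj]
    push_cast
    ring
  · rw [ContinuousMap.norm_le _ hε.le]
    intro k
    have h1 : (g - p) k = ((f k : ℂ)) - p k := rfl
    have h2 : ‖(g - p) k‖ ≤ ‖g - p‖ := ContinuousMap.norm_coe_le_norm _ k
    have h3 : ‖g - p‖ < ε := by rwa [← dist_eq_norm]
    rw [h1] at h2
    change |(p k).re - f k| ≤ ε
    have h4 : (p k).re - f k = -((f k : ℂ) - p k).re := by
      rw [Complex.sub_re, Complex.ofReal_re]; ring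
    rw [h4, abs_neg]
    exact (Complex.abs_re_le_norm _).trans (h2.trans h3.le)

end

end Pool.Agent.Q156.GK
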