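import Pool.Agent.Q156.GK.Stm

/-!
Project GK (helper156), job CIRC1 (helper190): circulant matrices are hermitian and bounded by the
supremum of the symbol.
-/

set_option autoImplicit false
set_option linter.unusedSectionVars false

namespace Pool.Agent.Q156.GK

namespace CIRC1aux

open Pool.Agent.W792.GK UnitAddTorus Matrix

variable {ι : Type} [Fintype ι] [DecidableEq ι] {ℓ : ℕ} [NeZero ℓ]

/-- the characters -/
noncomputable def W (ι : Type) [Fintype ι] (ℓ : ℕ) [NeZero ℓ] : Matrix (ι → ZMod ℓ) (ι → ZMod ℓ) ℂ :=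
  fun m x => ∏ i, ZMod.stdAddChar (N := ℓ) (m i * x i)

/-- the points of the torus -/
noncomputable def pt (m : ι → ZMod ℓ) : UnitAddTorus ι := fun i => (((m i).val / ℓ : ℝ) : UnitAddCircle)

theorem W_int (m : ι → ZMod ℓ) (n : ι → ℤ) :
    W ι ℓ m (fun i => ((n i : ℤ) : ZMod ℓ)) = mFourier n (pt m) := by
  show ∏ i, ZMod.stdAddChar (N := ℓ) (m i * ((n i : ℤ) : ZMod ℓ)) = ∏ i, fourier (n i) (pt m i)
  refine Finset.prod_congr rfl fun i _ => ?_
  have h1 : m i * ((n i : ℤ) : ZMod ℓ) = ((((m i).val : ℤ) * n i : ℤ) : ZMod ℓ) := by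
    push_cast
    rw [ZMod.natCast_val, ZMod.cast_id]
  rw [h1, ZMod.stdAddChar_coe]
  show _ = fourier (n i) ((((m i).val / ℓ : ℝ)) : UnitAddCircle)
  rw [fourier_coe_apply]
  congr 1
  push_cast
  ring

theorem conj_std (a : ZMod ℓ) :
    (starRingEnd ℂ) (ZMod.stdAddChar (N := ℓ) a) = ZMod.stdAddChar (N := ℓ) (-a) := by
  rw [ZMod.stdAddChar_apply, ZMod.stdAddChar_apply, AddChar.map_neg_eq_inv, Circle.coe_inv_eq_conj]

theorem W_orth : (W ι ℓ)ᴴ * W ι ℓ = ((ℓ : ℂ) ^ Fintype.card ι) • (1 : Matrix (ι → ZMod ℓ) (ι → ZMod ℓ) ℂ) := by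
  ext x y
  rw [Matrix.mul_apply, Matrix.smul_apply, Matrix.one_apply, smul_eq_mul]
  have h2 : ∀ m : ι → ZMod ℓ, (W ι ℓ)ᴴ x m * W ι ℓ m y =
      ∏ i, ZMod.stdAddChar (N := ℓ) (m i * (y i - x i)) := by
    intro m
    rw [Matrix.conjTranspose_apply]
    show (starRingEnd ℂ) (∏ i, ZMod.stdAddChar (N := ℓ) (m i * x i)) *
      ∏ i, ZMod.stdAddChar (N := ℓ) (m i * y i) = _
    rw [map_prod, ← Finset.prod_mul_distrib]
    refine Finset.prod_congr rfl fun i _ => ?_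
    rw [conj_std, ← AddChar.map_add_eq_mul]
    congr 1
    ring
  rw [Finset.sum_congr rfl fun m _ => h2 m]
  have h3 := Finset.prod_univ_sum (fun _ : ι => (Finset.univ : Finset (ZMod ℓ)))
    (fun i m => ZMod.stdAddChar (N := ℓ) (m * (y i - x i)))
  rw [Fintype.piFinset_univ] at h3
  rw [← h3, Finset.prod_congr rfl fun i _ => AddChar.sum_mulShift (y i - x i) (ZMod.isPrimitive_stdAddChar ℓ)]
  split_ifs with hxy
  · subst hxy
    simp [ZMod.card]
  · obtain ⟨i, hi⟩ := Function.ne_iff.1 hxy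
    rw [mul_zero]
    refine Finset.prod_eq_zero (Finset.mem_univ i) ?_
    rw [if_neg]
    · simp
    · intro h
      exact hi (sub_eq_zero.1 h).symm

theorem sq_sum {n : Type} [Fintype n] (v : n → ℂ) : star v ⬝ᵥ v = ((∑ i, ‖v i‖ ^ 2 : ℝ) : ℂ) := by
  rw [dotProduct, Complex.ofReal_sum]
  refine Finset.sum_congr rfl fun i _ => ?_
  show (starRingEnd ℂ) (v i) * v i = _
  rw [Complex.conj_mul']
  push_cast
  rfl

theorem W_norm (v : (ι → ZMod ℓ) → ℂ) : ∑ m, ‖(W ι ℓ *ᵥ v) m‖ ^ 2 =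
    (ℓ : ℝ) ^ Fintype.card ι * ∑ x, ‖v x‖ ^ 2 := by
  have h1 : star (W ι ℓ *ᵥ v) ⬝ᵥ (W ι ℓ *ᵥ v) = (ℓ : ℂ) ^ Fintype.card ι * (star v ⬝ᵥ v) := by
    rw [Matrix.star_mulVec, ← Matrix.dotProduct_mulVec, Matrix.mulVec_mulVec, W_orth, Matrix.smul_mulVec,
      Matrix.one_mulVec, dotProduct_smul, smul_eq_mul]
  rw [sq_sum, sq_sum] at h1
  exact_mod_cast h1

theorem W_circ (h : (ι → ℤ) →₀ ℂ) (f : C(UnitAddTorus ι, ℝ)) (hf : ∀ k, (f k : ℂ) = trig h k) :
    W ι ℓ * circ ℓ h = Matrix.diagonal (fun m => ((f (pt m) : ℝ) : ℂ)) * W ι ℓ := by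
  ext m y
  rw [Matrix.mul_apply, Matrix.diagonal_mul, hf]
  have hadd : ∀ z : ι → ZMod ℓ, W ι ℓ m (z + y) = W ι ℓ m z * W ι ℓ m y := by
    intro z
    show ∏ i, ZMod.stdAddChar (N := ℓ) (m i * (z i + y i)) =
      (∏ i, ZMod.stdAddChar (N := ℓ) (m i * z i)) * ∏ i, ZMod.stdAddChar (N := ℓ) (m i * y i)
    rw [← Finset.prod_mul_distrib]
    refine Finset.prod_congr rfl fun i _ => ?_
    rw [mul_add, AddChar.map_add_eq_mul]
  have h1 : ∑ x, W ι ℓ m x * circ ℓ h x y = ∑ z, W ι ℓ m (z + y) *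
      (h.mapDomain (fun n i => ((n i : ℤ) : ZMod ℓ))) z := by
    rw [← Equiv.sum_comp (Equiv.addRight y)]
    refine Finset.sum_congr rfl fun z _ => ?_
    show W ι ℓ m (z + y) * (h.mapDomain (fun n i => ((n i : ℤ) : ZMod ℓ))) (z + y - y) = _
    rw [add_sub_cancel_right]
  rw [h1]
  have h2 : ∑ z, W ι ℓ m (z + y) * (h.mapDomain (fun n i => ((n i : ℤ) : ZMod ℓ))) z =
      (∑ z, W ι ℓ m z * (h.mapDomain (fun n i => ((n i : ℤ) : ZMod ℓ))) z) * W ι ℓ m y := by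
    rw [Finset.sum_mul]
    refine Finset.sum_congr rfl fun z _ => ?_
    rw [hadd]
    ring
  rw [h2]
  congr 1
  have h3 : ∑ z, W ι ℓ m z * (h.mapDomain (fun n i => ((n i : ℤ) : ZMod ℓ))) z =
      (h.mapDomain (fun n i => ((n i : ℤ) : ZMod ℓ))).sum fun z c => W ι ℓ m z * c := by
    rw [Finsupp.sum_fintype _ _ (fun z => mul_zero _)]
  rw [h3, Finsupp.sum_mapDomain_index (h := fun z c => W ι ℓ m z * c) (fun z => mul_zero _)
    (fun z b c => mul_add _ _ _)]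
  unfold trig Finsupp.sum
  rw [ContinuousMap.sum_apply]
  refine Finset.sum_congr rfl fun n _ => ?_
  show W ι ℓ m (fun i => ((n i : ℤ) : ZMod ℓ)) * h n = h n * mFourier n (pt m)
  rw [W_int, mul_comm]

theorem circ_herm (h : (ι → ℤ) →₀ ℂ) (hh : ∀ n, h (-n) = (starRingEnd ℂ) (h n)) :
    (circ ℓ h).IsHermitian := by
  classical
  have key : ∀ γ : ι → ZMod ℓ, (starRingEnd ℂ) ((h.mapDomain (fun n i => ((n i : ℤ) : ZMod ℓ))) γ) =
      (h.mapDomain (fun n i => ((n i : ℤ) : ZMod ℓ))) (-γ) := by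
    intro γ
    have hval : ∀ γ : ι → ZMod ℓ, (h.mapDomain (fun n i => ((n i : ℤ) : ZMod ℓ))) γ =
        ∑ n ∈ h.support, if (fun i => ((n i : ℤ) : ZMod ℓ)) = γ then h n else 0 := by
      intro γ
      unfold Finsupp.mapDomain Finsupp.sum
      rw [Finsupp.finsetSum_apply]
      refine Finset.sum_congr rfl fun n _ => ?_
      rw [Finsupp.single_apply]
    rw [hval, hval, map_sum]
    refine Finset.sum_bij' (fun n _ => -n) (fun n _ => -n) ?_ ?_ ?_ ?_ ?_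
    · intro n hn
      rw [Finsupp.mem_support_iff] at hn ⊢
      rw [hh]
      simpa using hn
    · intro n hn
      rw [Finsupp.mem_support_iff] at hn ⊢
      rw [hh]
      simpa using hn
    · intro n _
      exact neg_neg n
    · intro n _
      exact neg_neg n
    · intro n _
      have h1 : ((fun i => (((-n) i : ℤ) : ZMod ℓ)) = -γ) ↔ ((fun i => ((n i : ℤ) : ZMod ℓ)) = γ) := by
        constructor
        · intro h2
          funext i
          have h3 := congrFun h2 i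
          simp only [Pi.neg_apply, Int.cast_neg, neg_inj] at h3
          exact h3
        · intro h2
          funext i
          have h3 := congrFun h2 i
          simp only [Pi.neg_apply, Int.cast_neg, neg_inj]
          exact h3
      by_cases h2 : (fun i => ((n i : ℤ) : ZMod ℓ)) = γ
      · rw [if_pos h2, if_pos (h1.2 h2), hh]
      · rw [if_neg h2, if_neg (fun h3 => h2 (h1.1 h3)), map_zero]
  ext i j
  rw [Matrix.conjTranspose_apply]
  show (starRingEnd ℂ) ((h.mapDomain (fun n i => ((n i : ℤ) : ZMod ℓ))) (j - i)) =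
    (h.mapDomain (fun n i => ((n i : ℤ) : ZMod ℓ))) (i - j)
  rw [key, neg_sub]

end CIRC1aux

open Pool.Agent.W792.GK CIRC1aux Matrix

/-- JOB CIRC1 -/
theorem main_CIRC1 : S_CIRC1 := by
  intro ι _ _ h f hh hf ℓ _
  refine ⟨circ_herm h hh, ?_⟩
  intro u
  have hℓ : (0 : ℝ) < (ℓ : ℝ) ^ Fintype.card ι := by
    have : (0 : ℝ) < ℓ := Nat.cast_pos.2 (Nat.pos_of_ne_zero (NeZero.ne ℓ))
    positivity
  have h1 := W_norm (ι := ι) (ℓ := ℓ) (circ ℓ h *ᵥ u)
  rw [Matrix.mulVec_mulVec, W_circ h f hf, ← Matrix.mulVec_mulVec] at h1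
  have h2 : ∑ m, ‖(Matrix.diagonal (fun m => ((f (pt m) : ℝ) : ℂ)) *ᵥ (W ι ℓ *ᵥ u)) m‖ ^ 2 ≤
      ‖f‖ ^ 2 * ∑ m, ‖(W ι ℓ *ᵥ u) m‖ ^ 2 := by
    rw [Finset.mul_sum]
    refine Finset.sum_le_sum fun m _ => ?_
    rw [Matrix.mulVec_diagonal, norm_mul, mul_pow]
    refine mul_le_mul_of_nonneg_right ?_ (sq_nonneg _)
    refine pow_le_pow_left₀ (norm_nonneg _) ?_ 2
    rw [Complex.norm_real]
    exact f.norm_coe_le_norm (pt m)
  rw [h1, W_norm] at h2
  have h3 : (ℓ : ℝ) ^ Fintype.card ι * ∑ x, ‖(circ ℓ h *ᵥ u) x‖ ^ 2 ≤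
      (ℓ : ℝ) ^ Fintype.card ι * (‖f‖ ^ 2 * ∑ x, ‖u x‖ ^ 2) := by
    refine h2.trans (le_of_eq ?_)
    ring
  exact le_of_mul_le_mul_left h3 hℓ

end Pool.Agent.Q156.GK
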