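import Pool.Agent.Q156.GK.Stm
import Pool.Agent.W52.GKCoef

/-!
# Project GK (helper156), job CIRC2: Chebyshev entries of circulant matrices (helper142)
-/

set_option autoImplicit false

namespace Pool.Agent.Q156.GK

open Pool.Agent.W792.GK UnitAddTorus MeasureTheory

noncomputable section

namespace CIRC2

variable {ι : Type}

/-- Convolution. -/
def conv (h g : (ι → ℤ) →₀ ℂ) : (ι → ℤ) →₀ ℂ :=
  h.sum fun y c => c • g.mapDomain (fun x => y + x)

/-- Chebyshev polynomials in the convolution algebra. -/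
def HH (c : ℝ) (h : (ι → ℤ) →₀ ℂ) : ℕ → ((ι → ℤ) →₀ ℂ)
  | 0 => Finsupp.single 0 1
  | 1 => h
  | (n + 2) => conv h (HH c h (n + 1)) - (c : ℂ) • HH c h n

/-- `trig` as a linear map. -/
def trL [Fintype ι] : ((ι → ℤ) →₀ ℂ) →ₗ[ℂ] C(UnitAddTorus ι, ℂ) :=
  Finsupp.linearCombination ℂ (fun n : ι → ℤ => (mFourier n : C(UnitAddTorus ι, ℂ)))

theorem trig_eq [Fintype ι] (h : (ι → ℤ) →₀ ℂ) : trig h = trL h := rfl

theorem trig_shift [Fintype ι] (g : (ι → ℤ) →₀ ℂ) (y : ι → ℤ) :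
    trL (g.mapDomain fun x => y + x) = mFourier y * trL g := by
  unfold trL
  rw [Finsupp.linearCombination_mapDomain, Finsupp.linearCombination_apply,
    Finsupp.linearCombination_apply, Finsupp.mul_sum]
  refine Finsupp.sum_congr fun x _ => ?_
  ext t
  simp only [Function.comp_apply, ContinuousMap.smul_apply, ContinuousMap.mul_apply, smul_eq_mul]
  rw [mFourier_add]
  ring

theorem trig_conv [Fintype ι] (h g : (ι → ℤ) →₀ ℂ) : trL (conv h g) = trL h * trL g := by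
  unfold conv
  rw [map_finsuppSum]
  have h1 : trL h = h.sum fun y c => c • (mFourier y : C(UnitAddTorus ι, ℂ)) := rfl
  rw [h1, Finsupp.sum_mul]
  refine Finsupp.sum_congr fun y _ => ?_
  rw [map_smul, trig_shift, smul_mul_assoc]

/-- Reduction. -/
def red (ℓ : ℕ) (n : ι → ℤ) (i : ι) : ZMod ℓ := ((n i : ℤ) : ZMod ℓ)

theorem red_add (ℓ : ℕ) (n m : ι → ℤ) : red ℓ (n + m) = red ℓ n + red ℓ m := by
  funext i
  simp [red]

theorem circ_eq (ℓ : ℕ) (h : (ι → ℤ) →₀ ℂ) (i j : ι → ZMod ℓ) :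
    circ ℓ h i j = (h.mapDomain (red ℓ)) (i - j) := rfl

theorem circ_conv [Fintype ι] [DecidableEq ι] (ℓ : ℕ) [NeZero ℓ] (h g : (ι → ℤ) →₀ ℂ) :
    circ ℓ (conv h g) = circ ℓ h * circ ℓ g := by
  ext i j
  rw [Matrix.mul_apply]
  simp only [circ_eq]
  have e1 : ∀ y : ι → ℤ, ∀ m : ι → ZMod ℓ,
      (Finsupp.mapDomain (red ℓ) (g.mapDomain fun x => y + x)) m
      = (g.mapDomain (red ℓ)) (m - red ℓ y) := by
    intro y m
    rw [← Finsupp.mapDomain_comp]
    have e2 : (red ℓ) ∘ (fun x => y + x) = (fun w => red ℓ y + w) ∘ (red ℓ) := by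
      funext x
      exact red_add ℓ y x
    rw [e2, Finsupp.mapDomain_comp]
    have e3 : m = red ℓ y + (m - red ℓ y) := by abel
    conv_lhs => rw [e3]
    exact Finsupp.mapDomain_apply (add_right_injective (red ℓ y)) _ _
  have e4 : (Finsupp.mapDomain (red ℓ) (conv h g)) (i - j)
      = h.sum fun y c => c * (g.mapDomain (red ℓ)) (i - j - red ℓ y) := by
    unfold conv
    rw [Finsupp.mapDomain_sum, Finsupp.sum_apply]
    refine Finsupp.sum_congr fun y _ => ?_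
    rw [Finsupp.mapDomain_smul, Finsupp.smul_apply, e1, smul_eq_mul]
  have e5 : (h.mapDomain (red ℓ)).sum (fun m c => c * (g.mapDomain (red ℓ)) (i - j - m))
      = h.sum fun y c => c * (g.mapDomain (red ℓ)) (i - j - red ℓ y) :=
    Finsupp.sum_mapDomain_index (by simp) (by intros; ring)
  rw [e4, ← e5, Finsupp.sum_fintype _ _ (by simp)]
  refine Fintype.sum_equiv (Equiv.subLeft i) _ _ fun m => ?_
  rw [Equiv.subLeft_apply]
  have e6 : i - (i - m) = m := by abel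
  have e7 : i - m - j = i - j - m := by abel
  rw [e6, e7]

theorem circ_sub (ℓ : ℕ) (h g : (ι → ℤ) →₀ ℂ) : circ ℓ (h - g) = circ ℓ h - circ ℓ g := by
  ext i j
  rw [Matrix.sub_apply]
  simp only [circ_eq]
  have : (h - g).mapDomain (red ℓ) = h.mapDomain (red ℓ) - g.mapDomain (red ℓ) :=
    map_sub (Finsupp.lmapDomain ℂ ℂ (red ℓ)) h g
  rw [this, Finsupp.sub_apply]

theorem circ_smul (ℓ : ℕ) (c : ℝ) (h : (ι → ℤ) →₀ ℂ) :
    circ ℓ ((c : ℂ) • h) = c • circ ℓ h := by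
  ext i j
  rw [Matrix.smul_apply]
  simp only [circ_eq]
  rw [Finsupp.mapDomain_smul, Finsupp.smul_apply, smul_eq_mul, Complex.real_smul]

theorem circ_zero [Fintype ι] [DecidableEq ι] (ℓ : ℕ) [NeZero ℓ] :
    circ ℓ (Finsupp.single (0 : ι → ℤ) (1 : ℂ)) = 1 := by
  ext i j
  rw [circ_eq, Finsupp.mapDomain_single, Matrix.one_apply]
  have e : red ℓ (0 : ι → ℤ) = 0 := by
    funext i
    simp [red]
  rw [e, Finsupp.single_apply]
  by_cases hij : i = j
  · rw [if_pos hij, if_pos (sub_eq_zero.2 hij).symm]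
  · rw [if_neg hij, if_neg fun h => hij (sub_eq_zero.1 h.symm)]

theorem ch_circ [Fintype ι] [DecidableEq ι] (ℓ : ℕ) [NeZero ℓ] (c : ℝ) (h : (ι → ℤ) →₀ ℂ)
    (n : ℕ) : ch c (circ ℓ h) n = circ ℓ (HH c h n) ∧
      ch c (circ ℓ h) (n + 1) = circ ℓ (HH c h (n + 1)) := by
  induction n with
  | zero => exact ⟨circ_zero ℓ |>.symm, rfl⟩
  | succ n ih =>
    refine ⟨ih.2, ?_⟩
    show circ ℓ h * ch c (circ ℓ h) (n + 1) - c • ch c (circ ℓ h) n =
      circ ℓ (conv h (HH c h (n + 1)) - (c : ℂ) • HH c h n)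
    rw [ih.1, ih.2, circ_sub, circ_smul, circ_conv]

theorem ch_trig [Fintype ι] (c : ℝ) (h : (ι → ℤ) →₀ ℂ) (f : C(UnitAddTorus ι, ℝ))
    (hf : ∀ k, (f k : ℂ) = trig h k) (k : UnitAddTorus ι) (n : ℕ) :
    ((ch c (f k) n : ℝ) : ℂ) = trL (HH c h n) k ∧
      ((ch c (f k) (n + 1) : ℝ) : ℂ) = trL (HH c h (n + 1)) k := by
  induction n with
  | zero =>
    refine ⟨?_, hf k⟩
    show ((1 : ℝ) : ℂ) = trL (Finsupp.single 0 1) k
    unfold trL
    rw [Finsupp.linearCombination_single, one_smul, mFourier_zero]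
    simp
  | succ n ih =>
    refine ⟨ih.2, ?_⟩
    show ((f k * ch c (f k) (n + 1) - c * ch c (f k) n : ℝ) : ℂ) =
      trL (conv h (HH c h (n + 1)) - (c : ℂ) • HH c h n) k
    rw [map_sub, map_smul, trig_conv, ContinuousMap.sub_apply, ContinuousMap.mul_apply,
      ContinuousMap.smul_apply, smul_eq_mul, ← ih.1, ← ih.2, ← trig_eq, ← hf k]
    push_cast
    ring

theorem continuous_ch [Fintype ι] (c : ℝ) (f : C(UnitAddTorus ι, ℝ)) (n : ℕ) :
    (Continuous fun k => ch c (f k) n) ∧ (Continuous fun k => ch c (f k) (n + 1)) := by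
  induction n with
  | zero => exact ⟨continuous_const, f.continuous⟩
  | succ n ih => exact ⟨ih.2, (f.continuous.mul ih.2).sub (ih.1.const_smul c)⟩

theorem red_inj (ℓ B : ℕ) (hB : 2 * B < ℓ) (γ γ' : ι → ℤ) (h : ∀ t, (γ t).natAbs ≤ B)
    (h' : ∀ t, (γ' t).natAbs ≤ B) (e : red ℓ γ = red ℓ γ') : γ = γ' := by
  funext t
  have h1 : ((γ t : ℤ) : ZMod ℓ) = γ' t := congrFun e t
  rw [ZMod.intCast_eq_intCast_iff_dvd_sub] at h1
  have h2 := h t
  have h3 := h' t
  have h4 : γ' t - γ t = 0 := by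
    refine Int.eq_zero_of_abs_lt_dvd h1 ?_
    rw [abs_lt]
    constructor <;> omega
  omega

end CIRC2

open CIRC2 in
theorem main_CIRC2 : S_CIRC2 := by
  intro ι _ _ h f hf c n₀
  obtain ⟨B, hB⟩ : ∃ B : ℕ, ∀ n ≤ n₀, ∀ γ ∈ (HH c h n).support, ∀ t, (γ t).natAbs ≤ B := by
    refine ⟨((Finset.range (n₀ + 1)).biUnion fun n => (HH c h n).support).sup
      fun γ => Finset.univ.sup fun t => (γ t).natAbs, ?_⟩
    intro n hn γ hγ t
    have h1 : γ ∈ (Finset.range (n₀ + 1)).biUnion fun n => (HH c h n).support :=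
      Finset.mem_biUnion.2 ⟨n, Finset.mem_range.2 (by omega), hγ⟩
    exact (Finset.le_sup (f := fun t => (γ t).natAbs) (Finset.mem_univ t)).trans
      (Finset.le_sup (f := fun γ : ι → ℤ => Finset.univ.sup fun t => (γ t).natAbs) h1)
  refine ⟨2 * B + 1, ?_⟩
  intro ℓ _ hℓ n hn i j
  have hco : ∀ γ, mFourierCoeff (fun k => ((ch c (f k) n : ℝ) : ℂ)) γ = HH c h n γ :=
    Pool.Agent.W52.GKCoef.main ι (HH c h n) ⟨fun k => ch c (f k) n, (continuous_ch c f n).1⟩
      (fun k => (ch_trig c h f hf k n).1)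
  rw [(ch_circ ℓ c h n).1, circ_eq]
  by_cases hγ : ∃ γ ∈ (HH c h n).support, red ℓ γ = i - j
  · obtain ⟨γ, h1, h2⟩ := hγ
    refine ⟨γ, ?_⟩
    rw [hco, ← h2]
    refine le_of_eq (congrArg _ ?_)
    exact Finsupp.mapDomain_apply' _ (HH c h n) (Set.Subset.refl _)
      (fun a ha b hb hab => red_inj ℓ B (by omega) a b (hB n hn a ha) (hB n hn b hb) hab) h1
  · refine ⟨0, ?_⟩
    have h0 : (Finsupp.mapDomain (red ℓ) (HH c h n)) (i - j) = 0 := by
      by_contra hne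
      have h1 := Finsupp.mapDomain_support (Finsupp.mem_support_iff.2 hne)
      obtain ⟨γ, h2, h3⟩ := Finset.mem_image.1 h1
      exact hγ ⟨γ, h2, h3⟩
    rw [h0, norm_zero]
    exact norm_nonneg _

end

end Pool.Agent.Q156.GK
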