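import Pool.Agent.Q156.GK.Stm

/-!
# Project GK, job CONT: propagation of smallness from finitely many points
-/

set_option autoImplicit false

namespace Pool.Agent.Q156.GK.CONTaux

open Finset

/-- Averages of powers of a root of unity. -/
lemma avg_root {M : ℕ} (hM : 0 < M) (m : ℕ) :
    (∑ l ∈ range M, (Complex.exp (2 * Real.pi * Complex.I / M) ^ l) ^ m) =
      if M ∣ m then (M : ℂ) else 0 := by
  have hp := Complex.isPrimitiveRoot_exp M hM.ne'
  set ω := Complex.exp (2 * Real.pi * Complex.I / M) with hω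
  have e : ∀ l ∈ range M, (ω ^ l) ^ m = (ω ^ m) ^ l := fun l _ => by
    rw [← pow_mul, ← pow_mul, mul_comm]
  rw [sum_congr rfl e]
  split_ifs with h
  · rw [(hp.pow_eq_one_iff_dvd m).2 h]
    simp
  · have h1 : ω ^ m ≠ 1 := fun h2 => h ((hp.pow_eq_one_iff_dvd m).1 h2)
    rw [geom_sum_eq h1, ← pow_mul, mul_comm, pow_mul, hp.pow_eq_one, one_pow, sub_self, zero_div]

/-- The `n`-th coefficient of a power series is almost the average over the `M`-th roots of unity. -/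
lemma coeff_avg {a : ℕ → ℂ} {q : ℝ} (hq0 : 0 < q) (hq1 : q < 1) {ρ : ℝ} (hρ : 0 < ρ)
    (ha : ∀ j, ‖a j‖ * ρ ^ j ≤ (q ^ 2) ^ j) {M n : ℕ} (hn : n < M) (F : ℂ → ℂ)
    (hF : ∀ y : ℂ, ‖y‖ = ρ → HasSum (fun j => y ^ j * a j) (F y)) :
    ‖a n‖ * ρ ^ n ≤ (∑ l ∈ range M,
      ‖F (ρ * Complex.exp (2 * Real.pi * Complex.I / M) ^ l)‖) / M + q ^ M * (1 - q)⁻¹ := by
  have hM : 0 < M := by omega
  have hMc : (M : ℂ) ≠ 0 := by exact_mod_cast hM.ne'
  have hp := Complex.isPrimitiveRoot_exp M hM.ne'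
  set ω := Complex.exp (2 * Real.pi * Complex.I / M) with hω
  have hω1 : ‖ω‖ = 1 := hp.norm'_eq_one hM.ne'
  have hy : ∀ l : ℕ, ‖(ρ : ℂ) * ω ^ l‖ = ρ := by
    intro l
    rw [norm_mul, norm_pow, hω1, one_pow, mul_one, Complex.norm_real, Real.norm_of_nonneg hρ.le]
  -- the sum over the roots of unity
  have h1 : HasSum (fun j => ∑ l ∈ range M, (ω ^ l) ^ (M - n) *
      (((ρ : ℂ) * ω ^ l) ^ j * a j)) (∑ l ∈ range M, (ω ^ l) ^ (M - n) * F (ρ * ω ^ l)) :=
    hasSum_sum fun l _ => (hF _ (hy l)).mul_left _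
  have h2 : ∀ j, ∑ l ∈ range M, (ω ^ l) ^ (M - n) * (((ρ : ℂ) * ω ^ l) ^ j * a j) =
      (if M ∣ (M - n) + j then (M : ℂ) else 0) * ((ρ : ℂ) ^ j * a j) := by
    intro j
    rw [← avg_root hM, sum_mul]
    refine sum_congr rfl fun l _ => ?_
    rw [mul_pow, pow_add]
    ring
  simp only [h2] at h1
  set A : ℂ := ∑ l ∈ range M, (ω ^ l) ^ (M - n) * F (ρ * ω ^ l) with hA
  have hAn : ‖A‖ ≤ ∑ l ∈ range M, ‖F (ρ * ω ^ l)‖ := by
    refine (norm_sum_le _ _).trans (sum_le_sum fun l _ => ?_)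
    rw [norm_mul, norm_pow, norm_pow, hω1, one_pow, one_pow, one_mul]
  -- subtract the main term
  have h3 : HasSum (fun j => (if j = n then (M : ℂ) * ((ρ : ℂ) ^ n * a n) else 0))
      ((M : ℂ) * ((ρ : ℂ) ^ n * a n)) := hasSum_ite_eq n _
  have h4 := h1.sub h3
  have h5 : ∀ j, ‖(if M ∣ (M - n) + j then (M : ℂ) else 0) * ((ρ : ℂ) ^ j * a j) -
      (if j = n then (M : ℂ) * ((ρ : ℂ) ^ n * a n) else 0)‖ ≤ M * (q ^ M * q ^ j) := by
    intro j
    by_cases hj : j = n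
    · subst hj
      rw [if_pos rfl, if_pos (by rw [Nat.sub_add_cancel hn.le]), sub_self, norm_zero]
      positivity
    · rw [if_neg hj, sub_zero]
      split_ifs with hd
      · have hMj : M ≤ j := by
          obtain ⟨c, hc⟩ := hd
          rcases Nat.lt_or_ge c 2 with hc2 | hc2
          · interval_cases c
            · omega
            · omega
          · have : M * 2 ≤ M * c := Nat.mul_le_mul_left M hc2
            omega
        rw [norm_mul, norm_mul, norm_pow, Complex.norm_real, Real.norm_of_nonneg hρ.le,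
          Complex.norm_natCast, mul_comm (ρ ^ j)]
        refine mul_le_mul_of_nonneg_left ((ha j).trans ?_) (Nat.cast_nonneg M)
        rw [← pow_mul, two_mul, pow_add]
        exact mul_le_mul_of_nonneg_right (pow_le_pow_of_le_one hq0.le hq1.le hMj) (by positivity)
      · rw [zero_mul, norm_zero]
        positivity
  have h6 : HasSum (fun j : ℕ => (M : ℝ) * (q ^ M * q ^ j)) (M * (q ^ M * (1 - q)⁻¹)) :=
    ((hasSum_geometric_of_lt_one hq0.le hq1).mul_left _).mul_left _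
  have h7 : ‖A - (M : ℂ) * ((ρ : ℂ) ^ n * a n)‖ ≤ M * (q ^ M * (1 - q)⁻¹) := by
    rw [← h4.tsum_eq, ← h6.tsum_eq]
    exact tsum_of_norm_bounded h6 h5 |>.trans (le_of_eq h6.tsum_eq.symm)
  have h8 : (M : ℝ) * (‖a n‖ * ρ ^ n) = ‖(M : ℂ) * ((ρ : ℂ) ^ n * a n)‖ := by
    rw [norm_mul, norm_mul, norm_pow, Complex.norm_real, Real.norm_of_nonneg hρ.le,
      Complex.norm_natCast]
    ring
  have hM' : (0 : ℝ) < M := by exact_mod_cast hM
  have h9 : (M : ℝ) * (‖a n‖ * ρ ^ n) ≤ (∑ l ∈ range M, ‖F (ρ * ω ^ l)‖) +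
      M * (q ^ M * (1 - q)⁻¹) := by
    rw [h8]
    have h10 : ‖(M : ℂ) * ((ρ : ℂ) ^ n * a n)‖ ≤ ‖A‖ + ‖A - (M : ℂ) * ((ρ : ℂ) ^ n * a n)‖ := by
      have := norm_sub_le A (A - (M : ℂ) * ((ρ : ℂ) ^ n * a n))
      rwa [sub_sub_cancel] at this
    linarith
  rw [div_add' _ _ _ hM'.ne', le_div_iff₀ hM']
  linarith

/-- The Taylor series. -/
lemma taylor (z₀ : ℂ) {r Rad : ℝ} (h0 : 0 < r) (h : r < Rad) (f : ℂ → ℂ)
    (hf : DifferentiableOn ℂ f (Metric.ball z₀ Rad))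
    (hb : ∀ z ∈ Metric.ball z₀ Rad, ‖f z‖ ≤ 1) :
    ∃ a : ℕ → ℂ, (∀ j, ‖a j‖ * r ^ j ≤ 1) ∧
      ∀ y : ℂ, ‖y‖ < r → HasSum (fun j => y ^ j * a j) (f (z₀ + y)) := by
  lift r to NNReal using h0.le
  have hsub : Metric.closedBall z₀ (r : ℝ) ⊆ Metric.ball z₀ Rad := Metric.closedBall_subset_ball h
  have h0' : 0 < r := by exact_mod_cast h0
  have hp := (hf.mono hsub).hasFPowerSeriesOnBall h0'
  refine ⟨fun j => (cauchyPowerSeries f z₀ r).coeff j, ?_, ?_⟩
  · intro j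
    rw [← FormalMultilinearSeries.norm_apply_eq_norm_coef]
    have h1 := norm_cauchyPowerSeries_le f z₀ r j
    have h2 : ∫ θ : ℝ in 0..2 * Real.pi, ‖f (circleMap z₀ r θ)‖ ≤ 2 * Real.pi := by
      have h3 := intervalIntegral.norm_integral_le_of_norm_le_const (a := 0) (b := 2 * Real.pi)
        (f := fun θ : ℝ => ‖f (circleMap z₀ r θ)‖) (C := 1) (fun θ _ => by
          rw [norm_norm]
          exact hb _ (hsub (circleMap_mem_closedBall z₀ h0.le θ)))
      rw [sub_zero, one_mul, abs_of_pos Real.two_pi_pos] at h3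
      exact (le_abs_self _).trans h3
    have h4 : ((2 * Real.pi)⁻¹ * ∫ θ : ℝ in 0..2 * Real.pi, ‖f (circleMap z₀ r θ)‖) ≤ 1 := by
      rw [inv_mul_le_iff₀ Real.two_pi_pos, mul_one]
      exact h2
    rw [abs_of_pos h0] at h1
    calc ‖cauchyPowerSeries f z₀ r j‖ * (r : ℝ) ^ j
        ≤ (1 * ((r : ℝ))⁻¹ ^ j) * (r : ℝ) ^ j := by
          refine mul_le_mul_of_nonneg_right (h1.trans ?_) (by positivity)
          exact mul_le_mul_of_nonneg_right h4 (by positivity)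
      _ = 1 := by
          rw [one_mul, ← mul_pow, inv_mul_cancel₀ h0.ne', one_pow]
  · intro y hy
    have h1 := hp.hasSum (y := y) (by
      simpa only [mem_eball_zero_iff, enorm_lt_coe, ← coe_nnnorm, NNReal.coe_lt_coe] using hy)
    simp only [FormalMultilinearSeries.apply_eq_pow_smul_coeff, smul_eq_mul] at h1
    exact h1

/-- The tail of a power series. -/
lemma tail {a : ℕ → ℂ} {q : ℝ} (hq0 : 0 < q) (hq1 : q < 1) {y F : ℂ}
    (ha : ∀ j, ‖y ^ j * a j‖ ≤ (q ^ 2) ^ j) (hF : HasSum (fun j => y ^ j * a j) F) (N : ℕ) :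
    ‖F‖ ≤ ∑ j ∈ range N, ‖y ^ j * a j‖ + q ^ N * (1 - q)⁻¹ := by
  have h1 : HasSum (fun j => if j ∈ range N then y ^ j * a j else 0)
      (∑ j ∈ range N, y ^ j * a j) := by
    have h : HasSum (fun j => if j ∈ range N then y ^ j * a j else 0)
        (∑ j ∈ range N, if j ∈ range N then y ^ j * a j else 0) :=
      hasSum_sum_of_ne_finset_zero fun j hj => if_neg hj
    rwa [sum_congr rfl fun j hj => if_pos hj] at h
  have h2 := hF.sub h1
  have h3 : ∀ j, ‖y ^ j * a j - (if j ∈ range N then y ^ j * a j else 0)‖ ≤ q ^ N * q ^ j := by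
    intro j
    split_ifs with hj
    · rw [sub_self, norm_zero]
      positivity
    · rw [sub_zero]
      have hNj : N ≤ j := by simpa using hj
      refine (ha j).trans ?_
      rw [← pow_mul, two_mul, pow_add]
      exact mul_le_mul_of_nonneg_right (pow_le_pow_of_le_one hq0.le hq1.le hNj) (by positivity)
  have h4 : HasSum (fun j : ℕ => q ^ N * q ^ j) (q ^ N * (1 - q)⁻¹) :=
    (hasSum_geometric_of_lt_one hq0.le hq1).mul_left _
  have h5 : ‖F - ∑ j ∈ range N, y ^ j * a j‖ ≤ q ^ N * (1 - q)⁻¹ := by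
    rw [← h2.tsum_eq]
    exact tsum_of_norm_bounded h4 h3
  have h6 : ‖F‖ ≤ ‖∑ j ∈ range N, y ^ j * a j‖ + ‖F - ∑ j ∈ range N, y ^ j * a j‖ := by
    have := norm_add_le (∑ j ∈ range N, y ^ j * a j) (F - ∑ j ∈ range N, y ^ j * a j)
    rwa [add_sub_cancel] at this
  exact h6.trans (add_le_add (norm_sum_le _ _) h5)

end Pool.Agent.Q156.GK.CONTaux

namespace Pool.Agent.Q156.GK

open Pool.Agent.W792.GK CONTaux Finset

theorem main_CONT : S_CONT := by
  intro z₀ w ρ Rad hρ hρR hw ε hε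
  set r₁ : ℝ := max ρ ‖w - z₀‖ with hr₁
  have hr₁0 : 0 < r₁ := lt_max_of_lt_left hρ
  have hr₁R : r₁ < Rad := max_lt hρR hw
  set r : ℝ := (r₁ + Rad) / 2 with hr
  have hr1 : r₁ < r := by rw [hr]; linarith
  have hrR : r < Rad := by rw [hr]; linarith
  have hr0 : 0 < r := hr₁0.trans hr1
  set q : ℝ := Real.sqrt (r₁ / r) with hq
  have hq0 : 0 < q := Real.sqrt_pos.2 (by positivity)
  have hqsq : q ^ 2 = r₁ / r := Real.sq_sqrt (by positivity)
  have hq1 : q < 1 := by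
    rw [hq, Real.sqrt_lt' one_pos, one_pow, div_lt_one hr0]
    exact hr1
  have h1q : 0 < 1 - q := by linarith
  obtain ⟨N, hN⟩ := exists_pow_lt_of_lt_one (by positivity : 0 < ε / 2 * (1 - q)) hq1
  set L : ℝ := N * (r₁ / ρ) ^ N with hL
  have hL0 : 0 ≤ L := by positivity
  obtain ⟨M₀, hM₀⟩ := exists_pow_lt_of_lt_one
    (by positivity : 0 < ε / 2 * (1 - q) / (L + 1)) hq1
  set M : ℕ := max M₀ (N + 1) with hM
  have hM0 : 0 < M := lt_of_lt_of_le (Nat.succ_pos N) (le_max_right _ _)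
  have hMM : q ^ M ≤ q ^ M₀ := pow_le_pow_of_le_one hq0.le hq1.le (le_max_left _ _)
  have hbq : L * (q ^ M * (1 - q)⁻¹) ≤ ε / 2 := by
    have h1 : q ^ M * (1 - q)⁻¹ ≤ ε / 2 / (L + 1) := by
      rw [← div_eq_mul_inv, div_le_div_iff₀ h1q (by positivity)]
      have h2 := (hMM.trans hM₀.le)
      rw [le_div_iff₀ (by positivity)] at h2
      linarith
    calc L * (q ^ M * (1 - q)⁻¹) ≤ L * (ε / 2 / (L + 1)) := mul_le_mul_of_nonneg_left h1 hL0
      _ = ε / 2 * (L / (L + 1)) := by ring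
      _ ≤ ε / 2 * 1 := by
          refine mul_le_mul_of_nonneg_left ?_ (by positivity)
          rw [div_le_one (by positivity)]
          linarith
      _ = ε / 2 := mul_one _
  set ω := Complex.exp (2 * Real.pi * Complex.I / M) with hω
  have hω1 : ‖ω‖ = 1 := (Complex.isPrimitiveRoot_exp M hM0.ne').norm'_eq_one hM0.ne'
  refine ⟨(range M).image fun l => z₀ + ρ * ω ^ l, L, hL0, ?_, ?_⟩
  · intro ζ hζ
    obtain ⟨l, _, rfl⟩ := mem_image.1 hζ
    rw [add_sub_cancel_left, norm_mul, norm_pow, hω1, one_pow, mul_one, Complex.norm_real,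
      Real.norm_of_nonneg hρ.le]
  · intro f hf hb
    set Sg : ℝ := ∑ ζ ∈ (range M).image fun l => z₀ + ρ * ω ^ l, ‖f ζ‖ with hSg
    obtain ⟨a, ha, hs⟩ := taylor z₀ hr0 hrR f hf hb
    have haq : ∀ (t : ℝ) (_ : 0 ≤ t) (_ : t ≤ r₁) (j : ℕ), ‖a j‖ * t ^ j ≤ (q ^ 2) ^ j := by
      intro t ht0 ht j
      rw [hqsq, div_pow, le_div_iff₀ (by positivity)]
      calc ‖a j‖ * t ^ j * r ^ j = (‖a j‖ * r ^ j) * t ^ j := by ring
        _ ≤ 1 * r₁ ^ j := mul_le_mul (ha j) (pow_le_pow_left₀ ht0 ht j) (by positivity) zero_le_one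
        _ = r₁ ^ j := one_mul _
    have hρ1 : ρ ≤ r₁ := le_max_left _ _
    have hw1 : ‖w - z₀‖ ≤ r₁ := le_max_right _ _
    -- the coefficients
    have hc : ∀ n, n < N → ‖a n‖ * ρ ^ n ≤ Sg + q ^ M * (1 - q)⁻¹ := by
      intro n hn
      have hnM : n < M := lt_of_lt_of_le (by omega) (le_max_right _ _)
      have h1 := coeff_avg hq0 hq1 hρ (haq ρ hρ.le hρ1) hnM (fun y => f (z₀ + y))
        (fun y hy => hs y (by rw [hy]; exact hρ1.trans_lt hr1))
      refine h1.trans (add_le_add ?_ le_rfl)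
      rw [div_le_iff₀ (by exact_mod_cast hM0)]
      calc ∑ l ∈ range M, ‖f (z₀ + ρ * ω ^ l)‖ ≤ ∑ _l ∈ range M, Sg := by
            refine sum_le_sum fun l hl => ?_
            exact single_le_sum (f := fun ζ => ‖f ζ‖) (fun ζ _ => norm_nonneg _)
              (mem_image_of_mem _ hl)
        _ = Sg * M := by
            rw [sum_const, card_range, nsmul_eq_mul, mul_comm]
    have hyn : ∀ j, ‖(w - z₀) ^ j * a j‖ = ‖a j‖ * ‖w - z₀‖ ^ j := by
      intro j
      rw [norm_mul, norm_pow, mul_comm]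
    have ht := tail hq0 hq1 (y := w - z₀) (F := f w) (a := a)
      (fun j => by rw [hyn]; exact haq _ (norm_nonneg _) hw1 j)
      (by
        have := hs (w - z₀) (hw1.trans_lt hr1)
        rwa [add_sub_cancel] at this) N
    have hSg0 : 0 ≤ Sg := sum_nonneg fun ζ _ => norm_nonneg _
    have hterm : ∀ j ∈ range N, ‖(w - z₀) ^ j * a j‖ ≤
        (r₁ / ρ) ^ N * (Sg + q ^ M * (1 - q)⁻¹) := by
      intro j hj
      rw [mem_range] at hj
      have h1r : 1 ≤ r₁ / ρ := by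
        rw [one_le_div hρ]
        exact hρ1
      rw [hyn]
      calc ‖a j‖ * ‖w - z₀‖ ^ j ≤ ‖a j‖ * r₁ ^ j :=
            mul_le_mul_of_nonneg_left (pow_le_pow_left₀ (norm_nonneg _) hw1 j) (norm_nonneg _)
        _ = (r₁ / ρ) ^ j * (‖a j‖ * ρ ^ j) := by
            rw [div_pow]
            field_simp
        _ ≤ (r₁ / ρ) ^ N * (Sg + q ^ M * (1 - q)⁻¹) :=
            mul_le_mul (pow_le_pow_right₀ h1r hj.le) (hc j hj) (by positivity) (by positivity)
    have hsum : ∑ j ∈ range N, ‖(w - z₀) ^ j * a j‖ ≤ L * (Sg + q ^ M * (1 - q)⁻¹) := by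
      refine (sum_le_sum hterm).trans ?_
      rw [sum_const, card_range, nsmul_eq_mul, hL]
      exact le_of_eq (by ring)
    have hqN : q ^ N * (1 - q)⁻¹ ≤ ε / 2 := by
      rw [← div_eq_mul_inv, div_le_iff₀ h1q]
      exact hN.le
    calc ‖f w‖ ≤ L * (Sg + q ^ M * (1 - q)⁻¹) + q ^ N * (1 - q)⁻¹ := ht.trans (by linarith)
      _ ≤ L * Sg + ε := by
          rw [mul_add]
          linarith

end Pool.Agent.Q156.GK
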