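import Pool.Agent.Q156.GK.Stm

/-!
Project GK, job CUR: currying is measure preserving.
-/

set_option autoImplicit false

namespace Pool.Agent.Q156.GK

open Pool.Agent.W792.GK MeasureTheory

/-- Job CUR. -/
theorem main_CUR : S_CUR := by
  intro Q J _ _ ν _
  have hm : Measurable (fun (v : Q × J → ℝ) (j : J) (x : Q) => v (x, j)) := by
    refine measurable_pi_lambda _ fun j => measurable_pi_lambda _ fun x => measurable_pi_apply _
  refine ⟨hm, ?_⟩
  symm
  refine Measure.pi_eq_generateFrom
    (C := fun _ : J => Set.pi Set.univ '' Set.pi Set.univ fun _ : Q => {s : Set ℝ | MeasurableSet s})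
    (fun _ => generateFrom_pi) (fun _ => isPiSystem_pi) (fun _ => ?_) ?_
  · refine ⟨fun _ => Set.univ, fun _ => ⟨fun _ => Set.univ, ?_, ?_⟩, fun _ => ?_, ?_⟩
    · intro i _
      show MeasurableSet (Set.univ : Set ℝ)
      exact MeasurableSet.univ
    · exact Set.pi_univ _
    · exact measure_lt_top _ _
    · exact Set.iUnion_const _
  · intro s hs
    choose t ht1 ht2 using hs
    have ht : ∀ j x, MeasurableSet (t j x) := fun j x => ht1 j x (Set.mem_univ _)
    have hs2 : s = fun j => Set.univ.pi (t j) := by
      funext j
      exact (ht2 j).symm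
    subst hs2
    rw [Measure.map_apply hm (MeasurableSet.univ_pi fun j => MeasurableSet.univ_pi fun x => ht j x)]
    have hpre : (fun (v : Q × J → ℝ) (j : J) (x : Q) => v (x, j)) ⁻¹' (Set.univ.pi fun j => Set.univ.pi (t j)) =
        Set.univ.pi fun q : Q × J => t q.2 q.1 := by
      ext v
      simp only [Set.mem_preimage, Set.mem_pi, Set.mem_univ, true_implies]
      constructor
      · rintro h ⟨x, j⟩
        exact h j x
      · intro h j x
        exact h (x, j)
    rw [hpre]
    unfold pm
    rw [Measure.pi_pi]
    simp only [Measure.pi_pi]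
    rw [Fintype.prod_prod_type, Finset.prod_comm]

end Pool.Agent.Q156.GK
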