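import Pool.Agent.Q156.GK.Stm

/-!
Project GK (helper156), job DIL (helper190): the symbol of a push forward kernel, and the symmetry
of dilated symmetric functions.
-/

set_option autoImplicit false

namespace Pool.Agent.Q156.GK

namespace DILaux

open Pool.Agent.W792.GK UnitAddTorus

/-- invariance under several sign changes -/
theorem sym_flip {ι : Type} [Fintype ι] [DecidableEq ι] {f : C(UnitAddTorus ι, ℝ)} (hf : IsSym f)
    (S : Finset ι) (k : UnitAddTorus ι) : f (fun j => if j ∈ S then -(k j) else k j) = f k := by
  induction S using Finset.induction_on with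
  | empty => simp
  | insert a S ha ih =>
    have h1 : (fun j => if j ∈ insert a S then -(k j) else k j) =
        Function.update (fun j => if j ∈ S then -(k j) else k j) a
          (-((fun j => if j ∈ S then -(k j) else k j) a)) := by
      funext j
      by_cases hj : j = a
      · subst hj
        rw [Function.update_self]
        simp [ha]
      · rw [Function.update_of_ne hj]
        simp [Finset.mem_insert, hj]
    rw [h1, hf.2 a (fun j => if j ∈ S then -(k j) else k j)]
    exact ih

theorem fourier_sum {α : Type} (s : Finset α) (f : α → ℤ) (x : UnitAddCircle) :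
    fourier (∑ l ∈ s, f l) x = ∏ l ∈ s, fourier (f l) x := by
  classical
  induction s using Finset.induction_on with
  | empty => simp
  | insert a s ha ih => rw [Finset.sum_insert ha, Finset.prod_insert ha, fourier_add, ih]

theorem fourier_smul (N y : ℤ) (x : UnitAddCircle) : fourier (N * y) x = fourier y (N • x) := by
  rw [fourier_apply, fourier_apply, smul_smul, mul_comm]

theorem trig_add {ι : Type} [Fintype ι] (h h' : (ι → ℤ) →₀ ℂ) : trig (h + h') = trig h + trig h' := by
  unfold trig
  exact Finsupp.sum_add_index' (fun n => zero_smul ℂ (mFourier n)) (fun n b c => add_smul b c (mFourier n))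

theorem trig_map {ι Γ : Type} [Fintype ι] (φ : Γ → (ι → ℤ)) (h : Γ →₀ ℂ) (k : UnitAddTorus ι) :
    trig (h.mapDomain φ) k = h.sum fun y c => c * mFourier (φ y) k := by
  unfold trig
  rw [Finsupp.sum_mapDomain_index (h := fun n c => c • mFourier n) (fun n => zero_smul ℂ (mFourier n))
    (fun n b c => add_smul b c (mFourier n))]
  unfold Finsupp.sum
  rw [ContinuousMap.sum_apply]
  rfl

theorem trig_apply {ι : Type} [Fintype ι] (h : (ι → ℤ) →₀ ℂ) (k : UnitAddTorus ι) :
    trig h k = h.sum fun y c => c * mFourier y k := by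
  unfold trig Finsupp.sum
  rw [ContinuousMap.sum_apply]
  rfl

theorem mF_phi {d r : ℕ} (N : Fin r → ℤ) (y : Fin d × Fin r → ℤ) (k : UnitAddTorus (Fin d)) :
    mFourier (phiN N ((0 : Fin d → ℤ), y)) k =
      mFourier y (fun i : Fin d × Fin r => N i.2 • k i.1) := by
  show ∏ i : Fin d, fourier ((phiN N ((0 : Fin d → ℤ), y)) i) (k i) =
    ∏ i : Fin d × Fin r, fourier (y i) (N i.2 • k i.1)
  rw [Fintype.prod_prod_type]
  refine Finset.prod_congr rfl fun i _ => ?_
  have h1 : (phiN N ((0 : Fin d → ℤ), y)) i = ∑ l, N l * y (i, l) := by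
    show (0 : Fin d → ℤ) i + ∑ l, N l * y (i, l) = _
    rw [Pi.zero_apply, zero_add]
  rw [h1, fourier_sum]
  exact Finset.prod_congr rfl fun l _ => fourier_smul _ _ _

end DILaux

open Pool.Agent.W792.GK DILaux

/-- JOB DIL -/
theorem main_DIL : S_DIL := by
  intro d r N
  refine ⟨?_, ?_⟩
  · intro a ha
    refine ⟨?_, ?_⟩
    · intro σ k
      show a (fun i => N i.2 • k (σ i.1)) = a (fun i => N i.2 • k i.1)
      exact ha.1 (Equiv.prodCongr σ (Equiv.refl (Fin r))) (fun i => N i.2 • k i.1)
    · intro i k
      show a (fun p => N p.2 • Function.update k i (-(k i)) p.1) = a (fun p => N p.2 • k p.1)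
      rw [← sym_flip ha (Finset.univ.filter fun p : Fin d × Fin r => p.1 = i)
        (fun p => N p.2 • k p.1)]
      congr 1
      funext p
      by_cases hp : p.1 = i
      · have hm : p ∈ Finset.univ.filter (fun p : Fin d × Fin r => p.1 = i) :=
          Finset.mem_filter.2 ⟨Finset.mem_univ _, hp⟩
        rw [if_pos hm, hp, Function.update_self, smul_neg]
      · have hm : p ∉ Finset.univ.filter (fun p : Fin d × Fin r => p.1 = i) :=
          fun h => hp (Finset.mem_filter.1 h).2
        rw [if_neg hm, Function.update_of_ne hp]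
  · intro h₁ h₂ K a hK ha k
    have e1 : (((K + dil N a) k : ℝ) : ℂ) = trig h₁ k + trig h₂ (fun i => N i.2 • k i.1) := by
      rw [← hK, ← ha]
      show ((K k + a (fun i => N i.2 • k i.1) : ℝ) : ℂ) = _
      rw [Complex.ofReal_add]
    rw [e1]
    unfold prodKer
    rw [Finsupp.mapDomain_add, trig_add, ContinuousMap.add_apply, ← Finsupp.mapDomain_comp,
      ← Finsupp.mapDomain_comp, trig_map, trig_map, trig_apply, trig_apply]
    congr 1
    · refine Finsupp.sum_congr fun x _ => ?_
      have h3 : ((⇑(phiN N) ∘ fun x : Fin d → ℤ => (x, (0 : Fin d × Fin r → ℤ))) x : Fin d → ℤ) = x := by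
        funext i
        show x i + ∑ l, N l * (0 : Fin d × Fin r → ℤ) (i, l) = x i
        simp
      rw [h3]
    · refine Finsupp.sum_congr fun y _ => ?_
      rw [Function.comp_apply, mF_phi]

end Pool.Agent.Q156.GK
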