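import Pool.Agent.Q156.GK.LIP

/-!
# Project GK (helper156), job EIG (helper256)
-/

set_option autoImplicit false

namespace Pool.Agent.Q156.GK

open Pool.Agent.W792.GK

noncomputable section

namespace EIG

open LIP

theorem hasSum_l2 {Γ : Type} (f : l2 Γ) : HasSum (fun x => ‖f x‖ ^ 2) (‖f‖ ^ 2) := by
  have h := lp.hasSum_norm (p := 2) (by norm_num) f
  simpa using h

/-- an element of `ℓ²` with given values -/
def mk {Γ : Type} (u : Γ → ℂ) (hu : Summable fun x => ‖u x‖ ^ 2) : l2 Γ :=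
  ⟨u, memℓp_gen (by simpa using hu)⟩

theorem mk_apply {Γ : Type} (u : Γ → ℂ) (hu : Summable fun x => ‖u x‖ ^ 2) (x : Γ) :
    mk u hu x = u x := rfl

theorem norm_le_of_bound {Γ : Type} (f g : l2 Γ) (c : ℝ) (hc : 0 ≤ c)
    (h : ∀ x, ‖f x‖ ≤ c * ‖g x‖) : ‖f‖ ≤ c * ‖g‖ := by
  have h1 := hasSum_l2 f
  have h2 := (hasSum_l2 g).mul_left (c ^ 2)
  have h3 : ‖f‖ ^ 2 ≤ c ^ 2 * ‖g‖ ^ 2 := by
    refine hasSum_le (fun x => ?_) h1 h2
    rw [← mul_pow]
    exact pow_le_pow_left₀ (norm_nonneg _) (h x) 2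
  rw [← mul_pow] at h3
  exact (pow_le_pow_iff_left₀ (norm_nonneg _) (by positivity) (by norm_num)).1 h3

theorem clamp_eq {R t : ℝ} (h : |t| ≤ R) : clamp R t = t := by
  have := abs_le.1 h
  unfold clamp
  rw [min_eq_right this.2, max_eq_right this.1]

theorem clamp_abs {R t : ℝ} (hR : 0 < R) (h : R < |t|) : |clamp R t| = R := by
  unfold clamp
  rcases lt_abs.1 h with h | h
  · rw [min_eq_left h.le, max_eq_right (by linarith), abs_of_pos hR]
  · rw [min_eq_right (by linarith), max_eq_left (by linarith), abs_neg, abs_of_pos hR]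

/-- the correction -/
theorem corr (R : ℝ) (hR : 0 < R) (t : ℝ) : ∃ c : ℝ, clamp R t * (1 + c) = t ∧ |c| ≤ |t| / R := by
  by_cases h : |t| ≤ R
  · exact ⟨0, by rw [clamp_eq h]; ring, by rw [abs_zero]; positivity⟩
  · push Not at h
    unfold clamp
    rcases lt_abs.1 h with h' | h'
    · rw [min_eq_left h'.le, max_eq_right (by linarith)]
      refine ⟨t / R - 1, by field_simp; ring, ?_⟩
      have ht : 0 < t := by linarith
      rw [abs_of_pos ht, abs_of_nonneg (by rw [sub_nonneg, one_le_div hR]; exact h'.le)]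
      linarith
    · rw [min_eq_right (by linarith), max_eq_left (by linarith)]
      refine ⟨-t / R - 1, by field_simp; ring, ?_⟩
      have ht : t < 0 := by linarith
      rw [abs_of_neg ht, abs_of_nonneg (by rw [sub_nonneg, one_le_div hR]; exact h'.le)]
      linarith

end EIG

open LIP EIG in
/-- Job EIG. -/
theorem main_EIG : S_T1 → S_T2 → S_EIG := by
  intro h1 h2 ι _ _ K η B R hη hη1 hB hR v E u hE hu heq
  set T := hopOp K with hTdef
  set M := mulOp R v with hMdef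
  have hT := hopOp_spec h1 K
  have hM := mulOp_spec h2 R hR v
  set L := T + M with hL
  have hLs : IsSelfAdjoint L := selfAdj h1 h2 K R hR v
  set U := mk u hu.summable with hU
  have hUn : ‖U‖ = 1 := by
    have h3 := (hasSum_l2 U).unique hu
    have h4 : ‖U‖ ^ 2 = 1 ^ 2 := by rw [h3]; norm_num
    exact (pow_left_inj₀ (norm_nonneg _) zero_le_one (by norm_num)).1 h4
  set G : l2 (ι → ℤ) := (E : ℂ) • U - T U with hG
  have hGx : ∀ x, G x = (v x : ℂ) * u x := by
    intro x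
    have e1 : G x = (E : ℂ) * u x - T U x := rfl
    rw [e1, hT.2.2, ← heq x]
    show _ + _ - (∑' y, hop K (x - y) * u y) = _
    ring
  set β := B + ‖K‖ with hβ
  have hβ0 : 0 ≤ β := by positivity
  have hGn : ‖G‖ ≤ β := by
    refine (norm_sub_le _ _).trans ?_
    rw [norm_smul, hUn, mul_one, Complex.norm_real, Real.norm_eq_abs]
    have h3 := T.le_opNorm U
    rw [hUn, mul_one] at h3
    exact add_le_add hE (h3.trans hT.2.1)
  -- the correction
  choose c hc1 hc2 using fun x => corr R hR (v x)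
  have hDs : Summable fun x => ‖(c x : ℂ) * u x‖ ^ 2 := by
    refine Summable.of_nonneg_of_le (fun x => by positivity) (fun x => ?_)
      ((hasSum_l2 G).mul_left ((1 / R) ^ 2)).summable
    rw [← mul_pow, hGx]
    refine pow_le_pow_left₀ (norm_nonneg _) ?_ 2
    rw [norm_mul, norm_mul, Complex.norm_real, Complex.norm_real, Real.norm_eq_abs,
      Real.norm_eq_abs]
    calc |c x| * ‖u x‖ ≤ |v x| / R * ‖u x‖ := mul_le_mul_of_nonneg_right (hc2 x) (norm_nonneg _)
      _ = 1 / R * (|v x| * ‖u x‖) := by ring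
  set D := mk (fun x => (c x : ℂ) * u x) hDs with hD
  set τ := β / R with hτ
  have hτ0 : 0 ≤ τ := by positivity
  have hDn : ‖D‖ ≤ τ := by
    have h3 := norm_le_of_bound D G (1 / R) (by positivity) (fun x => by
      rw [hGx]
      show ‖(c x : ℂ) * u x‖ ≤ _
      rw [norm_mul, norm_mul, Complex.norm_real, Complex.norm_real, Real.norm_eq_abs,
        Real.norm_eq_abs]
      calc |c x| * ‖u x‖ ≤ |v x| / R * ‖u x‖ := mul_le_mul_of_nonneg_right (hc2 x) (norm_nonneg _)
        _ = 1 / R * (|v x| * ‖u x‖) := by ring)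
    refine h3.trans ?_
    rw [hτ]
    calc 1 / R * ‖G‖ ≤ 1 / R * β := mul_le_mul_of_nonneg_left hGn (by positivity)
      _ = β / R := by ring
  have hMU : M (U + D) = G := by
    ext x
    rw [hM.2.2, hGx]
    show (clamp R (v x) : ℂ) * (u x + (c x : ℂ) * u x) = _
    have h3 : ((clamp R (v x) * (1 + c x) : ℝ) : ℂ) = (v x : ℂ) := by rw [hc1 x]
    rw [← h3]
    push_cast
    ring
  -- the point
  set k : ℤ := round (E / η) with hk
  have hkE : |E - k * η| ≤ η / 2 := by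
    have h3 := abs_sub_round (E / η)
    have h4 : E - k * η = (E / η - k) * η := by field_simp
    rw [h4, abs_mul, abs_of_pos hη]
    calc |E / η - k| * η ≤ 1 / 2 * η := mul_le_mul_of_nonneg_right h3 hη.le
      _ = η / 2 := by ring
  have hEη : |E / η| ≤ B / η := by
    rw [abs_div, abs_of_pos hη]
    exact div_le_div_of_nonneg_right hE hη.le
  have hkmem : k ∈ Finset.Icc (-⌈B / η⌉) ⌈B / η⌉ := by
    have h3 := abs_sub_round (E / η)
    rw [← hk] at h3
    have h4 := abs_le.1 h3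
    have h5 := abs_le.1 hEη
    have h6 := Int.le_ceil (B / η)
    rw [Finset.mem_Icc]
    constructor
    · have : (-⌈B / η⌉ : ℝ) < k + 1 := by linarith
      have : (-⌈B / η⌉ : ℤ) < k + 1 := by exact_mod_cast this
      omega
    · have : (k : ℝ) < ⌈B / η⌉ + 1 := by linarith
      have : k < ⌈B / η⌉ + 1 := by exact_mod_cast this
      omega
  set z := zk η k with hz
  have hzim : z.im = η := rfl
  have hzre : z.re = k * η := rfl
  have hzn : z.im ≠ 0 := by rw [hzim]; exact hη.ne'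
  have hEz : ‖(E : ℂ) - z‖ ≤ 5 / 4 * η := by
    have h3 : ‖(E : ℂ) - z‖ ^ 2 = (E - k * η) ^ 2 + η ^ 2 := by
      rw [← Complex.normSq_eq_norm_sq, Complex.normSq_apply]
      simp only [Complex.sub_re, Complex.sub_im, Complex.ofReal_re, Complex.ofReal_im, hzim, hzre]
      ring
    have h4 : (E - k * η) ^ 2 ≤ (η / 2) ^ 2 := by
      rw [← sq_abs]
      exact pow_le_pow_left₀ (abs_nonneg _) hkE 2
    have h5 : ‖(E : ℂ) - z‖ ^ 2 ≤ (5 / 4 * η) ^ 2 := by
      rw [h3]
      nlinarith [sq_nonneg η]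
    exact (pow_le_pow_iff_left₀ (norm_nonneg _) (by positivity) (by norm_num)).1 h5
  -- the equation
  set g : l2 (ι → ℤ) := (T D - (E : ℂ) • D) + ((E : ℂ) - z) • D + ((E : ℂ) - z) • U with hg
  have hLz : (L - z • (1 : l2 (ι → ℤ) →L[ℂ] l2 (ι → ℤ))) (U + D) = g := by
    have e1 : (L - z • (1 : l2 (ι → ℤ) →L[ℂ] l2 (ι → ℤ))) (U + D) =
        T U + T D + M (U + D) - z • (U + D) := by
      rw [ContinuousLinearMap.sub_apply, hL, ContinuousLinearMap.add_apply, map_add T]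
      rfl
    rw [e1, hMU, hG, hg]
    simp only [sub_smul, smul_add]
    abel
  set w := Rs L ((starRingEnd ℂ) z) (lp.single 2 (0 : ι → ℤ) (1 : ℂ)) with hw
  have hU0 : (U + D) 0 = inner ℂ w g := by
    rw [coord_eq, ← Rs_sub L hLs z hzn (U + D), hLz, inner_Rs L hLs z hzn]
  have hJ : Jm K R v z = η * ‖w‖ ^ 2 := by
    rw [Jm_eq' h1 h2 K R hR v z hη]
    rw [hzim]
  have hwn : ‖w‖ ≤ 1 / η := by
    have h3 := norm_Rs L hLs ((starRingEnd ℂ) z) (by rw [Complex.conj_im]; exact neg_ne_zero.2 hzn)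
      (lp.single 2 (0 : ι → ℤ) (1 : ℂ))
    rw [norm_delta, Complex.conj_im, abs_neg, hzim, abs_of_pos hη] at h3
    exact h3
  have hgn : ‖g‖ ≤ β * τ + 5 / 4 * η * τ + 5 / 4 * η := by
    have h3 : ‖T D - (E : ℂ) • D‖ ≤ β * τ := by
      refine (norm_sub_le _ _).trans ?_
      rw [norm_smul, Complex.norm_real, Real.norm_eq_abs]
      have h4 := T.le_opNorm D
      have h5 : ‖T‖ * ‖D‖ ≤ ‖K‖ * τ :=
        mul_le_mul hT.2.1 hDn (norm_nonneg _) (norm_nonneg _)
      have h6 : |E| * ‖D‖ ≤ B * τ := mul_le_mul hE hDn (norm_nonneg _) hB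
      rw [hβ]
      linarith
    have h4 : ‖((E : ℂ) - z) • D‖ ≤ 5 / 4 * η * τ := by
      rw [norm_smul]
      exact mul_le_mul hEz hDn (norm_nonneg _) (by positivity)
    have h5 : ‖((E : ℂ) - z) • U‖ ≤ 5 / 4 * η := by
      rw [norm_smul, hUn, mul_one]
      exact hEz
    exact (norm_add_le _ _).trans (add_le_add ((norm_add_le _ _).trans (add_le_add h3 h4)) h5)
  have hmain : ‖u 0‖ - β * (1 + (‖K‖ + B + 2) / η) / R ≤ 5 / 4 * η * ‖w‖ := by
    have h3 : ‖u 0‖ ≤ ‖(U + D) 0‖ + ‖D‖ := by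
      have e1 : u 0 = (U + D) 0 - D 0 := by
        show u 0 = (u 0 + (c 0 : ℂ) * u 0) - (c 0 : ℂ) * u 0
        ring
      rw [e1]
      exact (norm_sub_le _ _).trans (add_le_add le_rfl (lp.norm_apply_le_norm (by norm_num) D 0))
    have h4 : ‖(U + D) 0‖ ≤ ‖w‖ * (β * τ + 5 / 4 * η * τ) + ‖w‖ * (5 / 4 * η) := by
      rw [hU0]
      refine (norm_inner_le_norm _ _).trans ?_
      rw [← mul_add]
      exact mul_le_mul_of_nonneg_left hgn (norm_nonneg _)
    have h5 : ‖w‖ * (β * τ + 5 / 4 * η * τ) ≤ 1 / η * (β * τ + 5 / 4 * η * τ) :=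
      mul_le_mul_of_nonneg_right hwn (by positivity)
    have h6 : 1 / η * (β * τ + 5 / 4 * η * τ) = τ * (β / η + 5 / 4) := by
      field_simp
    have h7 : (5 : ℝ) / 4 ≤ 2 / η := by
      rw [le_div_iff₀ hη]
      nlinarith
    have h8 : β * (1 + (‖K‖ + B + 2) / η) / R = τ * (1 + (β / η + 2 / η)) := by
      rw [hτ, hβ]
      field_simp
      ring
    rw [h8]
    have h9 : τ * (1 + (β / η + 5 / 4)) ≤ τ * (1 + (β / η + 2 / η)) :=
      mul_le_mul_of_nonneg_left (by linarith) hτ0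
    have h10 : τ * (1 + (β / η + 5 / 4)) = τ + τ * (β / η + 5 / 4) := by ring
    rw [h6] at h5
    nlinarith
  have hmax : max 0 (‖u 0‖ - β * (1 + (‖K‖ + B + 2) / η) / R) ≤ 5 / 4 * η * ‖w‖ :=
    max_le (by positivity) hmain
  have hpow := pow_le_pow_left₀ (le_max_left _ _) hmax 4
  refine hpow.trans ?_
  have hsum : η ^ 2 * (Jm K R v z) ^ 2 ≤ Qz K η B R v := by
    unfold Qz
    refine mul_le_mul_of_nonneg_left ?_ (by positivity)
    exact Finset.single_le_sum (f := fun k => (Jm K R v (zk η k)) ^ 2)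
      (fun i _ => sq_nonneg _) hkmem
  have h11 : (5 / 4 * η * ‖w‖) ^ 4 ≤ 4 * (η ^ 2 * (Jm K R v z) ^ 2) := by
    rw [hJ]
    have h12 : 0 ≤ (η * ‖w‖) ^ 4 := by positivity
    have e1 : (5 / 4 * η * ‖w‖) ^ 4 = 625 / 256 * (η * ‖w‖) ^ 4 := by ring
    have e2 : 4 * (η ^ 2 * (η * ‖w‖ ^ 2) ^ 2) = 4 * (η * ‖w‖) ^ 4 := by ring
    rw [e1, e2]
    linarith
  linarith

end

end Pool.Agent.Q156.GK
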