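import Pool.Agent.Q156.GK.Stm

/-!
# GK-FINAL: the theorem on generic kinetic energies from `S_NE` and `S_OD` (job 33302)
-/

set_option autoImplicit false

namespace Pool.Agent.Q156.GK

open Pool.Agent.W792.GK MeasureTheory Filter Topology

theorem isClosed_isSym (d : ℕ) : IsClosed {f : C(UnitAddTorus (Fin d), ℝ) | IsSym f} := by
  have h : {f : C(UnitAddTorus (Fin d), ℝ) | IsSym f} =
      (⋂ (σ : Equiv.Perm (Fin d)) (k : UnitAddTorus (Fin d)), {f : C(UnitAddTorus (Fin d), ℝ) | f (fun i => k (σ i)) = f k}) ∩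
      ⋂ (i : Fin d) (k : UnitAddTorus (Fin d)), {f : C(UnitAddTorus (Fin d), ℝ) | f (Function.update k i (-(k i))) = f k} := by
    ext f
    simp only [Set.mem_ofPred_eq, Set.mem_inter_iff, Set.mem_iInter]
    rfl
  rw [h]
  apply IsClosed.inter
  · refine isClosed_iInter fun σ => isClosed_iInter fun k => ?_
    exact isClosed_eq (by fun_prop) (by fun_prop)
  · refine isClosed_iInter fun i => isClosed_iInter fun k => ?_
    exact isClosed_eq (by fun_prop) (by fun_prop)

theorem baire_symSp (d : ℕ) : BaireSpace (SymSp d) := by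
  have hc : IsClosed {f : C(UnitAddTorus (Fin d), ℝ) | IsSym f} := isClosed_isSym d
  have : CompleteSpace {f : C(UnitAddTorus (Fin d), ℝ) // IsSym f} := hc.completeSpace_coe
  have : BaireSpace {f : C(UnitAddTorus (Fin d), ℝ) // IsSym f} := inferInstance
  exact this

theorem main_FINAL (hNE : S_NE) (hOD : S_OD) : S_FINAL := by
  intro d hd
  have := baire_symSp d
  have hres : ∀ᶠ K : SymSp d in residual (SymSp d), ∀ m : ℕ, Good d K.1 m := by
    rw [eventually_countable_forall]
    intro m
    obtain ⟨h1, h2⟩ := hOD d hd m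
    exact residual_of_dense_open h1 h2
  constructor
  · filter_upwards [hres] with K hK ν _
    exact hNE d K.1 hd hK ν
  · intro K₀ ε hK₀ hε
    have hden : Dense {K : SymSp d | ∀ m : ℕ, Good d K.1 m} := dense_of_mem_residual hres
    let U : Set (SymSp d) := {K : SymSp d | ‖K.1 - K₀‖ < ε}
    have hU : IsOpen U := by
      have hcont : Continuous fun K : SymSp d => ‖K.1 - K₀‖ := by
        have : Continuous fun K : SymSp d => K.1 := continuous_subtype_val
        exact (this.sub continuous_const).norm
      exact isOpen_lt hcont continuous_const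
    have hne : U.Nonempty := ⟨⟨K₀, hK₀⟩, by
      show ‖K₀ - K₀‖ < ε
      rw [sub_self, norm_zero]
      exact hε⟩
    obtain ⟨K, hKU, hK⟩ := hden.inter_open_nonempty U hU hne
    exact ⟨K.1, K.2, hKU, fun ν _ => hNE d K.1 hd hK ν⟩

end Pool.Agent.Q156.GK
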