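import Pool.Agent.Q156.GK.Stm

/-!
# Project GK (helper156), job FM: the theorem on the finite model (helper142)
-/

set_option autoImplicit false

namespace Pool.Agent.Q156.GK

open Pool.Agent.W792.GK MeasureTheory
open scoped ComplexOrder

noncomputable section

namespace FM

theorem adm_mono {J : Type} [Fintype J] [DecidableEq J] {s δ δ' : ℝ} {n n' : ℕ}
    {A : Matrix J J ℂ} (h : Adm s δ n A) (h1 : δ ≤ δ') (h2 : n' ≤ n) : Adm s δ' n' A :=
  ⟨h.1, h.2.1, fun m h3 h4 i j => (h.2.2 m h3 (h4.trans h2) i j).trans h1⟩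

theorem exists_pos (S : Finset ℤ) (f : ℤ → ℝ) (hf : ∀ k, 0 < f k) :
    ∃ δ : ℝ, 0 < δ ∧ ∀ k ∈ S, δ ≤ f k := by
  induction S using Finset.induction_on with
  | empty => exact ⟨1, one_pos, by simp⟩
  | insert a S ha ih =>
    obtain ⟨δ, h1, h2⟩ := ih
    refine ⟨min δ (f a), lt_min h1 (hf a), ?_⟩
    intro k hk
    rcases Finset.mem_insert.1 hk with rfl | hk
    · exact min_le_right _ _
    · exact (min_le_left _ _).trans (h2 k hk)

theorem imM_diag {Q : Type} (G : Matrix Q Q ℂ) (x : Q) : imM G x x = (((G x x).im : ℝ) : ℂ) := by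
  unfold imM
  rw [Matrix.smul_apply, Matrix.sub_apply, Matrix.conjTranspose_apply, smul_eq_mul]
  have h := Complex.sub_conj (G x x)
  rw [show star (G x x) = (starRingEnd ℂ) (G x x) from rfl, h]
  have hI := Complex.I_ne_zero
  push_cast
  field_simp

theorem opB_of_entry {n : Type} [Fintype n] {M : Matrix n n ℂ} {b : ℝ}
    (h : ∀ x y, ‖M x y‖ ≤ b) : OpB M (Fintype.card n * b) := by
  intro u
  have h1 : ∀ i, ‖(M.mulVec u) i‖ ^ 2 ≤ Fintype.card n * (b ^ 2 * ∑ j, ‖u j‖ ^ 2) := by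
    intro i
    have h2 : ‖(M.mulVec u) i‖ ≤ ∑ j, b * ‖u j‖ := by
      unfold Matrix.mulVec dotProduct
      refine (norm_sum_le _ _).trans (Finset.sum_le_sum fun j _ => ?_)
      rw [norm_mul]
      exact mul_le_mul_of_nonneg_right (h i j) (norm_nonneg _)
    have h3 := pow_le_pow_left₀ (norm_nonneg _) h2 2
    refine h3.trans ((sq_sum_le_card_mul_sum_sq (s := (Finset.univ : Finset n))
      (f := fun j => b * ‖u j‖)).trans (le_of_eq ?_))
    rw [Finset.card_univ, Finset.mul_sum, Finset.mul_sum, Finset.mul_sum]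
    refine Finset.sum_congr rfl fun j _ => ?_
    ring
  refine (Finset.sum_le_sum fun i _ => h1 i).trans (le_of_eq ?_)
  rw [Finset.sum_const, Finset.card_univ, nsmul_eq_mul]
  ring

theorem ae_mem {ι : Type} [Fintype ι] (ν : Measure ℝ) [IsProbabilityMeasure ν] (R : ℝ)
    (hν : ν (Set.Icc (-R) R)ᶜ = 0) :
    ∀ᵐ v ∂(Measure.pi fun _ : ι => ν), ∀ i, v i ∈ Set.Icc (-R) R := by
  have h1 : ∀ᵐ t ∂ν, t ∈ Set.Icc (-R) R := by
    rw [ae_iff]
    exact hν
  have h2 : ∀ i : ι, ∀ᵐ v ∂(Measure.pi fun _ : ι => ν), v i ∈ Set.Icc (-R) R := fun i =>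
    (Measure.tendsto_eval_ae_ae (μ := fun _ : ι => ν) (i := i)).eventually h1
  exact ae_all_iff.2 h2

theorem ae_clamp {ι : Type} [Fintype ι] (ν : Measure ℝ) [IsProbabilityMeasure ν] (R : ℝ)
    (hν : ν (Set.Icc (-R) R)ᶜ = 0) :
    ∀ᵐ v ∂(Measure.pi fun _ : ι => ν), (fun q => clamp R (v q)) = v := by
  filter_upwards [ae_mem ν R hν] with v hv
  funext q
  unfold clamp
  rw [min_eq_right (hv q).2, max_eq_right (hv q).1]

theorem int_cont {ι : Type} [Fintype ι] {E : Type} [NormedAddCommGroup E] (ν : Measure ℝ)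
    [IsProbabilityMeasure ν] (R : ℝ) (hν : ν (Set.Icc (-R) R)ᶜ = 0) (Φ : (ι → ℝ) → E)
    (hΦ : Continuous Φ) : Integrable Φ (Measure.pi fun _ : ι => ν) := by
  have hK : IsCompact (Set.univ.pi fun _ : ι => Set.Icc (-R) R) :=
    isCompact_univ_pi fun _ => isCompact_Icc
  obtain ⟨C, hC⟩ := hK.exists_bound_of_continuousOn hΦ.continuousOn
  refine Integrable.of_bound hΦ.aestronglyMeasurable C ?_
  filter_upwards [ae_mem ν R hν] with v hv
  exact hC v (fun i _ => hv i)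

theorem key (p2 : S_P2) (gRR : S_GR) (ti : S_TI) {Q : Type} [AddCommGroup Q] [Fintype Q]
    [DecidableEq Q] (κ : Q → ℂ) (hκ : ∀ x, κ (-x) = (starRingEnd ℂ) (κ x)) (s R : ℝ)
    (hs : 0 < s) (hR0 : 0 < R) {J : Type} [Fintype J] [DecidableEq J] (A : Matrix J J ℂ)
    (hA : A.IsHermitian) (p : J) (ν : Measure ℝ) [IsProbabilityMeasure ν]
    (hν : ν (Set.Icc (-R) R)ᶜ = 0) (z : ℂ) (hz : 0 < z.im) (a : ℝ) (ha : 0 < a) :
    ∫ v, ((gr κ A v z p 0 0).im) ^ 2 ∂(pm Q J ν) ≤ a / z.im + 1 / (a * s ^ 2) *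
      (∫ v, (gr κ A v z p 0 0).im ∂(pm Q J ν) + (1 / z.im) *
        (∫ v, e1 (hL s κ A ν v z p) ∂(pm Q J ν) + ∫ v, e1 (hR s κ A ν v z p) ∂(pm Q J ν))) := by
  obtain ⟨g1, g2, g3, g4, g5, g6⟩ := gRR Q J κ hκ A hA p
  have : Nonempty Q := ⟨0⟩
  have : IsProbabilityMeasure (pm Q J ν) := by
    unfold pm
    infer_instance
  have hint : ∀ (Φ : (Q × J → ℝ) → ℝ), Continuous Φ → Integrable Φ (pm Q J ν) :=
    fun Φ hΦ => int_cont ν R hν Φ hΦ
  have hcc : Continuous (fun (v : Q × J → ℝ) (q : Q × J) => clamp R (v q)) := by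
    unfold clamp
    fun_prop
  have hae : ∀ᵐ v ∂(pm Q J ν), (fun q => clamp R (v q)) = v := ae_clamp ν R hν
  have hG : Continuous fun v : Q × J → ℝ => gr κ A v z p := g3 z hz.ne'
  have hGe : ∀ x y, Continuous fun v : Q × J → ℝ => gr κ A v z p x y := fun x y =>
    hG.matrix_elem x y
  have hkey := p2 Q (Q × J → ℝ) (pm Q J ν) (fun v => dd κ (fun q => clamp R (v q)) p)
    (fun v => gr κ A (fun q => clamp R (v q)) z p) s z hs hz
    (fun x y => by
      refine Continuous.measurable ?_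
      show Continuous fun v : Q × J → ℝ => κ (x - y) +
        (if x = y then ((clamp R (v (x, p)) : ℝ) : ℂ) else 0)
      by_cases hxy : x = y
      · simp only [hxy, if_true]
        unfold clamp
        fun_prop
      · simp only [hxy, if_false]
        fun_prop)
    (fun x y => ((hGe x y).comp hcc).measurable)
    ⟨Fintype.card Q * ((∑ x, ‖κ x‖) + R), fun v => opB_of_entry fun x y => by
      show ‖κ (x - y) + (if x = y then ((clamp R (v (x, p)) : ℝ) : ℂ) else 0)‖ ≤ _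
      refine (norm_add_le _ _).trans (add_le_add ?_ ?_)
      · exact Finset.single_le_sum (f := fun x => ‖κ x‖) (fun _ _ => norm_nonneg _)
          (Finset.mem_univ _)
      · by_cases hxy : x = y
        · rw [if_pos hxy, Complex.norm_real, Real.norm_eq_abs, abs_le]
          unfold clamp
          exact ⟨le_max_left _ _, max_le (by linarith) (min_le_left _ _)⟩
        · rw [if_neg hxy, norm_zero]
          exact hR0.le⟩
    (fun v => g2 _) (fun v => (g4 z hz _).1) (fun v => (g4 z hz _).2.1)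
    (fun v => (g4 z hz _).2.2) (mg κ A ν z p)
    (fun x y => integral_congr_ae (hae.mono fun v hv => by
      show gr κ A (fun q => clamp R (v q)) z p x y = gr κ A v z p x y
      rw [hv])) a ha
  have c1 : ∫ v, e1 (1 - (dd κ (fun q => clamp R (v q)) p - z • (1 : Matrix Q Q ℂ)
      - ((s ^ 2 : ℝ) : ℂ) • mg κ A ν z p) * gr κ A (fun q => clamp R (v q)) z p) ∂(pm Q J ν)
      = ∫ v, e1 (hL s κ A ν v z p) ∂(pm Q J ν) :=
    integral_congr_ae (hae.mono fun v hv => by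
      simp only [hv]
      rfl)
  have c2 : ∫ v, e1 (1 - gr κ A (fun q => clamp R (v q)) z p *
      (dd κ (fun q => clamp R (v q)) p - z • (1 : Matrix Q Q ℂ)
      - ((s ^ 2 : ℝ) : ℂ) • mg κ A ν z p)) ∂(pm Q J ν)
      = ∫ v, e1 (hR s κ A ν v z p) ∂(pm Q J ν) :=
    integral_congr_ae (hae.mono fun v hv => by
      simp only [hv]
      rfl)
  have c3 : ∫ v, ∑ x, (gr κ A (fun q => clamp R (v q)) z p x x).im ∂(pm Q J ν)
      = Fintype.card Q * ∫ v, (gr κ A v z p 0 0).im ∂(pm Q J ν) := by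
    have e1 : ∫ v, ∑ x, (gr κ A (fun q => clamp R (v q)) z p x x).im ∂(pm Q J ν)
        = ∫ v, ∑ x, (gr κ A v z p x x).im ∂(pm Q J ν) :=
      integral_congr_ae (hae.mono fun v hv => by simp only [hv])
    have i0 : ∀ x, Continuous fun v : Q × J → ℝ => (gr κ A v z p x x).im := fun x =>
      Complex.continuous_im.comp (hGe x x)
    rw [e1, integral_finsetSum _ fun x _ => hint _ (i0 x)]
    have e2 : ∀ x, ∫ v, (gr κ A v z p x x).im ∂(pm Q J ν)
        = ∫ v, (gr κ A v z p 0 0).im ∂(pm Q J ν) :=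
      fun x => ti Q J κ A p ν Complex.im z x
    simp only [e2]
    rw [Finset.sum_const, Finset.card_univ, nsmul_eq_mul]
  have c4 : Fintype.card Q * ∫ v, ((gr κ A v z p 0 0).im) ^ 2 ∂(pm Q J ν) ≤
      ∫ v, ∑ x, ∑ y, ‖imM (gr κ A (fun q => clamp R (v q)) z p) x y‖ ^ 2 ∂(pm Q J ν) := by
    have e1 : ∫ v, ∑ x, ∑ y, ‖imM (gr κ A (fun q => clamp R (v q)) z p) x y‖ ^ 2 ∂(pm Q J ν)
        = ∫ v, ∑ x, ∑ y, ‖imM (gr κ A v z p) x y‖ ^ 2 ∂(pm Q J ν) :=
      integral_congr_ae (hae.mono fun v hv => by simp only [hv])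
    have e2 : ∀ x, ∫ v, ((gr κ A v z p x x).im) ^ 2 ∂(pm Q J ν)
        = ∫ v, ((gr κ A v z p 0 0).im) ^ 2 ∂(pm Q J ν) :=
      fun x => ti Q J κ A p ν (fun w => w.im ^ 2) z x
    have e3 : ∑ x : Q, ∫ v, ((gr κ A v z p x x).im) ^ 2 ∂(pm Q J ν)
        = Fintype.card Q * ∫ v, ((gr κ A v z p 0 0).im) ^ 2 ∂(pm Q J ν) := by
      simp only [e2]
      rw [Finset.sum_const, Finset.card_univ, nsmul_eq_mul]
    have i1 : ∀ x, Continuous fun v : Q × J → ℝ => ((gr κ A v z p x x).im) ^ 2 := fun x =>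
      (Complex.continuous_im.comp (hGe x x)).pow 2
    have i2 : Continuous fun v : Q × J → ℝ => imM (gr κ A v z p) := by
      unfold imM
      exact Continuous.const_smul (g := fun v : Q × J → ℝ => gr κ A v z p -
        (gr κ A v z p).conjTranspose) (hG.sub hG.matrix_conjTranspose) (1 / (2 * Complex.I))
    have i3 : Continuous fun v : Q × J → ℝ => ∑ x, ∑ y, ‖imM (gr κ A v z p) x y‖ ^ 2 :=
      continuous_finsetSum _ fun x _ => continuous_finsetSum _ fun y _ =>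
        (i2.matrix_elem x y).norm.pow 2
    rw [e1, ← e3, ← integral_finsetSum _ fun x _ => hint _ (i1 x)]
    refine integral_mono (hint _ (continuous_finsetSum _ fun x _ => i1 x)) (hint _ i3)
      fun v => ?_
    show ∑ x, ((gr κ A v z p x x).im) ^ 2 ≤ ∑ x, ∑ y, ‖imM (gr κ A v z p) x y‖ ^ 2
    refine Finset.sum_le_sum fun x _ => ?_
    have e4 : ((gr κ A v z p x x).im) ^ 2 = ‖imM (gr κ A v z p) x x‖ ^ 2 := by
      rw [imM_diag, Complex.norm_real, Real.norm_eq_abs, sq_abs]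
    rw [e4]
    exact Finset.single_le_sum (f := fun y => ‖imM (gr κ A v z p) x y‖ ^ 2)
      (fun _ _ => sq_nonneg _) (Finset.mem_univ x)
  rw [c1, c2, c3] at hkey
  have hN : (0 : ℝ) < Fintype.card Q := by exact_mod_cast Fintype.card_pos
  rw [mul_div_cancel_left₀ _ hN.ne'] at hkey
  refine le_trans ?_ hkey
  rw [le_div_iff₀ hN, mul_comm]
  exact c4

end FM

open FM in
theorem main_FM : S_P2 → S_ALLZ → S_GRID → S_GR → S_TI → S_FM := by
  intro p2 allz grid gRR ti Q _ _ _ κ hκ s R η B ε hs hR0 hη hη1 hB hε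
  have hB1 : 0 < B + 1 := by linarith
  obtain ⟨T, hT⟩ : ∃ T, T = Real.sqrt ((B + 1) * η) := ⟨_, rfl⟩
  have hTpos : 0 < T := by
    rw [hT]
    exact Real.sqrt_pos.2 (by positivity)
  have hT2 : T ^ 2 = (B + 1) * η := by
    rw [hT]
    exact Real.sq_sqrt (by positivity)
  rw [← hT]
  obtain ⟨a, ha⟩ : ∃ a, a = T / (s * (B + 1)) := ⟨_, rfl⟩
  have hapos : 0 < a := by
    rw [ha]
    positivity
  obtain ⟨ε₁, hε₁⟩ : ∃ ε₁, ε₁ = ε * a * s ^ 2 / (6 * (B + 1)) := ⟨_, rfl⟩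
  have hε₁pos : 0 < ε₁ := by
    rw [hε₁]
    positivity
  have hz : ∀ k : ℤ, 0 < (zk η k).im := fun k => hη
  choose δf nf hδ hmain using fun k : ℤ => allz Q κ hκ s R hs hR0 (zk η k) (hz k) ε₁ hε₁pos
  obtain ⟨m, hm⟩ : ∃ m : ℤ, m = ⌈B / η⌉ := ⟨_, rfl⟩
  obtain ⟨δ, hδ0, hδ1⟩ := exists_pos (Finset.Icc (-m) m) δf hδ
  refine ⟨δ, (Finset.Icc (-m) m).sup nf, hδ0, ?_⟩
  intro J _ _ A p ν _ hν hA
  have hA1 : A.IsHermitian := hA.1
  obtain ⟨g1, g2, g3, g4, g5, g6⟩ := gRR Q J κ hκ A hA1 p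
  have : IsProbabilityMeasure (pm Q J ν) := by
    unfold pm
    infer_instance
  have hint : ∀ (Φ : (Q × J → ℝ) → ℝ), Continuous Φ → Integrable Φ (pm Q J ν) :=
    fun Φ hΦ => int_cont ν R hν Φ hΦ
  have hGe : ∀ k : ℤ, Continuous fun v : Q × J → ℝ => (gr κ A v (zk η k) p 0 0).im := fun k =>
    Complex.continuous_im.comp ((g3 (zk η k) (hz k).ne').matrix_elem 0 0)
  have hGe2 : ∀ k : ℤ, Continuous fun v : Q × J → ℝ => ((gr κ A v (zk η k) p 0 0).im) ^ 2 :=
    fun k => (hGe k).pow 2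
  have hstep : ∀ k ∈ Finset.Icc (-m) m, ∫ v, ((gr κ A v (zk η k) p 0 0).im) ^ 2 ∂(pm Q J ν) ≤
      (a / η + 1 / (a * s ^ 2) * ((1 / η) * (ε₁ + ε₁))) +
        1 / (a * s ^ 2) * ∫ v, (gr κ A v (zk η k) p 0 0).im ∂(pm Q J ν) := by
    intro k hk
    have hk1 := key p2 gRR ti κ hκ s R hs hR0 A hA1 p ν hν (zk η k) (hz k) a hapos
    have hk2 := hmain k J A p ν hν (adm_mono hA (hδ1 k hk) (Finset.le_sup hk))
    rw [show (zk η k).im = η from rfl] at hk1
    refine hk1.trans ?_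
    have h1 : (1 / η) * (∫ v, e1 (hL s κ A ν v (zk η k) p) ∂(pm Q J ν)
        + ∫ v, e1 (hR s κ A ν v (zk η k) p) ∂(pm Q J ν)) ≤ (1 / η) * (ε₁ + ε₁) :=
      mul_le_mul_of_nonneg_left (add_le_add hk2.1 hk2.2) (by positivity)
    have h2 : 0 ≤ 1 / (a * s ^ 2) := by positivity
    have h3 := mul_le_mul_of_nonneg_left h1 h2
    linarith
  have hsum : ∑ k ∈ Finset.Icc (-m) m, ∫ v, (gr κ A v (zk η k) p 0 0).im ∂(pm Q J ν)
      ≤ 5 / η := by
    rw [← integral_finsetSum _ fun k _ => hint _ (hGe k)]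
    have h1 : ∫ v, ∑ k ∈ Finset.Icc (-m) m, (gr κ A v (zk η k) p 0 0).im ∂(pm Q J ν)
        ≤ ∫ v : Q × J → ℝ, (5 / η) ∂(pm Q J ν) := by
      refine integral_mono (hint _ (continuous_finsetSum _ fun k _ => hGe k))
        (integrable_const _) fun v => ?_
      exact (grid (Q × J) (ham κ A v) (g1 v) η hη m (0, p)).2
    refine h1.trans (le_of_eq ?_)
    rw [integral_const]
    simp
  have hQ : ∫ v, Qf κ A η B v p ∂(pm Q J ν) = η ^ 2 * ∑ k ∈ Finset.Icc (-m) m,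
      ∫ v, ((gr κ A v (zk η k) p 0 0).im) ^ 2 ∂(pm Q J ν) := by
    unfold Qf
    rw [← hm, integral_const_mul, integral_finsetSum _ fun k _ => hint _ (hGe2 k)]
  have hm0 : 0 ≤ m := by
    rw [hm]
    exact Int.ceil_nonneg (by positivity)
  have hm1 : (m : ℝ) ≤ B / η + 1 := by
    rw [hm]
    exact (Int.ceil_lt_add_one _).le
  have hcard : ((Finset.Icc (-m) m).card : ℝ) = 2 * m + 1 := by
    rw [Int.card_Icc]
    have h1 : ((m + 1 - -m).toNat : ℤ) = 2 * m + 1 := by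
      rw [Int.toNat_of_nonneg (by linarith)]
      ring
    exact_mod_cast h1
  have hηc : η * (2 * m + 1) ≤ 3 * (B + 1) := by
    have h1 : η * (2 * m + 1) ≤ η * (2 * (B / η + 1) + 1) :=
      mul_le_mul_of_nonneg_left (by linarith) hη.le
    have h2 : η * (2 * (B / η + 1) + 1) = 2 * B + 3 * η := by
      field_simp
      ring
    rw [h2] at h1
    linarith
  have hηc0 : 0 ≤ η * (2 * (m : ℝ) + 1) := by
    have : (0 : ℝ) ≤ m := by exact_mod_cast hm0
    positivity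
  have htot := Finset.sum_le_sum hstep
  rw [Finset.sum_add_distrib, ← Finset.mul_sum, Finset.sum_const, nsmul_eq_mul, hcard] at htot
  have h5 : 1 / (a * s ^ 2) * ∑ k ∈ Finset.Icc (-m) m,
      ∫ v, (gr κ A v (zk η k) p 0 0).im ∂(pm Q J ν) ≤ 1 / (a * s ^ 2) * (5 / η) :=
    mul_le_mul_of_nonneg_left hsum (by positivity)
  rw [hQ]
  have h6 := mul_le_mul_of_nonneg_left (htot.trans (add_le_add_right h5 _)) (sq_nonneg η)
  refine h6.trans ?_
  have h7 : η ^ 2 * ((2 * (m : ℝ) + 1) * (a / η + 1 / (a * s ^ 2) * ((1 / η) * (ε₁ + ε₁))) +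
      1 / (a * s ^ 2) * (5 / η)) = (η * (2 * m + 1)) * (a + 2 * ε₁ / (a * s ^ 2)) +
      5 * η / (a * s ^ 2) := by
    field_simp
    ring
  rw [h7]
  have h8 : (η * (2 * (m : ℝ) + 1)) * (a + 2 * ε₁ / (a * s ^ 2)) ≤
      (3 * (B + 1)) * (a + 2 * ε₁ / (a * s ^ 2)) :=
    mul_le_mul_of_nonneg_right hηc (by positivity)
  have h9 : (3 * (B + 1)) * (a + 2 * ε₁ / (a * s ^ 2)) = 3 * T / s + ε := by
    rw [hε₁]
    have h10 : (3 * (B + 1)) * a = 3 * T / s := by
      rw [ha]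
      field_simp
    have h11 : (3 * (B + 1)) * (2 * (ε * a * s ^ 2 / (6 * (B + 1))) / (a * s ^ 2)) = ε := by
      field_simp
      ring
    rw [mul_add, h10, h11]
  have h12 : 5 * η / (a * s ^ 2) = 5 * T / s := by
    rw [ha]
    field_simp
    rw [hT2]
    ring
  have h13 : 0 ≤ T / s := by positivity
  have h14 : 3 * T / s = 3 * (T / s) := by ring
  have h15 : 5 * T / s = 5 * (T / s) := by ring
  have h16 : 10 / s * T = 10 * (T / s) := by ring
  rw [h9, h14] at h8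
  rw [h12, h15, h16]
  linarith

end

end Pool.Agent.Q156.GK
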