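import Pool.Agent.Q156.GK.Stm

/-!
Project GK, job FP (helper299): the fixed point `g = E (D - z - s² g)⁻¹` for large `z`.
-/

set_option autoImplicit false
set_option linter.unusedSectionVars false

namespace Pool.Agent.Q156.GK

open Pool.Agent.W792.GK MeasureTheory
open scoped Matrix.Norms.L2Operator

noncomputable section

namespace FP

variable {Q : Type} [Fintype Q] [DecidableEq Q] {Ω : Type} [MeasurableSpace Ω] (μ : Measure Ω)
  [IsProbabilityMeasure μ]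

theorem one_norm_le : ‖(1 : Matrix Q Q ℂ)‖ ≤ 1 := by
  refine (opB_iff (1 : Matrix Q Q ℂ) zero_le_one).1 fun u => ?_
  simp

theorem bdd_int {f : Ω → ℂ} (hf : Measurable f) {K : ℝ} (hb : ∀ w, ‖f w‖ ≤ K) : Integrable f μ :=
  Integrable.of_bound hf.aestronglyMeasurable K (Filter.Eventually.of_forall hb)

theorem sq_int_le {f : Ω → ℂ} (hf : Measurable f) {K : ℝ} (hb : ∀ w, ‖f w‖ ≤ K) :
    ‖∫ w, f w ∂μ‖ ^ 2 ≤ ∫ w, ‖f w‖ ^ 2 ∂μ := by
  have h1 : Integrable (fun w => ‖f w‖) μ := (bdd_int μ hf hb).norm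
  have h2 : Integrable (fun w => ‖f w‖ ^ 2) μ := by
    refine Integrable.of_bound (hf.norm.pow_const 2).aestronglyMeasurable (K ^ 2)
      (Filter.Eventually.of_forall fun w => ?_)
    rw [Real.norm_of_nonneg (sq_nonneg _)]
    exact pow_le_pow_left₀ (norm_nonneg _) (hb w) 2
  set m : ℝ := ∫ w, ‖f w‖ ∂μ with hm
  have h3 : 0 ≤ ∫ w, (‖f w‖ - m) ^ 2 ∂μ := integral_nonneg fun w => sq_nonneg _
  have h4 : ∫ w, (‖f w‖ - m) ^ 2 ∂μ = (∫ w, ‖f w‖ ^ 2 ∂μ) - m ^ 2 := by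
    have e1 : ∀ w, (‖f w‖ - m) ^ 2 = ‖f w‖ ^ 2 - 2 * m * ‖f w‖ + m ^ 2 := fun w => by ring
    simp only [e1]
    have i2 : Integrable (fun w => 2 * m * ‖f w‖) μ := h1.const_mul _
    have i1 : Integrable (fun w => ‖f w‖ ^ 2 - 2 * m * ‖f w‖) μ := h2.sub i2
    rw [integral_add i1 (integrable_const _), integral_sub h2 i2, integral_const_mul, ← hm,
      integral_const]
    simp
    ring
  have h5 : ‖∫ w, f w ∂μ‖ ≤ m := norm_integral_le_integral_norm _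
  have h6 : ‖∫ w, f w ∂μ‖ ^ 2 ≤ m ^ 2 := pow_le_pow_left₀ (norm_nonneg _) h5 2
  linarith

/-- the operator norm of the mean -/
theorem int_opB {X : Ω → Matrix Q Q ℂ} (hX : ∀ x y, Measurable fun w => X w x y) {c : ℝ}
    (hc : 0 ≤ c) (hb : ∀ w, OpB (X w) c) : OpB (fun x y => ∫ w, X w x y ∂μ : Matrix Q Q ℂ) c := by
  intro u
  have hent : ∀ x y w, ‖X w x y‖ ≤ c := fun x y w => norm_entry_le hc (hb w) x y
  have hmv : ∀ x, Measurable fun w => ((X w).mulVec u) x := by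
    intro x
    show Measurable fun w => ∑ y, X w x y * u y
    exact Finset.measurable_fun_sum _ fun y _ => (hX x y).mul_const _
  have hmb : ∀ x w, ‖((X w).mulVec u) x‖ ≤ ∑ y, c * ‖u y‖ := by
    intro x w
    show ‖∑ y, X w x y * u y‖ ≤ _
    refine norm_sum_le_of_le _ fun y _ => ?_
    rw [norm_mul]
    exact mul_le_mul_of_nonneg_right (hent x y w) (norm_nonneg _)
  have e1 : ∀ x, (Matrix.mulVec (fun x y => ∫ w, X w x y ∂μ : Matrix Q Q ℂ) u) x =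
      ∫ w, ((X w).mulVec u) x ∂μ := by
    intro x
    show ∑ y, (∫ w, X w x y ∂μ) * u y = ∫ w, ∑ y, X w x y * u y ∂μ
    rw [integral_finsetSum _ fun y _ => ?_]
    · refine Finset.sum_congr rfl fun y _ => ?_
      rw [integral_mul_const]
    · exact (bdd_int μ (hX x y) (hent x y)).mul_const _
  calc ∑ x, ‖(Matrix.mulVec (fun x y => ∫ w, X w x y ∂μ : Matrix Q Q ℂ) u) x‖ ^ 2
      = ∑ x, ‖∫ w, ((X w).mulVec u) x ∂μ‖ ^ 2 := by simp only [e1]
    _ ≤ ∑ x, ∫ w, ‖((X w).mulVec u) x‖ ^ 2 ∂μ :=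
        Finset.sum_le_sum fun x _ => sq_int_le μ (hmv x) (hmb x)
    _ = ∫ w, ∑ x, ‖((X w).mulVec u) x‖ ^ 2 ∂μ := by
        rw [integral_finsetSum]
        intro x _
        refine Integrable.of_bound ((hmv x).norm.pow_const 2).aestronglyMeasurable
          ((∑ y, c * ‖u y‖) ^ 2) (Filter.Eventually.of_forall fun w => ?_)
        rw [Real.norm_of_nonneg (sq_nonneg _)]
        exact pow_le_pow_left₀ (norm_nonneg _) (hmb x w) 2
    _ ≤ ∫ _, c ^ 2 * ∑ i, ‖u i‖ ^ 2 ∂μ := by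
        refine integral_mono_of_nonneg (Filter.Eventually.of_forall fun w =>
          Finset.sum_nonneg fun x _ => sq_nonneg _) (integrable_const _)
          (Filter.Eventually.of_forall fun w => hb w u)
    _ = _ := by simp

theorem det_meas {n : Type} [Fintype n] [DecidableEq n] {X : Ω → Matrix n n ℂ}
    (hX : ∀ x y, Measurable fun w => X w x y) : Measurable fun w => (X w).det := by
  simp only [Matrix.det_apply]
  refine Finset.measurable_fun_sum _ fun σ _ => ?_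
  exact (Finset.measurable_fun_prod _ fun i _ => hX (σ i) i).const_smul _

theorem inv_meas {X : Ω → Matrix Q Q ℂ} (hX : ∀ x y, Measurable fun w => X w x y) (x y : Q) :
    Measurable fun w => ((X w)⁻¹) x y := by
  have e : ∀ w, ((X w)⁻¹) x y = ((X w).det)⁻¹ * ((X w).updateRow y (Pi.single x 1)).det := by
    intro w
    rw [Matrix.inv_def, Matrix.smul_apply, Ring.inverse_eq_inv', smul_eq_mul, Matrix.adjugate_apply]
  simp only [e]
  refine (det_meas hX).inv.mul (det_meas fun a b => ?_)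
  by_cases h : a = y
  · subst h
    simp only [Matrix.updateRow_self]
    exact measurable_const
  · simp only [Matrix.updateRow_ne h]
    exact hX a b

/-- invertibility and bound -/
theorem inv_bound {C s : ℝ} (hC : 0 ≤ C) (hs : 0 < s) {z : ℂ} (hz : 8 * (C + s + 1) ≤ ‖z‖)
    {D g : Matrix Q Q ℂ} (hD : OpB D C) (hg : ‖g‖ ≤ 2 / ‖z‖) :
    (D - z • (1 : Matrix Q Q ℂ) - ((s ^ 2 : ℝ) : ℂ) • g) *
      (D - z • (1 : Matrix Q Q ℂ) - ((s ^ 2 : ℝ) : ℂ) • g)⁻¹ = 1 ∧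
    (D - z • (1 : Matrix Q Q ℂ) - ((s ^ 2 : ℝ) : ℂ) • g)⁻¹ *
      (D - z • (1 : Matrix Q Q ℂ) - ((s ^ 2 : ℝ) : ℂ) • g) = 1 ∧
    ‖(D - z • (1 : Matrix Q Q ℂ) - ((s ^ 2 : ℝ) : ℂ) • g)⁻¹‖ ≤ 2 / ‖z‖ := by
  have hzn : 0 < ‖z‖ := by linarith
  have hz0 : z ≠ 0 := norm_pos_iff.1 hzn
  set M : Matrix Q Q ℂ := D - z • (1 : Matrix Q Q ℂ) - ((s ^ 2 : ℝ) : ℂ) • g with hM
  set N : Matrix Q Q ℂ := z⁻¹ • (D - ((s ^ 2 : ℝ) : ℂ) • g) with hN
  have hMN : M = (-z) • (1 - N) := by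
    rw [hN, smul_sub, smul_smul, neg_mul, mul_inv_cancel₀ hz0, hM]
    simp only [neg_smul, one_smul]
    abel
  have hNn : ‖N‖ ≤ 1 / 8 := by
    have h1 : ‖D - ((s ^ 2 : ℝ) : ℂ) • g‖ ≤ C + s ^ 2 * (2 / ‖z‖) := by
      refine (norm_sub_le _ _).trans (add_le_add (OpB.norm_le hD hC) ?_)
      refine (norm_smul_le _ _).trans ?_
      rw [Complex.norm_real, Real.norm_of_nonneg (by positivity)]
      exact mul_le_mul_of_nonneg_left hg (by positivity)
    have h2 : s ^ 2 * (2 / ‖z‖) ≤ s := by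
      rw [mul_div_assoc', div_le_iff₀ hzn]
      nlinarith
    calc ‖N‖ ≤ ‖z⁻¹‖ * ‖D - ((s ^ 2 : ℝ) : ℂ) • g‖ := norm_smul_le _ _
      _ ≤ ‖z‖⁻¹ * (C + s) := by
          rw [norm_inv]
          exact mul_le_mul_of_nonneg_left (h1.trans (by linarith)) (by positivity)
      _ ≤ 1 / 8 := by
          rw [inv_mul_eq_div, div_le_div_iff₀ hzn (by norm_num)]
          linarith
  have : CompleteSpace (Matrix Q Q ℂ) := FiniteDimensional.complete ℂ _
  have hU1 : IsUnit (1 - N) := isUnit_one_sub_of_norm_lt_one (by linarith)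
  have hU : IsUnit M := by
    rw [hMN]
    have : IsUnit ((-z) • (1 : Matrix Q Q ℂ)) := by
      refine ⟨⟨(-z) • 1, (-z)⁻¹ • 1, ?_, ?_⟩, rfl⟩
      · rw [smul_mul_smul_comm, mul_inv_cancel₀ (neg_ne_zero.2 hz0), one_mul, one_smul]
      · rw [smul_mul_smul_comm, inv_mul_cancel₀ (neg_ne_zero.2 hz0), one_mul, one_smul]
    have h := this.mul hU1
    rwa [smul_mul_assoc, one_mul] at h
  have hdet := (Matrix.isUnit_iff_isUnit_det M).1 hU
  have h1 : M * M⁻¹ = 1 := Matrix.mul_nonsing_inv M hdet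
  refine ⟨h1, Matrix.nonsing_inv_mul M hdet, ?_⟩
  have h2 : M⁻¹ = N * M⁻¹ - z⁻¹ • 1 := by
    have h3 : z⁻¹ • (M * M⁻¹) = z⁻¹ • (1 : Matrix Q Q ℂ) := by rw [h1]
    have h4 : z⁻¹ • (M * M⁻¹) = -(M⁻¹ - N * M⁻¹) := by
      nth_rewrite 1 [hMN]
      rw [smul_mul_assoc, smul_smul, mul_neg, inv_mul_cancel₀ hz0, sub_mul, one_mul, neg_smul,
        one_smul]
    rw [← h3, h4]
    abel
  have h5 : ‖M⁻¹‖ ≤ ‖N‖ * ‖M⁻¹‖ + ‖z‖⁻¹ := by
    calc ‖M⁻¹‖ = ‖N * M⁻¹ - z⁻¹ • 1‖ := by rw [← h2]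
      _ ≤ ‖N * M⁻¹‖ + ‖z⁻¹ • (1 : Matrix Q Q ℂ)‖ := norm_sub_le _ _
      _ ≤ ‖N‖ * ‖M⁻¹‖ + ‖z⁻¹‖ * ‖(1 : Matrix Q Q ℂ)‖ :=
          add_le_add (norm_mul_le _ _) (norm_smul_le _ _)
      _ ≤ ‖N‖ * ‖M⁻¹‖ + ‖z‖⁻¹ := by
          rw [norm_inv]
          have := mul_le_mul_of_nonneg_left (one_norm_le (Q := Q)) (inv_nonneg.2 (norm_nonneg z))
          linarith
  have h6 : ‖N‖ * ‖M⁻¹‖ ≤ 1 / 8 * ‖M⁻¹‖ := mul_le_mul_of_nonneg_right hNn (norm_nonneg _)
  rw [div_eq_mul_inv]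
  have h7 : 0 < ‖z‖⁻¹ := by positivity
  linarith

end FP

open Pool.Agent.Q156.GK.FP in
theorem main_FP : S_FP := by
  intro Q _ _ C s hC hs z hz Ω _ μ _ D hDm hD
  have hzn : 0 < ‖z‖ := by linarith
  set r : ℝ := 2 / ‖z‖ with hr
  have hr0 : 0 ≤ r := by positivity
  set Y : Matrix Q Q ℂ → Ω → Matrix Q Q ℂ :=
    fun g w => (D w - z • (1 : Matrix Q Q ℂ) - ((s ^ 2 : ℝ) : ℂ) • g)⁻¹ with hY
  set Ψ : Matrix Q Q ℂ → Matrix Q Q ℂ := fun g x y => ∫ w, Y g w x y ∂μ with hΨ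
  have hYm : ∀ g x y, Measurable fun w => Y g w x y := by
    intro g x y
    refine inv_meas (fun a b => ?_) x y
    exact ((hDm a b).sub_const _).sub_const _
  have hYb : ∀ g, ‖g‖ ≤ r → ∀ w, OpB (Y g w) r := fun g hg w =>
    (opB_iff _ hr0).2 (inv_bound hC hs hz (hD w) hg).2.2
  have hΨb : ∀ g, ‖g‖ ≤ r → ‖Ψ g‖ ≤ r := fun g hg =>
    (opB_iff _ hr0).1 (int_opB μ (hYm g) hr0 (hYb g hg))
  have hΨc : ∀ g h, ‖g‖ ≤ r → ‖h‖ ≤ r → ‖Ψ g - Ψ h‖ ≤ 1 / 2 * ‖g - h‖ := by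
    intro g h hg hh
    have e1 : Ψ g - Ψ h = (fun x y => ∫ w, (Y g w - Y h w) x y ∂μ : Matrix Q Q ℂ) := by
      ext x y
      show (∫ w, Y g w x y ∂μ) - ∫ w, Y h w x y ∂μ = ∫ w, (Y g w x y - Y h w x y) ∂μ
      rw [integral_sub (bdd_int μ (hYm g x y) fun w => norm_entry_le hr0 (hYb g hg w) x y)
        (bdd_int μ (hYm h x y) fun w => norm_entry_le hr0 (hYb h hh w) x y)]
    rw [e1]
    refine (opB_iff _ (by positivity)).1 (int_opB μ (fun x y => ?_) (by positivity) fun w => ?_)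
    · exact (hYm g x y).sub (hYm h x y)
    · rw [opB_iff _ (by positivity)]
      have b1 := inv_bound hC hs hz (hD w) hg
      have b2 := inv_bound hC hs hz (hD w) hh
      have e2 : Y g w - Y h w = Y g w * (((s ^ 2 : ℝ) : ℂ) • (g - h)) * Y h w := by
        have e3 : ((s ^ 2 : ℝ) : ℂ) • (g - h) =
            (D w - z • (1 : Matrix Q Q ℂ) - ((s ^ 2 : ℝ) : ℂ) • h) -
              (D w - z • (1 : Matrix Q Q ℂ) - ((s ^ 2 : ℝ) : ℂ) • g) := by
          rw [smul_sub]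
          abel
        rw [e3, mul_sub, sub_mul]
        have e4 : Y g w * (D w - z • (1 : Matrix Q Q ℂ) - ((s ^ 2 : ℝ) : ℂ) • g) = 1 := b1.2.1
        have e5 : (D w - z • (1 : Matrix Q Q ℂ) - ((s ^ 2 : ℝ) : ℂ) • h) * Y h w = 1 := b2.1
        rw [mul_assoc (Y g w), e5, e4, mul_one, one_mul]
      rw [e2]
      have n1 : ‖Y g w‖ ≤ r := b1.2.2
      have n2 : ‖Y h w‖ ≤ r := b2.2.2
      have n3 : ‖((s ^ 2 : ℝ) : ℂ) • (g - h)‖ ≤ s ^ 2 * ‖g - h‖ := by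
        refine (norm_smul_le _ _).trans ?_
        rw [Complex.norm_real, Real.norm_of_nonneg (by positivity)]
      calc ‖Y g w * (((s ^ 2 : ℝ) : ℂ) • (g - h)) * Y h w‖
          ≤ ‖Y g w‖ * ‖((s ^ 2 : ℝ) : ℂ) • (g - h)‖ * ‖Y h w‖ :=
            (norm_mul_le _ _).trans (mul_le_mul_of_nonneg_right (norm_mul_le _ _) (norm_nonneg _))
        _ ≤ r * (s ^ 2 * ‖g - h‖) * r := by gcongr
        _ = (r * s) ^ 2 * ‖g - h‖ := by ring
        _ ≤ 1 / 2 * ‖g - h‖ := by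
            refine mul_le_mul_of_nonneg_right ?_ (norm_nonneg _)
            have h1 : r * s ≤ 1 / 2 := by
              rw [hr, div_mul_eq_mul_div, div_le_div_iff₀ hzn (by norm_num)]
              linarith
            have h2 : 0 ≤ r * s := by positivity
            nlinarith
  have : CompleteSpace (Matrix Q Q ℂ) := FiniteDimensional.complete ℂ _
  have hmaps : Set.MapsTo Ψ (Metric.closedBall 0 r) (Metric.closedBall 0 r) := by
    intro g hg
    rw [mem_closedBall_zero_iff] at hg ⊢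
    exact hΨb g hg
  have hcon : ContractingWith (1 / 2) (hmaps.restrict Ψ _ _) := by
    refine ⟨by
      rw [← NNReal.coe_lt_coe]
      push_cast
      norm_num, ?_⟩
    refine LipschitzWith.of_dist_le_mul fun g h => ?_
    have hg := mem_closedBall_zero_iff.1 g.2
    have hh := mem_closedBall_zero_iff.1 h.2
    have := hΨc g.1 h.1 hg hh
    rw [Subtype.dist_eq, Subtype.dist_eq, dist_eq_norm, dist_eq_norm]
    push_cast
    exact this
  obtain ⟨g, hgs, hfix, -⟩ := ContractingWith.exists_fixedPoint'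
    (Metric.isClosed_closedBall (x := (0 : Matrix Q Q ℂ)) (ε := r)).isComplete hmaps hcon
    (Metric.mem_closedBall_self hr0) (edist_ne_top _ _)
  have hg : ‖g‖ ≤ r := mem_closedBall_zero_iff.1 hgs
  refine ⟨g, Y g, hYm g, (opB_iff _ hr0).2 hg, hYb g hg,
    fun w => (inv_bound hC hs hz (hD w) hg).2.1, fun w => (inv_bound hC hs hz (hD w) hg).1,
    fun x y => ?_⟩
  exact congrFun (congrFun hfix x) y

end

end Pool.Agent.Q156.GK
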