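import Pool.Agent.Q156.GK.Stm

/-!
# Project GK, job GR: the resolvent of the finite model
-/

set_option autoImplicit false

namespace Pool.Agent.Q156.GK.GRaux

open Pool.Agent.W792.GK
open scoped ComplexOrder

variable {n : Type} [Fintype n] [DecidableEq n]

/-- The resolvent by the spectral theorem. -/
lemma exists_resolvent {H : Matrix n n ℂ} (hH : H.IsHermitian) :
    ∃ (U : Matrix n n ℂ) (l : n → ℝ), ∀ z : ℂ, z.im ≠ 0 →
      (H - z • (1 : Matrix n n ℂ)) *
        (U * Matrix.diagonal (fun j => ((l j : ℂ) - z)⁻¹) * star U) = 1 := by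
  refine ⟨(hH.eigenvectorUnitary : Matrix n n ℂ), hH.eigenvalues, fun z hz => ?_⟩
  set U := (hH.eigenvectorUnitary : Matrix n n ℂ) with hU
  have h1 : U * star U = 1 := Unitary.coe_mul_star_self _
  have h2 : star U * U = 1 := Unitary.coe_star_mul_self _
  have hs : H = U * Matrix.diagonal (fun j => (hH.eigenvalues j : ℂ)) * star U :=
    hH.spectral_theorem
  have hne : ∀ j, (hH.eigenvalues j : ℂ) - z ≠ 0 := by
    intro j h
    apply hz
    have := congrArg Complex.im h
    simpa using this
  have e1 : H - z • (1 : Matrix n n ℂ) =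
      U * Matrix.diagonal (fun j => (hH.eigenvalues j : ℂ) - z) * star U := by
    have e : Matrix.diagonal (fun j => (hH.eigenvalues j : ℂ) - z) =
        Matrix.diagonal (fun j => (hH.eigenvalues j : ℂ)) - z • (1 : Matrix n n ℂ) := by
      ext a b
      by_cases hab : a = b
      · subst hab
        simp
      · simp [hab]
    rw [e, mul_sub, sub_mul, ← hs, Matrix.mul_smul, mul_one, Matrix.smul_mul, h1]
  rw [e1]
  have : U * Matrix.diagonal (fun j => (hH.eigenvalues j : ℂ) - z) * star U *
      (U * Matrix.diagonal (fun j => ((hH.eigenvalues j : ℂ) - z)⁻¹) * star U) =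
      U * (Matrix.diagonal (fun j => (hH.eigenvalues j : ℂ) - z) * (star U * U) *
        Matrix.diagonal (fun j => ((hH.eigenvalues j : ℂ) - z)⁻¹)) * star U := by
    noncomm_ring
  rw [this, h2, mul_one, Matrix.diagonal_mul_diagonal]
  have e3 : (fun j => ((hH.eigenvalues j : ℂ) - z) * ((hH.eigenvalues j : ℂ) - z)⁻¹) =
      fun _ => 1 := by
    funext j
    exact mul_inv_cancel₀ (hne j)
  rw [e3, Matrix.diagonal_one, mul_one, h1]

lemma isUnit_sub {H : Matrix n n ℂ} (hH : H.IsHermitian) {z : ℂ} (hz : z.im ≠ 0) :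
    IsUnit (H - z • (1 : Matrix n n ℂ)) := by
  obtain ⟨U, l, h⟩ := exists_resolvent hH
  exact ⟨⟨_, _, h z hz, mul_eq_one_comm.1 (h z hz)⟩, rfl⟩

lemma differentiableOn_entry {H : Matrix n n ℂ} (hH : H.IsHermitian) (i j : n) :
    DifferentiableOn ℂ (fun z : ℂ => (H - z • (1 : Matrix n n ℂ))⁻¹ i j) {z | 0 < z.im} := by
  obtain ⟨U, l, h⟩ := exists_resolvent hH
  have e : ∀ z ∈ {z : ℂ | 0 < z.im}, (H - z • (1 : Matrix n n ℂ))⁻¹ i j =
      ∑ k, U i k * ((l k : ℂ) - z)⁻¹ * (star U) k j := by
    intro z hz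
    have hz' : z.im ≠ 0 := (show 0 < z.im from hz).ne'
    rw [Matrix.inv_eq_right_inv (h z hz'), Matrix.mul_apply]
    refine Finset.sum_congr rfl fun k _ => ?_
    rw [Matrix.mul_diagonal]
  refine DifferentiableOn.congr ?_ e
  refine DifferentiableOn.fun_sum fun k _ => ?_
  intro z hz
  have hne : (l k : ℂ) - z ≠ 0 := by
    intro h0
    have h1 := congrArg Complex.im h0
    have h2 : (0 : ℝ) < z.im := hz
    simp at h1
    linarith
  have h3 : DifferentiableAt ℂ (fun z : ℂ => ((l k : ℂ) - z)⁻¹) z :=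
    (DifferentiableAt.sub (differentiableAt_const _) differentiableAt_id).inv hne
  exact ((h3.const_mul (U i k)).mul_const _).differentiableWithinAt

lemma mul_aux₁ (X : Matrix n n ℂ) (c : ℂ) :
    (X + c • (1 : Matrix n n ℂ)) * (X - c • (1 : Matrix n n ℂ)) = X * X - (c * c) • 1 := by
  simp only [add_mul, mul_sub, smul_mul_assoc, mul_smul_comm, one_mul, mul_one]
  module

lemma mul_aux₂ (X : Matrix n n ℂ) (c : ℂ) :
    (X - c • (1 : Matrix n n ℂ)) * (X + c • (1 : Matrix n n ℂ)) = X * X - (c * c) • 1 := by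
  simp only [sub_mul, mul_add, smul_mul_assoc, mul_smul_comm, one_mul, mul_one]
  module

/-- The basic identities of the resolvent. -/
lemma identities {H : Matrix n n ℂ} (hH : H.IsHermitian) {z : ℂ} (hz : z.im ≠ 0)
    {G X : Matrix n n ℂ} (hG : G = (H - z • (1 : Matrix n n ℂ))⁻¹)
    (hX : X = H - ((z.re : ℂ)) • (1 : Matrix n n ℂ)) :
    imM G = (z.im : ℂ) • (G.conjTranspose * G) ∧
      (1 : Matrix n n ℂ) = ((z.im : ℂ) ^ 2) • (G.conjTranspose * G) +
        (X * G).conjTranspose * (X * G) ∧
      (1 : Matrix n n ℂ) = ((z.im : ℂ) ^ 2) • (G * G.conjTranspose) +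
        (G * X) * (G * X).conjTranspose := by
  have hu := isUnit_sub hH hz
  have hdet := (Matrix.isUnit_iff_isUnit_det _).1 hu
  obtain ⟨M, hM⟩ : ∃ M, M = H - z • (1 : Matrix n n ℂ) := ⟨_, rfl⟩
  rw [← hM] at hdet hG
  have h1 : M * G = 1 := by rw [hG]; exact Matrix.mul_nonsing_inv _ hdet
  have h2 : G * M = 1 := by rw [hG]; exact Matrix.nonsing_inv_mul _ hdet
  have h3 : G.conjTranspose * M.conjTranspose = 1 := by
    rw [← Matrix.conjTranspose_mul, h1, Matrix.conjTranspose_one]
  have h4 : M.conjTranspose * G.conjTranspose = 1 := by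
    rw [← Matrix.conjTranspose_mul, h2, Matrix.conjTranspose_one]
  have hMc : M.conjTranspose = H - (star z) • (1 : Matrix n n ℂ) := by
    rw [hM, Matrix.conjTranspose_sub, Matrix.conjTranspose_smul, Matrix.conjTranspose_one, hH.eq]
  have hXc : X.conjTranspose = X := by
    have : star ((z.re : ℂ)) = (z.re : ℂ) := Complex.conj_ofReal _
    rw [hX, Matrix.conjTranspose_sub, Matrix.conjTranspose_smul, Matrix.conjTranspose_one, hH.eq,
      this]
  have hz1 : z = z.re + z.im * Complex.I := (Complex.re_add_im z).symm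
  have hz2 : star z = z.re - z.im * Complex.I := by
    apply Complex.ext <;> simp
  have hMX : M = X - (z.im * Complex.I) • (1 : Matrix n n ℂ) := by
    rw [hM, hX]
    conv_lhs => rw [hz1]
    module
  have hMcX : M.conjTranspose = X + (z.im * Complex.I) • (1 : Matrix n n ℂ) := by
    rw [hMc, hz2, hX]
    module
  have hI : (z.im * Complex.I : ℂ) * (z.im * Complex.I) = -((z.im : ℂ) ^ 2) := by
    linear_combination (z.im : ℂ) ^ 2 * Complex.I_sq
  have hMM : M.conjTranspose * M = X * X + ((z.im : ℂ) ^ 2) • (1 : Matrix n n ℂ) := by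
    rw [hMcX, hMX, mul_aux₁, hI]
    module
  have hMM' : M * M.conjTranspose = X * X + ((z.im : ℂ) ^ 2) • (1 : Matrix n n ℂ) := by
    rw [hMcX, hMX, mul_aux₂, hI]
    module
  refine ⟨?_, ?_, ?_⟩
  · have e1 : G - G.conjTranspose = (2 * (z.im * Complex.I) : ℂ) • (G.conjTranspose * G) := by
      have e2 : G.conjTranspose * (M.conjTranspose - M) * G = G - G.conjTranspose := by
        rw [mul_sub, sub_mul, h3, one_mul, mul_assoc, h1, mul_one]
      have e3 : M.conjTranspose - M = (2 * (z.im * Complex.I) : ℂ) • (1 : Matrix n n ℂ) := by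
        rw [hMcX, hMX]
        module
      rw [← e2, e3, Matrix.mul_smul, mul_one, Matrix.smul_mul]
    unfold imM
    rw [e1, smul_smul]
    congr 1
    have : Complex.I ≠ 0 := Complex.I_ne_zero
    field_simp
  · have e2 : G.conjTranspose * (M.conjTranspose * M) * G = 1 := by
      rw [← mul_assoc, h3, one_mul, h1]
    rw [hMM] at e2
    rw [Matrix.conjTranspose_mul, hXc]
    conv_lhs => rw [← e2]
    rw [mul_add, add_mul, Matrix.mul_smul, mul_one, Matrix.smul_mul]
    rw [add_comm]
    congr 1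
    simp only [mul_assoc]
  · have e2 : G * (M * M.conjTranspose) * G.conjTranspose = 1 := by
      rw [← mul_assoc, h2, one_mul, h4]
    rw [hMM'] at e2
    rw [Matrix.conjTranspose_mul, hXc]
    conv_lhs => rw [← e2]
    rw [mul_add, add_mul, Matrix.mul_smul, mul_one, Matrix.smul_mul]
    rw [add_comm]
    congr 1
    simp only [mul_assoc]

lemma star_dot (v : n → ℂ) : star v ⬝ᵥ v = ((∑ i, ‖v i‖ ^ 2 : ℝ) : ℂ) := by
  unfold dotProduct
  push_cast
  refine Finset.sum_congr rfl fun i _ => ?_
  rw [Pi.star_apply]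
  exact Complex.conj_mul' (v i)

lemma dot_conj_mul {m : Type} [Fintype m] (A : Matrix m n ℂ) (u : n → ℂ) :
    star u ⬝ᵥ ((A.conjTranspose * A).mulVec u) = star (A.mulVec u) ⬝ᵥ (A.mulVec u) := by
  rw [← Matrix.mulVec_mulVec, Matrix.dotProduct_mulVec, Matrix.vecMul_conjTranspose, star_star]

lemma opB_resolvent {H : Matrix n n ℂ} (hH : H.IsHermitian) {z : ℂ} (hz : 0 < z.im) :
    OpB ((H - z • (1 : Matrix n n ℂ))⁻¹) (1 / z.im) := by
  intro u
  have h1 := (identities hH hz.ne' rfl rfl).2.1
  set G := (H - z • (1 : Matrix n n ℂ))⁻¹ with hG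
  set X := H - ((z.re : ℂ)) • (1 : Matrix n n ℂ) with hX
  have h2 := congrArg (fun A : Matrix n n ℂ => star u ⬝ᵥ (A.mulVec u)) h1
  simp only [Matrix.one_mulVec, Matrix.add_mulVec, Matrix.smul_mulVec, dotProduct_add,
    dotProduct_smul, dot_conj_mul, star_dot, smul_eq_mul] at h2
  have h3 : ∑ i, ‖u i‖ ^ 2 = z.im ^ 2 * ∑ i, ‖(G.mulVec u) i‖ ^ 2 +
      ∑ i, ‖((X * G).mulVec u) i‖ ^ 2 := by
    exact_mod_cast h2
  have h4 : 0 ≤ ∑ i, ‖((X * G).mulVec u) i‖ ^ 2 := Finset.sum_nonneg fun i _ => sq_nonneg _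
  rw [one_div, inv_pow, ← div_eq_inv_mul, le_div_iff₀ (by positivity)]
  linarith

variable {Q J : Type} [Fintype Q] [DecidableEq Q] [Fintype J] [DecidableEq J]

/-- The columns of the block. -/
def col (G : Matrix (Q × J) (Q × J) ℂ) (p : J) : Matrix (Q × J) Q ℂ := fun a y => G a (y, p)

omit [DecidableEq Q] [DecidableEq J] in
lemma blk_conj_mul (G : Matrix (Q × J) (Q × J) ℂ) (p : J) :
    blk (G.conjTranspose * G) p p = (col G p).conjTranspose * col G p := rfl

/-- The columns outside the block. -/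
def out (G : Matrix (Q × J) (Q × J) ℂ) (p : J) : Matrix (Q × J) (Q × J) ℂ :=
  fun a b => if b.2 = p then 0 else G a b

omit [DecidableEq Q] in
lemma col_mul (G : Matrix (Q × J) (Q × J) ℂ) (p : J) :
    G * G.conjTranspose = col G p * (col G p).conjTranspose + out G p * (out G p).conjTranspose := by
  ext a b
  rw [Matrix.add_apply, Matrix.mul_apply, Matrix.mul_apply, Matrix.mul_apply,
    Fintype.sum_prod_type, Fintype.sum_prod_type, ← Finset.sum_add_distrib]
  refine Finset.sum_congr rfl fun x _ => ?_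
  rw [← Finset.add_sum_erase _ _ (Finset.mem_univ p),
    ← Finset.add_sum_erase Finset.univ (fun y => out G p a (x, y) *
      (out G p).conjTranspose (x, y) b) (Finset.mem_univ p)]
  have h1 : out G p a (x, p) = 0 := if_pos rfl
  rw [h1, zero_mul, zero_add]
  congr 1
  refine Finset.sum_congr rfl fun y hy => ?_
  have hy' : y ≠ p := Finset.ne_of_mem_erase hy
  have h2 : ∀ c, out G p c (x, y) = G c (x, y) := fun c => if_neg hy'
  rw [Matrix.conjTranspose_apply, Matrix.conjTranspose_apply, h2, h2]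

lemma block_facts {H : Matrix (Q × J) (Q × J) ℂ} (hH : H.IsHermitian) {z : ℂ} (hz : 0 < z.im)
    (p : J) {g : Matrix Q Q ℂ}
    (hg : g = blk ((H - z • (1 : Matrix (Q × J) (Q × J) ℂ))⁻¹) p p) :
    (imM g).PosSemidef ∧ ((z.im : ℂ)⁻¹ • imM g - imM g * imM g).PosSemidef ∧
      OpB g (1 / z.im) := by
  obtain ⟨G, hG⟩ : ∃ G, G = (H - z • (1 : Matrix (Q × J) (Q × J) ℂ))⁻¹ := ⟨_, rfl⟩
  obtain ⟨X, hX⟩ : ∃ X, X = H - ((z.re : ℂ)) • (1 : Matrix (Q × J) (Q × J) ℂ) := ⟨_, rfl⟩
  obtain ⟨h1, _, h3⟩ := identities hH hz.ne' hG hX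
  rw [← hG] at hg
  have hy0 : (z.im : ℂ) ≠ 0 := by exact_mod_cast hz.ne'
  have e1 : imM g = (z.im : ℂ) • ((col G p).conjTranspose * col G p) := by
    rw [← blk_conj_mul]
    have : imM g = blk (imM G) p p := by
      rw [hg]
      rfl
    rw [this, h1]
    rfl
  have hpos : (0 : ℂ) ≤ (z.im : ℂ) := by exact_mod_cast hz.le
  refine ⟨?_, ?_, ?_⟩
  · rw [e1]
    exact (Matrix.posSemidef_conjTranspose_mul_self _).smul hpos
  · have e2 : (z.im : ℂ)⁻¹ • imM g - imM g * imM g = (col G p).conjTranspose *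
        ((G * X) * (G * X).conjTranspose +
          (z.im : ℂ) ^ 2 • (out G p * (out G p).conjTranspose)) * col G p := by
      have e3 : (G * X) * (G * X).conjTranspose +
          (z.im : ℂ) ^ 2 • (out G p * (out G p).conjTranspose) =
          1 - (z.im : ℂ) ^ 2 • (col G p * (col G p).conjTranspose) := by
        rw [col_mul G p, smul_add] at h3
        rw [h3]
        abel
      rw [e3, e1, smul_smul, inv_mul_cancel₀ hy0, one_smul, Matrix.mul_sub, Matrix.mul_one,
        Matrix.sub_mul]
      simp only [Matrix.mul_smul, Matrix.smul_mul, smul_smul, Matrix.mul_assoc, sq]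
    rw [e2]
    refine Matrix.PosSemidef.conjTranspose_mul_mul_same ?_ _
    refine Matrix.PosSemidef.add ?_ ?_
    · exact Matrix.posSemidef_self_mul_conjTranspose _
    · refine (Matrix.posSemidef_self_mul_conjTranspose _).smul ?_
      exact_mod_cast sq_nonneg z.im
  · rw [hg, hG]
    exact opB_blk (opB_resolvent hH hz) p p

end Pool.Agent.Q156.GK.GRaux

namespace Pool.Agent.Q156.GK

open Pool.Agent.W792.GK GRaux
open scoped ComplexOrder

theorem main_GR : S_GR := by
  intro Q J _ _ _ _ _ κ hκ A hA p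
  have hH : ∀ v : Q × J → ℝ, (ham κ A v).IsHermitian := by
    intro v
    refine Matrix.IsHermitian.ext fun a b => ?_
    unfold ham
    rw [star_add, star_add]
    congr 1
    · congr 1
      · by_cases h : a.2 = b.2
        · rw [if_pos h, if_pos h.symm, ← neg_sub a.1 b.1, hκ]
          exact Complex.conj_conj _
        · rw [if_neg h, if_neg (fun h' => h h'.symm), star_zero]
      · by_cases h : a.1 = b.1
        · rw [if_pos h, if_pos h.symm]
          exact hA.apply _ _
        · rw [if_neg h, if_neg (fun h' => h h'.symm), star_zero]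
    · by_cases h : a = b
      · subst h
        rw [if_pos rfl]
        exact Complex.conj_ofReal _
      · rw [if_neg h, if_neg (fun h' => h h'.symm), star_zero]
  refine ⟨hH, ?_, ?_, ?_, ?_, ?_⟩
  · intro v
    refine Matrix.IsHermitian.ext fun x y => ?_
    unfold dd
    rw [star_add]
    congr 1
    · rw [← neg_sub x y, hκ]
      exact Complex.conj_conj _
    · by_cases h : x = y
      · subst h
        rw [if_pos rfl]
        exact Complex.conj_ofReal _
      · rw [if_neg h, if_neg (fun h' => h h'.symm), star_zero]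
  · intro z hz
    have hc : Continuous fun v : Q × J → ℝ =>
        ham κ A v - z • (1 : Matrix (Q × J) (Q × J) ℂ) := by
      refine continuous_matrix fun a b => ?_
      simp only [Matrix.sub_apply]
      refine Continuous.sub ?_ continuous_const
      unfold ham
      refine Continuous.add continuous_const ?_
      split_ifs
      · exact Complex.continuous_ofReal.comp (continuous_apply a)
      · exact continuous_const
    refine continuous_matrix fun x y => ?_
    unfold gr
    simp only [Matrix.inv_def, Matrix.smul_apply, Ring.inverse_eq_inv', smul_eq_mul]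
    refine Continuous.mul (Continuous.inv₀ hc.matrix_det fun v => ?_) ?_
    · exact ((Matrix.isUnit_iff_isUnit_det _).1 (isUnit_sub (hH v) hz)).ne_zero
    · exact (hc.matrix_adjugate).matrix_elem (x, p) (y, p)
  · intro z hz v
    exact block_facts (hH v) hz p rfl
  · intro v x y
    exact differentiableOn_entry (hH v) (x, p) (y, p)
  · intro z hz v
    exact isUnit_sub (hH v) hz

end Pool.Agent.Q156.GK
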