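import Pool.Agent.Q156.GK.Stm

/-!
# Project GK, job GRID: the sum over the grid
-/

set_option autoImplicit false

namespace Pool.Agent.Q156.GK.GRIDaux

open Pool.Agent.W792.GK
open scoped ComplexOrder

/-- A bounded function whose differences dominate `1 / (x² + 1)`. -/
noncomputable def F (x : ℝ) : ℝ := 5 / 2 * (x / (1 + |x|))

lemma abs_F (x : ℝ) : |F x| ≤ 5 / 2 := by
  unfold F
  rw [abs_mul, abs_of_pos (by norm_num : (0 : ℝ) < 5 / 2), abs_div,
    abs_of_pos (by positivity : 0 < 1 + |x|)]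
  have h : |x| / (1 + |x|) ≤ 1 := by
    rw [div_le_one (by positivity)]
    linarith
  linarith

lemma F_neg (x : ℝ) : F (-x) = - F x := by
  unfold F
  rw [abs_neg]
  ring

lemma step_pos {x : ℝ} (hx : 0 ≤ x) : 1 / (x ^ 2 + 1) ≤ F (x + 1 / 2) - F (x - 1 / 2) := by
  unfold F
  rw [abs_of_nonneg (by linarith : (0 : ℝ) ≤ x + 1 / 2)]
  rcases le_total (1 / 2) x with h | h
  · rw [abs_of_nonneg (by linarith : (0 : ℝ) ≤ x - 1 / 2)]
    have e : 5 / 2 * ((x + 1 / 2) / (1 + (x + 1 / 2))) - 5 / 2 * ((x - 1 / 2) / (1 + (x - 1 / 2))) =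
        5 / 2 / ((x + 3 / 2) * (x + 1 / 2)) := by
      have h3 : (1 + (x + 1 / 2)) ≠ 0 := by linarith
      have h4 : (1 + (x - 1 / 2)) ≠ 0 := by linarith
      have h5 : (x + 3 / 2) ≠ 0 := by linarith
      have h6 : (x + 1 / 2) ≠ 0 := by linarith
      rw [mul_div_assoc', mul_div_assoc', div_sub_div _ _ h3 h4,
        div_eq_div_iff (mul_ne_zero h3 h4) (mul_ne_zero h5 h6)]
      ring
    rw [e, div_le_div_iff₀ (by positivity) (by positivity)]
    nlinarith [sq_nonneg (x - 2 / 3)]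
  · rw [abs_of_nonpos (by linarith : x - 1 / 2 ≤ 0)]
    have h1 : (0 : ℝ) < 1 + -(x - 1 / 2) := by linarith
    have e : 5 / 2 * ((x + 1 / 2) / (1 + (x + 1 / 2))) -
        5 / 2 * ((x - 1 / 2) / (1 + -(x - 1 / 2))) =
        5 / 2 * (3 / 2 - 2 * x ^ 2) / ((x + 3 / 2) * (3 / 2 - x)) := by
      have h2 : (3 / 2 - x) ≠ 0 := by linarith
      have h3 : (1 + (x + 1 / 2)) ≠ 0 := by linarith
      have h4 : (x + 3 / 2) ≠ 0 := by linarith
      have h5 : (1 + -(x - 1 / 2)) ≠ 0 := by linarith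
      rw [mul_div_assoc', mul_div_assoc', div_sub_div _ _ h3 h5,
        div_eq_div_iff (mul_ne_zero h3 h5) (mul_ne_zero h4 h2)]
      ring
    rw [e, div_le_div_iff₀ (by positivity) (mul_pos (by linarith) (by linarith))]
    have hx2 : x ^ 2 ≤ 1 / 4 := by nlinarith
    nlinarith [sq_nonneg x, mul_nonneg (sq_nonneg x) (sub_nonneg.2 hx2)]

lemma step (x : ℝ) : 1 / (x ^ 2 + 1) ≤ F (x + 1 / 2) - F (x - 1 / 2) := by
  rcases le_total 0 x with h | h
  · exact step_pos h
  · have h1 := step_pos (x := -x) (by linarith)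
    have e1 : -x + 1 / 2 = -(x - 1 / 2) := by ring
    have e2 : -x - 1 / 2 = -(x + 1 / 2) := by ring
    rw [e1, e2, F_neg, F_neg, neg_sq] at h1
    linarith

lemma sum_le (t : ℝ) (a b : ℤ) : ∑ k ∈ Finset.Icc a b, 1 / ((t - k) ^ 2 + 1) ≤ 5 := by
  have h1 : ∑ k ∈ Finset.Icc a b, 1 / ((t - k) ^ 2 + 1) ≤
      ∑ k ∈ Finset.Icc a b, (F (t - k + 1 / 2) - F (t - k - 1 / 2)) :=
    Finset.sum_le_sum fun k _ => step _
  refine h1.trans ?_
  rw [Int.Icc_eq_finset_map, Finset.sum_map]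
  have h2 : ∀ i : ℕ, F (t - (((Nat.castEmbedding.trans (addLeftEmbedding a)) i : ℤ) : ℝ) + 1 / 2) -
      F (t - (((Nat.castEmbedding.trans (addLeftEmbedding a)) i : ℤ) : ℝ) - 1 / 2) =
      (fun i : ℕ => F (t - a - i + 1 / 2)) i - (fun i : ℕ => F (t - a - i + 1 / 2)) (i + 1) := by
    intro i
    have e : (((Nat.castEmbedding.trans (addLeftEmbedding a)) i : ℤ) : ℝ) = a + i := by
      simp
    rw [e]
    push_cast
    congr 2 <;> ring
  rw [Finset.sum_congr rfl fun i _ => h2 i, Finset.sum_range_sub']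
  have h3 := abs_le.1 (abs_F (t - a - ((0 : ℕ) : ℝ) + 1 / 2))
  have h4 := abs_le.1 (abs_F (t - a - (((b + 1 - a).toNat : ℕ) : ℝ) + 1 / 2))
  linarith [h3.2, h4.1]

variable {n : Type} [Fintype n] [DecidableEq n]

/-- Entries of the resolvent. -/
lemma inv_entry {H : Matrix n n ℂ} (hH : H.IsHermitian) {z : ℂ} (hz : z.im ≠ 0) (i : n) :
    (H - z • (1 : Matrix n n ℂ))⁻¹ i i =
      ∑ j, ((‖(hH.eigenvectorUnitary : Matrix n n ℂ) i j‖ ^ 2 : ℝ) : ℂ) *
        ((hH.eigenvalues j : ℂ) - z)⁻¹ := by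
  set U := (hH.eigenvectorUnitary : Matrix n n ℂ) with hU
  have h1 : U * star U = 1 := Unitary.coe_mul_star_self _
  have h2 : star U * U = 1 := Unitary.coe_star_mul_self _
  have hs : H = U * Matrix.diagonal (fun j => (hH.eigenvalues j : ℂ)) * star U :=
    hH.spectral_theorem
  have hne : ∀ j, (hH.eigenvalues j : ℂ) - z ≠ 0 := by
    intro j h
    apply hz
    have := congrArg Complex.im h
    simpa using this
  have e1 : H - z • (1 : Matrix n n ℂ) =
      U * Matrix.diagonal (fun j => (hH.eigenvalues j : ℂ) - z) * star U := by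
    have e : Matrix.diagonal (fun j => (hH.eigenvalues j : ℂ) - z) =
        Matrix.diagonal (fun j => (hH.eigenvalues j : ℂ)) - z • (1 : Matrix n n ℂ) := by
      ext a b
      by_cases hab : a = b
      · subst hab
        simp
      · simp [hab]
    rw [e, mul_sub, sub_mul, ← hs, Matrix.mul_smul, mul_one, Matrix.smul_mul, h1]
  have e2 : (H - z • (1 : Matrix n n ℂ)) *
      (U * Matrix.diagonal (fun j => ((hH.eigenvalues j : ℂ) - z)⁻¹) * star U) = 1 := by
    rw [e1]
    have : U * Matrix.diagonal (fun j => (hH.eigenvalues j : ℂ) - z) * star U *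
        (U * Matrix.diagonal (fun j => ((hH.eigenvalues j : ℂ) - z)⁻¹) * star U) =
        U * (Matrix.diagonal (fun j => (hH.eigenvalues j : ℂ) - z) * (star U * U) *
          Matrix.diagonal (fun j => ((hH.eigenvalues j : ℂ) - z)⁻¹)) * star U := by
      noncomm_ring
    rw [this, h2, mul_one, Matrix.diagonal_mul_diagonal]
    have e3 : (fun j => ((hH.eigenvalues j : ℂ) - z) * ((hH.eigenvalues j : ℂ) - z)⁻¹) =
        fun _ => 1 := by
      funext j
      exact mul_inv_cancel₀ (hne j)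
    rw [e3, Matrix.diagonal_one, mul_one, h1]
  rw [Matrix.inv_eq_right_inv e2, Matrix.mul_apply]
  refine Finset.sum_congr rfl fun j _ => ?_
  rw [Matrix.mul_diagonal, Matrix.star_apply]
  have h5 : U i j * star (U i j) = ((‖U i j‖ ^ 2 : ℝ) : ℂ) := by
    have := Complex.mul_conj' (U i j)
    rw [Complex.ofReal_pow]
    exact this
  rw [← h5]
  ring

lemma sum_row {H : Matrix n n ℂ} (hH : H.IsHermitian) (i : n) :
    ∑ j, ‖(hH.eigenvectorUnitary : Matrix n n ℂ) i j‖ ^ 2 = 1 := by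
  set U := (hH.eigenvectorUnitary : Matrix n n ℂ) with hU
  have h1 : U * star U = 1 := Unitary.coe_mul_star_self _
  have h2 := congrFun (congrFun h1 i) i
  rw [Matrix.mul_apply, Matrix.one_apply_eq] at h2
  have h3 : ∀ j, U i j * (star U) j i = ((‖U i j‖ ^ 2 : ℝ) : ℂ) := by
    intro j
    rw [Matrix.star_apply, Complex.ofReal_pow]
    exact Complex.mul_conj' (U i j)
  rw [Finset.sum_congr rfl fun j _ => h3 j] at h2
  exact_mod_cast h2

lemma im_term (c l : ℝ) {η : ℝ} (hη : 0 < η) (k : ℤ) :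
    ((c : ℂ) * ((l : ℂ) - zk η k)⁻¹).im = c / η * (1 / ((l / η - k) ^ 2 + 1)) := by
  have h1 : ((l : ℂ) - zk η k).re = l - k * η := by simp [zk]
  have h2 : ((l : ℂ) - zk η k).im = - η := by simp [zk]
  rw [Complex.im_ofReal_mul, Complex.inv_im, Complex.normSq_apply, h1, h2]
  have h3 : (l - k * η) * (l - k * η) + -η * -η ≠ 0 := by nlinarith [sq_nonneg (l - k * η)]
  have h4 : (l / η - k) ^ 2 + 1 ≠ 0 := by positivity
  field_simp

end Pool.Agent.Q156.GK.GRIDaux

namespace Pool.Agent.Q156.GK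

open Pool.Agent.W792.GK GRIDaux
open scoped ComplexOrder

theorem main_GRID : S_GRID := by
  intro n _ _ H hH η hη m i
  have hz : ∀ k : ℤ, (zk η k).im ≠ 0 := fun k => hη.ne'
  have key : ∀ k : ℤ, ((H - zk η k • (1 : Matrix n n ℂ))⁻¹ i i).im =
      ∑ j, ‖(hH.eigenvectorUnitary : Matrix n n ℂ) i j‖ ^ 2 / η *
        (1 / ((hH.eigenvalues j / η - k) ^ 2 + 1)) := by
    intro k
    rw [inv_entry hH (hz k) i, Complex.im_sum]
    exact Finset.sum_congr rfl fun j _ => im_term _ _ hη k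
  refine ⟨fun k => ?_, ?_⟩
  · rw [key]
    exact Finset.sum_nonneg fun j _ => by positivity
  · rw [Finset.sum_congr rfl fun k _ => key k, Finset.sum_comm]
    calc ∑ j, ∑ k ∈ Finset.Icc (-m) m, ‖(hH.eigenvectorUnitary : Matrix n n ℂ) i j‖ ^ 2 / η *
          (1 / ((hH.eigenvalues j / η - k) ^ 2 + 1))
        ≤ ∑ j, ‖(hH.eigenvectorUnitary : Matrix n n ℂ) i j‖ ^ 2 / η * 5 := by
          refine Finset.sum_le_sum fun j _ => ?_
          rw [← Finset.mul_sum]
          exact mul_le_mul_of_nonneg_left (sum_le _ _ _) (by positivity)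
      _ = 5 / η := by
          rw [← Finset.sum_mul, ← Finset.sum_div, sum_row hH i]
          ring

end Pool.Agent.Q156.GK
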