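import Pool.Agent.Q156.GK.Stm

/-!
# Project GK: HOL (integrals of bounded holomorphic functions are holomorphic)
-/

set_option autoImplicit false

namespace Pool.Agent.Q156.GK

open MeasureTheory Metric Filter Topology

theorem hol_meas {Ω : Type} [MeasurableSpace Ω] (F : Ω → ℂ → ℂ)
    (U : Set ℂ) (hU : IsOpen U) (hm : ∀ z ∈ U, Measurable fun w => F w z)
    (hd : ∀ w, DifferentiableOn ℂ (F w) U) (z : ℂ) (hz : z ∈ U) :
    Measurable fun w => deriv (F w) z := by
  obtain ⟨r, hr, hrU⟩ := Metric.isOpen_iff.1 hU z hz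
  have hhz : ∀ n : ℕ, z + ((r / (n + 2) : ℝ) : ℂ) ∈ U := by
    intro n
    apply hrU
    rw [mem_ball, dist_eq_norm, add_sub_cancel_left, Complex.norm_real, Real.norm_eq_abs,
      abs_of_pos (by positivity)]
    rw [div_lt_iff₀ (by positivity)]
    have : (0 : ℝ) ≤ n := Nat.cast_nonneg n
    nlinarith
  have hlim : Tendsto (fun n : ℕ => ((r / (n + 2) : ℝ) : ℂ)) atTop (𝓝[≠] 0) := by
    rw [tendsto_nhdsWithin_iff]
    constructor
    · have h1 : Tendsto (fun n : ℕ => r / ((n : ℝ) + 2)) atTop (𝓝 0) := by
        apply Tendsto.const_div_atTop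
        exact tendsto_atTop_add_const_right _ _ tendsto_natCast_atTop_atTop
      have h2 := (Complex.continuous_ofReal.tendsto 0).comp h1
      rw [Complex.ofReal_zero] at h2
      exact h2
    · refine Eventually.of_forall fun n => ?_
      rw [Set.mem_compl_iff, Set.mem_singleton_iff]
      have : (0 : ℝ) < r / (n + 2) := by positivity
      exact_mod_cast this.ne'
  refine measurable_of_tendsto_metrizable
    (f := fun (n : ℕ) w => ((r / (n + 2) : ℝ) : ℂ)⁻¹ • (F w (z + ((r / (n + 2) : ℝ) : ℂ)) - F w z)) ?_ ?_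
  · intro n
    simp only [smul_eq_mul]
    exact ((hm _ (hhz n)).sub (hm z hz)).const_mul _
  · rw [tendsto_pi_nhds]
    intro w
    have h1 : HasDerivAt (F w) (deriv (F w) z) z :=
      ((hd w).differentiableAt (hU.mem_nhds hz)).hasDerivAt
    exact h1.tendsto_slope_zero.comp hlim

theorem main_HOL : S_HOL := by
  intro Ω _ μ _ F U M hU hm hd hM z₀ hz₀
  obtain ⟨r, hr, hrU⟩ := Metric.isOpen_iff.1 hU z₀ hz₀
  have hr2 : 0 < r / 3 := by positivity
  have hcb : ∀ z ∈ ball z₀ (r / 3), closedBall z (r / 3) ⊆ U := by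
    intro z hz y hy
    apply hrU
    rw [mem_ball] at hz ⊢
    rw [mem_closedBall] at hy
    have := dist_triangle y z z₀
    linarith
  have hsub : ball z₀ (r / 3) ⊆ U := fun z hz => hcb z hz (mem_closedBall_self hr2.le)
  have hmain := hasDerivAt_integral_of_dominated_loc_of_deriv_le (μ := μ) (𝕜 := ℂ)
    (F := fun z w => F w z) (x₀ := z₀) (s := ball z₀ (r / 3)) (bound := fun _ => M / (r / 3))
    (F' := fun z w => deriv (F w) z) (ball_mem_nhds z₀ hr2)
    (by
      filter_upwards [hU.mem_nhds hz₀] with z hz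
      exact (hm z hz).aestronglyMeasurable)
    (by
      refine Integrable.of_bound (hm z₀ hz₀).aestronglyMeasurable M ?_
      exact Eventually.of_forall fun w => hM w z₀ hz₀)
    (hol_meas F U hU hm hd z₀ hz₀).aestronglyMeasurable
    (by
      refine Eventually.of_forall fun w z hz => ?_
      refine Complex.norm_deriv_le_of_forall_mem_sphere_norm_le hr2 ?_ ?_
      · exact (hd w).diffContOnCl_ball (hcb z hz)
      · intro y hy
        exact hM w y (hcb z hz (sphere_subset_closedBall hy)))
    (integrable_const _)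
    (by
      refine Eventually.of_forall fun w z hz => ?_
      exact ((hd w).differentiableAt (hU.mem_nhds (hsub hz))).hasDerivAt)
  exact hmain.2.differentiableAt.differentiableWithinAt

end Pool.Agent.Q156.GK
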