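import Pool.Agent.Q156.GK.Stm

/-!
# Project GK, job INJ (helper65): generic dilations are injective on finite sets
-/

set_option autoImplicit false

namespace Pool.Agent.Q156.GK

open Pool.Agent.W792.GK

/-- digits in base `B` are unique -/
theorem inj_digits (B M : ℤ) (hM : M < B) (hB : 0 < B) : ∀ (r : ℕ) (c0 : ℤ) (c : Fin r → ℤ),
    |c0| ≤ M → (∀ l, |c l| ≤ M) → c0 + ∑ l : Fin r, B ^ ((l : ℕ) + 1) * c l = 0 →
    c0 = 0 ∧ ∀ l, c l = 0 := by
  intro r
  induction r with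
  | zero =>
    intro c0 c h0 hc h
    simp only [Finset.univ_eq_empty, Finset.sum_empty, add_zero] at h
    exact ⟨h, fun l => l.elim0⟩
  | succ r ih =>
    intro c0 c h0 hc h
    rw [Fin.sum_univ_succ] at h
    have e1 : B ^ (((0 : Fin (r + 1)) : ℕ) + 1) * c 0 +
        ∑ l : Fin r, B ^ ((l.succ : ℕ) + 1) * c l.succ =
        B * (c 0 + ∑ l : Fin r, B ^ ((l : ℕ) + 1) * c l.succ) := by
      rw [mul_add, Finset.mul_sum]
      congr 1
      · simp
      · refine Finset.sum_congr rfl fun l _ => ?_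
        rw [Fin.val_succ, pow_succ]
        ring
    rw [e1] at h
    have h1 : c0 = 0 := by
      refine Int.eq_zero_of_abs_lt_dvd (m := B) ?_ (lt_of_le_of_lt h0 hM)
      exact ⟨-(c 0 + ∑ l : Fin r, B ^ ((l : ℕ) + 1) * c l.succ), by linarith⟩
    rw [h1, zero_add] at h
    have h2 := (mul_eq_zero.1 h).resolve_left hB.ne'
    obtain ⟨h3, h4⟩ := ih (c 0) (fun l => c l.succ) (hc 0) (fun l => hc _) h2
    exact ⟨h1, fun l => Fin.cases h3 h4 l⟩

theorem main_INJ : S_INJ := by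
  intro d r F
  obtain ⟨M, hM⟩ : ∃ M : ℤ, M = ∑ x ∈ F, (∑ i, |x.1 i| + ∑ p, |x.2 p|) := ⟨_, rfl⟩
  have hM0 : 0 ≤ M := by
    rw [hM]
    exact Finset.sum_nonneg fun x _ => add_nonneg (Finset.sum_nonneg fun i _ => abs_nonneg _)
      (Finset.sum_nonneg fun i _ => abs_nonneg _)
  have hb : ∀ x ∈ F, ∑ i, |x.1 i| + ∑ p, |x.2 p| ≤ M := by
    intro x hx
    rw [hM]
    exact Finset.single_le_sum (f := fun x : (Fin d → ℤ) × (Fin d × Fin r → ℤ) =>
      ∑ i, |x.1 i| + ∑ p, |x.2 p|) (fun x _ => add_nonneg (Finset.sum_nonneg fun i _ => abs_nonneg _)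
      (Finset.sum_nonneg fun i _ => abs_nonneg _)) hx
  have h1 : ∀ x ∈ F, ∀ i, |x.1 i| ≤ M := by
    intro x hx i
    have e1 := Finset.single_le_sum (f := fun i => |x.1 i|) (fun i _ => abs_nonneg _) (Finset.mem_univ i)
    have e2 : 0 ≤ ∑ p, |x.2 p| := Finset.sum_nonneg fun i _ => abs_nonneg _
    have := hb x hx
    linarith
  have h2 : ∀ x ∈ F, ∀ p, |x.2 p| ≤ M := by
    intro x hx p
    have e1 := Finset.single_le_sum (f := fun p => |x.2 p|) (fun i _ => abs_nonneg _) (Finset.mem_univ p)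
    have e2 : 0 ≤ ∑ i, |x.1 i| := Finset.sum_nonneg fun i _ => abs_nonneg _
    have := hb x hx
    linarith
  refine ⟨fun l => (M + 1) ^ ((l : ℕ) + 1), fun x hx h => ?_⟩
  have h3 : ∀ i, x.1 i = 0 ∧ ∀ l, x.2 (i, l) = 0 := by
    intro i
    have h4 : x.1 i + ∑ l : Fin r, (M + 1) ^ ((l : ℕ) + 1) * x.2 (i, l) = 0 := congrFun h i
    exact inj_digits (M + 1) M (by linarith) (by linarith) r (x.1 i) (fun l => x.2 (i, l))
      (h1 x hx i) (fun l => h2 x hx _) h4
  refine Prod.ext (funext fun i => (h3 i).1) (funext fun p => ?_)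
  exact (h3 p.1).2 p.2

end Pool.Agent.Q156.GK
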