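import Pool.Agent.Q156.GK.Stm

/-!
# Project GK, job KP (helper87): the key proposition
-/

set_option autoImplicit false

namespace Pool.Agent.Q156.GK

open Pool.Agent.W792.GK MeasureTheory

noncomputable section

namespace KPaux

theorem measurable_stp_iter {Γ : Type} [AddCommGroup Γ] (h : Γ →₀ ℂ) (c : ℝ → ℝ)
    (hc : Measurable c) (u : Γ → ℂ) (n : ℕ) : ∀ x : Γ,
    Measurable fun v : Γ → ℝ => ((stp h (fun y => c (v y)))^[n] u) x := by
  induction n with
  | zero => intro x; simp only [Function.iterate_zero, id_eq]; exact measurable_const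
  | succ n ih =>
    intro x
    simp only [Function.iterate_succ_apply']
    unfold stp
    have h1 : Measurable fun v : Γ → ℝ => (h.sum fun y a => a *
        ((stp h (fun y => c (v y)))^[n] u) (x - y)) := by
      unfold Finsupp.sum
      exact Finset.measurable_sum _ fun y _ => (ih (x - y)).const_mul _
    have h2 : Measurable fun v : Γ → ℝ => ((c (v x) : ℝ) : ℂ) *
        ((stp h (fun y => c (v y)))^[n] u) x :=
      (Complex.measurable_ofReal.comp (hc.comp (measurable_pi_apply x))).mul (ih x)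
    exact h1.add h2

theorem measurable_mom {Γ : Type} [AddCommGroup Γ] (h : Γ →₀ ℂ) (c : ℝ → ℝ)
    (hc : Measurable c) (n : ℕ) :
    Measurable fun v : Γ → ℝ => mom h (fun y => c (v y)) n := by
  unfold mom
  exact measurable_stp_iter h c hc _ n 0

theorem measurable_clamp (R : ℝ) : Measurable (clamp R) := by
  unfold clamp
  exact measurable_const.max (measurable_const.min measurable_id)

/-- The number of grid points. -/
def cnt (η B : ℝ) : ℝ := ((Finset.Icc (-⌈B / η⌉) ⌈B / η⌉).card : ℝ)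

theorem Qz_bounds (hLIP : S_LIP) {d : ℕ} (K : C(UnitAddTorus (Fin d), ℝ)) {η B R : ℝ}
    (hη : 0 < η) (hR : 0 < R) (v : (Fin d → ℤ) → ℝ) :
    0 ≤ Qz K η B R v ∧ Qz K η B R v ≤ cnt η B := by
  unfold Qz cnt
  have hJ : ∀ k : ℤ, 0 ≤ Jm K R v (zk η k) ∧ Jm K R v (zk η k) ≤ 1 / η := fun k =>
    (hLIP (Fin d) K K R hR v (zk η k) hη).2
  constructor
  · exact mul_nonneg (sq_nonneg _) (Finset.sum_nonneg fun _ _ => sq_nonneg _)
  · calc η ^ 2 * ∑ k ∈ Finset.Icc (-⌈B / η⌉) ⌈B / η⌉, (Jm K R v (zk η k)) ^ 2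
        ≤ η ^ 2 * ∑ k ∈ Finset.Icc (-⌈B / η⌉) ⌈B / η⌉, (1 / η) ^ 2 := by
          refine mul_le_mul_of_nonneg_left (Finset.sum_le_sum fun k _ => ?_) (sq_nonneg _)
          exact pow_le_pow_left₀ (hJ k).1 (hJ k).2 2
      _ = ((Finset.Icc (-⌈B / η⌉) ⌈B / η⌉).card : ℝ) := by
          rw [Finset.sum_const, nsmul_eq_mul]
          field_simp

theorem Qz_lip (hLIP : S_LIP) {d : ℕ} (K K' : C(UnitAddTorus (Fin d), ℝ)) {η B R : ℝ}
    (hη : 0 < η) (hR : 0 < R) (v : (Fin d → ℤ) → ℝ) :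
    |Qz K η B R v - Qz K' η B R v| ≤ cnt η B * (2 / η) * ‖K - K'‖ := by
  unfold Qz cnt
  rw [← mul_sub, ← Finset.sum_sub_distrib, abs_mul, abs_of_nonneg (sq_nonneg η)]
  have h1 : ∀ k : ℤ, |(Jm K R v (zk η k)) ^ 2 - (Jm K' R v (zk η k)) ^ 2|
      ≤ (‖K - K'‖ / η ^ 2) * (2 / η) := by
    intro k
    have a1 := (hLIP (Fin d) K K' R hR v (zk η k) hη)
    have a2 := (hLIP (Fin d) K' K R hR v (zk η k) hη).2
    have e : (Jm K R v (zk η k)) ^ 2 - (Jm K' R v (zk η k)) ^ 2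
        = (Jm K R v (zk η k) - Jm K' R v (zk η k)) * (Jm K R v (zk η k) + Jm K' R v (zk η k)) := by
      ring
    rw [e, abs_mul]
    have him : (zk η k).im = η := rfl
    rw [him] at a1 a2
    refine mul_le_mul a1.1 ?_ (abs_nonneg _) (by positivity)
    rw [abs_of_nonneg (by linarith [a1.2.1, a2.1])]
    have : 2 / η = 1 / η + 1 / η := by ring
    linarith [a1.2.2, a2.2]
  calc η ^ 2 * |∑ k ∈ Finset.Icc (-⌈B / η⌉) ⌈B / η⌉,
          ((Jm K R v (zk η k)) ^ 2 - (Jm K' R v (zk η k)) ^ 2)|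
      ≤ η ^ 2 * ∑ k ∈ Finset.Icc (-⌈B / η⌉) ⌈B / η⌉, (‖K - K'‖ / η ^ 2) * (2 / η) := by
        refine mul_le_mul_of_nonneg_left ?_ (sq_nonneg _)
        exact (Finset.abs_sum_le_sum_abs _ _).trans (Finset.sum_le_sum fun k _ => h1 k)
    _ = ((Finset.Icc (-⌈B / η⌉) ⌈B / η⌉).card : ℝ) * (2 / η) * ‖K - K'‖ := by
        rw [Finset.sum_const, nsmul_eq_mul]
        field_simp

theorem measurable_Qz (hM : S_MEAS) {d : ℕ} (K : C(UnitAddTorus (Fin d), ℝ)) {η B R : ℝ}
    (hη : 0 < η) (hR : 0 < R) : Measurable fun v : (Fin d → ℤ) → ℝ => Qz K η B R v := by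
  unfold Qz
  exact (Finset.measurable_sum _ fun k _ => (hM (Fin d) K R hR (zk η k) hη).pow_const 2).const_mul _

end KPaux

open KPaux in
theorem main_KP : S_KP1 → S_KP2 → S_APPROX → S_INJ → S_DIL → S_LAW → S_LIP → S_MEAS → S_KP := by
  intro hKP1 hKP2 hAPP hINJ hDIL hLAW hLIP hMEAS d hd K₀ s η B R ε hs hη hη1 hB hR hε
  set M : ℝ := cnt η B * (2 / η) with hM
  have hM0 : 0 ≤ M := by rw [hM]; unfold cnt; positivity
  set τ : ℝ := min (min 1 s) (ε / 8 / (M + 1)) with hτ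
  have hτ0 : 0 < τ := lt_min (lt_min one_pos hs) (by positivity)
  have hτ1 : τ ≤ 1 := (min_le_left _ _).trans (min_le_left _ _)
  have hτs : τ ≤ s := (min_le_left _ _).trans (min_le_right _ _)
  have hτM : M * τ ≤ ε / 8 := by
    have h1 : τ ≤ ε / 8 / (M + 1) := min_le_right _ _
    calc M * τ ≤ (M + 1) * τ := by nlinarith
      _ ≤ (M + 1) * (ε / 8 / (M + 1)) := mul_le_mul_of_nonneg_left h1 (by positivity)
      _ = ε / 8 := by field_simp
  obtain ⟨h₁, K₁, hh₁, hK₁, hK₁n⟩ := hAPP (Fin d) K₀ τ hτ0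
  obtain ⟨n, F, hF, hF1, hF2⟩ := hKP1 (‖K₀‖ + 1 + 3 * s) η B R (ε / 8) (by positivity) hη hη1 hB hR
    (by positivity)
  have hK₁norm : ‖K₁‖ ≤ ‖K₀‖ + 1 := by
    have : K₁ = (K₁ - K₀) + K₀ := by abel
    calc ‖K₁‖ = ‖(K₁ - K₀) + K₀‖ := by rw [← this]
      _ ≤ ‖K₁ - K₀‖ + ‖K₀‖ := norm_add_le _ _
      _ ≤ ‖K₀‖ + 1 := by linarith
  obtain ⟨r, a, hr, ha, ha2, hτa⟩ := hKP2 d s η B R (ε / 8) hd hs hη hη1 hB hR (by positivity)
    h₁ K₁ hK₁ hh₁ n F hF (by
      intro Q J _ _ _ _ _ _ g₁ g₂ hg₁ hg₂ hb₁ hb₂ v hv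
      exact hF2 Q J g₁ g₂ ‖K₁‖ (3 * s) (norm_nonneg _) (by positivity) (by linarith) hg₁ hg₂ hb₁ hb₂
        v hv)
  obtain ⟨h₂, a₁, hh₂, ha₁, ha₁n, hint⟩ := hτa τ hτ0
  classical
  obtain ⟨N, hN⟩ := hINJ d r (((nb (prodKer h₁ h₂) n) ×ˢ (nb (prodKer h₁ h₂) n)).image
    (fun p => p.1 - p.2))
  have hinj : ∀ x ∈ nb (prodKer h₁ h₂) n, ∀ y ∈ nb (prodKer h₁ h₂) n,
      phiN N x = phiN N y → x = y := by
    intro x hx y hy hxy
    have := hN (x - y) (Finset.mem_image.2 ⟨(x, y), Finset.mem_product.2 ⟨hx, hy⟩, rfl⟩)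
      (by rw [map_sub, hxy, sub_self])
    exact sub_eq_zero.1 this
  refine ⟨dil N a, (hDIL d r N).1 a ha, ?_, fun ν _ => ?_⟩
  · rw [ContinuousMap.norm_le _ (by positivity)]
    intro k
    exact ha2 _
  · set K₂ : C(UnitAddTorus (Fin d), ℝ) := K₁ + dil N a₁ with hK₂
    have htrig : ∀ k, (K₂ k : ℂ) = trig ((prodKer h₁ h₂).mapDomain (phiN N)) k :=
      (hDIL d r N).2 h₁ h₂ K₁ a₁ hK₁ ha₁
    have hdiln : ‖dil N a₁ - dil N a‖ ≤ τ := by
      rw [ContinuousMap.norm_le _ hτ0.le]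
      intro k
      have := ContinuousMap.norm_coe_le_norm (a₁ - a) (fun i : Fin d × Fin r => N i.2 • k i.1)
      exact this.trans ha₁n
    have ha₁norm : ‖dil N a₁‖ ≤ 3 * s := by
      rw [ContinuousMap.norm_le _ (by positivity)]
      intro k
      have h1 := ContinuousMap.norm_coe_le_norm (a₁ - a) (fun i : Fin d × Fin r => N i.2 • k i.1)
      have h2 := ha2 (fun i : Fin d × Fin r => N i.2 • k i.1)
      have h3 : (dil N a₁) k = (a₁ - a) (fun i : Fin d × Fin r => N i.2 • k i.1)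
          + a (fun i : Fin d × Fin r => N i.2 • k i.1) := by
        simp [dil]
      rw [h3]
      refine (norm_add_le _ _).trans ?_
      rw [Real.norm_eq_abs (a _)]
      linarith [h1.trans ha₁n]
    have hK₂norm : ‖K₂‖ ≤ ‖K₀‖ + 1 + 3 * s :=
      (norm_add_le _ _).trans (by linarith)
    have hdiff : ‖(K₀ + dil N a) - K₂‖ ≤ 2 * τ := by
      have e : (K₀ + dil N a) - K₂ = (K₀ - K₁) + (dil N a - dil N a₁) := by rw [hK₂]; abel
      rw [e]
      refine (norm_add_le _ _).trans ?_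
      rw [norm_sub_rev K₀ K₁, norm_sub_rev (dil N a) (dil N a₁)]
      linarith
    have hpt : ∀ v : (Fin d → ℤ) → ℝ, Qz (K₀ + dil N a) η B R v ≤
        F (fun m => mom ((prodKer h₁ h₂).mapDomain (phiN N)) (fun x => clamp R (v x)) m)
          + 3 * (ε / 8) := by
      intro v
      have h1 := Qz_lip hLIP (K₀ + dil N a) K₂ (B := B) hη hR v
      have h2 := hF1 d _ K₂ htrig hK₂norm v
      have h3 : cnt η B * (2 / η) * ‖K₀ + dil N a - K₂‖ ≤ 2 * (ε / 8) := by
        calc cnt η B * (2 / η) * ‖K₀ + dil N a - K₂‖ ≤ M * (2 * τ) :=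
              mul_le_mul_of_nonneg_left hdiff hM0
          _ = 2 * (M * τ) := by ring
          _ ≤ 2 * (ε / 8) := by linarith
      have h4 := abs_le.1 (h1.trans h3)
      have h5 := abs_le.1 h2
      linarith [h4.2, h5.2]
    have hmeasF : Measurable fun v : (Fin d → ℤ) → ℝ =>
        F (fun m => mom ((prodKer h₁ h₂).mapDomain (phiN N)) (fun x => clamp R (v x)) m) := by
      refine hF.measurable.comp ?_
      rw [measurable_pi_iff]
      intro m
      exact measurable_mom _ (clamp R) (measurable_clamp R) m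
    have hintF : Integrable (fun v : (Fin d → ℤ) → ℝ =>
        F (fun m => mom ((prodKer h₁ h₂).mapDomain (phiN N)) (fun x => clamp R (v x)) m))
        (Measure.infinitePi fun _ : Fin d → ℤ => ν) := by
      refine Integrable.of_bound hmeasF.aestronglyMeasurable (cnt η B + ε / 8)
        (Filter.Eventually.of_forall fun v => ?_)
      have h2 := abs_le.1 (hF1 d _ K₂ htrig hK₂norm v)
      have h3 := Qz_bounds hLIP K₂ (B := B) hη hR v
      rw [Real.norm_eq_abs, abs_le]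
      constructor
      · have : 0 ≤ cnt η B := by unfold cnt; positivity
        linarith [h2.2, h3.1]
      · linarith [h2.1, h3.2]
    have hintQ : Integrable (fun v : (Fin d → ℤ) → ℝ => Qz (K₀ + dil N a) η B R v)
        (Measure.infinitePi fun _ : Fin d → ℤ => ν) := by
      refine Integrable.of_bound (measurable_Qz hMEAS _ hη hR).aestronglyMeasurable (cnt η B)
        (Filter.Eventually.of_forall fun v => ?_)
      have h3 := Qz_bounds hLIP (K₀ + dil N a) (B := B) hη hR v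
      rw [Real.norm_eq_abs, abs_of_nonneg h3.1]
      exact h3.2
    have hlaw := hLAW _ _ (phiN N) (prodKer h₁ h₂) n hinj ν (clamp R) (measurable_clamp R) F
      hF.measurable
    calc ∫ v, Qz (K₀ + dil N a) η B R v ∂(Measure.infinitePi fun _ : Fin d → ℤ => ν)
        ≤ ∫ v, (F (fun m => mom ((prodKer h₁ h₂).mapDomain (phiN N)) (fun x => clamp R (v x)) m)
          + 3 * (ε / 8)) ∂(Measure.infinitePi fun _ : Fin d → ℤ => ν) :=
          integral_mono hintQ (hintF.add (integrable_const _)) hpt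
      _ = ∫ v, F (fun m => mom ((prodKer h₁ h₂).mapDomain (phiN N)) (fun x => clamp R (v x)) m)
          ∂(Measure.infinitePi fun _ : Fin d → ℤ => ν) + 3 * (ε / 8) := by
          rw [integral_add hintF (integrable_const _)]
          simp
      _ = ∫ v, F (fun m => mom (prodKer h₁ h₂) (fun x => clamp R (v x)) m)
          ∂(Measure.infinitePi fun _ : (Fin d → ℤ) × (Fin d × Fin r → ℤ) => ν) + 3 * (ε / 8) := by
          rw [hlaw]
      _ ≤ ((10 / s) * Real.sqrt ((B + 1) * η) + 2 * (ε / 8)) + 3 * (ε / 8) :=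
          add_le_add_left (hint ν) _
      _ ≤ (10 / s) * Real.sqrt ((B + 1) * η) + ε := by linarith

end

end Pool.Agent.Q156.GK
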