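import Pool.Agent.Q156.GK.Stm

/-! Project GK (helper156), job KP1 (helper13): a continuous function of finitely many moments which is
close to `Qz` and to `Qf`. -/

set_option autoImplicit false

namespace Pool.Agent.Q156.GK

open Pool.Agent.W792.GK MeasureTheory
open scoped Matrix.Norms.L2Operator

noncomputable section

namespace KP1

theorem pow_bd {E : Type} [NormedAddCommGroup E] [InnerProductSpace ℂ E] (T : E →L[ℂ] E) {C : ℝ}
    (hC : 0 ≤ C) (hT : ‖T‖ ≤ C) (j : ℕ) : ‖T ^ j‖ ≤ C ^ j := by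
  induction j with
  | zero => rw [pow_zero, pow_zero]; exact ContinuousLinearMap.norm_id_le
  | succ j ih =>
    rw [pow_succ, pow_succ]
    exact (norm_mul_le _ _).trans (mul_le_mul ih hT (norm_nonneg _) (pow_nonneg hC j))

/-- the resolvents are uniformly bounded -/
theorem res_bound (hPA : S_PA) {C : ℝ} (hC : 0 ≤ C) {z : ℂ} (hz : z.im ≠ 0) : ∃ M : ℝ, 0 ≤ M ∧
    ∀ (E : Type) [NormedAddCommGroup E] [InnerProductSpace ℂ E] [CompleteSpace E] (T : E →L[ℂ] E),
      IsSelfAdjoint T → ‖T‖ ≤ C → ‖Ring.inverse (T - z • (1 : E →L[ℂ] E))‖ ≤ M := by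
  obtain ⟨P, hP⟩ := hPA C z 1 hz one_pos
  refine ⟨1 + ∑ j ∈ Finset.range (P.natDegree + 1), ‖P.coeff j‖ * C ^ j, by positivity, ?_⟩
  intro E _ _ _ T hT hTn
  have h1 := (hP E T hT hTn).2
  have h2 : ‖Polynomial.aeval T P‖ ≤
      ∑ j ∈ Finset.range (P.natDegree + 1), ‖P.coeff j‖ * C ^ j := by
    rw [Polynomial.aeval_eq_sum_range]
    refine (norm_sum_le _ _).trans (Finset.sum_le_sum fun j _ => ?_)
    exact (norm_smul_le _ _).trans
      (mul_le_mul_of_nonneg_left (pow_bd T hC hTn j) (norm_nonneg _))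
  calc ‖Ring.inverse (T - z • (1 : E →L[ℂ] E))‖
      = ‖(Ring.inverse (T - z • (1 : E →L[ℂ] E)) - Polynomial.aeval T P) +
          Polynomial.aeval T P‖ := by rw [sub_add_cancel]
    _ ≤ _ := norm_add_le _ _
    _ ≤ _ := add_le_add h1 h2

/-- the approximation of the functional for all self-adjoint operators of norm at most `C` -/
theorem approx (hPA : S_PA) {C η B ε : ℝ} (hC : 0 ≤ C) (hη : 0 < η) (hε : 0 < ε) :
    ∃ (n : ℕ) (c : ℤ → ℕ → ℂ), ∀ (E : Type) [NormedAddCommGroup E] [InnerProductSpace ℂ E]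
      [CompleteSpace E] (T : E →L[ℂ] E) (ent : (E →L[ℂ] E) →ₗ[ℂ] ℂ), IsSelfAdjoint T → ‖T‖ ≤ C →
      (∀ A, ‖ent A‖ ≤ ‖A‖) →
      |η ^ 2 * ∑ k ∈ Finset.Icc (-⌈B / η⌉) ⌈B / η⌉,
          ((ent (Ring.inverse (T - zk η k • (1 : E →L[ℂ] E)))).im) ^ 2 -
        η ^ 2 * ∑ k ∈ Finset.Icc (-⌈B / η⌉) ⌈B / η⌉,
          ((∑ j : Fin (n + 1), c k j * ent (T ^ (j : ℕ))).im) ^ 2| ≤ ε := by
  have hz : ∀ k : ℤ, (zk η k).im ≠ 0 := fun k => hη.ne'
  choose M hM0 hM using fun k : ℤ => res_bound hPA hC (hz k)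
  set I := Finset.Icc (-⌈B / η⌉) ⌈B / η⌉ with hI
  set Mt : ℝ := ∑ k ∈ I, M k with hMt
  have hMt0 : 0 ≤ Mt := Finset.sum_nonneg fun k _ => hM0 k
  have hMk : ∀ k ∈ I, M k ≤ Mt := fun k hk => Finset.single_le_sum (fun k _ => hM0 k) hk
  set D : ℝ := η ^ 2 * (I.card * (2 * Mt + 1)) + 1 with hD
  have hD0 : 0 < D := by positivity
  set ε₁ : ℝ := min 1 (ε / D) with hε₁
  have he0 : 0 < ε₁ := lt_min one_pos (div_pos hε hD0)
  choose P hP using fun k : ℤ => hPA C (zk η k) ε₁ (hz k) he0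
  set n : ℕ := I.sup fun k => (P k).natDegree with hn
  refine ⟨n, fun k j => (P k).coeff j, ?_⟩
  intro E _ _ _ T ent hT hTn hent
  rw [← mul_sub, ← Finset.sum_sub_distrib]
  have key : ∀ k ∈ I, |((ent (Ring.inverse (T - zk η k • (1 : E →L[ℂ] E)))).im) ^ 2 -
      ((∑ j : Fin (n + 1), (P k).coeff j * ent (T ^ (j : ℕ))).im) ^ 2| ≤ ε₁ * (2 * Mt + 1) := by
    intro k hk
    set a : ℂ := ent (Ring.inverse (T - zk η k • (1 : E →L[ℂ] E))) with ha
    have hdeg : (P k).natDegree < n + 1 :=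
      Nat.lt_succ_of_le (Finset.le_sup (f := fun k => (P k).natDegree) hk)
    have hb : ∑ j : Fin (n + 1), (P k).coeff j * ent (T ^ (j : ℕ)) =
        ent (Polynomial.aeval T (P k)) := by
      rw [Polynomial.aeval_eq_sum_range' hdeg, map_sum,
        ← Fin.sum_univ_eq_sum_range (fun i => ent ((P k).coeff i • T ^ i)) (n + 1)]
      exact Finset.sum_congr rfl fun j _ => by rw [map_smul, smul_eq_mul]
    rw [hb]
    set b : ℂ := ent (Polynomial.aeval T (P k)) with hb'
    have h1 : ‖a - b‖ ≤ ε₁ := by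
      rw [ha, hb', ← map_sub]
      exact (hent _).trans (hP k E T hT hTn).2
    have h2 : |a.im - b.im| ≤ ε₁ := by
      rw [← Complex.sub_im]
      exact (Complex.abs_im_le_norm _).trans h1
    have h3 : |a.im| ≤ Mt :=
      (Complex.abs_im_le_norm _).trans ((hent _).trans ((hM k E T hT hTn).trans (hMk k hk)))
    have h4 : |b.im| ≤ Mt + 1 := by
      have h5 : |b.im| ≤ |a.im| + |a.im - b.im| := by
        have := abs_sub_abs_le_abs_sub b.im a.im
        rw [abs_sub_comm b.im a.im] at this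
        linarith
      have h6 : ε₁ ≤ 1 := min_le_left _ _
      linarith
    have h7 : a.im ^ 2 - b.im ^ 2 = (a.im - b.im) * (a.im + b.im) := by ring
    rw [h7, abs_mul]
    have h8 : |a.im + b.im| ≤ 2 * Mt + 1 := (abs_add_le _ _).trans (by linarith)
    exact mul_le_mul h2 h8 (abs_nonneg _) he0.le
  rw [abs_mul, abs_of_nonneg (sq_nonneg η)]
  calc η ^ 2 * |∑ k ∈ I, (((ent (Ring.inverse (T - zk η k • (1 : E →L[ℂ] E)))).im) ^ 2 -
        ((∑ j : Fin (n + 1), (P k).coeff j * ent (T ^ (j : ℕ))).im) ^ 2)|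
      ≤ η ^ 2 * ∑ k ∈ I, ε₁ * (2 * Mt + 1) :=
        mul_le_mul_of_nonneg_left ((Finset.abs_sum_le_sum_abs _ _).trans
          (Finset.sum_le_sum key)) (sq_nonneg η)
    _ = ε₁ * (η ^ 2 * (I.card * (2 * Mt + 1))) := by
        rw [Finset.sum_const, nsmul_eq_mul]; ring
    _ ≤ (ε / D) * (η ^ 2 * (I.card * (2 * Mt + 1))) :=
        mul_le_mul_of_nonneg_right (min_le_right _ _) (by positivity)
    _ ≤ (ε / D) * D := mul_le_mul_of_nonneg_left (by rw [hD]; linarith) (div_pos hε hD0).le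
    _ = ε := div_mul_cancel₀ _ hD0.ne'

/-- the matrix of a function on the second factor -/
def M2 {Q J : Type} [DecidableEq Q] (A : Matrix J J ℂ) : Matrix (Q × J) (Q × J) ℂ :=
  fun p q => if p.1 = q.1 then A p.2 q.2 else 0

/-- the diagonal matrix of a real function -/
def M3 {n : Type} [DecidableEq n] (v : n → ℝ) : Matrix n n ℂ :=
  fun p q => if p = q then (v p : ℂ) else 0

/-- a bounded diagonal matrix -/
theorem opB_diag {n : Type} [Fintype n] [DecidableEq n] {v : n → ℝ} {R : ℝ} (hv : ∀ x, |v x| ≤ R) :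
    OpB (M3 v) R := by
  intro u
  unfold M3
  have e : ∀ x, Matrix.mulVec (fun p q : n => if p = q then (v p : ℂ) else 0) u x = v x * u x := by
    intro x
    unfold Matrix.mulVec dotProduct
    simp
  rw [Finset.mul_sum]
  refine Finset.sum_le_sum fun x _ => ?_
  rw [e, norm_mul, mul_pow, Complex.norm_real, Real.norm_eq_abs]
  exact mul_le_mul_of_nonneg_right (pow_le_pow_left₀ (abs_nonneg _) (hv x) 2) (sq_nonneg _)

/-- a matrix acting on the second factor -/
theorem opB_second {Q J : Type} [Fintype Q] [Fintype J] [DecidableEq Q] [DecidableEq J]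
    {A : Matrix J J ℂ} {c : ℝ} (hA : OpB A c) :
    OpB (M2 (Q := Q) A) c := by
  intro u
  unfold M2
  have e : ∀ x j, Matrix.mulVec (fun p q : Q × J => if p.1 = q.1 then A p.2 q.2 else 0) u (x, j)
      = A.mulVec (fun i => u (x, i)) j := by
    intro x j
    unfold Matrix.mulVec dotProduct
    rw [Fintype.sum_prod_type, Finset.sum_eq_single x]
    · simp
    · intro b _ hb
      simp [hb.symm]
    · simp
  rw [Fintype.sum_prod_type, Fintype.sum_prod_type, Finset.mul_sum]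
  refine Finset.sum_le_sum fun x _ => ?_
  simp only [e]
  exact hA fun i => u (x, i)

theorem opB_ham {Q J : Type} [AddCommGroup Q] [Fintype Q] [DecidableEq Q] [Fintype J]
    [DecidableEq J] {κ : Q → ℂ} {A : Matrix J J ℂ} {C₁ C₂ R : ℝ} (h1 : 0 ≤ C₁) (h2 : 0 ≤ C₂)
    (hR : 0 ≤ R) (hκ : OpB (fun x y : Q => κ (x - y)) C₁) (hA : OpB A C₂) {v : Q × J → ℝ}
    (hv : ∀ x, |v x| ≤ R) : OpB (ham κ A v) (C₁ + C₂ + R) := by
  have e : ham κ A v = Matrix.blockDiagonal (fun _ : J => (fun x y : Q => κ (x - y))) +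
      M2 A + M3 v := by
    funext p q
    simp only [ham, M2, M3, Matrix.add_apply, Matrix.blockDiagonal_apply]
  rw [e]
  exact opB_add (add_nonneg h1 h2) hR (opB_add h1 h2 (opB_blockDiagonal fun _ => hκ)
    (opB_second hA)) (opB_diag hv)

theorem ham_herm {Q J : Type} [AddCommGroup Q] [DecidableEq Q] [DecidableEq J] {κ : Q → ℂ}
    {A : Matrix J J ℂ} (hκ : ∀ x, κ (-x) = (starRingEnd ℂ) (κ x)) (hA : A.IsHermitian)
    (v : Q × J → ℝ) : (ham κ A v).IsHermitian := by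
  ext p q
  rw [Matrix.conjTranspose_apply]
  unfold ham
  simp only [star_add]
  congr 1
  · congr 1
    · by_cases h : p.2 = q.2
      · rw [if_pos h, if_pos h.symm, ← neg_sub p.1 q.1, hκ]
        simp
      · rw [if_neg h, if_neg (Ne.symm h), star_zero]
    · by_cases h : p.1 = q.1
      · rw [if_pos h, if_pos h.symm]
        exact hA.apply _ _
      · rw [if_neg h, if_neg (Ne.symm h), star_zero]
  · by_cases h : p = q
    · subst h
      rw [if_pos rfl]
      simp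
    · rw [if_neg h, if_neg (Ne.symm h), star_zero]

/-- the entry of the operator of a matrix -/
def entF {n : Type} [Fintype n] [DecidableEq n] (i : n) :
    (EuclideanSpace ℂ n →L[ℂ] EuclideanSpace ℂ n) →ₗ[ℂ] ℂ where
  toFun A := (A (EuclideanSpace.single i 1)).ofLp i
  map_add' A A' := rfl
  map_smul' c A := rfl

theorem entF_norm {n : Type} [Fintype n] [DecidableEq n] (i : n)
    (A : EuclideanSpace ℂ n →L[ℂ] EuclideanSpace ℂ n) : ‖entF i A‖ ≤ ‖A‖ := by
  have h1 : ‖(A (EuclideanSpace.single i (1 : ℂ))).ofLp i‖ ≤ ‖A (EuclideanSpace.single i (1 : ℂ))‖ :=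
    PiLp.norm_apply_le _ _
  refine h1.trans ((A.le_opNorm _).trans (le_of_eq ?_))
  rw [EuclideanSpace.norm_single, norm_one, mul_one]

theorem entF_mat {n : Type} [Fintype n] [DecidableEq n] (i : n) (H : Matrix n n ℂ) :
    entF i (Matrix.toEuclideanCLM (𝕜 := ℂ) H) = H i i := by
  change ((Matrix.toEuclideanCLM (𝕜 := ℂ) H) (EuclideanSpace.single i 1)).ofLp i = H i i
  rw [Matrix.ofLp_toEuclideanCLM]
  simp

/-- the entry at the origin -/
def entZ {Γ : Type} [DecidableEq Γ] (i : Γ) : (l2 Γ →L[ℂ] l2 Γ) →ₗ[ℂ] ℂ where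
  toFun A := (A (lp.single 2 i (1 : ℂ))) i
  map_add' A A' := rfl
  map_smul' c A := rfl

theorem entZ_norm {Γ : Type} [DecidableEq Γ] (i : Γ) (A : l2 Γ →L[ℂ] l2 Γ) :
    ‖entZ i A‖ ≤ ‖A‖ := by
  have h1 : ‖(A (lp.single 2 i (1 : ℂ))) i‖ ≤ ‖A (lp.single 2 i (1 : ℂ))‖ :=
    lp.norm_apply_le_norm (by norm_num) _ _
  refine h1.trans ((A.le_opNorm _).trans (le_of_eq ?_))
  rw [lp.norm_single (by norm_num), norm_one, mul_one]

end KP1

open KP1

theorem main_KP1 : S_PA → S_MOP → S_MFIN → S_T1 → S_T2 → S_LIP → S_KP1 := by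
  intro hPA hMOP hMFIN hT1 hT2 _ C η B R ε hC hη _ _ hR hε
  obtain ⟨n, c, hc⟩ := approx hPA (C := C + R) (B := B) (add_nonneg hC hR.le) hη hε
  refine ⟨n, fun m => η ^ 2 * ∑ k ∈ Finset.Icc (-⌈B / η⌉) ⌈B / η⌉,
    ((∑ j : Fin (n + 1), c k j * m j).im) ^ 2, ?_, ?_, ?_⟩
  · refine continuous_const.mul (continuous_finsetSum _ fun k _ => ?_)
    refine (Complex.continuous_im.comp (continuous_finsetSum _ fun j _ => ?_)).pow 2
    exact continuous_const.mul (continuous_apply j)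
  · intro d h K hK hKC v
    have hT : IsHop K (hopOp K) := by
      unfold hopOp
      rw [dif_pos (hT1 (Fin d) K)]
      exact Classical.choose_spec (hT1 (Fin d) K)
    have hM : IsMul R v (mulOp R v) := by
      unfold mulOp
      rw [dif_pos (hT2 (Fin d → ℤ) R hR v)]
      exact Classical.choose_spec (hT2 (Fin d → ℤ) R hR v)
    have h1 := hc (l2 (Fin d → ℤ)) (hopOp K + mulOp R v) (entZ (0 : Fin d → ℤ))
      (hT.1.add hM.1) ((norm_add_le _ _).trans (add_le_add (hT.2.1.trans hKC) hM.2.1))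
      (entZ_norm _)
    have h2 : ∀ j : ℕ, entZ (0 : Fin d → ℤ) ((hopOp K + mulOp R v) ^ j) =
        mom h (fun x => clamp R (v x)) j := fun j =>
      hMOP (Fin d) h K hK (hopOp K) hT R v (mulOp R v) hM j
    simp only [h2] at h1
    exact h1
  · intro Q J _ _ _ _ _ _ h₁ h₂ C₁ C₂ hC₁ hC₂ hCC hh₁ hh₂ hO₁ hO₂ v hv
    set κ : Q → ℂ := fun x => h₁ x with hκ
    set A : Matrix J J ℂ := fun i j => h₂ (i - j) with hA
    have hAh : A.IsHermitian := by
      ext i j
      rw [Matrix.conjTranspose_apply]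
      change star (h₂ (j - i)) = h₂ (i - j)
      rw [← neg_sub j i, hh₂]
      rfl
    have hH : (ham κ A v).IsHermitian := ham_herm hh₁ hAh v
    set T := Matrix.toEuclideanCLM (𝕜 := ℂ) (ham κ A v) with hTdef
    have hTs : IsSelfAdjoint T := hH.isSelfAdjoint.map (Matrix.toEuclideanCLM (𝕜 := ℂ))
    have hTn : ‖T‖ ≤ C + R := by
      rw [hTdef, Matrix.l2_opNorm_toEuclideanCLM]
      refine (OpB.norm_le (opB_ham hC₁ hC₂ hR.le hO₁ hO₂ hv) (by positivity)).trans ?_
      linarith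
    have h1 := hc (EuclideanSpace ℂ (Q × J)) T (entF (0 : Q × J)) hTs hTn (entF_norm _)
    have h2 : ∀ j : ℕ, entF (0 : Q × J) (T ^ j) = mom (prodKer h₁ h₂) v j := by
      intro j
      rw [hTdef, ← map_pow, entF_mat]
      exact hMFIN Q J h₁ h₂ v j
    have h3 : ∀ k : ℤ, entF (0 : Q × J) (Ring.inverse (T - zk η k • 1)) =
        gr κ A v (zk η k) 0 0 0 := by
      intro k
      have hz : (zk η k).im ≠ 0 := hη.ne'
      obtain ⟨P, hP⟩ := hPA (C + R) (zk η k) 1 hz one_pos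
      have hu := (hP (EuclideanSpace ℂ (Q × J)) T hTs hTn).1
      have e1 : T - zk η k • (1 : EuclideanSpace ℂ (Q × J) →L[ℂ] EuclideanSpace ℂ (Q × J)) =
          Matrix.toEuclideanCLM (𝕜 := ℂ)
            (ham κ A v - zk η k • (1 : Matrix (Q × J) (Q × J) ℂ)) := by
        rw [map_sub, map_smul, map_one]
      rw [e1] at hu ⊢
      have hu2 : IsUnit (ham κ A v - zk η k • (1 : Matrix (Q × J) (Q × J) ℂ)) := by
        have h4 := hu.map (Matrix.toEuclideanCLM (𝕜 := ℂ) (n := Q × J)).symm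
        rwa [StarAlgEquiv.symm_apply_apply] at h4
      have hdet := (Matrix.isUnit_iff_isUnit_det _).1 hu2
      have e2 : Ring.inverse (Matrix.toEuclideanCLM (𝕜 := ℂ)
          (ham κ A v - zk η k • (1 : Matrix (Q × J) (Q × J) ℂ))) =
          Matrix.toEuclideanCLM (𝕜 := ℂ)
            (ham κ A v - zk η k • (1 : Matrix (Q × J) (Q × J) ℂ))⁻¹ := by
        have h5 : Matrix.toEuclideanCLM (𝕜 := ℂ)
            (ham κ A v - zk η k • (1 : Matrix (Q × J) (Q × J) ℂ))⁻¹ *
            Matrix.toEuclideanCLM (𝕜 := ℂ)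
              (ham κ A v - zk η k • (1 : Matrix (Q × J) (Q × J) ℂ)) = 1 := by
          rw [← map_mul, Matrix.nonsing_inv_mul _ hdet, map_one]
        calc _ = (Matrix.toEuclideanCLM (𝕜 := ℂ)
            (ham κ A v - zk η k • (1 : Matrix (Q × J) (Q × J) ℂ))⁻¹ *
            Matrix.toEuclideanCLM (𝕜 := ℂ)
              (ham κ A v - zk η k • (1 : Matrix (Q × J) (Q × J) ℂ))) *
              Ring.inverse (Matrix.toEuclideanCLM (𝕜 := ℂ)
                (ham κ A v - zk η k • (1 : Matrix (Q × J) (Q × J) ℂ))) := by rw [h5, one_mul]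
          _ = _ := by rw [mul_assoc, Ring.mul_inverse_cancel _ hu, mul_one]
      rw [e2, entF_mat]
      rfl
    simp only [h2, h3] at h1
    exact h1

end

end Pool.Agent.Q156.GK
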