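import Pool.Agent.Q156.GK.Stm

/-!
Project GK, job KP2: the finite part of the key proposition.
-/

set_option autoImplicit false

namespace Pool.Agent.Q156.GK

open Pool.Agent.W792.GK MeasureTheory
open scoped ComplexOrder

noncomputable section

namespace KP2

/-- Reduction modulo `ℓ`. -/
def redH (ι : Type) (ℓ : ℕ) : (ι → ℤ) →+ (ι → ZMod ℓ) where
  toFun n i := ((n i : ℤ) : ZMod ℓ)
  map_zero' := by ext i; simp
  map_add' a b := by ext i; simp

theorem inj {ι : Type} [Fintype ι] (T : Finset (ι → ℤ)) : ∃ ℓ₀ : ℕ, ∀ ℓ : ℕ, ℓ₀ ≤ ℓ →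
    ∀ x ∈ T, ∀ y ∈ T, redH ι ℓ x = redH ι ℓ y → x = y := by
  refine ⟨1 + ∑ x ∈ T, ∑ y ∈ T, ∑ i, (y i - x i).natAbs, fun ℓ hℓ x hx y hy hxy => ?_⟩
  funext i
  have h1 : ((x i : ℤ) : ZMod ℓ) = ((y i : ℤ) : ZMod ℓ) := congrFun hxy i
  rw [ZMod.intCast_eq_intCast_iff_dvd_sub] at h1
  have h2 : (y i - x i).natAbs < ℓ := by
    have e1 : (y i - x i).natAbs ≤ ∑ i, (y i - x i).natAbs :=
      Finset.single_le_sum (f := fun i => (y i - x i).natAbs) (fun _ _ => Nat.zero_le _)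
        (Finset.mem_univ i)
    have e2 : (∑ i, (y i - x i).natAbs) ≤ ∑ y ∈ T, ∑ i, (y i - x i).natAbs :=
      Finset.single_le_sum (f := fun y : ι → ℤ => ∑ i, (y i - x i).natAbs)
        (fun _ _ => Nat.zero_le _) hy
    have e3 : (∑ y ∈ T, ∑ i, (y i - x i).natAbs) ≤ ∑ x ∈ T, ∑ y ∈ T, ∑ i, (y i - x i).natAbs :=
      Finset.single_le_sum (f := fun x : ι → ℤ => ∑ y ∈ T, ∑ i, (y i - x i).natAbs)
        (fun _ _ => Nat.zero_le _) hx
    omega
  have h3 : y i - x i = 0 := by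
    apply Int.eq_zero_of_abs_lt_dvd h1
    rw [Int.abs_eq_natAbs]
    exact_mod_cast h2
  omega

theorem mapDomain_eval {Γ₀ Γ : Type} [DecidableEq Γ] (φ : Γ₀ → Γ)
    (h : Γ₀ →₀ ℂ) (y : Γ) :
    (h.mapDomain φ) y = ∑ x ∈ h.support, if φ x = y then h x else 0 := by
  rw [Finsupp.mapDomain, Finsupp.sum, Finsupp.finsetSum_apply]
  refine Finset.sum_congr rfl fun x _ => ?_
  rw [Finsupp.single_apply]

theorem conj {Γ₀ Γ : Type} [AddCommGroup Γ₀] [AddCommGroup Γ] (φ : Γ₀ →+ Γ) (h : Γ₀ →₀ ℂ)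
    (hh : ∀ x, h (-x) = (starRingEnd ℂ) (h x)) (y : Γ) :
    (h.mapDomain φ) (-y) = (starRingEnd ℂ) ((h.mapDomain φ) y) := by
  classical
  rw [mapDomain_eval, mapDomain_eval, map_sum]
  refine Finset.sum_nbij' (fun x => -x) (fun x => -x) ?_ ?_ ?_ ?_ ?_
  · intro x hx
    rw [Finsupp.mem_support_iff] at hx ⊢
    rw [hh]
    simpa using hx
  · intro x hx
    rw [Finsupp.mem_support_iff] at hx ⊢
    rw [hh]
    simpa using hx
  · intro x _; simp
  · intro x _; simp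
  · intro x _
    have e1 : (φ x = -y) ↔ (φ (-x) = y) := by
      rw [map_neg]
      constructor
      · intro e; rw [e]; simp
      · intro e; rw [← e]; simp
    by_cases hx : φ (-x) = y
    · rw [if_pos hx, if_pos (e1.2 hx), hh]; simp
    · rw [if_neg hx, if_neg (fun e => hx (e1.1 e))]; simp

theorem prodKer_map {Γ₁ Γ₂ Δ₁ Δ₂ : Type} [AddCommGroup Γ₁] [AddCommGroup Γ₂] [AddCommGroup Δ₁]
    [AddCommGroup Δ₂] (φ : Γ₁ →+ Δ₁) (ψ : Γ₂ →+ Δ₂) (h₁ : Γ₁ →₀ ℂ) (h₂ : Γ₂ →₀ ℂ) :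
    (prodKer h₁ h₂).mapDomain (AddMonoidHom.prodMap φ ψ)
      = prodKer (h₁.mapDomain φ) (h₂.mapDomain ψ) := by
  unfold prodKer
  rw [Finsupp.mapDomain_add, ← Finsupp.mapDomain_comp, ← Finsupp.mapDomain_comp,
    ← Finsupp.mapDomain_comp, ← Finsupp.mapDomain_comp]
  congr 1
  · congr 1
    funext x
    simp [AddMonoidHom.prodMap]
  · congr 1
    funext x
    simp [AddMonoidHom.prodMap]

theorem nb_fst {Γ₁ Γ₂ : Type} [AddCommGroup Γ₁] [AddCommGroup Γ₂] (h₁ : Γ₁ →₀ ℂ) (h₂ : Γ₂ →₀ ℂ)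
    (n : ℕ) : ∀ x ∈ nb (prodKer h₁ h₂) n, x.1 ∈ nb h₁ n := by
  classical
  induction n with
  | zero =>
    intro x hx
    simp only [nb, Finset.mem_singleton] at hx ⊢
    rw [hx]; rfl
  | succ n ih =>
    intro x hx
    simp only [nb, Finset.mem_union, Finset.mem_image, Finset.mem_product] at hx ⊢
    rcases hx with hx | ⟨p, ⟨hp1, hp2⟩, rfl⟩
    · exact Or.inl (ih x hx)
    · have h3 : p.2 ∈ (h₁.mapDomain (fun x => (x, (0 : Γ₂)))).support ∪
          (h₂.mapDomain (fun y => ((0 : Γ₁), y))).support := Finsupp.support_add hp2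
      rw [Finset.mem_union] at h3
      rcases h3 with h3 | h3
      · have h4 := Finsupp.mapDomain_support h3
        rw [Finset.mem_image] at h4
        obtain ⟨a, ha, hap⟩ := h4
        right
        refine ⟨(p.1.1, a), ⟨ih _ hp1, ha⟩, ?_⟩
        rw [← hap]; rfl
      · have h4 := Finsupp.mapDomain_support h3
        rw [Finset.mem_image] at h4
        obtain ⟨a, ha, hap⟩ := h4
        left
        rw [← hap]
        simpa using ih _ hp1

section coefs

local instance : MeasureSpace UnitAddCircle := ⟨AddCircle.haarAddCircle⟩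

local instance : Measure.IsAddHaarMeasure (volume : Measure UnitAddCircle) :=
  inferInstanceAs (Measure.IsAddHaarMeasure AddCircle.haarAddCircle)

local instance : IsProbabilityMeasure (volume : Measure UnitAddCircle) :=
  inferInstanceAs (IsProbabilityMeasure AddCircle.haarAddCircle)

theorem coef_le {ι : Type} [Fintype ι] (f g : UnitAddTorus ι → ℂ) (hf : Continuous f)
    (hg : Continuous g) (δ : ℝ) (h : ∀ k, ‖f k - g k‖ ≤ δ) (γ : ι → ℤ) :
    ‖UnitAddTorus.mFourierCoeff f γ‖ ≤ ‖UnitAddTorus.mFourierCoeff g γ‖ + δ := by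
  have h1 : UnitAddTorus.mFourierCoeff f γ = UnitAddTorus.mFourierCoeff g γ
      + ∫ t, UnitAddTorus.mFourier (-γ) t • (f t - g t) := by
    unfold UnitAddTorus.mFourierCoeff
    rw [← integral_add]
    · refine integral_congr_ae (Filter.Eventually.of_forall fun t => ?_)
      simp only [smul_eq_mul]
      ring
    · have hc : Continuous fun t : UnitAddTorus ι => UnitAddTorus.mFourier (-γ) t • g t := by
        fun_prop
      exact hc.integrable_of_hasCompactSupport (HasCompactSupport.of_compactSpace _)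
    · have hc : Continuous fun t : UnitAddTorus ι =>
          UnitAddTorus.mFourier (-γ) t • (f t - g t) := by
        fun_prop
      exact hc.integrable_of_hasCompactSupport (HasCompactSupport.of_compactSpace _)
  have h2 : ‖∫ t, UnitAddTorus.mFourier (-γ) t • (f t - g t)‖ ≤ δ := by
    have h3 := norm_integral_le_of_norm_le_const (μ := (volume : Measure (UnitAddTorus ι)))
      (f := fun t => UnitAddTorus.mFourier (-γ) t • (f t - g t)) (C := δ)
      (Filter.Eventually.of_forall fun t => by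
        rw [norm_smul]
        have e1 : ‖UnitAddTorus.mFourier (-γ) t‖ ≤ 1 := by
          refine le_trans (ContinuousMap.norm_coe_le_norm _ t) ?_
          rw [UnitAddTorus.mFourier_norm]
        calc _ ≤ 1 * ‖f t - g t‖ := by gcongr
          _ ≤ δ := by rw [one_mul]; exact h t)
    simpa using h3
  rw [h1]
  exact (norm_add_le _ _).trans (by gcongr)

end coefs

theorem ch_cont (c : ℝ) (n : ℕ) : (Continuous fun x : ℝ => ch c x n) ∧
    (Continuous fun x : ℝ => ch c x (n + 1)) := by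
  induction n with
  | zero => exact ⟨by simpa [ch] using continuous_const, by simpa [ch] using continuous_id'⟩
  | succ n ih =>
    refine ⟨ih.2, ?_⟩
    have : (fun x : ℝ => ch c x (n + 1 + 1)) = fun x => x * ch c x (n + 1) - c • ch c x n := by
      funext x; rw [ch]
    rw [this]
    exact (continuous_id.mul ih.2).sub (ih.1.const_smul c)

theorem uc (c M δ : ℝ) (hδ : 0 < δ) (n₀ : ℕ) : ∃ τ : ℝ, 0 < τ ∧ ∀ x y : ℝ, |x| ≤ M → |y| ≤ M →
    |x - y| ≤ τ → ∀ n ≤ n₀, |ch c x n - ch c y n| ≤ δ := by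
  have key : ∀ n : ℕ, ∃ τ : ℝ, 0 < τ ∧ ∀ x y : ℝ, |x| ≤ M → |y| ≤ M →
      |x - y| ≤ τ → |ch c x n - ch c y n| ≤ δ := by
    intro n
    have h1 : UniformContinuousOn (fun x : ℝ => ch c x n) (Set.Icc (-M) M) :=
      isCompact_Icc.uniformContinuousOn_of_continuous (ch_cont c n).1.continuousOn
    rw [Metric.uniformContinuousOn_iff] at h1
    obtain ⟨τ, hτ, h2⟩ := h1 δ hδ
    refine ⟨τ / 2, by positivity, fun x y hx hy hxy => ?_⟩
    have h3 := h2 x (abs_le.1 hx) y (abs_le.1 hy) (by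
      rw [Real.dist_eq]; linarith)
    rw [Real.dist_eq] at h3
    exact h3.le
  induction n₀ with
  | zero =>
    obtain ⟨τ, hτ, h⟩ := key 0
    refine ⟨τ, hτ, fun x y hx hy hxy n hn => ?_⟩
    obtain rfl : n = 0 := by omega
    exact h x y hx hy hxy
  | succ m ih =>
    obtain ⟨τ, hτ, h⟩ := key (m + 1)
    obtain ⟨τ', hτ', h'⟩ := ih
    refine ⟨min τ τ', lt_min hτ hτ', fun x y hx hy hxy n hn => ?_⟩
    rcases Nat.lt_or_ge n (m + 1) with hn' | hn'
    · exact h' x y hx hy (hxy.trans (min_le_right _ _)) n (by omega)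
    · obtain rfl : n = m + 1 := by omega
      exact h x y hx hy (hxy.trans (min_le_left _ _))

theorem gr_meas {Q J : Type} [AddCommGroup Q] [Fintype Q] [DecidableEq Q] [Fintype J]
    [DecidableEq J] (κ : Q → ℂ) (A : Matrix J J ℂ) (z : ℂ) (p : J) (x y : Q) :
    Measurable fun v : Q × J → ℝ => gr κ A v z p x y := by
  have hc : Continuous fun v : Q × J → ℝ => ham κ A v - z • (1 : Matrix (Q × J) (Q × J) ℂ) := by
    refine Continuous.sub ?_ continuous_const
    refine continuous_matrix fun i j => ?_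
    unfold ham
    refine Continuous.add continuous_const ?_
    by_cases hij : i = j
    · simp only [if_pos hij]
      exact Complex.continuous_ofReal.comp (continuous_apply i)
    · simp only [if_neg hij]
      exact continuous_const
  have e : (fun v : Q × J → ℝ => gr κ A v z p x y) = fun v : Q × J → ℝ =>
      ((ham κ A v - z • (1 : Matrix (Q × J) (Q × J) ℂ)).det)⁻¹ *
        (ham κ A v - z • (1 : Matrix (Q × J) (Q × J) ℂ)).adjugate (x, p) (y, p) := by
    funext v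
    unfold gr
    rw [Matrix.inv_def, Ring.inverse_eq_inv']
    rfl
  rw [e]
  refine Measurable.mul ?_ ?_
  · exact (hc.matrix_det).measurable.inv
  · exact ((continuous_apply_apply (x, p) (y, p)).comp hc.matrix_adjugate).measurable

theorem Qf_meas {Q J : Type} [AddCommGroup Q] [Fintype Q] [DecidableEq Q] [Fintype J]
    [DecidableEq J] (κ : Q → ℂ) (A : Matrix J J ℂ) (η B : ℝ) (p : J) :
    Measurable fun v : Q × J → ℝ => Qf κ A η B v p := by
  unfold Qf
  refine measurable_const.mul (Finset.measurable_sum _ fun k _ => ?_)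
  exact ((Complex.measurable_im.comp (gr_meas κ A _ p 0 0)).pow_const 2)

theorem clamp_le {R : ℝ} (hR : 0 < R) (t : ℝ) : |clamp R t| ≤ R := by
  unfold clamp
  rw [abs_le]
  exact ⟨le_max_left _ _, max_le (by linarith) (min_le_left _ _)⟩

theorem clamp_cont (R : ℝ) : Continuous (clamp R) := by
  unfold clamp
  fun_prop

/-- The comparison of integrals for the finite model. -/
theorem int_le {Q J : Type} [AddCommGroup Q] [Fintype Q] [DecidableEq Q] [AddCommGroup J]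
    [Fintype J] [DecidableEq J] (κ : Q → ℂ) (A : Matrix J J ℂ) (η B R ε b : ℝ) (hR : 0 < R)
    (hb : 0 ≤ b) (hε : 0 < ε) (G : (Q × J → ℝ) → ℝ)
    (hG : ∀ v : Q × J → ℝ, (∀ x, |v x| ≤ R) → |Qf κ A η B v 0 - G v| ≤ ε)
    (ν : Measure ℝ) [IsProbabilityMeasure ν]
    (hQ : ∀ (ν' : Measure ℝ) [IsProbabilityMeasure ν'], ν' (Set.Icc (-R) R)ᶜ = 0 →
      ∫ v, Qf κ A η B v 0 ∂(pm Q J ν') ≤ b + ε) :
    ∫ v, G (fun x => clamp R (v x)) ∂(Measure.infinitePi fun _ : Q × J => ν) ≤ b + 2 * ε := by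
  rw [Measure.infinitePi_eq_pi]
  by_cases hI : Integrable (fun v : Q × J → ℝ => G (fun x => clamp R (v x)))
      (Measure.pi fun _ : Q × J => ν)
  · have hcl : Measurable (fun (v : Q × J → ℝ) (x : Q × J) => clamp R (v x)) :=
      measurable_pi_lambda _ fun x => (clamp_cont R).measurable.comp (measurable_pi_apply x)
    have hm : Measurable fun v : Q × J → ℝ => Qf κ A η B (fun x => clamp R (v x)) 0 :=
      (Qf_meas κ A η B 0).comp hcl
    have hI2 : Integrable (fun v : Q × J → ℝ => Qf κ A η B (fun x => clamp R (v x)) 0)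
        (Measure.pi fun _ : Q × J => ν) := by
      refine Integrable.mono' (hI.norm.add (integrable_const ε)) hm.aestronglyMeasurable
        (Filter.Eventually.of_forall fun v => ?_)
      have h1 := hG (fun x => clamp R (v x)) (fun x => clamp_le hR _)
      simp only [Pi.add_apply, Real.norm_eq_abs]
      calc |Qf κ A η B (fun x => clamp R (v x)) 0|
          = |G (fun x => clamp R (v x)) + (Qf κ A η B (fun x => clamp R (v x)) 0
            - G (fun x => clamp R (v x)))| := by congr 1; ring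
        _ ≤ _ := (abs_add_le _ _).trans (by gcongr)
    have h2 : ∫ v, G (fun x => clamp R (v x)) ∂(Measure.pi fun _ : Q × J => ν) ≤
        ∫ v, (Qf κ A η B (fun x => clamp R (v x)) 0 + ε) ∂(Measure.pi fun _ : Q × J => ν) := by
      refine integral_mono hI (hI2.add (integrable_const ε)) fun v => ?_
      have h1 := hG (fun x => clamp R (v x)) (fun x => clamp_le hR _)
      rw [abs_le] at h1
      simp only
      linarith [h1.1]
    rw [integral_add hI2 (integrable_const ε)] at h2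
    have h3 : ∫ v, Qf κ A η B (fun x => clamp R (v x)) 0 ∂(Measure.pi fun _ : Q × J => ν)
        = ∫ v, Qf κ A η B v 0 ∂(pm Q J (ν.map (clamp R))) := by
      have hp : IsProbabilityMeasure (ν.map (clamp R)) :=
        Measure.isProbabilityMeasure_map (clamp_cont R).measurable.aemeasurable
      have e1 : pm Q J (ν.map (clamp R))
          = (Measure.pi fun _ : Q × J => ν).map (fun v x => clamp R (v x)) := by
        unfold pm
        rw [Measure.pi_map_pi (μ := fun _ : Q × J => ν) (f := fun _ => clamp R)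
          (fun _ => (clamp_cont R).measurable.aemeasurable)]
      rw [e1, integral_map hcl.aemeasurable (Qf_meas κ A η B 0).aestronglyMeasurable]
    have h4 : ∫ v, Qf κ A η B v 0 ∂(pm Q J (ν.map (clamp R))) ≤ b + ε := by
      have hp : IsProbabilityMeasure (ν.map (clamp R)) :=
        Measure.isProbabilityMeasure_map (clamp_cont R).measurable.aemeasurable
      refine hQ _ ?_
      rw [Measure.map_apply (clamp_cont R).measurable measurableSet_Icc.compl]
      have : clamp R ⁻¹' (Set.Icc (-R) R)ᶜ = ∅ := by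
        ext t
        simp only [Set.mem_preimage, Set.mem_compl_iff, Set.mem_empty_iff_false, iff_false,
          not_not]
        exact abs_le.1 (clamp_le hR t)
      rw [this]; simp
    rw [h3] at h2
    have h5 : ∫ _v : Q × J → ℝ, ε ∂(Measure.pi fun _ : Q × J => ν) = ε := by simp
    rw [h5] at h2
    linarith
  · rw [integral_undef hI]
    positivity

end KP2

open KP2 in
theorem main_KP2 : S_FM → S_SY3 → S_APPROX → S_CIRC1 → S_CIRC2 → S_LAW → S_COEF → S_KP2 := by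
  intro hFM hSY3 hAP hC1 hC2 hLAW _ d s η B R ε hd hs hη hη1 hB hR hε h₁ K₁ hK₁ hh₁ n F hF HF
  obtain ⟨ℓ₁, hℓ₁⟩ := inj (nb h₁ n)
  have hN1 : NeZero (ℓ₁ + 1) := ⟨by omega⟩
  have hinj1 := hℓ₁ (ℓ₁ + 1) (by omega)
  obtain ⟨δ, n₀, hδ, hfm⟩ := hFM (Fin d → ZMod (ℓ₁ + 1))
    (fun x => (h₁.mapDomain (redH (Fin d) (ℓ₁ + 1))) x)
    (fun x => KP2.conj (redH (Fin d) (ℓ₁ + 1)) h₁ hh₁ x) s R η B ε hs hR hη hη1 hB hε
  obtain ⟨r, a, hr, hsym, ha, hcoef⟩ := hSY3 d hd s (δ / 2) n₀ hs (by positivity)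
  refine ⟨r, a, hr, hsym, ha, fun τ hτ => ?_⟩
  obtain ⟨τ₁, hτ₁, huc⟩ := uc (s ^ 2) (3 * s) (δ / 2) (by positivity) n₀
  obtain ⟨h₂, a₁, hh₂, ha₁, hna⟩ := hAP (Fin d × Fin r) a (min τ (min τ₁ s))
    (lt_min hτ (lt_min hτ₁ hs))
  have hnorm_a : ‖a‖ ≤ 2 * s := (ContinuousMap.norm_le a (by positivity)).2 ha
  have hnorm_a₁ : ‖a₁‖ ≤ 3 * s := by
    have e1 : ‖a₁‖ ≤ ‖a₁ - a‖ + ‖a‖ := by
      simpa using norm_add_le (a₁ - a) a
    have e2 : ‖a₁ - a‖ ≤ s := hna.trans ((min_le_right _ _).trans (min_le_right _ _))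
    linarith
  refine ⟨h₂, a₁, hh₂, ha₁, hna.trans (min_le_left _ _), fun ν _ => ?_⟩
  -- the second modulus
  obtain ⟨ℓ₂, hℓ₂⟩ := inj ((nb (prodKer h₁ h₂) n).image Prod.snd)
  obtain ⟨ℓ₃, hℓ₃⟩ := hC2 (Fin d × Fin r) h₂ a₁ ha₁ (s ^ 2) n₀
  have hN2 : NeZero (ℓ₂ + ℓ₃ + 1) := ⟨by omega⟩
  have hinj2 := hℓ₂ (ℓ₂ + ℓ₃ + 1) (by omega)
  have hch := hℓ₃ (ℓ₂ + ℓ₃ + 1) (by omega)
  have hcc : ∀ m : ℕ, 1 ≤ m → m ≤ n₀ → ∀ γ : Fin d × Fin r → ℤ,
      ‖UnitAddTorus.mFourierCoeff (fun k => ((ch (s ^ 2) (a₁ k) m : ℝ) : ℂ)) γ‖ ≤ δ := by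
    intro m hm1 hm2 γ
    have e1 := coef_le (fun k => ((ch (s ^ 2) (a₁ k) m : ℝ) : ℂ))
      (fun k => ((ch (s ^ 2) (a k) m : ℝ) : ℂ))
      (Complex.continuous_ofReal.comp ((ch_cont _ m).1.comp a₁.continuous))
      (Complex.continuous_ofReal.comp ((ch_cont _ m).1.comp a.continuous)) (δ / 2) (fun k => by
        rw [← Complex.ofReal_sub, Complex.norm_real, Real.norm_eq_abs]
        refine huc _ _ ?_ ?_ ?_ m hm2
        · exact (ContinuousMap.norm_coe_le_norm a₁ k).trans hnorm_a₁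
        · exact (ha k).trans (by linarith)
        · have := (ContinuousMap.norm_coe_le_norm (a₁ - a) k).trans hna
          exact this.trans ((min_le_right _ _).trans (min_le_left _ _))) γ
    have e2 := hcoef m hm1 hm2 γ
    linarith
  have hAdm : Adm s δ n₀ (circ (ℓ₂ + ℓ₃ + 1) h₂) := by
    obtain ⟨c1, c2⟩ := hC1 (Fin d × Fin r) h₂ a₁ hh₂ ha₁ (ℓ₂ + ℓ₃ + 1)
    refine ⟨c1, opB_mono c2 (norm_nonneg _) hnorm_a₁, fun m hm1 hm2 i j => ?_⟩
    obtain ⟨γ, hγ⟩ := hch m hm2 i j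
    exact hγ.trans (hcc m hm1 hm2 γ)
  have hOp1 := (hC1 (Fin d) h₁ K₁ hh₁ hK₁ (ℓ₁ + 1)).2
  have hOp2 := opB_mono (hC1 (Fin d × Fin r) h₂ a₁ hh₂ ha₁ (ℓ₂ + ℓ₃ + 1)).2 (norm_nonneg _)
    hnorm_a₁
  have HF' := HF (Fin d → ZMod (ℓ₁ + 1)) (Fin d × Fin r → ZMod (ℓ₂ + ℓ₃ + 1))
    (h₁.mapDomain (redH (Fin d) (ℓ₁ + 1))) (h₂.mapDomain (redH (Fin d × Fin r) (ℓ₂ + ℓ₃ + 1)))
    (KP2.conj _ h₁ hh₁) (KP2.conj _ h₂ hh₂) hOp1 hOp2
  have hlaw := hLAW ((Fin d → ℤ) × (Fin d × Fin r → ℤ))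
    ((Fin d → ZMod (ℓ₁ + 1)) × (Fin d × Fin r → ZMod (ℓ₂ + ℓ₃ + 1)))
    (AddMonoidHom.prodMap (redH (Fin d) (ℓ₁ + 1)) (redH (Fin d × Fin r) (ℓ₂ + ℓ₃ + 1)))
    (prodKer h₁ h₂) n (by
      intro x hx y hy hxy
      have e := Prod.ext_iff.1 hxy
      refine Prod.ext ?_ ?_
      · exact hinj1 x.1 (nb_fst h₁ h₂ n x hx) y.1 (nb_fst h₁ h₂ n y hy) e.1
      · exact hinj2 x.2 (Finset.mem_image_of_mem _ hx) y.2 (Finset.mem_image_of_mem _ hy) e.2)
    ν (clamp R) (clamp_cont R).measurable F hF.measurable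
  rw [← hlaw, prodKer_map]
  exact int_le (fun x => (h₁.mapDomain (redH (Fin d) (ℓ₁ + 1))) x)
    (fun i j => (h₂.mapDomain (redH (Fin d × Fin r) (ℓ₂ + ℓ₃ + 1))) (i - j)) η B R ε
    ((10 / s) * Real.sqrt ((B + 1) * η)) hR (by positivity) hε
    (fun v => F (fun m => mom (prodKer (h₁.mapDomain (redH (Fin d) (ℓ₁ + 1)))
      (h₂.mapDomain (redH (Fin d × Fin r) (ℓ₂ + ℓ₃ + 1)))) v m)) HF' ν
    (fun ν' _ hν' => hfm (Fin d × Fin r → ZMod (ℓ₂ + ℓ₃ + 1)) (circ (ℓ₂ + ℓ₃ + 1) h₂) 0 ν' hν' hAdm)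

end

end Pool.Agent.Q156.GK
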