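import Pool.Agent.Q156.GK.MOM

set_option autoImplicit false

namespace Pool.Agent.Q156.GK

open Pool.Agent.W792.GK MeasureTheory

noncomputable section

/-- Reindexing of an infinite product of equal laws along an injective map. -/
theorem infinitePi_map_injective {A B : Type} (ψ : A → B) (hψ : Function.Injective ψ)
    (ν : Measure ℝ) [IsProbabilityMeasure ν] :
    (Measure.infinitePi fun _ : B => ν).map (fun v a => v (ψ a)) =
      Measure.infinitePi fun _ : A => ν := by
  classical
  have hm : Measurable (fun (v : B → ℝ) (a : A) => v (ψ a)) :=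
    measurable_pi_lambda _ fun a => measurable_pi_apply _
  refine Measure.eq_infinitePi _ fun s t ht => ?_
  rw [Measure.map_apply hm (MeasurableSet.pi s.countable_toSet fun i _ => ht i)]
  have hset : (fun (v : B → ℝ) (a : A) => v (ψ a)) ⁻¹' (Set.pi s t) =
      Set.pi ((s.image ψ : Finset B) : Set B) (fun b => if h : ∃ a, ψ a = b then t h.choose
        else Set.univ) := by
    ext v
    simp only [Set.mem_preimage, Set.mem_pi, Finset.coe_image, Set.forall_mem_image]
    refine forall₂_congr fun a _ => ?_
    have h : ∃ a', ψ a' = ψ a := ⟨a, rfl⟩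
    rw [dif_pos h, hψ h.choose_spec]
  rw [hset, Measure.infinitePi_pi, Finset.prod_image (fun a _ b _ hab => hψ hab)]
  · refine Finset.prod_congr rfl fun a _ => ?_
    have h : ∃ a', ψ a' = ψ a := ⟨a, rfl⟩
    rw [dif_pos h, hψ h.choose_spec]
  · intro b hb
    obtain ⟨a, ha, rfl⟩ := Finset.mem_image.mp hb
    have h : ∃ a', ψ a' = ψ a := ⟨a, rfl⟩
    rw [dif_pos h, hψ h.choose_spec]
    exact ht a

/-- The moments depend only on the potential in the ball. -/
theorem iter_congr {Γ : Type} [AddCommGroup Γ] (h : Γ →₀ ℂ) (w w' : Γ → ℝ) (u : Γ → ℂ) (n : ℕ)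
    (hw : ∀ x ∈ nb h n, w x = w' x) :
    ∀ m ≤ n, ∀ x ∈ nb h (n - m), (stp h w)^[m] u x = (stp h w')^[m] u x := by
  intro m
  induction m with
  | zero => intro _ x _; rfl
  | succ m ih =>
    intro hm x hx
    have hm' : m ≤ n := by omega
    have hn : n - m = n - (m + 1) + 1 := by omega
    rw [Function.iterate_succ_apply', Function.iterate_succ_apply']
    unfold stp
    congr 1
    · refine Finset.sum_congr rfl fun y hy => ?_
      dsimp only
      congr 1
      refine ih hm' (x - y) ?_
      rw [hn]
      exact nb_succ_sub h _ hx hy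
    · rw [hw x (nb_mono h (by omega) hx)]
      congr 1
      refine ih hm' x ?_
      rw [hn]
      exact nb_succ_le h _ hx

theorem mom_congr {Γ : Type} [AddCommGroup Γ] (h : Γ →₀ ℂ) (w w' : Γ → ℝ) (n : ℕ)
    (hw : ∀ x ∈ nb h n, w x = w' x) (m : ℕ) (hm : m ≤ n) : mom h w m = mom h w' m := by
  unfold mom
  exact iter_congr h w w' _ n hw m hm 0 (zero_mem_nb h _)

/-- Measurability of the iterates in a parameter. -/
theorem measurable_iter {Γ Ω : Type} [AddCommGroup Γ] [MeasurableSpace Ω] (h : Γ →₀ ℂ)
    (w : Ω → Γ → ℝ) (hw : ∀ x, Measurable fun ω => w ω x) (u : Γ → ℂ) (m : ℕ) :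
    ∀ x, Measurable fun ω => (stp h (w ω))^[m] u x := by
  induction m with
  | zero => intro x; exact measurable_const
  | succ m ih =>
    intro x
    have heq : (fun ω => (stp h (w ω))^[m + 1] u x) = fun ω =>
        (∑ y ∈ h.support, h y * (stp h (w ω))^[m] u (x - y)) +
          (w ω x : ℂ) * (stp h (w ω))^[m] u x := by
      funext ω
      rw [Function.iterate_succ_apply']
      rfl
    rw [heq]
    refine Measurable.add (Finset.measurable_sum _ fun y _ => ?_) ?_
    · exact (ih (x - y)).const_mul _
    · exact (Complex.measurable_ofReal.comp (hw x)).mul (ih x)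

theorem measurable_mom {Γ Ω : Type} [AddCommGroup Γ] [MeasurableSpace Ω] (h : Γ →₀ ℂ)
    (w : Ω → Γ → ℝ) (hw : ∀ x, Measurable fun ω => w ω x) (m : ℕ) :
    Measurable fun ω => mom h (w ω) m := by
  unfold mom
  exact measurable_iter h w hw _ m 0

theorem main_LAW (hMOM : S_MOM) : S_LAW := by
  intro Γ₀ Γ _ _ _ _ φ h n hφ ν _ c hc F hF
  classical
  set S := nb h n with hS
  let ext : (S → ℝ) → (Γ₀ → ℝ) := fun u x => if hx : x ∈ S then u ⟨x, hx⟩ else 0
  have hext : ∀ x, Measurable fun u : S → ℝ => ext u x := by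
    intro x
    by_cases hx : x ∈ S
    · simp only [ext, dif_pos hx]; exact measurable_pi_apply _
    · simp only [ext, dif_neg hx]; exact measurable_const
  let G : (S → ℝ) → ℝ := fun u => F (fun m => mom h (fun x => c (ext u x)) m)
  have hG : Measurable G := by
    refine hF.comp (measurable_pi_lambda _ fun m => ?_)
    exact measurable_mom h (fun u x => c (ext u x)) (fun x => hc.comp (hext x)) m
  have key : ∀ v : Γ₀ → ℝ, F (fun m : Fin (n + 1) => mom h (fun x => c (v x)) m) =
      G (fun x : S => v x) := by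
    intro v
    simp only [G]
    congr 1
    funext m
    refine mom_congr h _ _ n (fun x hx => ?_) m (Nat.lt_succ_iff.mp m.2)
    have hx' : x ∈ S := hx
    simp only [ext, dif_pos hx']
  have h1 : ∫ v, F (fun m : Fin (n + 1) => mom h (fun x => c (v x)) m)
      ∂(Measure.infinitePi fun _ : Γ₀ => ν) = ∫ u, G u ∂(Measure.infinitePi fun _ : S => ν) := by
    rw [← infinitePi_map_injective (fun x : S => (x : Γ₀)) Subtype.val_injective ν,
      integral_map (measurable_pi_lambda _ fun a => measurable_pi_apply _).aemeasurable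
        hG.aestronglyMeasurable]
    exact integral_congr_ae (Filter.Eventually.of_forall fun v => key v)
  have h2 : ∫ v, F (fun m : Fin (n + 1) => mom (h.mapDomain φ) (fun x => c (v x)) m)
      ∂(Measure.infinitePi fun _ : Γ => ν) = ∫ u, G u ∂(Measure.infinitePi fun _ : S => ν) := by
    have hinj : Function.Injective (fun x : S => φ (x : Γ₀)) := by
      intro x y hxy
      exact Subtype.ext (hφ x x.2 y y.2 hxy)
    rw [← infinitePi_map_injective (fun x : S => φ (x : Γ₀)) hinj ν,
      integral_map (measurable_pi_lambda _ fun a => measurable_pi_apply _).aemeasurable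
        hG.aestronglyMeasurable]
    refine integral_congr_ae (Filter.Eventually.of_forall fun v => ?_)
    dsimp only
    rw [← key (fun x => v (φ x))]
    congr 1
    funext m
    exact hMOM Γ₀ Γ φ h n (fun x hx h0 => hφ x hx 0 (zero_mem_nb h n) (by rw [h0, map_zero]))
      (fun x => c (v x)) m (Nat.lt_succ_iff.mp m.2)
  rw [h1, h2]

end

end Pool.Agent.Q156.GK
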