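import Pool.Agent.Q156.GK.Stm

/-!
# Project GK (helper156), job LF (helper162): the freeness lemma in mean from the freeness lemma in mean square
-/

set_option autoImplicit false

namespace Pool.Agent.Q156.GK

open Pool.Agent.W792.GK MeasureTheory

noncomputable section

theorem LF_meas_mul {Ω n : Type} [MeasurableSpace Ω] [Fintype n] {A B : Ω → Matrix n n ℂ}
    (hA : ∀ i j, Measurable fun w => A w i j) (hB : ∀ i j, Measurable fun w => B w i j) (i j : n) :
    Measurable fun w => (A w * B w) i j := by
  simp only [Matrix.mul_apply]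
  exact Finset.measurable_sum _ fun k _ => (hA i k).mul (hB k j)

theorem LF_meas_pow {Ω n : Type} [MeasurableSpace Ω] [Fintype n] [DecidableEq n] {A : Ω → Matrix n n ℂ}
    (hA : ∀ i j, Measurable fun w => A w i j) (k : ℕ) : ∀ i j, Measurable fun w => (A w ^ k) i j := by
  induction k with
  | zero =>
    intro i j
    simp only [pow_zero]
    exact measurable_const
  | succ k ih =>
    intro i j
    simp only [pow_succ]
    exact LF_meas_mul ih hA i j

theorem LF_meas_Zk {Q J Ω : Type} [Fintype Q] [DecidableEq Q] [Fintype J] [DecidableEq J]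
    [MeasurableSpace Ω] {f : J → Ω → Matrix Q Q ℂ} (hf : ∀ j x y, Measurable fun w => f j w x y)
    (T : Matrix (Q × J) (Q × J) ℂ) (k : ℕ) (a b : Q × J) :
    Measurable fun ω : J → Ω => Zk T (fun j => f j (ω j)) k a b := by
  have hB : ∀ a b : Q × J, Measurable fun ω : J → Ω =>
      (Matrix.blockDiagonal (fun j => f j (ω j)) : Matrix (Q × J) (Q × J) ℂ) a b := by
    intro a b
    simp only [Matrix.blockDiagonal_apply]
    by_cases h : a.2 = b.2
    · simp only [h, if_true]
      exact (hf b.2 a.1 b.1).comp (measurable_pi_apply b.2)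
    · simp only [h, if_false]
      exact measurable_const
  have hT : ∀ a b : Q × J, Measurable fun _ : J → Ω => T a b := fun _ _ => measurable_const
  unfold Zk
  exact LF_meas_mul (A := fun _ : J → Ω => T) hT (LF_meas_pow (LF_meas_mul hB hT) k) a b

theorem LF_opB_one {n : Type} [Fintype n] [DecidableEq n] : OpB (1 : Matrix n n ℂ) 1 := by
  intro u
  simp

theorem LF_opB_Zk {Q J : Type} [Fintype Q] [DecidableEq Q] [Fintype J] [DecidableEq J]
    {T : Matrix (Q × J) (Q × J) ℂ} (hT : OpB T 1) {X : J → Matrix Q Q ℂ} (hX : ∀ j, OpB (X j) 1)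
    (k : ℕ) : OpB (Zk T X k) 1 := by
  have h1 : OpB (Matrix.blockDiagonal X * T) 1 := by
    have := opB_mul zero_le_one zero_le_one (opB_blockDiagonal hX) hT
    rwa [one_mul] at this
  have h2 : OpB ((Matrix.blockDiagonal X * T) ^ k) 1 := by
    induction k with
    | zero =>
      rw [pow_zero]
      exact LF_opB_one
    | succ k ih =>
      rw [pow_succ]
      have := opB_mul zero_le_one zero_le_one ih h1
      rwa [one_mul] at this
  have := opB_mul zero_le_one zero_le_one hT h2
  rwa [one_mul] at this

/-- **JOB LF** -/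
theorem main_LF (h : S_LF2) : Pool.Agent.W792.GK.S_LF := by
  intro k Q _ _
  obtain ⟨c, hc, hmain⟩ := h k Q
  refine ⟨Fintype.card Q * Real.sqrt c, by positivity, ?_⟩
  intro J _ _ Ω _ μ _ f hf hf1 hf0 T hT ε hε hTε p
  have h1 := hmain J Ω μ f hf hf1 hf0 T hT ε hε hTε p
  set F : (J → Ω) → ℝ := fun ω => fro (blk (Zk T (fun j => f j (ω j)) k) p p) with hF
  have hF0 : ∀ ω, 0 ≤ F ω := fun ω => fro_nonneg _
  have hFm : Measurable F := by
    rw [hF]
    unfold fro blk
    exact Finset.measurable_sum _ fun x _ => Finset.measurable_sum _ fun y _ =>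
      ((LF_meas_Zk hf T k (x, p) (y, p)).norm).pow_const 2
  have hFb : ∀ ω, F ω ≤ Fintype.card Q := by
    intro ω
    have h2 := fro_le (opB_blk (LF_opB_Zk hT (fun j => hf1 j (ω j)) k) p p)
    rwa [one_pow, mul_one] at h2
  have hFi : Integrable F (Measure.pi fun _ : J => μ) := by
    refine Integrable.of_bound hFm.aestronglyMeasurable (Fintype.card Q : ℝ) ?_
    refine Filter.Eventually.of_forall fun ω => ?_
    rw [Real.norm_eq_abs, abs_of_nonneg (hF0 ω)]
    exact hFb ω
  have key : ∀ t : ℝ, 0 < t →
      ∫ ω, e1 (fun x y : Q =>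
        (T * (Matrix.blockDiagonal (fun j => f j (ω j)) * T) ^ k) (x, p) (y, p))
          ∂(Measure.pi fun _ : J => μ) ≤ Fintype.card Q * ((c * ε ^ 2 / t + t) / 2) := by
    intro t ht
    have h3 : ∀ ω : J → Ω, e1 (fun x y : Q =>
        (T * (Matrix.blockDiagonal (fun j => f j (ω j)) * T) ^ k) (x, p) (y, p)) ≤
        Fintype.card Q * ((F ω / t + t) / 2) := by
      intro ω
      refine (e1_le_fro (blk (Zk T (fun j => f j (ω j)) k) p p)).trans ?_
      refine mul_le_mul_of_nonneg_left ?_ (Nat.cast_nonneg _)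
      have h4 := Real.sq_sqrt (hF0 ω)
      have h5 : F ω / t + t = (F ω + t ^ 2) / t := by
        field_simp
      have h6 : Real.sqrt (F ω) * (2 * t) ≤ F ω + t ^ 2 := by
        nlinarith [sq_nonneg (Real.sqrt (F ω) - t)]
      have h7 : Real.sqrt (F ω) ≤ (F ω / t + t) / 2 := by
        rw [h5, div_div, le_div_iff₀ (by positivity)]
        linarith
      exact h7
    calc ∫ ω, e1 (fun x y : Q =>
        (T * (Matrix.blockDiagonal (fun j => f j (ω j)) * T) ^ k) (x, p) (y, p))
          ∂(Measure.pi fun _ : J => μ)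
        ≤ ∫ ω, Fintype.card Q * ((F ω / t + t) / 2) ∂(Measure.pi fun _ : J => μ) := by
          refine integral_mono_of_nonneg (Filter.Eventually.of_forall fun ω => ?_) ?_
            (Filter.Eventually.of_forall h3)
          · exact Finset.sum_nonneg fun _ _ => Finset.sum_nonneg fun _ _ => norm_nonneg _
          · exact (((hFi.div_const t).add (integrable_const t)).div_const 2).const_mul _
      _ = Fintype.card Q * (((∫ ω, F ω ∂(Measure.pi fun _ : J => μ)) / t + t) / 2) := by
          rw [integral_const_mul, integral_div, integral_add (hFi.div_const t) (integrable_const t),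
            integral_div, integral_const]
          simp
      _ ≤ _ := by
          refine mul_le_mul_of_nonneg_left ?_ (Nat.cast_nonneg _)
          gcongr
  rcases (mul_nonneg (Real.sqrt_nonneg c) hε).eq_or_lt with h8 | h8
  · have h9 : c * ε ^ 2 = 0 := by
      have h10 := Real.sq_sqrt hc
      calc c * ε ^ 2 = (Real.sqrt c * ε) ^ 2 := by rw [mul_pow, h10]
        _ = 0 := by rw [← h8]; norm_num
    have h11 : ∀ t : ℝ, 0 < t → ∫ ω, e1 (fun x y : Q =>
        (T * (Matrix.blockDiagonal (fun j => f j (ω j)) * T) ^ k) (x, p) (y, p))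
          ∂(Measure.pi fun _ : J => μ) ≤ 0 + t := by
      intro t ht
      have h12 := key (2 * t / (Fintype.card Q + 1)) (by positivity)
      rw [h9, zero_div, zero_add] at h12
      refine h12.trans ?_
      have h13 : (0 : ℝ) ≤ Fintype.card Q := Nat.cast_nonneg _
      rw [zero_add, div_div, mul_div_assoc', div_le_iff₀ (by positivity)]
      nlinarith
    have h14 := le_of_forall_pos_le_add h11
    rw [mul_assoc, ← h8, mul_zero]
    exact h14
  · refine (key (Real.sqrt c * ε) h8).trans (le_of_eq ?_)
    have h10 := Real.sq_sqrt hc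
    have h15 : c * ε ^ 2 = (Real.sqrt c * ε) * (Real.sqrt c * ε) := by
      calc c * ε ^ 2 = (Real.sqrt c) ^ 2 * ε ^ 2 := by rw [h10]
        _ = _ := by ring
    rw [h15, mul_div_assoc, div_self h8.ne', mul_one]
    ring

end

end Pool.Agent.Q156.GK
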