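import Pool.Agent.Q156.GK.Stm

/-!
# Project GK (helper156), job LF2: the freeness lemma in mean square
-/

set_option autoImplicit false

namespace Pool.Agent.Q156.GK

open Pool.Agent.W792.GK MeasureTheory

noncomputable section

namespace LF2

/-- Cauchy-Schwarz for sums of products. -/
theorem fro_sum_mul {J n : Type} [Fintype J] [Fintype n] (A B : J → Matrix n n ℂ) :
    fro (∑ j, A j * B j) ≤ (∑ j, fro (A j)) * ∑ j, fro (B j) := by
  have h1 : ∀ x y, ‖(∑ j, A j * B j) x y‖ ^ 2 ≤
      (∑ q : J × n, ‖A q.1 x q.2‖ ^ 2) * ∑ q : J × n, ‖B q.1 q.2 y‖ ^ 2 := by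
    intro x y
    have e : (∑ j, A j * B j) x y = ∑ q : J × n, A q.1 x q.2 * B q.1 q.2 y := by
      rw [Matrix.sum_apply, Fintype.sum_prod_type]
      rfl
    rw [e]
    calc ‖∑ q : J × n, A q.1 x q.2 * B q.1 q.2 y‖ ^ 2
        ≤ (∑ q : J × n, ‖A q.1 x q.2‖ * ‖B q.1 q.2 y‖) ^ 2 := by
          refine pow_le_pow_left₀ (norm_nonneg _) ((norm_sum_le _ _).trans ?_) 2
          exact Finset.sum_le_sum fun q _ => (norm_mul _ _).le
      _ ≤ _ := Finset.sum_mul_sq_le_sq_mul_sq _ _ _
  calc fro (∑ j, A j * B j) = ∑ x, ∑ y, ‖(∑ j, A j * B j) x y‖ ^ 2 := rfl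
    _ ≤ ∑ x, ∑ y, (∑ q : J × n, ‖A q.1 x q.2‖ ^ 2) * ∑ q : J × n, ‖B q.1 q.2 y‖ ^ 2 :=
        Finset.sum_le_sum fun x _ => Finset.sum_le_sum fun y _ => h1 x y
    _ = (∑ x, ∑ q : J × n, ‖A q.1 x q.2‖ ^ 2) * ∑ y, ∑ q : J × n, ‖B q.1 q.2 y‖ ^ 2 :=
        (Finset.sum_mul_sum _ _ _ _).symm
    _ = (∑ j, fro (A j)) * ∑ j, fro (B j) := by
        congr 1
        · simp only [Fintype.sum_prod_type]
          rw [Finset.sum_comm]
          rfl
        · simp only [Fintype.sum_prod_type]
          rw [Finset.sum_comm]
          refine Finset.sum_congr rfl fun j _ => ?_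
          rw [Finset.sum_comm]
          rfl

theorem fro_mul_le {n : Type} [Fintype n] (A B : Matrix n n ℂ) : fro (A * B) ≤ fro A * fro B := by
  have h := fro_sum_mul (J := Unit) (fun _ => A) (fun _ => B)
  simpa using h

theorem fro_sum_le {ι n : Type} [Fintype n] (s : Finset ι) (A : ι → Matrix n n ℂ) :
    fro (∑ i ∈ s, A i) ≤ s.card * ∑ i ∈ s, fro (A i) := by
  have h1 : ∀ x y, ‖(∑ i ∈ s, A i) x y‖ ^ 2 ≤ s.card * ∑ i ∈ s, ‖A i x y‖ ^ 2 := by
    intro x y
    rw [Matrix.sum_apply]
    calc ‖∑ i ∈ s, A i x y‖ ^ 2 ≤ (∑ i ∈ s, ‖A i x y‖) ^ 2 :=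
          pow_le_pow_left₀ (norm_nonneg _) (norm_sum_le _ _) 2
      _ ≤ _ := sq_sum_le_card_mul_sum_sq
  calc fro (∑ i ∈ s, A i) = ∑ x, ∑ y, ‖(∑ i ∈ s, A i) x y‖ ^ 2 := rfl
    _ ≤ ∑ x, ∑ y, (s.card : ℝ) * ∑ i ∈ s, ‖A i x y‖ ^ 2 :=
        Finset.sum_le_sum fun x _ => Finset.sum_le_sum fun y _ => h1 x y
    _ = s.card * ∑ i ∈ s, fro (A i) := by
        simp only [← Finset.mul_sum]
        congr 1
        unfold fro
        rw [Finset.sum_comm (s := s)]
        refine Finset.sum_congr rfl fun x _ => ?_
        rw [Finset.sum_comm]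

theorem opB_Zk {Q J : Type} [Fintype Q] [DecidableEq Q] [Fintype J] [DecidableEq J]
    {T : Matrix (Q × J) (Q × J) ℂ} (hT : OpB T 1) {X : J → Matrix Q Q ℂ} (hX : ∀ j, OpB (X j) 1)
    (k : ℕ) : OpB (Zk T X k) 1 := by
  have hD : OpB (Matrix.blockDiagonal X * T) 1 := by
    have := opB_mul zero_le_one zero_le_one (opB_blockDiagonal hX) hT
    rwa [one_mul] at this
  induction k with
  | zero =>
    unfold Zk
    rw [pow_zero, mul_one]
    exact hT
  | succ k ih =>
    have e : Zk T X (k + 1) = Zk T X k * (Matrix.blockDiagonal X * T) := by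
      unfold Zk
      rw [pow_succ, mul_assoc]
    rw [e]
    have := opB_mul zero_le_one zero_le_one ih hD
    rwa [one_mul] at this

theorem opB_zero {n : Type} [Fintype n] {a : ℝ} : OpB (0 : Matrix n n ℂ) a := by
  intro u
  simp only [Matrix.zero_mulVec, Pi.zero_apply, norm_zero]
  rw [Finset.sum_eq_zero (fun _ _ => by norm_num)]
  exact mul_nonneg (sq_nonneg _) (Finset.sum_nonneg fun _ _ => sq_nonneg _)

/-- The expansion of the diagonal block. -/
theorem blk_succ {Q J : Type} [Fintype Q] [DecidableEq Q] [Fintype J] [DecidableEq J]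
    (T : Matrix (Q × J) (Q × J) ℂ) (X : J → Matrix Q Q ℂ) (k : ℕ) (p q : J) :
    blk (Zk T X (k + 1)) p q = ∑ j, blk T p j * X j * blk (Zk T X k) j q := by
  have e : Zk T X (k + 1) = T * Matrix.blockDiagonal X * Zk T X k := by
    unfold Zk
    rw [pow_succ']
    simp only [mul_assoc]
  have e2 : ∀ (x : Q) (j : J) (y : Q), (T * Matrix.blockDiagonal X) (x, p) (y, j) =
      (blk T p j * X j) x y := by
    intro x j y
    rw [Matrix.mul_apply, Fintype.sum_prod_type, Matrix.mul_apply]
    refine Finset.sum_congr rfl fun z _ => ?_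
    rw [Finset.sum_eq_single j]
    · rw [Matrix.blockDiagonal_apply, if_pos rfl]
      rfl
    · intro b _ hb
      rw [Matrix.blockDiagonal_apply, if_neg hb, mul_zero]
    · intro h
      exact absurd (Finset.mem_univ j) h
  ext x y
  rw [e, Matrix.sum_apply]
  show (T * Matrix.blockDiagonal X * Zk T X k) (x, p) (y, q) = _
  rw [Matrix.mul_apply, Fintype.sum_prod_type, Finset.sum_comm]
  refine Finset.sum_congr rfl fun j _ => ?_
  rw [Matrix.mul_apply]
  refine Finset.sum_congr rfl fun z _ => ?_
  rw [e2]
  rfl

/-- rows -/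
theorem sum_fro_row_le {Q J : Type} [Fintype Q] [Fintype J] [DecidableEq Q] [DecidableEq J]
    {Z : Matrix (Q × J) (Q × J) ℂ} {c : ℝ} (hc : 0 ≤ c) (hZ : OpB Z c) (p : J) :
    ∑ j, fro (blk Z p j) ≤ Fintype.card Q * c ^ 2 := by
  have h := sum_fro_blk_le (opB_conjTranspose hc hZ) p
  refine le_trans (le_of_eq ?_) h
  refine Finset.sum_congr rfl fun j _ => ?_
  rw [← fro_conjTranspose (blk Z p j)]
  rfl

/-! measurability -/

section meas

variable {Ω' : Type} [MeasurableSpace Ω']

theorem meas_mul {n : Type} [Fintype n] {A B : Ω' → Matrix n n ℂ}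
    (hA : ∀ x y, Measurable fun w => A w x y) (hB : ∀ x y, Measurable fun w => B w x y) :
    ∀ x y, Measurable fun w => (A w * B w) x y := by
  intro x y
  simp only [Matrix.mul_apply]
  exact Finset.measurable_fun_sum _ fun z _ => (hA x z).mul (hB z y)

theorem meas_pow {n : Type} [Fintype n] [DecidableEq n] {A : Ω' → Matrix n n ℂ}
    (hA : ∀ x y, Measurable fun w => A w x y) (k : ℕ) :
    ∀ x y, Measurable fun w => (A w ^ k) x y := by
  induction k with
  | zero =>
    intro x y
    simp only [pow_zero]
    exact measurable_const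
  | succ k ih =>
    simp only [pow_succ]
    exact meas_mul ih hA

theorem meas_sum {ι n : Type} (s : Finset ι) {A : ι → Ω' → Matrix n n ℂ}
    (hA : ∀ i x y, Measurable fun w => A i w x y) :
    ∀ x y, Measurable fun w => (∑ i ∈ s, A i w) x y := by
  intro x y
  simp only [Matrix.sum_apply]
  exact Finset.measurable_fun_sum _ fun i _ => hA i x y

theorem meas_fro {n : Type} [Fintype n] {A : Ω' → Matrix n n ℂ}
    (hA : ∀ x y, Measurable fun w => A w x y) : Measurable fun w => fro (A w) := by
  unfold fro
  exact Finset.measurable_fun_sum _ fun x _ => Finset.measurable_fun_sum _ fun y _ =>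
    ((hA x y).norm).pow_const 2

theorem meas_Zk {Q J : Type} [Fintype Q] [DecidableEq Q] [Fintype J] [DecidableEq J]
    (T : Matrix (Q × J) (Q × J) ℂ) {X : Ω' → J → Matrix Q Q ℂ}
    (hX : ∀ j x y, Measurable fun w => X w j x y) (k : ℕ) :
    ∀ x y, Measurable fun w => (Zk T (X w) k) x y := by
  have hD : ∀ x y, Measurable fun w => (Matrix.blockDiagonal (X w)) x y := by
    rintro ⟨x, i⟩ ⟨y, j⟩
    by_cases h : i = j
    · have e : (fun w => (Matrix.blockDiagonal (X w)) (x, i) (y, j)) = fun w => X w i x y := by
        funext w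
        rw [Matrix.blockDiagonal_apply, if_pos h]
      rw [e]
      exact hX _ _ _
    · have e : (fun w => (Matrix.blockDiagonal (X w)) (x, i) (y, j)) = fun _ => (0 : ℂ) := by
        funext w
        rw [Matrix.blockDiagonal_apply, if_neg h]
      rw [e]
      exact measurable_const
  exact meas_mul (A := fun _ => T) (fun _ _ => measurable_const)
    (meas_pow (meas_mul (B := fun _ => T) hD (fun _ _ => measurable_const)) k)

theorem meas_blk {Q J : Type} {Z : Ω' → Matrix (Q × J) (Q × J) ℂ}
    (hZ : ∀ x y, Measurable fun w => Z w x y) (i j : J) :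
    ∀ x y, Measurable fun w => (blk (Z w) i j) x y := fun x y => hZ (x, i) (y, j)

theorem meas_kil {Q J : Type} [DecidableEq J] {X : Ω' → J → Matrix Q Q ℂ}
    (hX : ∀ j x y, Measurable fun w => X w j x y) (i : J) :
    ∀ j x y, Measurable fun w => (kil (X w) i) j x y := by
  intro j x y
  unfold kil
  by_cases h : j = i
  · subst h
    simp only [Function.update_self]
    exact measurable_const
  · simp only [Function.update_of_ne h]
    exact hX j x y

end meas

end LF2

open LF2 in
theorem main_LF2 (h1 : S_LF1) (h2 : S_LFS) : S_LF2 := by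
  intro k Q _ _
  induction k using Nat.strong_induction_on with
  | _ k ih =>
    rcases k with _ | k
    · -- the matrix `T` itself
      refine ⟨(Fintype.card Q : ℝ) * Fintype.card Q, by positivity, ?_⟩
      intro J _ _ Ω _ μ _ f _ _ _ T _ ε hε hTε p
      have e : ∀ ω : J → Ω, fro (blk (Zk T (fun j => f j (ω j)) 0) p p) = fro (blk T p p) := by
        intro ω
        unfold Zk
        rw [pow_zero, mul_one]
      simp only [e]
      rw [integral_const, probReal_univ, one_smul]
      unfold fro
      calc ∑ x, ∑ y, ‖blk T p p x y‖ ^ 2 ≤ ∑ _x : Q, ∑ _y : Q, ε ^ 2 :=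
            Finset.sum_le_sum fun x _ => Finset.sum_le_sum fun y _ =>
              pow_le_pow_left₀ (norm_nonneg _) (hTε p p x y) 2
        _ = (Fintype.card Q : ℝ) * Fintype.card Q * ε ^ 2 := by
            simp only [Finset.sum_const, Finset.card_univ, nsmul_eq_mul]
            ring
    · obtain ⟨cS, hcS, hS⟩ := h2 k Q
      obtain ⟨CL, hCL, hL⟩ := h1 k Q
      choose! c hc hI using fun (i : ℕ) (hi : i < k + 1) => ih i hi
      refine ⟨2 * cS + 2 * k * Fintype.card Q * Fintype.card Q * ∑ i ∈ Finset.range k, c i, ?_, ?_⟩
      · have h3 : 0 ≤ ∑ i ∈ Finset.range k, c i :=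
          Finset.sum_nonneg fun i hi => hc i (by
            have := Finset.mem_range.1 hi
            omega)
        positivity
      intro J _ _ Ω _ μ _ f hfm hfb hf0 T hT ε hε hTε p
      have hX : ∀ (ω : J → Ω) j, OpB (f j (ω j)) 1 := fun ω j => hfb j (ω j)
      have hkX : ∀ (ω : J → Ω) j j', OpB (kil (fun j => f j (ω j)) j j') 1 := by
        intro ω j j'
        unfold kil
        by_cases h : j' = j
        · subst h
          rw [Function.update_self]
          exact opB_zero
        · rw [Function.update_of_ne h]
          exact hX ω j'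
      have hXm : ∀ j x y, Measurable fun ω : J → Ω => f j (ω j) x y := fun j x y =>
        (hfm j x y).comp (measurable_pi_apply j)
      -- the first part
      set F1 : (J → Ω) → ℝ := fun ω =>
        fro (∑ j, blk T p j * f j (ω j) * blk (Zk T (kil (fun j => f j (ω j)) j) k) j p) with hF1
      set G : ℕ → J → (J → Ω) → ℝ := fun i j ω =>
        fro (blk (Zk T (kil (fun j => f j (ω j)) j) i) j j) with hG
      have hF1i : Integrable F1 (Measure.pi fun _ : J => μ) := by
        refine Integrable.of_bound (C := Fintype.card Q * CL)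
          (Measurable.aestronglyMeasurable ?_) (Filter.Eventually.of_forall fun ω => ?_)
        · refine meas_fro (meas_sum _ fun j => meas_mul (meas_mul (fun _ _ => measurable_const) (hXm j)) ?_)
          exact meas_blk (meas_Zk T (meas_kil hXm j) k) _ _
        · rw [Real.norm_of_nonneg (fro_nonneg _)]
          refine (fro_sum_mul _ _).trans ?_
          have h4 := (hL J T hT (fun j => f j (ω j)) (hX ω) p).2.2.1
          have h5 : ∑ j, fro (blk T p j * f j (ω j)) ≤ Fintype.card Q := by
            have h6 := sum_fro_row_le zero_le_one hT p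
            rw [one_pow, mul_one] at h6
            refine le_trans (Finset.sum_le_sum fun j _ => ?_) h6
            have := fro_mul_right zero_le_one (hX ω j) (blk T p j)
            rwa [one_pow, one_mul] at this
          exact mul_le_mul h5 h4 (Finset.sum_nonneg fun _ _ => fro_nonneg _) (by positivity)
      have hGi : ∀ i j, Integrable (G i j) (Measure.pi fun _ : J => μ) := by
        intro i j
        refine Integrable.of_bound (C := Fintype.card Q)
          (Measurable.aestronglyMeasurable ?_) (Filter.Eventually.of_forall fun ω => ?_)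
        · exact meas_fro (meas_blk (meas_Zk T (meas_kil hXm j) i) _ _)
        · rw [Real.norm_of_nonneg (fro_nonneg _)]
          have := fro_le (opB_blk (opB_Zk hT (hkX ω j) i) j j)
          rwa [one_pow, mul_one] at this
      have hGb : ∀ i < k + 1, ∀ j, ∫ ω, G i j ω ∂(Measure.pi fun _ : J => μ) ≤ c i * ε ^ 2 := by
        intro i hi j
        have h3 := hI i hi J Ω μ (fun j' w => if j' = j then 0 else f j' w)
          (by
            intro j' x y
            by_cases h : j' = j
            · simp only [h, if_true]
              exact measurable_const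
            · simp only [h, if_false]
              exact hfm j' x y)
          (by
            intro j' w
            by_cases h : j' = j
            · simp only [h, if_true]
              exact opB_zero
            · simp only [h, if_false]
              exact hfb j' w)
          (by
            intro j' x y
            by_cases h : j' = j
            · simp only [h, if_true, Matrix.zero_apply, integral_zero]
            · simp only [h, if_false]
              exact hf0 j' x y) T hT ε hε hTε j
        refine le_trans (le_of_eq ?_) h3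
        refine integral_congr_ae (Filter.Eventually.of_forall fun ω => ?_)
        have e : kil (fun j => f j (ω j)) j = fun j' => if j' = j then 0 else f j' (ω j') := by
          funext j'
          unfold kil
          by_cases h : j' = j
          · subst h
            rw [Function.update_self, if_pos rfl]
          · rw [Function.update_of_ne h, if_neg h]
        show fro (blk (Zk T (kil (fun j => f j (ω j)) j) i) j j) = _
        rw [e]
      -- pointwise
      have hpt : ∀ ω : J → Ω, fro (blk (Zk T (fun j => f j (ω j)) (k + 1)) p p) ≤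
          2 * F1 ω + 2 * (k * ∑ i ∈ Finset.range k, Fintype.card Q *
            ∑ j, fro (blk T p j) * G i j ω) := by
        intro ω
        set X : J → Matrix Q Q ℂ := fun j => f j (ω j) with hXd
        have hid := (hL J T hT X (hX ω) p).1
        have e : blk (Zk T X (k + 1)) p p =
            (∑ j, blk T p j * X j * blk (Zk T (kil X j) k) j p) +
              ∑ i ∈ Finset.range k, ∑ j, (blk T p j * X j * blk (Zk T (kil X j) i) j j * X j) *
                blk (Zk T X (k - 1 - i)) j p := by
          rw [blk_succ, Finset.sum_comm, ← Finset.sum_add_distrib]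
          refine Finset.sum_congr rfl fun j _ => ?_
          rw [hid j, mul_add, Finset.mul_sum]
          congr 1
          refine Finset.sum_congr rfl fun i _ => ?_
          simp only [mul_assoc]
        rw [e]
        refine (fro_add _ _).trans ?_
        refine add_le_add le_rfl (mul_le_mul_of_nonneg_left ?_ zero_le_two)
        refine (fro_sum_le _ _).trans ?_
        rw [Finset.card_range]
        refine mul_le_mul_of_nonneg_left (Finset.sum_le_sum fun i _ => ?_) (Nat.cast_nonneg k)
        refine (fro_sum_mul _ _).trans ?_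
        rw [mul_comm (Fintype.card Q : ℝ)]
        have h5 : ∑ j, fro (blk (Zk T X (k - 1 - i)) j p) ≤ Fintype.card Q := by
          have := sum_fro_blk_le (opB_Zk hT (hX ω) (k - 1 - i)) p
          rwa [one_pow, mul_one] at this
        refine mul_le_mul (Finset.sum_le_sum fun j _ => ?_) h5
          (Finset.sum_nonneg fun _ _ => fro_nonneg _)
          (Finset.sum_nonneg fun _ _ => mul_nonneg (fro_nonneg _) (fro_nonneg _))
        have h6 := fro_mul_right zero_le_one (hX ω j) (blk T p j * X j * blk (Zk T (kil X j) i) j j)
        rw [one_pow, one_mul] at h6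
        have h7 := fro_mul_right zero_le_one (hX ω j) (blk T p j)
        rw [one_pow, one_mul] at h7
        exact h6.trans ((fro_mul_le _ _).trans (mul_le_mul_of_nonneg_right h7 (fro_nonneg _)))
      have hGsum : Integrable (fun ω => 2 * (k * ∑ i ∈ Finset.range k, Fintype.card Q *
            ∑ j, fro (blk T p j) * G i j ω)) (Measure.pi fun _ : J => μ) := by
        refine Integrable.const_mul (Integrable.const_mul (integrable_finsetSum _ fun i _ => ?_) _) _
        exact Integrable.const_mul (integrable_finsetSum _ fun j _ => (hGi i j).const_mul _) _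
      have hZi : Integrable (fun ω : J → Ω => fro (blk (Zk T (fun j => f j (ω j)) (k + 1)) p p))
          (Measure.pi fun _ : J => μ) := by
        refine Integrable.of_bound (C := Fintype.card Q)
          (Measurable.aestronglyMeasurable ?_) (Filter.Eventually.of_forall fun ω => ?_)
        · exact meas_fro (meas_blk (meas_Zk T hXm (k + 1)) _ _)
        · rw [Real.norm_of_nonneg (fro_nonneg _)]
          have := fro_le (opB_blk (opB_Zk hT (hX ω) (k + 1)) p p)
          rwa [one_pow, mul_one] at this
      calc ∫ ω, fro (blk (Zk T (fun j => f j (ω j)) (k + 1)) p p) ∂(Measure.pi fun _ : J => μ)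
          ≤ ∫ ω, (2 * F1 ω + 2 * (k * ∑ i ∈ Finset.range k, Fintype.card Q *
            ∑ j, fro (blk T p j) * G i j ω)) ∂(Measure.pi fun _ : J => μ) :=
            integral_mono hZi ((hF1i.const_mul 2).add hGsum) hpt
        _ = 2 * (∫ ω, F1 ω ∂(Measure.pi fun _ : J => μ)) + 2 * (k * ∑ i ∈ Finset.range k,
              Fintype.card Q * ∑ j, fro (blk T p j) * ∫ ω, G i j ω ∂(Measure.pi fun _ : J => μ)) := by
            rw [integral_add (hF1i.const_mul 2) hGsum, integral_const_mul, integral_const_mul,
              integral_const_mul, integral_finsetSum _ fun i _ => Integrable.const_mul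
                (integrable_finsetSum _ fun j _ => (hGi i j).const_mul _) _]
            congr 3
            refine Finset.sum_congr rfl fun i _ => ?_
            rw [integral_const_mul, integral_finsetSum _ fun j _ => (hGi i j).const_mul _]
            congr 1
            exact Finset.sum_congr rfl fun j _ => integral_const_mul _ _
        _ ≤ 2 * (cS * ε ^ 2) + 2 * (k * ∑ i ∈ Finset.range k,
              Fintype.card Q * (Fintype.card Q * (c i * ε ^ 2))) := by
            refine add_le_add (mul_le_mul_of_nonneg_left (hS J Ω μ f hfm hfb hf0 T hT ε hε hTε p)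
              zero_le_two) (mul_le_mul_of_nonneg_left (mul_le_mul_of_nonneg_left
                (Finset.sum_le_sum fun i hi => mul_le_mul_of_nonneg_left ?_ (Nat.cast_nonneg _))
                (Nat.cast_nonneg _)) zero_le_two)
            have hik : i < k + 1 := by
              have := Finset.mem_range.1 hi
              omega
            have h6 := sum_fro_row_le zero_le_one hT p
            rw [one_pow, mul_one] at h6
            calc ∑ j, fro (blk T p j) * ∫ ω, G i j ω ∂(Measure.pi fun _ : J => μ)
                ≤ ∑ j, fro (blk T p j) * (c i * ε ^ 2) := Finset.sum_le_sum fun j _ =>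
                  mul_le_mul_of_nonneg_left (hGb i hik j) (fro_nonneg _)
              _ = (∑ j, fro (blk T p j)) * (c i * ε ^ 2) := (Finset.sum_mul _ _ _).symm
              _ ≤ Fintype.card Q * (c i * ε ^ 2) :=
                  mul_le_mul_of_nonneg_right h6 (mul_nonneg (hc i hik) (sq_nonneg ε))
        _ = (2 * cS + 2 * k * Fintype.card Q * Fintype.card Q * ∑ i ∈ Finset.range k, c i) * ε ^ 2 := by
            have e : ∑ i ∈ Finset.range k, (Fintype.card Q : ℝ) * (Fintype.card Q * (c i * ε ^ 2)) =
                Fintype.card Q * Fintype.card Q * (∑ i ∈ Finset.range k, c i) * ε ^ 2 := by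
              rw [Finset.mul_sum, Finset.sum_mul]
              exact Finset.sum_congr rfl fun i _ => by ring
            rw [e]
            ring

end

end Pool.Agent.Q156.GK
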