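import Pool.Agent.Q156.GK.Stm

/-!
# Project GK, job LFA: the identity and the first two bounds of `S_LF1`
-/

set_option autoImplicit false

namespace Pool.Agent.Q156.GK

open Pool.Agent.W792.GK MeasureTheory

namespace LFA

/-- noncommutative telescoping -/
theorem pow_telescope {R : Type} [Ring R] (a b : R) (k : ℕ) :
    a ^ k = b ^ k + ∑ i ∈ Finset.range k, b ^ i * (a - b) * a ^ (k - 1 - i) := by
  induction k with
  | zero => simp
  | succ k ih =>
    rw [Finset.sum_range_succ]
    have h1 : ∑ i ∈ Finset.range k, b ^ i * (a - b) * a ^ (k + 1 - 1 - i)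
        = (∑ i ∈ Finset.range k, b ^ i * (a - b) * a ^ (k - 1 - i)) * a := by
      rw [Finset.sum_mul]
      refine Finset.sum_congr rfl fun i hi => ?_
      have hik : i < k := Finset.mem_range.mp hi
      have h2 : k + 1 - 1 - i = (k - 1 - i) + 1 := by omega
      rw [h2, pow_succ, ← mul_assoc]
    have h3 : (∑ i ∈ Finset.range k, b ^ i * (a - b) * a ^ (k - 1 - i)) = a ^ k - b ^ k := by
      rw [eq_sub_iff_add_eq, add_comm]
      exact ih.symm
    have h4 : k + 1 - 1 - k = 0 := by omega
    rw [h1, h3, h4, pow_zero, mul_one, pow_succ a k, pow_succ b k]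
    noncomm_ring

section

variable {Q J : Type} [Fintype Q] [DecidableEq Q] [Fintype J] [DecidableEq J]

omit [DecidableEq Q] [DecidableEq J] in
theorem blk_mul (A B : Matrix (Q × J) (Q × J) ℂ) (i p : J) :
    blk (A * B) i p = ∑ l, blk A i l * blk B l p := by
  ext x y
  rw [Matrix.sum_apply]
  simp only [blk, Matrix.mul_apply]
  rw [Fintype.sum_prod_type, Finset.sum_comm]

omit [Fintype Q] [DecidableEq Q] [Fintype J] in
theorem blk_blockDiagonal (Y : J → Matrix Q Q ℂ) (i l : J) :
    blk (Matrix.blockDiagonal Y) i l = if i = l then Y i else 0 := by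
  ext x y
  simp only [blk, Matrix.blockDiagonal_apply]
  split_ifs <;> rfl

omit [Fintype Q] [DecidableEq Q] [Fintype J] [DecidableEq J] in
theorem blk_add (A B : Matrix (Q × J) (Q × J) ℂ) (i p : J) :
    blk (A + B) i p = blk A i p + blk B i p := rfl

omit [Fintype Q] [DecidableEq Q] [Fintype J] [DecidableEq J] in
theorem blk_sum {ι : Type} (s : Finset ι) (A : ι → Matrix (Q × J) (Q × J) ℂ) (i p : J) :
    blk (∑ t ∈ s, A t) i p = ∑ t ∈ s, blk (A t) i p := by
  ext x y
  rw [Matrix.sum_apply]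
  simp only [blk]
  rw [Matrix.sum_apply]

omit [DecidableEq Q] in
theorem blk_mid (Z Z' : Matrix (Q × J) (Q × J) ℂ) (X : J → Matrix Q Q ℂ) (j p : J) :
    blk (Z * (Matrix.blockDiagonal X - Matrix.blockDiagonal (kil X j)) * Z') j p
      = blk Z j j * X j * blk Z' j p := by
  rw [← Matrix.blockDiagonal_sub, blk_mul, Finset.sum_eq_single j]
  · rw [blk_mul, Finset.sum_eq_single j]
    · rw [blk_blockDiagonal, if_pos rfl]
      simp [kil]
    · intro l _ hl
      rw [blk_blockDiagonal, if_neg hl, mul_zero]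
    · intro h
      exact absurd (Finset.mem_univ j) h
  · intro l _ hl
    rw [blk_mul, Finset.sum_eq_zero, zero_mul]
    intro m _
    rw [blk_blockDiagonal]
    split_ifs with hm
    · subst hm
      simp [kil, Function.update_of_ne hl]
    · rw [mul_zero]
  · intro h
    exact absurd (Finset.mem_univ j) h

theorem ident (T : Matrix (Q × J) (Q × J) ℂ) (X : J → Matrix Q Q ℂ) (k : ℕ) (j p : J) :
    blk (Zk T X k) j p = blk (Zk T (kil X j) k) j p +
      ∑ i ∈ Finset.range k, blk (Zk T (kil X j) i) j j * X j * blk (Zk T X (k - 1 - i)) j p := by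
  have h : Zk T X k = Zk T (kil X j) k + ∑ i ∈ Finset.range k,
      Zk T (kil X j) i * (Matrix.blockDiagonal X - Matrix.blockDiagonal (kil X j))
        * Zk T X (k - 1 - i) := by
    unfold Zk
    rw [pow_telescope (Matrix.blockDiagonal X * T) (Matrix.blockDiagonal (kil X j) * T) k, mul_add,
      Finset.mul_sum]
    congr 1
    refine Finset.sum_congr rfl fun i _ => ?_
    simp only [sub_mul, mul_sub, mul_assoc]
  rw [h, blk_add, blk_sum]
  congr 1
  exact Finset.sum_congr rfl fun i _ => blk_mid _ _ X j p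

theorem opB_Zk {T : Matrix (Q × J) (Q × J) ℂ} (hT : OpB T 1) {X : J → Matrix Q Q ℂ}
    (hX : ∀ j, OpB (X j) 1) (k : ℕ) : OpB (Zk T X k) 1 := by
  have hD : OpB (Matrix.blockDiagonal X * T) 1 := by
    have := opB_mul zero_le_one zero_le_one (opB_blockDiagonal hX) hT
    rwa [mul_one] at this
  unfold Zk
  induction k with
  | zero => rwa [pow_zero, mul_one]
  | succ k ih =>
    rw [pow_succ, ← mul_assoc]
    have := opB_mul zero_le_one zero_le_one ih hD
    rwa [mul_one] at this

omit [DecidableEq Q] [Fintype J] in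
theorem opB_kil {X : J → Matrix Q Q ℂ} (hX : ∀ j, OpB (X j) 1) (j l : J) : OpB (kil X j l) 1 := by
  by_cases h : l = j
  · subst h
    intro u
    have e : kil X l l = 0 := by simp [kil]
    rw [e]
    simp only [Matrix.zero_mulVec, Pi.zero_apply, norm_zero]
    have : 0 ≤ ∑ i, ‖u i‖ ^ 2 := Finset.sum_nonneg fun _ _ => sq_nonneg _
    simpa using this
  · have e : kil X j l = X l := by simp [kil, Function.update_of_ne h]
    rw [e]
    exact hX l

omit [DecidableEq Q] in
theorem fro_sum_le {ι : Type} (s : Finset ι) (W : ι → Matrix Q Q ℂ) :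
    fro (∑ i ∈ s, W i) ≤ s.card * ∑ i ∈ s, fro (W i) := by
  unfold fro
  rw [Finset.mul_sum]
  have e : ∑ i ∈ s, (s.card : ℝ) * ∑ x, ∑ y, ‖W i x y‖ ^ 2
      = ∑ x, ∑ y, (s.card : ℝ) * ∑ i ∈ s, ‖W i x y‖ ^ 2 := by
    simp only [Finset.mul_sum]
    rw [Finset.sum_comm]
    refine Finset.sum_congr rfl fun x _ => ?_
    rw [Finset.sum_comm]
  rw [e]
  refine Finset.sum_le_sum fun x _ => Finset.sum_le_sum fun y _ => ?_
  rw [Matrix.sum_apply]
  refine (pow_le_pow_left₀ (norm_nonneg _) (norm_sum_le _ _) 2).trans ?_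
  exact sq_sum_le_card_mul_sum_sq

omit [DecidableEq Q] in
theorem fro_neg (A : Matrix Q Q ℂ) : fro (-A) = fro A := by
  unfold fro
  simp [Matrix.neg_apply]

end

end LFA

theorem main_LFA : S_LFA := by
  intro k Q _ _
  refine ⟨(2 + 2 * (k : ℝ) ^ 2) * Fintype.card Q, by positivity, ?_⟩
  intro J _ _ T hT X hX p
  have hcol : ∀ m : ℕ, ∑ j, fro (blk (Zk T X m) j p) ≤ Fintype.card Q := by
    intro m
    have := sum_fro_blk_le (LFA.opB_Zk hT hX m) p
    rwa [one_pow, mul_one] at this
  have hQ : (0 : ℝ) ≤ Fintype.card Q := Nat.cast_nonneg _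
  refine ⟨fun j => LFA.ident T X k j p, ?_, ?_⟩
  · refine (hcol k).trans ?_
    nlinarith [sq_nonneg (k : ℝ), mul_nonneg (sq_nonneg (k : ℝ)) hQ]
  · have h1 : ∀ j, fro (blk (Zk T (kil X j) k) j p) ≤ 2 * fro (blk (Zk T X k) j p)
        + 2 * (k * ∑ i ∈ Finset.range k, fro (blk (Zk T X (k - 1 - i)) j p)) := by
      intro j
      have e : blk (Zk T (kil X j) k) j p = blk (Zk T X k) j p +
          -(∑ i ∈ Finset.range k, blk (Zk T (kil X j) i) j j * X j * blk (Zk T X (k - 1 - i)) j p) := by
        rw [LFA.ident T X k j p, add_neg_cancel_right]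
      rw [e]
      refine (fro_add _ _).trans ?_
      rw [LFA.fro_neg]
      have h2 := LFA.fro_sum_le (Finset.range k) fun i =>
        blk (Zk T (kil X j) i) j j * X j * blk (Zk T X (k - 1 - i)) j p
      rw [Finset.card_range] at h2
      have h3 : ∑ i ∈ Finset.range k, fro (blk (Zk T (kil X j) i) j j * X j *
          blk (Zk T X (k - 1 - i)) j p) ≤ ∑ i ∈ Finset.range k, fro (blk (Zk T X (k - 1 - i)) j p) := by
        refine Finset.sum_le_sum fun i _ => ?_
        have h4 : OpB (blk (Zk T (kil X j) i) j j * X j) 1 := by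
          have := opB_mul zero_le_one zero_le_one
            (opB_blk (LFA.opB_Zk hT (fun l => LFA.opB_kil hX j l) i) j j) (hX j)
          rwa [mul_one] at this
        have h5 := fro_mul_left h4 (blk (Zk T X (k - 1 - i)) j p)
        rwa [one_pow, one_mul] at h5
      have h6 := mul_le_mul_of_nonneg_left h3 (Nat.cast_nonneg (α := ℝ) k)
      linarith
    refine (Finset.sum_le_sum fun j _ => h1 j).trans ?_
    rw [Finset.sum_add_distrib, ← Finset.mul_sum, ← Finset.mul_sum, ← Finset.mul_sum,
      Finset.sum_comm]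
    have h7 : ∑ i ∈ Finset.range k, ∑ j, fro (blk (Zk T X (k - 1 - i)) j p)
        ≤ k * Fintype.card Q := by
      refine (Finset.sum_le_sum fun i _ => hcol (k - 1 - i)).trans ?_
      rw [Finset.sum_const, Finset.card_range, nsmul_eq_mul]
    have h8 := mul_le_mul_of_nonneg_left h7 (Nat.cast_nonneg (α := ℝ) k)
    have h9 := hcol k
    nlinarith

end Pool.Agent.Q156.GK
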