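import Pool.Agent.Q156.GK.Stm

/-!
Project GK, job LFB: the third bound of `S_LF1`.
-/

set_option autoImplicit false
set_option linter.unusedSectionVars false

namespace Pool.Agent.Q156.GK.LFBaux

open Pool.Agent.W792.GK Pool.Agent.Q156.GK Finset

variable {Q J : Type} [Fintype Q] [DecidableEq Q] [Fintype J] [DecidableEq J]

theorem blk_mul (A B : Matrix (Q × J) (Q × J) ℂ) (a b : J) :
    blk (A * B) a b = ∑ c, blk A a c * blk B c b := by
  ext x y
  rw [Matrix.sum_apply]
  simp only [blk, Matrix.mul_apply]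
  rw [Fintype.sum_prod_type, Finset.sum_comm]

theorem blk_add (A B : Matrix (Q × J) (Q × J) ℂ) (a b : J) : blk (A + B) a b = blk A a b + blk B a b := rfl

theorem blk_sum {ι : Type} (s : Finset ι) (A : ι → Matrix (Q × J) (Q × J) ℂ) (a b : J) :
    blk (∑ i ∈ s, A i) a b = ∑ i ∈ s, blk (A i) a b := by
  ext x y
  rw [Matrix.sum_apply]
  simp only [blk]
  rw [Matrix.sum_apply]

/-- the difference of the diagonal parts -/
theorem diag_sub (X : J → Matrix Q Q ℂ) (j : J) :
    Matrix.blockDiagonal X = Matrix.blockDiagonal (kil X j) + Matrix.blockDiagonal (Function.update 0 j (X j)) := by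
  rw [← Matrix.blockDiagonal_add]
  congr 1
  funext i
  rw [Pi.add_apply]
  unfold kil
  by_cases h : i = j
  · subst h
    rw [Function.update_self, Function.update_self, zero_add]
  · rw [Function.update_of_ne h, Function.update_of_ne h, Pi.zero_apply, add_zero]

theorem blk_diag (M : Matrix Q Q ℂ) (j a b : J) :
    blk (Matrix.blockDiagonal (Function.update (0 : J → Matrix Q Q ℂ) j M)) a b = if a = j ∧ b = j then M else 0 := by
  ext x y
  simp only [blk, Matrix.blockDiagonal_apply]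
  by_cases h : a = b
  · subst h
    rw [if_pos rfl]
    by_cases h2 : a = j
    · subst h2
      rw [Function.update_self, if_pos ⟨rfl, rfl⟩]
    · rw [Function.update_of_ne h2, if_neg (fun h3 => h2 h3.1)]
      rfl
  · rw [if_neg h, if_neg (fun h3 => h (h3.1.trans h3.2.symm))]
    rfl

theorem Zk_succ (T : Matrix (Q × J) (Q × J) ℂ) (X : J → Matrix Q Q ℂ) (k : ℕ) :
    Zk T X (k + 1) = Zk T X k * (Matrix.blockDiagonal X * T) := by
  unfold Zk
  rw [pow_succ, mul_assoc]

/-- telescoping -/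
theorem tele_mat (T : Matrix (Q × J) (Q × J) ℂ) (X : J → Matrix Q Q ℂ) (j : J) (k : ℕ) :
    Zk T X k = Zk T (kil X j) k + ∑ i ∈ range k,
      Zk T (kil X j) i * Matrix.blockDiagonal (Function.update 0 j (X j)) * Zk T X (k - 1 - i) := by
  induction k with
  | zero => simp [Zk]
  | succ k ih =>
    rw [Finset.sum_range_succ]
    have h1 : ∑ i ∈ range k, Zk T (kil X j) i * Matrix.blockDiagonal (Function.update 0 j (X j)) * Zk T X (k + 1 - 1 - i) =
        (∑ i ∈ range k, Zk T (kil X j) i * Matrix.blockDiagonal (Function.update 0 j (X j)) * Zk T X (k - 1 - i)) *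
          (Matrix.blockDiagonal X * T) := by
      rw [Finset.sum_mul]
      refine Finset.sum_congr rfl fun i hi => ?_
      rw [Finset.mem_range] at hi
      have h2 : k + 1 - 1 - i = (k - 1 - i) + 1 := by omega
      rw [h2, Zk_succ, mul_assoc, mul_assoc, mul_assoc]
    rw [h1, show k + 1 - 1 - k = 0 by omega]
    have h3 : Zk T X 0 = T := by simp [Zk]
    rw [h3]
    conv_lhs => rw [Zk_succ, ih, add_mul]
    rw [Zk_succ T (kil X j)]
    have h4 : Zk T (kil X j) k * (Matrix.blockDiagonal X * T) =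
        Zk T (kil X j) k * (Matrix.blockDiagonal (kil X j) * T) +
        Zk T (kil X j) k * Matrix.blockDiagonal (Function.update 0 j (X j)) * T := by
      conv_lhs => rw [diag_sub X j]
      rw [add_mul, mul_add, mul_assoc (Zk T (kil X j) k) _ T]
    rw [h4]
    abel

/-- telescoping for the blocks -/
theorem tele (T : Matrix (Q × J) (Q × J) ℂ) (X : J → Matrix Q Q ℂ) (j a b : J) (k : ℕ) :
    blk (Zk T X k) a b = blk (Zk T (kil X j) k) a b + ∑ i ∈ range k,
      blk (Zk T (kil X j) i) a j * X j * blk (Zk T X (k - 1 - i)) j b := by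
  conv_lhs => rw [tele_mat T X j k]
  rw [blk_add, blk_sum]
  congr 1
  refine Finset.sum_congr rfl fun i _ => ?_
  rw [blk_mul, Finset.sum_eq_single j]
  · congr 1
    rw [blk_mul, Finset.sum_eq_single j]
    · rw [blk_diag, if_pos ⟨rfl, rfl⟩]
    · intro c _ hc
      rw [blk_diag, if_neg (fun h => hc h.1), mul_zero]
    · exact fun h => absurd (Finset.mem_univ _) h
  · intro c _ hc
    rw [blk_mul, Finset.sum_eq_zero (fun c' _ => by rw [blk_diag, if_neg (fun h => hc h.2), mul_zero]), zero_mul]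
  · exact fun h => absurd (Finset.mem_univ _) h

theorem opB_zero {n : Type} [Fintype n] {c : ℝ} : OpB (0 : Matrix n n ℂ) c := by
  intro u
  rw [Matrix.zero_mulVec]
  simp only [Pi.zero_apply, norm_zero]
  have : 0 ≤ c ^ 2 * ∑ i, ‖u i‖ ^ 2 := mul_nonneg (sq_nonneg _) (Finset.sum_nonneg fun _ _ => sq_nonneg _)
  simpa using this

theorem kil_opB {X : J → Matrix Q Q ℂ} (hX : ∀ j, OpB (X j) 1) (j : J) : ∀ i, OpB (kil X j i) 1 := by
  intro i
  unfold kil
  by_cases h : i = j
  · subst h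
    rw [Function.update_self]
    exact opB_zero
  · rw [Function.update_of_ne h]
    exact hX i

theorem Zk_opB {T : Matrix (Q × J) (Q × J) ℂ} (hT : OpB T 1) {X : J → Matrix Q Q ℂ} (hX : ∀ j, OpB (X j) 1)
    (k : ℕ) : OpB (Zk T X k) 1 := by
  induction k with
  | zero => simpa [Zk] using hT
  | succ k ih =>
    rw [Zk_succ]
    have h1 := opB_mul zero_le_one zero_le_one (opB_blockDiagonal hX) hT
    have h2 := opB_mul zero_le_one (by norm_num) ih h1
    simpa using h2

theorem fro_mul_le (A B : Matrix Q Q ℂ) : fro (A * B) ≤ fro A * fro B := by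
  unfold fro
  have h : ∀ x y, ‖(A * B) x y‖ ^ 2 ≤ (∑ z, ‖A x z‖ ^ 2) * ∑ z, ‖B z y‖ ^ 2 := by
    intro x y
    rw [Matrix.mul_apply]
    have h1 : ‖∑ z, A x z * B z y‖ ≤ ∑ z, ‖A x z‖ * ‖B z y‖ := by
      refine (norm_sum_le _ _).trans (le_of_eq ?_)
      exact Finset.sum_congr rfl fun z _ => norm_mul _ _
    refine (pow_le_pow_left₀ (norm_nonneg _) h1 2).trans ?_
    exact Finset.sum_mul_sq_le_sq_mul_sq _ _ _
  calc ∑ x, ∑ y, ‖(A * B) x y‖ ^ 2 ≤ ∑ x, ∑ y, (∑ z, ‖A x z‖ ^ 2) * ∑ z, ‖B z y‖ ^ 2 :=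
        Finset.sum_le_sum fun x _ => Finset.sum_le_sum fun y _ => h x y
    _ = (∑ x, ∑ z, ‖A x z‖ ^ 2) * ∑ z, ∑ y, ‖B z y‖ ^ 2 := by
        rw [Finset.sum_mul]
        refine Finset.sum_congr rfl fun x _ => ?_
        rw [← Finset.mul_sum, Finset.sum_comm]

theorem fro_sum_le {ι : Type} (s : Finset ι) (A : ι → Matrix Q Q ℂ) :
    fro (∑ i ∈ s, A i) ≤ s.card * ∑ i ∈ s, fro (A i) := by
  unfold fro
  have h : ∀ x y, ‖(∑ i ∈ s, A i) x y‖ ^ 2 ≤ s.card * ∑ i ∈ s, ‖A i x y‖ ^ 2 := by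
    intro x y
    rw [Matrix.sum_apply]
    refine (pow_le_pow_left₀ (norm_nonneg _) (norm_sum_le _ _) 2).trans ?_
    exact sq_sum_le_card_mul_sum_sq
  calc ∑ x, ∑ y, ‖(∑ i ∈ s, A i) x y‖ ^ 2 ≤ ∑ x, ∑ y, s.card * ∑ i ∈ s, ‖A i x y‖ ^ 2 :=
        Finset.sum_le_sum fun x _ => Finset.sum_le_sum fun y _ => h x y
    _ = s.card * ∑ i ∈ s, ∑ x, ∑ y, ‖A i x y‖ ^ 2 := by
        rw [Finset.sum_comm (s := s), Finset.mul_sum]
        refine Finset.sum_congr rfl fun x _ => ?_
        rw [Finset.sum_comm (s := s), Finset.mul_sum]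

theorem fro_neg (A : Matrix Q Q ℂ) : fro (-A) = fro A := by
  unfold fro
  simp

theorem fro_sub_le (A B : Matrix Q Q ℂ) : fro (A - B) ≤ 2 * fro A + 2 * fro B := by
  rw [sub_eq_add_neg]
  refine (fro_add _ _).trans ?_
  rw [fro_neg]

/-- the bound for one term -/
theorem term_le (A X' G X : Matrix Q Q ℂ) (m : ℕ) (E F : ℕ → Matrix Q Q ℂ) (hA : OpB A 1) (hX' : OpB X' 1)
    (hX : OpB X 1) : fro (A * X' * (G - ∑ a ∈ range m, E a * X * F a)) ≤
      2 * (fro A * fro G) + 2 * (m * ∑ a ∈ range m, fro (E a) * fro (F a)) := by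
  have hAX : OpB (A * X') 1 := by simpa using opB_mul zero_le_one zero_le_one hA hX'
  rw [mul_sub]
  refine (fro_sub_le _ _).trans ?_
  have h1 : fro (A * X' * G) ≤ fro A * fro G := by
    refine (fro_mul_le _ _).trans (mul_le_mul_of_nonneg_right ?_ (fro_nonneg _))
    have := fro_mul_right zero_le_one hX' A
    simpa using this
  have h2 : fro (A * X' * ∑ a ∈ range m, E a * X * F a) ≤ m * ∑ a ∈ range m, fro (E a) * fro (F a) := by
    have h3 := fro_mul_left hAX (∑ a ∈ range m, E a * X * F a)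
    rw [one_pow, one_mul] at h3
    refine h3.trans ((fro_sum_le _ _).trans ?_)
    rw [Finset.card_range]
    refine mul_le_mul_of_nonneg_left (Finset.sum_le_sum fun a _ => ?_) (Nat.cast_nonneg _)
    refine (fro_mul_le _ _).trans (mul_le_mul_of_nonneg_right ?_ (fro_nonneg _))
    have := fro_mul_right zero_le_one hX (E a)
    simpa using this
  linarith

theorem kil_comm (X : J → Matrix Q Q ℂ) {j j' : J} (h : j ≠ j') : kil (kil X j) j' = kil (kil X j') j := by
  unfold kil
  exact Function.update_comm h _ _ _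

end Pool.Agent.Q156.GK.LFBaux

namespace Pool.Agent.Q156.GK

open Pool.Agent.W792.GK Finset LFBaux

/-- Job LFB. -/
theorem main_LFB (hA : S_LFA) : S_LF1 := by
  intro k Q _ _
  choose Cf hC0 hCf using fun i => hA i Q
  obtain ⟨q, hq⟩ : ∃ q : ℝ, q = Fintype.card Q := ⟨_, rfl⟩
  have hq0 : 0 ≤ q := by rw [hq]; exact Nat.cast_nonneg _
  obtain ⟨D, hD⟩ : ∃ D : ℝ, D = k * ∑ i ∈ range k, (2 * (Cf i * q) + 2 * (k * ∑ _a ∈ range k, q * q)) := ⟨_, rfl⟩
  have hD0 : 0 ≤ D := by
    rw [hD]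
    refine mul_nonneg (Nat.cast_nonneg _) (Finset.sum_nonneg fun i _ => ?_)
    have h1 := hC0 i
    have h2 : 0 ≤ ∑ _a ∈ range k, q * q := Finset.sum_nonneg fun _ _ => by positivity
    positivity
  refine ⟨Cf k + D, add_nonneg (hC0 k) hD0, ?_⟩
  intro J _ _ T hT X hX p
  obtain ⟨e1, e2, e3⟩ := hCf k J T hT X hX p
  refine ⟨e1, by linarith, by linarith, ?_⟩
  -- the pointwise bound
  have hpt : ∀ j : J, ∀ j' ∈ univ.erase j, fro (blk (Zk T (kil X j) k) j p - blk (Zk T (kil (kil X j) j') k) j p) ≤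
      k * ∑ i ∈ range k, (2 * (fro (blk (Zk T (kil (kil X j) j') i) j j') * fro (blk (Zk T X (k - 1 - i)) j' p)) +
        2 * (k * ∑ a ∈ range k, fro (blk (Zk T (kil X j) a) j' j) * fro (blk (Zk T X (k - 1 - i - 1 - a)) j p))) := by
    intro j j' hj'
    have hne : j' ≠ j := Finset.ne_of_mem_erase hj'
    have h1 := tele T (kil X j) j' j p k
    have h2 : kil X j j' = X j' := by
      unfold kil
      rw [Function.update_of_ne hne]
    rw [h1, add_sub_cancel_left, h2]
    refine (fro_sum_le _ _).trans ?_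
    rw [Finset.card_range]
    refine mul_le_mul_of_nonneg_left (Finset.sum_le_sum fun i hi => ?_) (Nat.cast_nonneg _)
    rw [Finset.mem_range] at hi
    have h3 := tele T X j j' p (k - 1 - i)
    have h4 : blk (Zk T (kil X j) (k - 1 - i)) j' p = blk (Zk T X (k - 1 - i)) j' p -
        ∑ a ∈ range (k - 1 - i), blk (Zk T (kil X j) a) j' j * X j * blk (Zk T X (k - 1 - i - 1 - a)) j p := by
      rw [h3, add_sub_cancel_right]
    rw [h4]
    refine (term_le _ _ _ _ _ _ _ (opB_blk (Zk_opB hT (kil_opB (kil_opB hX j) j') i) _ _) (hX j') (hX j)).trans ?_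
    have h5 : ((k - 1 - i : ℕ) : ℝ) * ∑ a ∈ range (k - 1 - i),
        fro (blk (Zk T (kil X j) a) j' j) * fro (blk (Zk T X (k - 1 - i - 1 - a)) j p) ≤
        k * ∑ a ∈ range k, fro (blk (Zk T (kil X j) a) j' j) * fro (blk (Zk T X (k - 1 - i - 1 - a)) j p) := by
      refine mul_le_mul (by exact_mod_cast (by omega : k - 1 - i ≤ k)) ?_ ?_ (Nat.cast_nonneg _)
      · refine Finset.sum_le_sum_of_subset_of_nonneg (Finset.range_subset_range.2 (by omega)) fun a _ _ => ?_
        exact mul_nonneg (fro_nonneg _) (fro_nonneg _)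
      · exact Finset.sum_nonneg fun a _ => mul_nonneg (fro_nonneg _) (fro_nonneg _)
    linarith
  have hsum1 : ∀ i, ∑ j : J, ∑ j' ∈ univ.erase j, fro (blk (Zk T (kil (kil X j) j') i) j j') *
      fro (blk (Zk T X (k - 1 - i)) j' p) ≤ Cf i * q := by
    intro i
    have h1 : ∑ j : J, ∑ j' ∈ univ.erase j, fro (blk (Zk T (kil (kil X j) j') i) j j') *
        fro (blk (Zk T X (k - 1 - i)) j' p) ≤
        ∑ j : J, ∑ j' : J, fro (blk (Zk T (kil (kil X j') j) i) j j') * fro (blk (Zk T X (k - 1 - i)) j' p) := by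
      refine Finset.sum_le_sum fun j _ => ?_
      have h2 : ∑ j' ∈ univ.erase j, fro (blk (Zk T (kil (kil X j) j') i) j j') *
          fro (blk (Zk T X (k - 1 - i)) j' p) = ∑ j' ∈ univ.erase j, fro (blk (Zk T (kil (kil X j') j) i) j j') *
          fro (blk (Zk T X (k - 1 - i)) j' p) := by
        refine Finset.sum_congr rfl fun j' hj' => ?_
        rw [kil_comm X (Finset.ne_of_mem_erase hj').symm]
      rw [h2]
      exact Finset.sum_le_sum_of_subset_of_nonneg (Finset.erase_subset _ _) fun _ _ _ =>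
        mul_nonneg (fro_nonneg _) (fro_nonneg _)
    refine h1.trans ?_
    rw [Finset.sum_comm]
    have h3 : ∀ j' : J, ∑ j : J, fro (blk (Zk T (kil (kil X j') j) i) j j') * fro (blk (Zk T X (k - 1 - i)) j' p) ≤
        Cf i * fro (blk (Zk T X (k - 1 - i)) j' p) := by
      intro j'
      rw [← Finset.sum_mul]
      exact mul_le_mul_of_nonneg_right (hCf i J T hT (kil X j') (kil_opB hX j') j').2.2 (fro_nonneg _)
    refine (Finset.sum_le_sum fun j' _ => h3 j').trans ?_
    rw [← Finset.mul_sum]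
    refine mul_le_mul_of_nonneg_left ?_ (hC0 i)
    have h4 := sum_fro_blk_le (Zk_opB hT hX (k - 1 - i)) p
    rw [one_pow, mul_one, ← hq] at h4
    exact h4
  have hsum2 : ∀ i a, ∑ j : J, ∑ j' ∈ univ.erase j, fro (blk (Zk T (kil X j) a) j' j) *
      fro (blk (Zk T X (k - 1 - i - 1 - a)) j p) ≤ q * q := by
    intro i a
    have h1 : ∀ j : J, ∑ j' ∈ univ.erase j, fro (blk (Zk T (kil X j) a) j' j) *
        fro (blk (Zk T X (k - 1 - i - 1 - a)) j p) ≤ q * fro (blk (Zk T X (k - 1 - i - 1 - a)) j p) := by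
      intro j
      rw [← Finset.sum_mul]
      refine mul_le_mul_of_nonneg_right ?_ (fro_nonneg _)
      have h2 := sum_fro_blk_le (Zk_opB hT (kil_opB hX j) a) j
      rw [one_pow, mul_one, ← hq] at h2
      exact (Finset.sum_le_sum_of_subset_of_nonneg (Finset.erase_subset _ _) fun _ _ _ => fro_nonneg _).trans h2
    refine (Finset.sum_le_sum fun j _ => h1 j).trans ?_
    rw [← Finset.mul_sum]
    refine mul_le_mul_of_nonneg_left ?_ hq0
    have h4 := sum_fro_blk_le (Zk_opB hT hX (k - 1 - i - 1 - a)) p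
    rw [one_pow, mul_one, ← hq] at h4
    exact h4
  have hfin : ∑ j : J, ∑ j' ∈ univ.erase j, fro (blk (Zk T (kil X j) k) j p - blk (Zk T (kil (kil X j) j') k) j p) ≤ D := by
    refine (Finset.sum_le_sum fun j _ => Finset.sum_le_sum fun j' hj' => hpt j j' hj').trans ?_
    have hswap : ∑ j : J, ∑ j' ∈ univ.erase j, (k : ℝ) * ∑ i ∈ range k,
        (2 * (fro (blk (Zk T (kil (kil X j) j') i) j j') * fro (blk (Zk T X (k - 1 - i)) j' p)) +
        2 * (k * ∑ a ∈ range k, fro (blk (Zk T (kil X j) a) j' j) * fro (blk (Zk T X (k - 1 - i - 1 - a)) j p))) =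
        k * ∑ i ∈ range k, (2 * (∑ j : J, ∑ j' ∈ univ.erase j, fro (blk (Zk T (kil (kil X j) j') i) j j') *
          fro (blk (Zk T X (k - 1 - i)) j' p)) + 2 * (k * ∑ a ∈ range k, ∑ j : J, ∑ j' ∈ univ.erase j,
            fro (blk (Zk T (kil X j) a) j' j) * fro (blk (Zk T X (k - 1 - i - 1 - a)) j p))) := by
      have hin : ∀ j : J, ∑ j' ∈ univ.erase j, (k : ℝ) * ∑ i ∈ range k,
          (2 * (fro (blk (Zk T (kil (kil X j) j') i) j j') * fro (blk (Zk T X (k - 1 - i)) j' p)) +
          2 * (k * ∑ a ∈ range k, fro (blk (Zk T (kil X j) a) j' j) * fro (blk (Zk T X (k - 1 - i - 1 - a)) j p))) =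
          k * ∑ i ∈ range k, (2 * (∑ j' ∈ univ.erase j, fro (blk (Zk T (kil (kil X j) j') i) j j') *
            fro (blk (Zk T X (k - 1 - i)) j' p)) + 2 * (k * ∑ a ∈ range k, ∑ j' ∈ univ.erase j,
              fro (blk (Zk T (kil X j) a) j' j) * fro (blk (Zk T X (k - 1 - i - 1 - a)) j p))) := by
        intro j
        rw [← Finset.mul_sum, Finset.sum_comm]
        congr 1
        refine Finset.sum_congr rfl fun i _ => ?_
        rw [Finset.sum_add_distrib, ← Finset.mul_sum, ← Finset.mul_sum, ← Finset.mul_sum, Finset.sum_comm]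
      rw [Finset.sum_congr rfl fun j _ => hin j, ← Finset.mul_sum, Finset.sum_comm]
      congr 1
      refine Finset.sum_congr rfl fun i _ => ?_
      rw [Finset.sum_add_distrib, ← Finset.mul_sum, ← Finset.mul_sum, ← Finset.mul_sum, Finset.sum_comm]
    rw [hswap, hD]
    refine mul_le_mul_of_nonneg_left (Finset.sum_le_sum fun i _ => ?_) (Nat.cast_nonneg _)
    refine add_le_add (mul_le_mul_of_nonneg_left (hsum1 i) (by norm_num)) ?_
    refine mul_le_mul_of_nonneg_left ?_ (by norm_num)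
    exact mul_le_mul_of_nonneg_left (Finset.sum_le_sum fun a _ => hsum2 i a) (Nat.cast_nonneg _)
  linarith [hC0 k]

end Pool.Agent.Q156.GK
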