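import Pool.Agent.Q156.GK.LFB

/-!
Project GK, job LFS: the single sum.
-/

set_option autoImplicit false
set_option linter.unusedSectionVars false

namespace Pool.Agent.Q156.GK.LFSaux

open Pool.Agent.W792.GK Pool.Agent.Q156.GK Pool.Agent.Q156.GK.LFBaux Finset MeasureTheory

variable {Q J α : Type} [Fintype Q] [DecidableEq Q] [Fintype J] [DecidableEq J] [MeasurableSpace α]

/-- the real scalar product of matrices -/
noncomputable def ipr (A B : Matrix Q Q ℂ) : ℝ := ∑ x, ∑ y, ((starRingEnd ℂ) (A x y) * B x y).re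

theorem ipr_self (A : Matrix Q Q ℂ) : ipr A A = fro A := by
  unfold ipr fro
  refine Finset.sum_congr rfl fun x _ => Finset.sum_congr rfl fun y _ => ?_
  rw [← Complex.normSq_eq_conj_mul_self, Complex.ofReal_re, Complex.normSq_eq_norm_sq]

theorem ipr_comm (A B : Matrix Q Q ℂ) : ipr A B = ipr B A := by
  unfold ipr
  refine Finset.sum_congr rfl fun x _ => Finset.sum_congr rfl fun y _ => ?_
  simp only [Complex.mul_re, Complex.conj_re, Complex.conj_im]
  ring

theorem ipr_sub_right (A B C : Matrix Q Q ℂ) : ipr A (B - C) = ipr A B - ipr A C := by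
  unfold ipr
  rw [← Finset.sum_sub_distrib]
  refine Finset.sum_congr rfl fun x _ => ?_
  rw [← Finset.sum_sub_distrib]
  refine Finset.sum_congr rfl fun y _ => ?_
  rw [Matrix.sub_apply, mul_sub, Complex.sub_re]

theorem ipr_sub_left (A B C : Matrix Q Q ℂ) : ipr (A - B) C = ipr A C - ipr B C := by
  rw [ipr_comm, ipr_sub_right, ipr_comm, ipr_comm C B]

theorem ipr_sum_right {ι : Type} (s : Finset ι) (A : Matrix Q Q ℂ) (B : ι → Matrix Q Q ℂ) :
    ipr A (∑ i ∈ s, B i) = ∑ i ∈ s, ipr A (B i) := by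
  unfold ipr
  rw [Finset.sum_comm (s := s)]
  refine Finset.sum_congr rfl fun x _ => ?_
  rw [Finset.sum_comm (s := s)]
  refine Finset.sum_congr rfl fun y _ => ?_
  rw [Matrix.sum_apply, Finset.mul_sum, Complex.re_sum]

theorem ipr_sum_left {ι : Type} (s : Finset ι) (A : ι → Matrix Q Q ℂ) (B : Matrix Q Q ℂ) :
    ipr (∑ i ∈ s, A i) B = ∑ i ∈ s, ipr (A i) B := by
  rw [ipr_comm, ipr_sum_right]
  exact Finset.sum_congr rfl fun i _ => ipr_comm _ _

theorem abs_ipr_le (A B : Matrix Q Q ℂ) : |ipr A B| ≤ (fro A + fro B) / 2 := by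
  unfold ipr fro
  rw [← Finset.sum_add_distrib, Finset.sum_div]
  refine (Finset.abs_sum_le_sum_abs _ _).trans (Finset.sum_le_sum fun x _ => ?_)
  rw [← Finset.sum_add_distrib, Finset.sum_div]
  refine (Finset.abs_sum_le_sum_abs _ _).trans (Finset.sum_le_sum fun y _ => ?_)
  have h1 : |((starRingEnd ℂ) (A x y) * B x y).re| ≤ ‖A x y‖ * ‖B x y‖ := by
    refine (Complex.abs_re_le_norm _).trans (le_of_eq ?_)
    rw [norm_mul, RCLike.norm_conj]
  nlinarith [sq_nonneg (‖A x y‖ - ‖B x y‖)]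

/-- measurable entries -/
def MM {n : Type} (A : α → Matrix n n ℂ) : Prop := ∀ x y, Measurable fun ω => A ω x y

theorem MM.mul {n : Type} [Fintype n] {A B : α → Matrix n n ℂ} (hA : MM A) (hB : MM B) : MM fun ω => A ω * B ω := by
  intro x y
  simp only [Matrix.mul_apply]
  exact Finset.measurable_fun_sum _ fun z _ => (hA x z).mul (hB z y)

theorem MM.sub {n : Type} {A B : α → Matrix n n ℂ} (hA : MM A) (hB : MM B) : MM fun ω => A ω - B ω :=
  fun x y => (hA x y).sub (hB x y)

theorem MM.const {n : Type} (A : Matrix n n ℂ) : MM fun _ : α => A := fun _ _ => measurable_const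

theorem MM.sum {n ι : Type} (s : Finset ι) {A : ι → α → Matrix n n ℂ} (hA : ∀ i, MM (A i)) :
    MM fun ω => ∑ i ∈ s, A i ω := by
  intro x y
  simp only [Matrix.sum_apply]
  exact Finset.measurable_fun_sum _ fun i _ => hA i x y

theorem MM.kil {X : α → J → Matrix Q Q ℂ} (hX : ∀ i, MM fun ω => X ω i) (j : J) :
    ∀ i, MM fun ω => kil (X ω) j i := by
  intro i
  unfold Pool.Agent.W792.GK.kil
  by_cases h : i = j
  · subst h
    simp only [Function.update_self]
    exact MM.const 0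
  · simp only [Function.update_of_ne h]
    exact hX i

theorem MM.diag {X : α → J → Matrix Q Q ℂ} (hX : ∀ i, MM fun ω => X ω i) :
    MM fun ω => Matrix.blockDiagonal (X ω) := by
  rintro ⟨x, i⟩ ⟨y, i'⟩
  simp only [Matrix.blockDiagonal_apply]
  by_cases h : i = i'
  · simp only [if_pos h]
    exact hX i x y
  · simp only [if_neg h]
    exact measurable_const

theorem MM.Zk {X : α → J → Matrix Q Q ℂ} (hX : ∀ i, MM fun ω => X ω i) (T : Matrix (Q × J) (Q × J) ℂ) (k : ℕ) :
    MM fun ω => Zk T (X ω) k := by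
  induction k with
  | zero =>
    have : (fun ω => Pool.Agent.W792.GK.Zk T (X ω) 0) = fun _ => T := by
      funext ω
      simp [Pool.Agent.W792.GK.Zk]
    rw [this]
    exact MM.const T
  | succ k ih =>
    have : (fun ω => Pool.Agent.W792.GK.Zk T (X ω) (k + 1)) =
        fun ω => Pool.Agent.W792.GK.Zk T (X ω) k * (Matrix.blockDiagonal (X ω) * T) := by
      funext ω
      exact Zk_succ _ _ _
    rw [this]
    exact ih.mul ((MM.diag hX).mul (MM.const T))

theorem MM.blk {Z : α → Matrix (Q × J) (Q × J) ℂ} (hZ : MM Z) (a b : J) : MM fun ω => blk (Z ω) a b :=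
  fun x y => hZ (x, a) (y, b)

/-- measurable and bounded -/
structure GM (A : α → Matrix Q Q ℂ) : Prop where
  meas : MM A
  bd : ∃ c : ℝ, 0 ≤ c ∧ ∀ ω, OpB (A ω) c

theorem GM.mul {A B : α → Matrix Q Q ℂ} (hA : GM A) (hB : GM B) : GM fun ω => A ω * B ω := by
  obtain ⟨a, ha, hA2⟩ := hA.bd
  obtain ⟨b, hb, hB2⟩ := hB.bd
  exact ⟨hA.meas.mul hB.meas, a * b, mul_nonneg ha hb, fun ω => opB_mul ha hb (hA2 ω) (hB2 ω)⟩

theorem opB_neg {n : Type} [Fintype n] {A : Matrix n n ℂ} {a : ℝ} (h : OpB A a) : OpB (-A) a := by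
  intro u
  have := h u
  simpa [Matrix.neg_mulVec] using this

theorem GM.sub {A B : α → Matrix Q Q ℂ} (hA : GM A) (hB : GM B) : GM fun ω => A ω - B ω := by
  obtain ⟨a, ha, hA2⟩ := hA.bd
  obtain ⟨b, hb, hB2⟩ := hB.bd
  refine ⟨hA.meas.sub hB.meas, a + b, add_nonneg ha hb, fun ω => ?_⟩
  rw [sub_eq_add_neg]
  exact opB_add ha hb (hA2 ω) (opB_neg (hB2 ω))

theorem GM.fro_bd {A : α → Matrix Q Q ℂ} (hA : GM A) : ∃ c : ℝ, ∀ ω, fro (A ω) ≤ c := by
  obtain ⟨a, _, hA2⟩ := hA.bd
  exact ⟨_, fun ω => fro_le (hA2 ω)⟩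

theorem GM.ipr_meas {A B : α → Matrix Q Q ℂ} (hA : GM A) (hB : GM B) : Measurable fun ω => ipr (A ω) (B ω) := by
  unfold ipr
  refine Finset.measurable_fun_sum _ fun x _ => Finset.measurable_fun_sum _ fun y _ => ?_
  refine Complex.measurable_re.comp ?_
  exact ((Complex.continuous_conj.measurable).comp (hA.meas x y)).mul (hB.meas x y)

theorem GM.ipr_int {A B : α → Matrix Q Q ℂ} (hA : GM A) (hB : GM B) (P : Measure α) [IsProbabilityMeasure P] :
    Integrable (fun ω => ipr (A ω) (B ω)) P := by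
  obtain ⟨a, ha⟩ := hA.fro_bd
  obtain ⟨b, hb⟩ := hB.fro_bd
  refine Integrable.mono' (g := fun _ => (a + b) / 2) (integrable_const _) (hA.ipr_meas hB).aestronglyMeasurable
    (Filter.Eventually.of_forall fun ω => ?_)
  rw [Real.norm_eq_abs]
  refine (abs_ipr_le _ _).trans ?_
  have := ha ω
  have := hb ω
  linarith

theorem GM.fro_int {A : α → Matrix Q Q ℂ} (hA : GM A) (P : Measure α) [IsProbabilityMeasure P] :
    Integrable (fun ω => fro (A ω)) P := by
  have h := hA.ipr_int hA P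
  simpa only [ipr_self] using h

end Pool.Agent.Q156.GK.LFSaux

namespace Pool.Agent.Q156.GK

open Pool.Agent.W792.GK Finset LFBaux LFSaux MeasureTheory

namespace LFSaux

variable {Q J Ω : Type} [Fintype Q] [DecidableEq Q] [Fintype J] [DecidableEq J] [MeasurableSpace Ω]

/-- the expectation of a scalar product vanishes -/
theorem zero_ip (hU : S_UPD) (μ : Measure Ω) [IsProbabilityMeasure μ] (f : Ω → Matrix Q Q ℂ)
    (hf : ∀ x y, Measurable fun w => f w x y) (hf1 : ∀ w, OpB (f w) 1) (hf0 : ∀ x y, ∫ w, f w x y ∂μ = 0) (j : J)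
    (S : Matrix Q Q ℂ) {s : ℝ} (hs : 0 ≤ s) (hS : OpB S s) {M B : (J → Ω) → Matrix Q Q ℂ} (hM : GM M) (hB : GM B)
    (hM2 : ∀ ω w, M (Function.update ω j w) = M ω) (hB2 : ∀ ω w, B (Function.update ω j w) = B ω) :
    ∫ ω, ipr (M ω) (S * f (ω j) * B ω) ∂(Measure.pi fun _ : J => μ) = 0 := by
  have hfj : GM fun ω : J → Ω => f (ω j) :=
    ⟨fun x y => (hf x y).comp (measurable_pi_apply j), 1, zero_le_one, fun ω => hf1 _⟩
  have hSg : GM fun _ : J → Ω => S := ⟨MM.const S, s, hs, fun _ => hS⟩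
  have hR : GM fun ω => S * f (ω j) * B ω := (hSg.mul hfj).mul hB
  obtain ⟨a, ha0, ha⟩ := hM.bd
  obtain ⟨b, hb0, hb⟩ := hR.bd
  obtain ⟨G, hG⟩ : ∃ G : (J → Ω) → ℂ, G = fun ω => ∑ x, ∑ y, (starRingEnd ℂ) (M ω x y) * (S * f (ω j) * B ω) x y :=
    ⟨_, rfl⟩
  have hGm : Measurable G := by
    rw [hG]
    refine Finset.measurable_fun_sum _ fun x _ => Finset.measurable_fun_sum _ fun y _ => ?_
    exact ((Complex.continuous_conj.measurable).comp (hM.meas x y)).mul (hR.meas x y)
  have hGb : ∀ ω, ‖G ω‖ ≤ ∑ _x : Q, ∑ _y : Q, a * b := by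
    intro ω
    rw [hG]
    refine (norm_sum_le _ _).trans (Finset.sum_le_sum fun x _ => (norm_sum_le _ _).trans (Finset.sum_le_sum fun y _ => ?_))
    rw [norm_mul, RCLike.norm_conj]
    exact mul_le_mul (norm_entry_le ha0 (ha ω) x y) (norm_entry_le hb0 (hb ω) x y) (norm_nonneg _) ha0
  have hGi : Integrable G (Measure.pi fun _ : J => μ) :=
    Integrable.mono' (g := fun _ => ∑ _x : Q, ∑ _y : Q, a * b) (integrable_const _) hGm.aestronglyMeasurable
      (Filter.Eventually.of_forall hGb)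
  have h1 : ∀ ω, ipr (M ω) (S * f (ω j) * B ω) = (G ω).re := by
    intro ω
    rw [hG]
    unfold ipr
    simp only [Complex.re_sum]
  have h2 : ∫ ω, G ω ∂(Measure.pi fun _ : J => μ) = 0 := by
    rw [hU J Ω μ G _ j hGm hGb]
    have h3 : ∀ ω, ∫ w, G (Function.update ω j w) ∂μ = 0 := by
      intro ω
      have h4 : ∀ w, G (Function.update ω j w) = ∑ x, ∑ y, ∑ v, ∑ u,
          ((starRingEnd ℂ) (M ω x y) * S x u * B ω v y) * f w u v := by
        intro w
        rw [hG]
        simp only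
        rw [hM2, hB2, Function.update_self]
        refine Finset.sum_congr rfl fun x _ => Finset.sum_congr rfl fun y _ => ?_
        rw [Matrix.mul_apply, Finset.mul_sum]
        refine Finset.sum_congr rfl fun v _ => ?_
        rw [Matrix.mul_apply, Finset.sum_mul, Finset.mul_sum]
        refine Finset.sum_congr rfl fun u _ => ?_
        ring
      have hfi : ∀ u v, Integrable (fun w => f w u v) μ := by
        intro u v
        exact Integrable.mono' (g := fun _ => (1 : ℝ)) (integrable_const _) (hf u v).aestronglyMeasurable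
          (Filter.Eventually.of_forall fun w => norm_entry_le zero_le_one (hf1 w) u v)
      rw [integral_congr_ae (Filter.Eventually.of_forall h4)]
      have i1 : ∀ x y v u, Integrable (fun w => ((starRingEnd ℂ) (M ω x y) * S x u * B ω v y) * f w u v) μ :=
        fun x y v u => (hfi u v).const_mul _
      have i2 : ∀ x y v, Integrable (fun w => ∑ u, ((starRingEnd ℂ) (M ω x y) * S x u * B ω v y) * f w u v) μ :=
        fun x y v => integrable_finsetSum _ fun u _ => i1 x y v u
      have i3 : ∀ x y, Integrable (fun w => ∑ v, ∑ u, ((starRingEnd ℂ) (M ω x y) * S x u * B ω v y) * f w u v) μ :=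
        fun x y => integrable_finsetSum _ fun v _ => i2 x y v
      have i4 : ∀ x, Integrable (fun w => ∑ y, ∑ v, ∑ u, ((starRingEnd ℂ) (M ω x y) * S x u * B ω v y) * f w u v) μ :=
        fun x => integrable_finsetSum _ fun y _ => i3 x y
      rw [integral_finsetSum _ fun x _ => i4 x]
      refine Finset.sum_eq_zero fun x _ => ?_
      rw [integral_finsetSum _ fun y _ => i3 x y]
      refine Finset.sum_eq_zero fun y _ => ?_
      rw [integral_finsetSum _ fun v _ => i2 x y v]
      refine Finset.sum_eq_zero fun v _ => ?_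
      rw [integral_finsetSum _ fun u _ => i1 x y v u]
      refine Finset.sum_eq_zero fun u _ => ?_
      rw [integral_const_mul, hf0, mul_zero]
    rw [integral_congr_ae (Filter.Eventually.of_forall h3), integral_zero]
  rw [integral_congr_ae (Filter.Eventually.of_forall h1)]
  have h5 := integral_re hGi
  simp only [RCLike.re_eq_complex_re] at h5
  rw [h5, h2, Complex.zero_re]

theorem kil_upd (f : J → Ω → Matrix Q Q ℂ) (ω : J → Ω) (j : J) (w : Ω) :
    kil (fun i => f i (Function.update ω j w i)) j = kil (fun i => f i (ω i)) j := by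
  funext i
  unfold kil
  by_cases h : i = j
  · subst h
    rw [Function.update_self, Function.update_self]
  · rw [Function.update_of_ne h, Function.update_of_ne h, Function.update_of_ne h]

theorem sum_erase_swap (F : J → J → ℝ) : ∑ j, ∑ j' ∈ univ.erase j, F j' j = ∑ j, ∑ j' ∈ univ.erase j, F j j' := by
  have h1 : ∀ j, ∑ j' ∈ univ.erase j, F j' j = ∑ j', F j' j - F j j := by
    intro j
    rw [← Finset.add_sum_erase univ (fun j' => F j' j) (Finset.mem_univ j)]
    ring
  have h2 : ∀ j, ∑ j' ∈ univ.erase j, F j j' = ∑ j', F j j' - F j j := by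
    intro j
    rw [← Finset.add_sum_erase univ (fun j' => F j j') (Finset.mem_univ j)]
    ring
  rw [Finset.sum_congr rfl fun j _ => h1 j, Finset.sum_congr rfl fun j _ => h2 j, Finset.sum_sub_distrib,
    Finset.sum_sub_distrib, Finset.sum_comm]

end LFSaux

/-- Job LFS. -/
theorem main_LFS (hL : S_LF1) (hU : S_UPD) : S_LFS := by
  intro k Q _ _
  obtain ⟨C, hC0, hC⟩ := hL k Q
  obtain ⟨q, hq⟩ : ∃ q : ℝ, q = (Fintype.card Q : ℝ) ^ 2 := ⟨_, rfl⟩
  have hq0 : 0 ≤ q := by rw [hq]; positivity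
  refine ⟨2 * q * C, by positivity, ?_⟩
  intro J _ _ Ω _ μ _ f hf hf1 hf0 T hT ε hε hTε p
  obtain ⟨P, hP⟩ : ∃ P : Measure (J → Ω), P = Measure.pi fun _ : J => μ := ⟨_, rfl⟩
  have hPp : IsProbabilityMeasure P := by rw [hP]; infer_instance
  -- the data
  obtain ⟨X, hX⟩ : ∃ X : (J → Ω) → J → Matrix Q Q ℂ, X = fun ω i => f i (ω i) := ⟨_, rfl⟩
  have hXm : ∀ i, MM fun ω => X ω i := by
    intro i x y
    rw [hX]
    exact (hf i x y).comp (measurable_pi_apply i)
  have hX1 : ∀ ω i, OpB (X ω i) 1 := by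
    intro ω i
    rw [hX]
    exact hf1 i _
  obtain ⟨Y, hY⟩ : ∃ Y : J → (J → Ω) → Matrix Q Q ℂ, Y = fun j ω => blk (Zk T (kil (X ω) j) k) j p := ⟨_, rfl⟩
  obtain ⟨Y', hY'⟩ : ∃ Y' : J → J → (J → Ω) → Matrix Q Q ℂ,
    Y' = fun j j' ω => blk (Zk T (kil (kil (X ω) j) j') k) j p := ⟨_, rfl⟩
  have gX : ∀ i, GM fun ω => X ω i := fun i => ⟨hXm i, 1, zero_le_one, fun ω => hX1 ω i⟩
  have gY : ∀ j, GM (Y j) := by
    intro j
    rw [hY]
    exact ⟨MM.blk (MM.Zk (MM.kil hXm j) T k) j p, 1, zero_le_one, fun ω => opB_blk (Zk_opB hT (kil_opB (hX1 ω) j) k) _ _⟩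
  have gY' : ∀ j j', GM (Y' j j') := by
    intro j j'
    rw [hY']
    exact ⟨MM.blk (MM.Zk (MM.kil (MM.kil hXm j) j') T k) j p, 1, zero_le_one,
      fun ω => opB_blk (Zk_opB hT (kil_opB (kil_opB (hX1 ω) j) j') k) _ _⟩
  have gT : ∀ j, GM fun _ : J → Ω => blk T p j := fun j => ⟨MM.const _, 1, zero_le_one, fun _ => opB_blk hT _ _⟩
  have hkil : ∀ (ω : J → Ω) (j : J) (w : Ω), kil (X (Function.update ω j w)) j = kil (X ω) j := by
    intro ω j w
    rw [hX]
    exact kil_upd f ω j w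
  have hYu : ∀ j (ω : J → Ω) (w : Ω), Y j (Function.update ω j w) = Y j ω := by
    intro j ω w
    rw [hY]
    simp only
    rw [hkil]
  have hY'u1 : ∀ j j' (ω : J → Ω) (w : Ω), Y' j j' (Function.update ω j w) = Y' j j' ω := by
    intro j j' ω w
    rw [hY']
    simp only
    rw [hkil]
  have hY'u2 : ∀ j j', j ≠ j' → ∀ (ω : J → Ω) (w : Ω), Y' j j' (Function.update ω j' w) = Y' j j' ω := by
    intro j j' hne ω w
    rw [hY']
    simp only
    rw [kil_comm _ hne, kil_comm _ hne, hkil]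
  have hXu : ∀ i j, i ≠ j → ∀ (ω : J → Ω) (w : Ω), X (Function.update ω j w) i = X ω i := by
    intro i j hne ω w
    rw [hX]
    simp only
    rw [Function.update_of_ne hne]
  -- the summands
  obtain ⟨a, ha⟩ : ∃ a : J → (J → Ω) → Matrix Q Q ℂ, a = fun j ω => blk T p j * X ω j * Y j ω := ⟨_, rfl⟩
  obtain ⟨b, hb⟩ : ∃ b : J → J → (J → Ω) → Matrix Q Q ℂ, b = fun j j' ω => blk T p j * X ω j * (Y j ω - Y' j j' ω) :=
    ⟨_, rfl⟩
  have ga : ∀ j, GM (a j) := by
    intro j
    rw [ha]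
    exact ((gT j).mul (gX j)).mul (gY j)
  have gb : ∀ j j', GM (b j j') := by
    intro j j'
    rw [hb]
    exact ((gT j).mul (gX j)).mul ((gY j).sub (gY' j j'))
  -- the scalar products
  have hip : ∀ j j', j ≠ j' → ∫ ω, ipr (a j ω) (a j' ω) ∂P = ∫ ω, ipr (b j j' ω) (b j' j ω) ∂P := by
    intro j j' hne
    have gc : GM fun ω => blk T p j * X ω j * Y' j j' ω := ((gT j).mul (gX j)).mul (gY' j j')
    have gc' : GM fun ω => blk T p j' * X ω j' * Y' j' j ω := ((gT j').mul (gX j')).mul (gY' j' j)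
    have z1 : ∫ ω, ipr (blk T p j * X ω j * Y' j j' ω) (a j' ω) ∂P = 0 := by
      rw [hP, ha, hX]
      refine zero_ip hU μ (f j') (hf j') (hf1 j') (hf0 j') j' (blk T p j') zero_le_one (opB_blk hT _ _)
        (M := fun ω => blk T p j * f j (ω j) * Y' j j' ω) (B := Y j') ?_ (gY j') ?_ (hYu j')
      · rw [hX] at gc
        exact gc
      · intro ω w
        rw [hY'u2 j j' hne, Function.update_of_ne hne]
    have z2 : ∫ ω, ipr (b j j' ω) (blk T p j' * X ω j' * Y' j' j ω) ∂P = 0 := by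
      have e1 : ∀ ω, ipr (b j j' ω) (blk T p j' * X ω j' * Y' j' j ω) =
          ipr (blk T p j' * X ω j' * Y' j' j ω) (b j j' ω) := fun ω => ipr_comm _ _
      rw [integral_congr_ae (Filter.Eventually.of_forall e1), hP, hb, hX]
      refine zero_ip hU μ (f j) (hf j) (hf1 j) (hf0 j) j (blk T p j) zero_le_one (opB_blk hT _ _)
        (M := fun ω => blk T p j' * f j' (ω j') * Y' j' j ω) (B := fun ω => Y j ω - Y' j j' ω) ?_
        ((gY j).sub (gY' j j')) ?_ ?_
      · rw [hX] at gc'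
        exact gc'
      · intro ω w
        rw [hY'u2 j' j hne.symm, Function.update_of_ne hne.symm]
      · intro ω w
        rw [hYu, hY'u1]
    have e2 : ∀ ω, ipr (b j j' ω) (b j' j ω) = ipr (a j ω) (a j' ω) - ipr (blk T p j * X ω j * Y' j j' ω) (a j' ω) -
        ipr (b j j' ω) (blk T p j' * X ω j' * Y' j' j ω) := by
      intro ω
      have e3 : b j' j ω = a j' ω - blk T p j' * X ω j' * Y' j' j ω := by
        rw [hb, ha]
        simp only
        rw [mul_sub]
      have e4 : b j j' ω = a j ω - blk T p j * X ω j * Y' j j' ω := by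
        rw [hb, ha]
        simp only
        rw [mul_sub]
      conv_lhs => rw [e3, ipr_sub_right]
      conv_lhs => enter [1]; rw [e4, ipr_sub_left]
    rw [integral_congr_ae (Filter.Eventually.of_forall e2), integral_sub, integral_sub, z1, z2, sub_zero, sub_zero]
    · exact (ga j).ipr_int (ga j') P
    · exact gc.ipr_int (ga j') P
    · exact ((ga j).ipr_int (ga j') P).sub (gc.ipr_int (ga j') P)
    · exact (gb j j').ipr_int gc' P
  have hfrosum : ∀ ω, fro (∑ j, a j ω) = ∑ j, ∑ j', ipr (a j ω) (a j' ω) := by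
    intro ω
    rw [← ipr_self, ipr_sum_left]
    exact Finset.sum_congr rfl fun j _ => ipr_sum_right _ _ _
  have hlhs : ∫ ω, fro (∑ j, a j ω) ∂P ≤
      ∫ ω, (∑ j, fro (a j ω) + ∑ j, ∑ j' ∈ univ.erase j, fro (b j j' ω)) ∂P := by
    rw [integral_congr_ae (Filter.Eventually.of_forall hfrosum)]
    rw [integral_finsetSum _ fun j _ => integrable_finsetSum _ fun j' _ => (ga j).ipr_int (ga j') P]
    rw [integral_add (integrable_finsetSum _ fun j _ => (ga j).fro_int P)
      (integrable_finsetSum _ fun j _ => integrable_finsetSum _ fun j' _ => (gb j j').fro_int P),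
      integral_finsetSum _ fun j _ => (ga j).fro_int P,
      integral_finsetSum _ fun j _ => integrable_finsetSum _ fun j' _ => (gb j j').fro_int P]
    have e5 : ∀ j, ∫ ω, ∑ j', ipr (a j ω) (a j' ω) ∂P ≤ ∫ ω, fro (a j ω) ∂P +
        ∑ j' ∈ univ.erase j, (∫ ω, fro (b j j' ω) ∂P + ∫ ω, fro (b j' j ω) ∂P) / 2 := by
      intro j
      rw [integral_finsetSum _ fun j' _ => (ga j).ipr_int (ga j') P,
        ← Finset.add_sum_erase univ (fun j' => ∫ ω, ipr (a j ω) (a j' ω) ∂P) (Finset.mem_univ j)]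
      refine add_le_add (le_of_eq ?_) (Finset.sum_le_sum fun j' hj' => ?_)
      · exact integral_congr_ae (Filter.Eventually.of_forall fun ω => ipr_self _)
      · rw [hip j j' (Finset.ne_of_mem_erase hj').symm]
        have e6 : ∫ ω, ipr (b j j' ω) (b j' j ω) ∂P ≤ ∫ ω, (fro (b j j' ω) + fro (b j' j ω)) / 2 ∂P := by
          refine integral_mono ((gb j j').ipr_int (gb j' j) P)
            ((((gb j j').fro_int P).add ((gb j' j).fro_int P)).div_const 2) fun ω => ?_
          exact (le_abs_self _).trans (abs_ipr_le _ _)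
        rw [integral_div, integral_add ((gb j j').fro_int P) ((gb j' j).fro_int P)] at e6
        exact e6
    refine (Finset.sum_le_sum fun j _ => e5 j).trans ?_
    rw [Finset.sum_add_distrib]
    refine add_le_add le_rfl (le_of_eq ?_)
    have e7 := sum_erase_swap (fun j j' => ∫ ω, fro (b j j' ω) ∂P)
    have e8 : ∑ j, ∑ j' ∈ univ.erase j, (∫ ω, fro (b j j' ω) ∂P + ∫ ω, fro (b j' j ω) ∂P) / 2 =
        (∑ j, ∑ j' ∈ univ.erase j, ∫ ω, fro (b j j' ω) ∂P + ∑ j, ∑ j' ∈ univ.erase j, ∫ ω, fro (b j' j ω) ∂P) / 2 := by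
      rw [← Finset.sum_add_distrib, Finset.sum_div]
      refine Finset.sum_congr rfl fun j _ => ?_
      rw [← Finset.sum_add_distrib, Finset.sum_div]
    rw [e8, e7]
    have e9 : ∑ j, ∫ ω, ∑ j' ∈ univ.erase j, fro (b j j' ω) ∂P = ∑ j, ∑ j' ∈ univ.erase j, ∫ ω, fro (b j j' ω) ∂P :=
      Finset.sum_congr rfl fun j _ => integral_finsetSum _ fun j' _ => (gb j j').fro_int P
    rw [e9]
    ring
  have hfT : ∀ j, fro (blk T p j) ≤ q * ε ^ 2 := by
    intro j
    unfold fro
    calc ∑ x, ∑ y, ‖blk T p j x y‖ ^ 2 ≤ ∑ _x : Q, ∑ _y : Q, ε ^ 2 :=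
          Finset.sum_le_sum fun x _ => Finset.sum_le_sum fun y _ =>
            pow_le_pow_left₀ (norm_nonneg _) (hTε p j x y) 2
      _ = q * ε ^ 2 := by
          rw [hq, Finset.sum_const, Finset.sum_const, Finset.card_univ, nsmul_eq_mul, nsmul_eq_mul]
          ring
  have hprod : ∀ j (ω : J → Ω) (D : Matrix Q Q ℂ), fro (blk T p j * X ω j * D) ≤ q * ε ^ 2 * fro D := by
    intro j ω D
    refine (fro_mul_le _ _).trans (mul_le_mul_of_nonneg_right ?_ (fro_nonneg _))
    have h1 := fro_mul_right zero_le_one (hX1 ω j) (blk T p j)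
    rw [one_pow, one_mul] at h1
    exact h1.trans (hfT j)
  have hbound : ∀ ω, ∑ j, fro (a j ω) + ∑ j, ∑ j' ∈ univ.erase j, fro (b j j' ω) ≤ 2 * q * C * ε ^ 2 := by
    intro ω
    obtain ⟨-, -, c3, c4⟩ := hC J T hT (X ω) (hX1 ω) p
    have hqe : 0 ≤ q * ε ^ 2 := by positivity
    have h1 : ∑ j, fro (a j ω) ≤ q * ε ^ 2 * C := by
      calc ∑ j, fro (a j ω) ≤ ∑ j, q * ε ^ 2 * fro (blk (Zk T (kil (X ω) j) k) j p) := by
            refine Finset.sum_le_sum fun j _ => ?_
            rw [ha, hY]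
            exact hprod j ω _
        _ = q * ε ^ 2 * ∑ j, fro (blk (Zk T (kil (X ω) j) k) j p) := by rw [Finset.mul_sum]
        _ ≤ q * ε ^ 2 * C := mul_le_mul_of_nonneg_left c3 hqe
    have h2 : ∑ j, ∑ j' ∈ univ.erase j, fro (b j j' ω) ≤ q * ε ^ 2 * C := by
      calc ∑ j, ∑ j' ∈ univ.erase j, fro (b j j' ω) ≤ ∑ j, ∑ j' ∈ univ.erase j, q * ε ^ 2 *
            fro (blk (Zk T (kil (X ω) j) k) j p - blk (Zk T (kil (kil (X ω) j) j') k) j p) := by
            refine Finset.sum_le_sum fun j _ => Finset.sum_le_sum fun j' _ => ?_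
            rw [hb, hY, hY']
            exact hprod j ω _
        _ = q * ε ^ 2 * ∑ j, ∑ j' ∈ univ.erase j,
            fro (blk (Zk T (kil (X ω) j) k) j p - blk (Zk T (kil (kil (X ω) j) j') k) j p) := by
            rw [Finset.mul_sum]
            refine Finset.sum_congr rfl fun j _ => ?_
            rw [Finset.mul_sum]
        _ ≤ q * ε ^ 2 * C := mul_le_mul_of_nonneg_left c4 hqe
    linarith
  have hfin : ∫ ω, fro (∑ j, a j ω) ∂P ≤ 2 * q * C * ε ^ 2 := by
    refine hlhs.trans ?_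
    have h1 : ∫ ω, (∑ j, fro (a j ω) + ∑ j, ∑ j' ∈ univ.erase j, fro (b j j' ω)) ∂P ≤
        ∫ _ω, (2 * q * C * ε ^ 2) ∂P := by
      refine integral_mono ((integrable_finsetSum _ fun j _ => (ga j).fro_int P).add
        (integrable_finsetSum _ fun j _ => integrable_finsetSum _ fun j' _ => (gb j j').fro_int P))
        (integrable_const _) hbound
    rw [integral_const, probReal_univ, one_smul] at h1
    exact h1
  rw [hP, ha, hY, hX] at hfin
  exact hfin

end Pool.Agent.Q156.GK
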