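import Pool.Agent.Q156.GK.Stm
import Pool.Agent.W792.GK.Lap

/-!
# Project GK (helper156), job LIP (helper256)
-/

set_option autoImplicit false

namespace Pool.Agent.Q156.GK

open Pool.Agent.W792.GK

noncomputable section

namespace LIP

/-! ### Abstract resolvents -/

section abs

variable {H : Type} [NormedAddCommGroup H] [InnerProductSpace ℂ H] [CompleteSpace H]

theorem isUnit_sub (L : H →L[ℂ] H) (hL : IsSelfAdjoint L) (z : ℂ) (hz : z.im ≠ 0) :
    IsUnit (L - z • (1 : H →L[ℂ] H)) := by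
  have h : z ∉ spectrum ℂ L := by
    intro hmem
    have := hL.mem_spectrum_eq_re hmem
    apply hz
    rw [this]
    simp
  rw [spectrum.notMem_iff] at h
  have := h.neg
  rwa [neg_sub, Algebra.algebraMap_eq_smul_one] at this

theorem im_inner_self (L : H →L[ℂ] H) (hL : IsSelfAdjoint L) (u : H) :
    (inner ℂ (L u) u : ℂ).im = 0 := by
  have h1 : inner ℂ (L u) u = inner ℂ u (L u) := hL.isSymmetric u u
  have h2 : (starRingEnd ℂ) (inner ℂ (L u) u : ℂ) = inner ℂ u (L u) := inner_conj_symm _ _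
  rw [← h1] at h2
  have := congrArg Complex.im h2
  rw [Complex.conj_im] at this
  linarith

/-- the imaginary part of the form -/
theorem im_inner_sub (L : H →L[ℂ] H) (hL : IsSelfAdjoint L) (z : ℂ) (u : H) :
    (inner ℂ ((L - z • (1 : H →L[ℂ] H)) u) u : ℂ).im = z.im * ‖u‖ ^ 2 := by
  have e : (L - z • (1 : H →L[ℂ] H)) u = L u - z • u := by simp
  rw [e, inner_sub_left, inner_smul_left, Complex.sub_im, im_inner_self L hL u,
    inner_self_eq_norm_sq_to_K]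
  simp only [Complex.coe_algebraMap, ← Complex.ofReal_pow, Complex.mul_im, Complex.conj_im,
    Complex.ofReal_re, Complex.ofReal_im, mul_zero, zero_sub, zero_add]
  ring

theorem norm_le (L : H →L[ℂ] H) (hL : IsSelfAdjoint L) (z : ℂ) (hz : z.im ≠ 0) (u : H) :
    |z.im| * ‖u‖ ≤ ‖(L - z • (1 : H →L[ℂ] H)) u‖ := by
  have h1 := im_inner_sub L hL z u
  have h2 : |z.im * ‖u‖ ^ 2| ≤ ‖(L - z • (1 : H →L[ℂ] H)) u‖ * ‖u‖ := by
    rw [← h1]
    exact (Complex.abs_im_le_norm _).trans (norm_inner_le_norm _ _)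
  rw [abs_mul, abs_of_nonneg (by positivity : (0 : ℝ) ≤ ‖u‖ ^ 2)] at h2
  rcases (norm_nonneg u).eq_or_lt with h | h
  · rw [← h, mul_zero]
    exact norm_nonneg _
  · have h3 : (|z.im| * ‖u‖) * ‖u‖ ≤ ‖(L - z • (1 : H →L[ℂ] H)) u‖ * ‖u‖ := by
      rw [mul_assoc, ← pow_two]
      exact h2
    exact le_of_mul_le_mul_right h3 h

/-- the resolvent -/
abbrev Rs (L : H →L[ℂ] H) (z : ℂ) : H →L[ℂ] H := Ring.inverse (L - z • (1 : H →L[ℂ] H))

theorem sub_Rs (L : H →L[ℂ] H) (hL : IsSelfAdjoint L) (z : ℂ) (hz : z.im ≠ 0) (u : H) :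
    (L - z • (1 : H →L[ℂ] H)) (Rs L z u) = u := by
  have h := Ring.mul_inverse_cancel _ (isUnit_sub L hL z hz)
  have := congrArg (fun A : H →L[ℂ] H => A u) h
  exact this

theorem Rs_sub (L : H →L[ℂ] H) (hL : IsSelfAdjoint L) (z : ℂ) (hz : z.im ≠ 0) (u : H) :
    Rs L z ((L - z • (1 : H →L[ℂ] H)) u) = u := by
  have h := Ring.inverse_mul_cancel _ (isUnit_sub L hL z hz)
  have := congrArg (fun A : H →L[ℂ] H => A u) h
  exact this

theorem norm_Rs (L : H →L[ℂ] H) (hL : IsSelfAdjoint L) (z : ℂ) (hz : z.im ≠ 0) (u : H) :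
    ‖Rs L z u‖ ≤ ‖u‖ / |z.im| := by
  have h := norm_le L hL z hz (Rs L z u)
  rw [sub_Rs L hL z hz u] at h
  rw [le_div_iff₀ (abs_pos.2 hz), mul_comm]
  exact h

/-- the imaginary part of the resolvent form -/
theorem im_inner_Rs (L : H →L[ℂ] H) (hL : IsSelfAdjoint L) (z : ℂ) (hz : z.im ≠ 0) (u : H) :
    (inner ℂ u (Rs L z u) : ℂ).im = z.im * ‖Rs L z u‖ ^ 2 := by
  have h := im_inner_sub L hL z (Rs L z u)
  rwa [sub_Rs L hL z hz u] at h

/-- the adjoint of the resolvent -/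
theorem inner_Rs (L : H →L[ℂ] H) (hL : IsSelfAdjoint L) (z : ℂ) (hz : z.im ≠ 0) (u v : H) :
    inner ℂ u (Rs L z v) = inner ℂ (Rs L ((starRingEnd ℂ) z) u) v := by
  have hz' : ((starRingEnd ℂ) z).im ≠ 0 := by
    rw [Complex.conj_im]
    exact neg_ne_zero.2 hz
  set a := Rs L ((starRingEnd ℂ) z) u with ha
  set b := Rs L z v with hb
  have h1 : (L - ((starRingEnd ℂ) z) • (1 : H →L[ℂ] H)) a = u := sub_Rs L hL _ hz' u
  have h2 : (L - z • (1 : H →L[ℂ] H)) b = v := sub_Rs L hL z hz v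
  rw [← h1, ← h2]
  have e1 : (L - ((starRingEnd ℂ) z) • (1 : H →L[ℂ] H)) a = L a - ((starRingEnd ℂ) z) • a := by
    simp
  have e2 : (L - z • (1 : H →L[ℂ] H)) b = L b - z • b := by simp
  rw [e1, e2, inner_sub_left, inner_sub_right, inner_smul_left, inner_smul_right,
    Complex.conj_conj]
  have h3 : inner ℂ (L a) b = inner ℂ a (L b) := hL.isSymmetric a b
  rw [h3]

/-- the norm of the adjoint resolvent -/
theorem im_inner_Rs' (L : H →L[ℂ] H) (hL : IsSelfAdjoint L) (z : ℂ) (hz : z.im ≠ 0) (u : H) :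
    (inner ℂ u (Rs L z u) : ℂ).im = z.im * ‖Rs L ((starRingEnd ℂ) z) u‖ ^ 2 := by
  have hz' : ((starRingEnd ℂ) z).im ≠ 0 := by
    rw [Complex.conj_im]
    exact neg_ne_zero.2 hz
  have h1 := im_inner_Rs L hL _ hz' u
  rw [inner_Rs L hL z hz u u, ← inner_conj_symm, Complex.conj_im, h1, Complex.conj_im]
  ring

/-- difference of two resolvents -/
theorem norm_Rs_sub (L L' : H →L[ℂ] H) (hL : IsSelfAdjoint L) (hL' : IsSelfAdjoint L') (z : ℂ)
    (hz : z.im ≠ 0) (u : H) :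
    ‖Rs L z u - Rs L' z u‖ ≤ ‖L - L'‖ * ‖u‖ / |z.im| ^ 2 := by
  have e : Rs L z u - Rs L' z u = Rs L z ((L' - L) (Rs L' z u)) := by
    have h1 : (L' - L) (Rs L' z u) = (L' - z • (1 : H →L[ℂ] H)) (Rs L' z u) -
        (L - z • (1 : H →L[ℂ] H)) (Rs L' z u) := by
      simp
    rw [h1, sub_Rs L' hL' z hz u, map_sub, Rs_sub L hL z hz]
  rw [e]
  have hp : 0 < |z.im| := abs_pos.2 hz
  calc ‖Rs L z ((L' - L) (Rs L' z u))‖ ≤ ‖(L' - L) (Rs L' z u)‖ / |z.im| := norm_Rs L hL z hz _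
    _ ≤ (‖L' - L‖ * (‖u‖ / |z.im|)) / |z.im| := by
        refine div_le_div_of_nonneg_right ?_ hp.le
        exact (ContinuousLinearMap.le_opNorm _ _).trans
          (mul_le_mul_of_nonneg_left (norm_Rs L' hL' z hz u) (norm_nonneg _))
    _ = ‖L - L'‖ * ‖u‖ / |z.im| ^ 2 := by
        rw [norm_sub_rev]
        field_simp

end abs

/-! ### The operators -/

variable {ι : Type} [Fintype ι]

theorem hopOp_spec (h1 : S_T1) (K : C(UnitAddTorus ι, ℝ)) : IsHop K (hopOp K) := by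
  have h := h1 ι K
  unfold hopOp
  rw [dif_pos h]
  exact Classical.choose_spec h

theorem mulOp_spec (h2 : S_T2) {Γ : Type} (R : ℝ) (hR : 0 < R) (v : Γ → ℝ) :
    IsMul R v (mulOp R v) := by
  have h := h2 Γ R hR v
  unfold mulOp
  rw [dif_pos h]
  exact Classical.choose_spec h

theorem hop_neg (K : C(UnitAddTorus ι, ℝ)) (x : ι → ℤ) : hop (-K) x = -hop K x := by
  have h := Pool.Agent.W792.GKLap.hop_add K (-K) x
  have h0 : hop (K + -K) x = 0 := by
    have e := Pool.Agent.W792.GKLap.hop_add (0 : C(UnitAddTorus ι, ℝ)) 0 x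
    rw [add_zero] at e
    have : hop (0 : C(UnitAddTorus ι, ℝ)) x = 0 := by linear_combination -e
    rw [add_neg_cancel]
    exact this
  rw [h0] at h
  linear_combination -h

theorem hop_sub (K K' : C(UnitAddTorus ι, ℝ)) (x : ι → ℤ) :
    hop (K - K') x = hop K x - hop K' x := by
  rw [sub_eq_add_neg, Pool.Agent.W792.GKLap.hop_add, hop_neg, sub_eq_add_neg]

theorem l2_summable {Γ : Type} (u : l2 Γ) : Summable fun x => ‖u x‖ ^ 2 := by
  have := lp.memℓp u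
  have h := this.summable (by norm_num)
  simpa using h

theorem isHop_sub {K K' : C(UnitAddTorus ι, ℝ)} {T T' T'' : l2 (ι → ℤ) →L[ℂ] l2 (ι → ℤ)}
    (hT : IsHop K T) (hT' : IsHop K' T') (hT'' : IsHop (K - K') T'') : T - T' = T'' := by
  ext u x
  show T u x - T' u x = T'' u x
  rw [hT.2.2, hT'.2.2, hT''.2.2, ← Summable.tsum_sub
    (Pool.Agent.W792.GKLap.hop_summable K (fun y => u y) (l2_summable u) x)
    (Pool.Agent.W792.GKLap.hop_summable K' (fun y => u y) (l2_summable u) x)]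
  refine tsum_congr fun y => ?_
  rw [hop_sub]
  ring

theorem norm_hopOp_sub (h1 : S_T1) (K K' : C(UnitAddTorus ι, ℝ)) :
    ‖hopOp K - hopOp K'‖ ≤ ‖K - K'‖ := by
  rw [isHop_sub (hopOp_spec h1 K) (hopOp_spec h1 K') (hopOp_spec h1 (K - K'))]
  exact (hopOp_spec h1 (K - K')).2.1

theorem coord_eq [DecidableEq ι] (u : l2 (ι → ℤ)) :
    u 0 = inner ℂ (lp.single 2 (0 : ι → ℤ) (1 : ℂ)) u := by
  rw [lp.inner_single_left]
  simp

theorem norm_delta [DecidableEq ι] : ‖(lp.single 2 (0 : ι → ℤ) (1 : ℂ) : l2 (ι → ℤ))‖ = 1 := by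
  rw [lp.norm_single (by norm_num)]
  simp

theorem selfAdj (h1 : S_T1) (h2 : S_T2) (K : C(UnitAddTorus ι, ℝ)) (R : ℝ) (hR : 0 < R)
    (v : (ι → ℤ) → ℝ) : IsSelfAdjoint (hopOp K + mulOp R v) :=
  (hopOp_spec h1 K).1.add (mulOp_spec h2 R hR v).1

/-- the formula for `Jm` -/
theorem Jm_eq [DecidableEq ι] (h1 : S_T1) (h2 : S_T2) (K : C(UnitAddTorus ι, ℝ)) (R : ℝ)
    (hR : 0 < R) (v : (ι → ℤ) → ℝ) (z : ℂ) (hz : 0 < z.im) :
    Jm K R v z = z.im * ‖Rs (hopOp K + mulOp R v) z (lp.single 2 (0 : ι → ℤ) (1 : ℂ))‖ ^ 2 := by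
  unfold Jm
  rw [coord_eq]
  exact im_inner_Rs _ (selfAdj h1 h2 K R hR v) z hz.ne' _

theorem Jm_eq' [DecidableEq ι] (h1 : S_T1) (h2 : S_T2) (K : C(UnitAddTorus ι, ℝ)) (R : ℝ)
    (hR : 0 < R) (v : (ι → ℤ) → ℝ) (z : ℂ) (hz : 0 < z.im) :
    Jm K R v z = z.im * ‖Rs (hopOp K + mulOp R v) ((starRingEnd ℂ) z)
      (lp.single 2 (0 : ι → ℤ) (1 : ℂ))‖ ^ 2 := by
  unfold Jm
  rw [coord_eq]
  exact im_inner_Rs' _ (selfAdj h1 h2 K R hR v) z hz.ne' _

end LIP

open LIP in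
/-- Job LIP. -/
theorem main_LIP : S_T1 → S_T2 → S_LIP := by
  intro h1 h2 ι _ _ K K' R hR v z hz
  have hzn : z.im ≠ 0 := hz.ne'
  refine ⟨?_, ?_, ?_⟩
  · unfold Jm
    rw [coord_eq, coord_eq, ← Complex.sub_im, ← inner_sub_right]
    refine (Complex.abs_im_le_norm _).trans ((norm_inner_le_norm _ _).trans ?_)
    rw [norm_delta, one_mul]
    refine (norm_Rs_sub _ _ (selfAdj h1 h2 K R hR v) (selfAdj h1 h2 K' R hR v) z hzn _).trans ?_
    rw [norm_delta, mul_one, abs_of_pos hz, add_sub_add_right_eq_sub]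
    exact div_le_div_of_nonneg_right (norm_hopOp_sub h1 K K') (by positivity)
  · rw [Jm_eq h1 h2 K R hR v z hz]
    positivity
  · rw [Jm_eq h1 h2 K R hR v z hz]
    have h3 := norm_Rs (hopOp K + mulOp R v) (selfAdj h1 h2 K R hR v) z hzn
      (lp.single 2 (0 : ι → ℤ) (1 : ℂ))
    rw [norm_delta, abs_of_pos hz] at h3
    calc z.im * ‖Rs (hopOp K + mulOp R v) z (lp.single 2 (0 : ι → ℤ) (1 : ℂ))‖ ^ 2
        ≤ z.im * (1 / z.im) ^ 2 := by
          refine mul_le_mul_of_nonneg_left ?_ hz.le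
          exact pow_le_pow_left₀ (norm_nonneg _) h3 2
      _ = 1 / z.im := by field_simp

end

end Pool.Agent.Q156.GK
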