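import Pool.Agent.Q156.GK.LZaux

/-!
Project GK, job LZ: the defects are small for large `z`.
-/

set_option autoImplicit false

namespace Pool.Agent.Q156.GK

open Pool.Agent.W792.GK MeasureTheory Pool.Agent.Q156.GK.LZ
open scoped Matrix.Norms.L2Operator

noncomputable section

/-- the scaled word -/
theorem LZ.word_eq {Q J : Type} [Fintype Q] [DecidableEq Q] [Fintype J] [DecidableEq J]
    (T : Matrix (Q × J) (Q × J) ℂ) (X : J → Matrix Q Q ℂ) (a b : ℂ) (k : ℕ) (p : J) :
    blk (Zk (b • T) (fun j => a • X j) k) p p =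
      (b * (a * b) ^ k) • (fun x y : Q =>
        (T * (Matrix.blockDiagonal X * T) ^ k) (x, p) (y, p) : Matrix Q Q ℂ) := by
  have h1 : Matrix.blockDiagonal (fun j => a • X j) = a • Matrix.blockDiagonal X := by
    have := Matrix.blockDiagonal_smul a X
    exact this
  unfold Zk
  rw [h1, smul_mul_smul_comm, smul_pow, smul_mul_smul_comm]
  ext x y
  rfl

theorem LZ.small_pow (X t : ℝ) (hX : 0 ≤ X) (ht : 0 < t) : ∃ n : ℕ, X * (1 / 2 : ℝ) ^ n ≤ t := by
  obtain ⟨n, hn⟩ := exists_pow_lt_of_lt_one (div_pos ht (by linarith : (0 : ℝ) < X + 1))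
    (by norm_num : (1 / 2 : ℝ) < 1)
  refine ⟨n, ?_⟩
  rw [lt_div_iff₀ (by linarith)] at hn
  have : 0 ≤ (1 / 2 : ℝ) ^ n := by positivity
  nlinarith

theorem main_LZ : S_LF → S_FP → S_SER → S_CUR → S_ALG → S_LZ := by
  intro hLF hFP hSER hCUR hALG Q _ _ _ κ s R C hs _ hD hC z hz ε hε
  have hzpos : 0 < ‖z‖ := by linarith
  choose c hc0 hc using fun k : ℕ => hLF k Q
  set q : ℝ := ((Fintype.card Q : ℕ) : ℝ) with hq
  have hq0 : 0 ≤ q := Nat.cast_nonneg _
  set L : ℝ := q * (C + ‖z‖ + s ^ 2) + s ^ 2 * q + 1 with hLdef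
  have hL0 : 0 < L := by positivity
  obtain ⟨K, hK⟩ := LZ.small_pow (L * q ^ 2 * (16 * s * q ^ 2)) (ε / 2) (by positivity)
    (by positivity)
  set Sg : ℝ := ∑ k ∈ Finset.range K, c k with hSg
  have hSg0 : 0 ≤ Sg := Finset.sum_nonneg fun k _ => hc0 k
  set t0 : ℝ := ε / (2 * (L * q ^ 2 * Sg + 1)) with ht0
  have ht0pos : 0 < t0 := by positivity
  obtain ⟨n₀, hn₀⟩ := LZ.small_pow (8 * s) (t0 / 2) (by positivity) (by positivity)
  refine ⟨t0 / 4, n₀, by positivity, ?_⟩
  intro J _ _ A p ν _ hν hA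
  obtain ⟨-, hAB, hAe⟩ := hA
  set τ : ℝ := 2 * (t0 / 4) + 8 * s * (1 / 2) ^ n₀ with hτ
  have hτ0 : 0 ≤ τ := by positivity
  have hτ1 : τ ≤ t0 := by linarith
  -- the fibre
  obtain ⟨μ, hμ⟩ : ∃ μ : Measure (Q → ℝ), μ = Measure.pi fun _ : Q => ν := ⟨_, rfl⟩
  have : IsProbabilityMeasure μ := by rw [hμ]; infer_instance
  obtain ⟨D, hDd⟩ : ∃ D : (Q → ℝ) → Matrix Q Q ℂ, D = fun w => if (∀ x, |w x| ≤ R) then
    (fun x y : Q => κ (x - y) + (if x = y then (w x : ℂ) else 0)) else 0 := ⟨_, rfl⟩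
  have hDgood : ∀ w : Q → ℝ, (∀ x, |w x| ≤ R) →
      D w = fun x y : Q => κ (x - y) + (if x = y then (w x : ℂ) else 0) := by
    intro w hw
    rw [hDd]
    exact if_pos hw
  have hDB : ∀ w, OpB (D w) C := by
    intro w
    by_cases h : ∀ x, |w x| ≤ R
    · rw [hDgood w h]; exact hD w h
    · have : D w = 0 := by rw [hDd]; exact if_neg h
      rw [this]
      intro u
      have : (0 : Matrix Q Q ℂ).mulVec u = 0 := Matrix.zero_mulVec u
      rw [this]
      simp only [Pi.zero_apply, norm_zero, ne_eq, OfNat.ofNat_ne_zero, not_false_eq_true,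
        zero_pow, Finset.sum_const_zero]
      positivity
  have hDm : ∀ x y, Measurable fun w => D w x y := by
    intro x y
    have h1 : (fun w => D w x y) = fun w : Q → ℝ => if (∀ x, |w x| ≤ R) then
        κ (x - y) + (if x = y then (w x : ℂ) else 0) else 0 := by
      funext w
      rw [hDd]
      by_cases h : ∀ x, |w x| ≤ R
      · simp only [if_pos h]
      · simp only [if_neg h]; rfl
    rw [h1]
    refine Measurable.ite ?_ ?_ measurable_const
    · have : {w : Q → ℝ | ∀ x, |w x| ≤ R} = ⋂ x, {w : Q → ℝ | |w x| ≤ R} := by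
        ext w; simp
      rw [this]
      refine MeasurableSet.iInter fun x => ?_
      exact measurableSet_le ((measurable_pi_apply x).abs) measurable_const
    · refine measurable_const.add ?_
      by_cases h : x = y
      · simp only [h, if_true]
        exact Complex.measurable_ofReal.comp (measurable_pi_apply y)
      · simp only [h, if_false]
        exact measurable_const
  obtain ⟨g, Y, hYm, hgB, hYB, hYl, hYr, hYE⟩ := hFP Q C s hC hs z (by nlinarith) (Q → ℝ) μ D hDm hDB
  have h2z : 0 ≤ 2 / ‖z‖ := by positivity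
  have h2z1 : 2 / ‖z‖ ≤ 1 / 32 := by
    rw [div_le_div_iff₀ hzpos (by norm_num)]; nlinarith
  obtain ⟨S, hSB, hScomm, hSid, hSe⟩ := hSER Q J s (2 / ‖z‖) hs h2z
    (by rw [div_le_div_iff₀ hzpos (by positivity)]; nlinarith) g hgB A hAB
  have hSe' := hSe (t0 / 4) n₀ (by positivity) hAe
  -- scaling
  obtain ⟨T, hT⟩ : ∃ T : Matrix (Q × J) (Q × J) ℂ, T = ((1 / (8 * s) : ℝ) : ℂ) • S := ⟨_, rfl⟩
  have hTB : OpB T 1 := by
    have := opB_smul (by positivity) hSB (((1 / (8 * s) : ℝ) : ℂ))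
    rw [← hT, Complex.norm_real, Real.norm_eq_abs, abs_of_pos (by positivity)] at this
    have e : 1 / (8 * s) * (8 * s) = 1 := by field_simp
    rwa [e] at this
  have hST : S = ((8 * s : ℝ) : ℂ) • T := by
    rw [hT, smul_smul, ← Complex.ofReal_mul]
    have e : 8 * s * (1 / (8 * s)) = 1 := by field_simp
    rw [e, Complex.ofReal_one, one_smul]
  have hTe : ∀ i j x y, ‖T (x, i) (y, j)‖ ≤ τ / (8 * s) := by
    intro i j x y
    rw [hT, Matrix.smul_apply, smul_eq_mul, norm_mul, Complex.norm_real, Real.norm_eq_abs,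
      abs_of_pos (by positivity)]
    calc 1 / (8 * s) * ‖S (x, i) (y, j)‖ ≤ 1 / (8 * s) * τ := by
          refine mul_le_mul_of_nonneg_left (hSe' x i y j) (by positivity)
      _ = τ / (8 * s) := by ring
  obtain ⟨f, hf⟩ : ∃ f : J → (Q → ℝ) → Matrix Q Q ℂ,
    f = fun _ w => ((‖z‖ / 4 : ℝ) : ℂ) • (Y w - g) := ⟨_, rfl⟩
  have hfm : ∀ j x y, Measurable fun w => f j w x y := by
    intro j x y
    rw [hf]
    simp only [Matrix.smul_apply, Matrix.sub_apply, smul_eq_mul]
    exact ((hYm x y).sub_const _).const_mul _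
  have hYi : ∀ x y, Integrable (fun w => Y w x y) μ := by
    intro x y
    exact Integrable.of_bound (hYm x y).aestronglyMeasurable (2 / ‖z‖)
      (Filter.Eventually.of_forall fun w => norm_entry_le h2z (hYB w) x y)
  have hfB : ∀ j w, OpB (f j w) 1 := by
    intro j w
    have h3 := opB_smul (by positivity) (opB_sub h2z h2z (hYB w) hgB) (((‖z‖ / 4 : ℝ) : ℂ))
    rw [Complex.norm_real, Real.norm_eq_abs, abs_of_pos (by positivity)] at h3
    have e : ‖z‖ / 4 * (2 / ‖z‖ + 2 / ‖z‖) = 1 := by field_simp; norm_num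
    rw [e] at h3
    rw [hf]
    exact h3
  have hfE : ∀ j x y, ∫ w, f j w x y ∂μ = 0 := by
    intro j x y
    rw [hf]
    simp only [Matrix.smul_apply, Matrix.sub_apply, smul_eq_mul]
    rw [integral_const_mul, integral_sub (hYi x y) (integrable_const _), hYE x y]
    simp
  have hLFk : ∀ k, _ := fun k => hc k J (Q → ℝ) μ f hfm hfB hfE T hTB (τ / (8 * s))
    (by positivity) hTe p
  -- the change of variables
  obtain ⟨P, hP⟩ : ∃ P : Measure (Q × J → ℝ), P = pm Q J ν := ⟨_, rfl⟩
  have : IsProbabilityMeasure P := by rw [hP]; unfold pm; infer_instance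
  obtain ⟨Φ, hΦd⟩ : ∃ Φ : (Q × J → ℝ) → J → Q → ℝ, Φ = fun v j x => v (x, j) := ⟨_, rfl⟩
  have hΦ : MeasurePreserving Φ P (Measure.pi fun _ : J => μ) := by
    rw [hΦd, hP, hμ]
    exact hCUR Q J ν
  have hΨ : MeasurePreserving (fun v => Φ v p) P μ :=
    (measurePreserving_eval (fun _ : J => μ) p).comp hΦ
  have hgood : ∀ᵐ v ∂P, ∀ i : Q × J, |v i| ≤ R := by
    rw [ae_all_iff]
    intro i
    have h4 : ∀ᵐ t ∂ν, |t| ≤ R := by
      rw [ae_iff]
      have : {t : ℝ | ¬ |t| ≤ R} = (Set.Icc (-R) R)ᶜ := by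
        ext t
        simp only [Set.mem_ofPred_eq, Set.mem_compl_iff, Set.mem_Icc, abs_le]
      rw [this]
      exact hν
    rw [hP]
    exact (measurePreserving_eval (fun _ : Q × J => ν) i).quasiMeasurePreserving.ae h4
  -- words
  obtain ⟨wd, hwd⟩ : ∃ wd : ℕ → (J → Q → ℝ) → Matrix Q Q ℂ, wd = fun k ω => (fun x y : Q =>
    (T * (Matrix.blockDiagonal (fun j => f j (ω j)) * T) ^ k) (x, p) (y, p)) := ⟨_, rfl⟩
  have hwdm : ∀ k x y, Measurable fun ω => wd k ω x y := by
    intro k x y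
    rw [hwd]
    have h5 : ∀ a b, Measurable fun ω : J → Q → ℝ =>
        (Matrix.blockDiagonal (fun j => f j (ω j))) a b := by
      intro a b
      simp only [Matrix.blockDiagonal_apply]
      by_cases h : a.2 = b.2
      · simp only [h, if_true]
        exact (hfm _ _ _).comp (measurable_pi_apply _)
      · simp only [h, if_false]
        exact measurable_const
    exact meas_mul (A := fun _ : J → Q → ℝ => T) (fun a b => measurable_const)
      (meas_pow (meas_mul (B := fun _ : J → Q → ℝ => T) h5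
      (fun a b => measurable_const)) k) (x, p) (y, p)
  have hwdB : ∀ k ω, OpB (wd k ω) 1 := by
    intro k ω
    have h6 : OpB (Matrix.blockDiagonal (fun j => f j (ω j)) * T) 1 := by
      have := opB_mul zero_le_one zero_le_one (opB_blockDiagonal fun j => hfB j (ω j)) hTB
      rwa [one_mul] at this
    have h7 : ∀ k : ℕ, OpB ((Matrix.blockDiagonal (fun j => f j (ω j)) * T) ^ k) 1 := by
      intro k
      induction k with
      | zero => rw [pow_zero]; exact opB_one
      | succ k ih =>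
        rw [pow_succ]
        have := opB_mul zero_le_one zero_le_one ih h6
        rwa [one_mul] at this
    have h8 := opB_mul zero_le_one zero_le_one hTB (h7 k)
    rw [one_mul] at h8
    rw [hwd]
    exact opB_blk h8 p p
  have hwdi : ∀ k, Integrable (fun v => e1 (wd k (Φ v))) P := by
    intro k
    refine Integrable.of_bound ?_ (q ^ 2 * 1) (Filter.Eventually.of_forall fun v => ?_)
    · exact ((meas_e1 (hwdm k)).comp hΦ.measurable).aestronglyMeasurable
    · rw [Real.norm_eq_abs, abs_of_nonneg (e1_nonneg _)]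
      exact e1_le_opB zero_le_one (hwdB k (Φ v))
  have hwdE : ∀ k, ∫ v, e1 (wd k (Φ v)) ∂P ≤ c k * (τ / (8 * s)) := by
    intro k
    have h9 : ∫ v, e1 (wd k (Φ v)) ∂P = ∫ ω, e1 (wd k ω) ∂(Measure.pi fun _ : J => μ) := by
      rw [← hΦ.map_eq, integral_map hΦ.measurable.aemeasurable]
      rw [hΦ.map_eq]
      exact (meas_e1 (hwdm k)).aestronglyMeasurable
    rw [h9, hwd]
    exact hLFk k
  -- the expansion at good points
  have hdd : ∀ v : Q × J → ℝ, (∀ i, |v i| ≤ R) → ∀ j, (dd κ v j : Matrix Q Q ℂ) = D (Φ v j) := by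
    intro v hv j
    rw [hDgood _ (fun x => by rw [hΦd]; exact hv (x, j)), hΦd]
    rfl
  have hexp : ∀ v : Q × J → ℝ, (∀ i, |v i| ≤ R) → ∀ K : ℕ, ∃ Rm : Matrix Q Q ℂ,
      OpB Rm (16 * s * (1 / 2) ^ K) ∧ gr κ A v z p = Y (Φ v p) + Y (Φ v p) *
        (∑ k ∈ Finset.range K, (((8 * s : ℝ) : ℂ) * (((4 / ‖z‖ : ℝ) : ℂ) * ((8 * s : ℝ) : ℂ)) ^ k) •
          wd k (Φ v) + Rm) * Y (Φ v p) := by
    intro v hv K
    obtain ⟨-, h10⟩ := hALG Q J s z hs (by nlinarith) g (fun j => D (Φ v j)) (fun j => Y (Φ v j)) A S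
      hgB (fun j => hYB _) (fun j => hYl _) (fun j => hYr _) hSB hScomm hSid
    obtain ⟨Rm, hRm, h11⟩ := h10 p K
    refine ⟨Rm, hRm, ?_⟩
    have h12 : (fun j => dd κ v j : J → Matrix Q Q ℂ) = fun j => D (Φ v j) := by
      funext j; exact hdd v hv j
    have h13 : gr κ A v z p = blk (Matrix.blockDiagonal (fun j => D (Φ v j)) +
        Matrix.kronecker (1 : Matrix Q Q ℂ) A - z • (1 : Matrix (Q × J) (Q × J) ℂ))⁻¹ p p := by
      rw [← h12, ← ham_eq]
      rfl
    rw [h13, h11]
    have h14 : ∀ k, blk (Zk S (fun j => Y (Φ v j) - g) k) p p =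
        (((8 * s : ℝ) : ℂ) * (((4 / ‖z‖ : ℝ) : ℂ) * ((8 * s : ℝ) : ℂ)) ^ k) • wd k (Φ v) := by
      intro k
      have h15 : (fun j => Y (Φ v j) - g) = fun j => ((4 / ‖z‖ : ℝ) : ℂ) • f j (Φ v j) := by
        funext j
        rw [hf]
        simp only
        rw [smul_smul, ← Complex.ofReal_mul]
        have e : 4 / ‖z‖ * (‖z‖ / 4) = 1 := by field_simp
        rw [e, Complex.ofReal_one, one_smul]
      rw [h15, hST, LZ.word_eq, hwd]
      rfl
    simp only [h14]
  -- the norm bound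
  have hgrB : ∀ v : Q × J → ℝ, (∀ i, |v i| ≤ R) → OpB (gr κ A v z p) 1 := by
    intro v hv
    obtain ⟨Rm, hRm, h16⟩ := hexp v hv 0
    rw [Finset.range_zero, Finset.sum_empty, zero_add] at h16
    rw [pow_zero, mul_one] at hRm
    have h17 := opB_mul (by positivity) h2z (opB_mul h2z (by positivity) (hYB (Φ v p)) hRm)
      (hYB (Φ v p))
    have h18 := opB_add h2z (by positivity) (hYB (Φ v p)) h17
    rw [← h16] at h18
    refine opB_mono h18 (by positivity) ?_
    have h19 : 2 / ‖z‖ * (16 * s) ≤ 1 / 2 := by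
      rw [div_mul_eq_mul_div, div_le_div_iff₀ hzpos (by norm_num)]
      nlinarith
    nlinarith [mul_le_mul h19 h2z1 h2z (by norm_num)]
  -- the difference
  obtain ⟨Er, hEr⟩ : ∃ Er : (Q × J → ℝ) → Matrix Q Q ℂ, Er = fun v => gr κ A v z p - Y (Φ v p) :=
    ⟨_, rfl⟩
  have hErm : ∀ x y, Measurable fun v => Er v x y := by
    intro x y
    rw [hEr]
    simp only [Matrix.sub_apply]
    exact (meas_gr κ A z p x y).sub ((hYm x y).comp hΨ.measurable)
  have hErb : ∀ v : Q × J → ℝ, (∀ i, |v i| ≤ R) →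
      e1 (Er v) ≤ q ^ 2 * (∑ k ∈ Finset.range K, 8 * s * e1 (wd k (Φ v)) +
        q ^ 2 * (16 * s * (1 / 2) ^ K)) := by
    intro v hv
    obtain ⟨Rm, hRm, h16⟩ := hexp v hv K
    have h20 : Er v = Y (Φ v p) * (∑ k ∈ Finset.range K,
        (((8 * s : ℝ) : ℂ) * (((4 / ‖z‖ : ℝ) : ℂ) * ((8 * s : ℝ) : ℂ)) ^ k) •
          wd k (Φ v) + Rm) * Y (Φ v p) := by
      rw [hEr]
      simp only
      rw [h16, add_sub_cancel_left]
    rw [h20]
    set M : Matrix Q Q ℂ := ∑ k ∈ Finset.range K,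
        (((8 * s : ℝ) : ℂ) * (((4 / ‖z‖ : ℝ) : ℂ) * ((8 * s : ℝ) : ℂ)) ^ k) •
          wd k (Φ v) + Rm with hM
    have h21 : e1 M ≤ ∑ k ∈ Finset.range K, 8 * s * e1 (wd k (Φ v)) +
        q ^ 2 * (16 * s * (1 / 2) ^ K) := by
      refine (e1_add _ _).trans (add_le_add ?_ (e1_le_opB (by positivity) hRm))
      refine (e1_sum _ _).trans (Finset.sum_le_sum fun k _ => ?_)
      rw [e1_smul]
      refine mul_le_mul_of_nonneg_right ?_ (e1_nonneg _)
      rw [norm_mul, norm_pow, norm_mul, Complex.norm_real, Complex.norm_real, Real.norm_eq_abs,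
        Real.norm_eq_abs, abs_of_pos (by positivity), abs_of_pos (by positivity)]
      have h22 : 4 / ‖z‖ * (8 * s) ≤ 1 := by
        rw [div_mul_eq_mul_div, div_le_one hzpos]
        nlinarith
      have h23 : (4 / ‖z‖ * (8 * s)) ^ k ≤ 1 := pow_le_one₀ (by positivity) h22
      nlinarith [mul_le_mul_of_nonneg_left h23 (by positivity : (0 : ℝ) ≤ 8 * s)]
    have h24 : e1 (Y (Φ v p) * M * Y (Φ v p)) ≤ q * 1 * (q * 1 * e1 M) := by
      have hY1 : OpB (Y (Φ v p)) 1 := opB_mono (hYB _) h2z (by linarith)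
      refine (e1_mul_right zero_le_one hY1 _).trans ?_
      exact mul_le_mul_of_nonneg_left (e1_mul_left zero_le_one hY1 M) (by positivity)
    calc e1 (Y (Φ v p) * M * Y (Φ v p)) ≤ q * 1 * (q * 1 * e1 M) := h24
      _ = q ^ 2 * e1 M := by ring
      _ ≤ _ := mul_le_mul_of_nonneg_left h21 (by positivity)
  have hEri : ∀ x y, Integrable (fun v => Er v x y) P := by
    intro x y
    refine Integrable.of_bound (hErm x y).aestronglyMeasurable (1 + 2 / ‖z‖) ?_
    filter_upwards [hgood] with v hv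
    rw [hEr]
    simp only [Matrix.sub_apply]
    exact (norm_sub_le _ _).trans (add_le_add (norm_entry_le zero_le_one (hgrB v hv) x y)
      (norm_entry_le h2z (hYB _) x y))
  have hEre : Integrable (fun v => e1 (Er v)) P := by
    unfold e1
    exact integrable_finsetSum _ fun x _ => integrable_finsetSum _ fun y _ => (hEri x y).norm
  set β : ℝ := q ^ 2 * (τ * Sg + q ^ 2 * (16 * s * (1 / 2) ^ K)) with hβ
  have hβ1 : ∫ v, e1 (Er v) ∂P ≤ β := by
    have h25 : Integrable (fun v => q ^ 2 * (∑ k ∈ Finset.range K, 8 * s * e1 (wd k (Φ v)) +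
        q ^ 2 * (16 * s * (1 / 2) ^ K))) P := by
      refine Integrable.const_mul (Integrable.add ?_ (integrable_const _)) _
      exact integrable_finsetSum _ fun k _ => (hwdi k).const_mul _
    have h26 : ∫ v, e1 (Er v) ∂P ≤ ∫ v, q ^ 2 * (∑ k ∈ Finset.range K, 8 * s * e1 (wd k (Φ v)) +
        q ^ 2 * (16 * s * (1 / 2) ^ K)) ∂P := by
      refine integral_mono_ae hEre h25 ?_
      filter_upwards [hgood] with v hv
      exact hErb v hv
    refine h26.trans ?_
    rw [integral_const_mul, integral_add (integrable_finsetSum _ fun k _ => (hwdi k).const_mul _)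
      (integrable_const _), integral_finsetSum _ (fun k _ => (hwdi k).const_mul _)]
    simp only [integral_const_mul, integral_const, probReal_univ, smul_eq_mul]
    refine mul_le_mul_of_nonneg_left (add_le_add ?_ (le_of_eq (by ring))) (by positivity)
    rw [hSg, Finset.mul_sum]
    refine Finset.sum_le_sum fun k _ => ?_
    calc 8 * s * ∫ v, e1 (wd k (Φ v)) ∂P ≤ 8 * s * (c k * (τ / (8 * s))) :=
          mul_le_mul_of_nonneg_left (hwdE k) (by positivity)
      _ = τ * c k := by field_simp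
  -- the mean
  have hmg : ∀ x y, mg κ A ν z p x y - g x y = ∫ v, Er v x y ∂P := by
    intro x y
    have h27 : ∫ v, Y (Φ v p) x y ∂P = g x y := by
      rw [← hYE x y, ← hΨ.map_eq, integral_map hΨ.measurable.aemeasurable]
      rw [hΨ.map_eq]
      exact (hYm x y).aestronglyMeasurable
    have h28 : Integrable (fun v => Y (Φ v p) x y) P := by
      refine Integrable.of_bound ((hYm x y).comp hΨ.measurable).aestronglyMeasurable (2 / ‖z‖)
        (Filter.Eventually.of_forall fun v => norm_entry_le h2z (hYB _) x y)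
    have h29 : Integrable (fun v => gr κ A v z p x y) P := by
      refine Integrable.of_bound (meas_gr κ A z p x y).aestronglyMeasurable 1 ?_
      filter_upwards [hgood] with v hv
      exact norm_entry_le zero_le_one (hgrB v hv) x y
    rw [hEr]
    simp only [Matrix.sub_apply]
    rw [integral_sub h29 h28, h27]
    unfold mg
    rw [hP]
  have hmge : e1 (mg κ A ν z p - g) ≤ β := by
    refine le_trans ?_ hβ1
    unfold e1
    rw [integral_finsetSum _ (fun x _ => integrable_finsetSum _ fun y _ => (hEri x y).norm)]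
    refine Finset.sum_le_sum fun x _ => ?_
    rw [integral_finsetSum _ (fun y _ => (hEri x y).norm)]
    refine Finset.sum_le_sum fun y _ => ?_
    rw [Matrix.sub_apply, hmg x y]
    exact norm_integral_le_integral_norm _
  have hgB1 : OpB g 1 := opB_mono hgB h2z (by linarith)
  -- the operator N
  have hNB : ∀ w, OpB (D w - z • (1 : Matrix Q Q ℂ) - ((s ^ 2 : ℝ) : ℂ) • g) (C + ‖z‖ + s ^ 2) := by
    intro w
    have h30 := opB_smul zero_le_one (opB_one (n := Q)) z
    have h31 := opB_smul zero_le_one hgB1 (((s ^ 2 : ℝ) : ℂ))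
    rw [mul_one] at h30 h31
    rw [Complex.norm_real, Real.norm_eq_abs, abs_of_nonneg (sq_nonneg s)] at h31
    exact opB_sub (by positivity) (by positivity) (opB_sub hC (norm_nonneg _) (hDB w) h30) h31
  have hfinal : L * β ≤ ε := by
    have h32 : L * β = L * q ^ 2 * Sg * τ + L * q ^ 2 * (16 * s * q ^ 2) * (1 / 2) ^ K := by
      rw [hβ]; ring
    have h33 : L * q ^ 2 * Sg * τ ≤ ε / 2 := by
      have h34 : L * q ^ 2 * Sg * τ ≤ (L * q ^ 2 * Sg + 1) * t0 := by
        have : 0 ≤ L * q ^ 2 * Sg := by positivity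
        nlinarith
      have h35 : (L * q ^ 2 * Sg + 1) * t0 = ε / 2 := by
        rw [ht0]
        have : 0 < L * q ^ 2 * Sg + 1 := by positivity
        field_simp
      linarith
    linarith
  have hβ0 : 0 ≤ β := by positivity
  have hconc : (q * (C + ‖z‖ + s ^ 2)) * β + s ^ 2 * (q * 1 * β) ≤ ε := by
    refine le_trans ?_ hfinal
    rw [hLdef]
    nlinarith
  have hint : ∀ H : (Q × J → ℝ) → Matrix Q Q ℂ, (∀ v : Q × J → ℝ, (∀ i, |v i| ≤ R) →
      e1 (H v) ≤ q * (C + ‖z‖ + s ^ 2) * e1 (Er v) + s ^ 2 * (q * 1 * e1 (mg κ A ν z p - g))) →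
      ∫ v, e1 (H v) ∂P ≤ ε := by
    intro H hH
    have h36 : Integrable (fun v => q * (C + ‖z‖ + s ^ 2) * e1 (Er v) +
        s ^ 2 * (q * 1 * e1 (mg κ A ν z p - g))) P :=
      (hEre.const_mul _).add (integrable_const _)
    have h37 : ∫ v, e1 (H v) ∂P ≤ ∫ v, (q * (C + ‖z‖ + s ^ 2) * e1 (Er v) +
        s ^ 2 * (q * 1 * e1 (mg κ A ν z p - g))) ∂P := by
      refine integral_mono_of_nonneg (Filter.Eventually.of_forall fun v => e1_nonneg _) h36 ?_
      filter_upwards [hgood] with v hv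
      exact hH v hv
    refine h37.trans ?_
    rw [integral_add (hEre.const_mul _) (integrable_const _), integral_const_mul, integral_const,
      probReal_univ, one_smul]
    refine le_trans (add_le_add (mul_le_mul_of_nonneg_left hβ1 (by positivity)) ?_) hconc
    exact mul_le_mul_of_nonneg_left (mul_le_mul_of_nonneg_left hmge (by positivity)) (sq_nonneg s)
  have hsn : ‖((s ^ 2 : ℝ) : ℂ)‖ = s ^ 2 := by
    rw [Complex.norm_real, Real.norm_eq_abs, abs_of_nonneg (sq_nonneg s)]
  rw [← hP]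
  constructor
  · refine hint (fun v => hL s κ A ν v z p) fun v hv => ?_
    have h38 : hL s κ A ν v z p =
        -((D (Φ v p) - z • (1 : Matrix Q Q ℂ) - ((s ^ 2 : ℝ) : ℂ) • g) * Er v) +
          ((s ^ 2 : ℝ) : ℂ) • ((mg κ A ν z p - g) * gr κ A v z p) := by
      unfold hL
      rw [hdd v hv p]
      have h39 := hYr (Φ v p)
      rw [hEr]
      simp only
      rw [mul_sub, h39]
      simp only [sub_mul, smul_mul_assoc, smul_sub]
      abel
    rw [h38]
    refine (e1_add _ _).trans (add_le_add ?_ ?_)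
    · rw [e1_neg]
      exact e1_mul_left (by positivity) (hNB _) _
    · rw [e1_smul, hsn]
      exact mul_le_mul_of_nonneg_left (e1_mul_right zero_le_one (hgrB v hv) _) (sq_nonneg s)
  · refine hint (fun v => hR s κ A ν v z p) fun v hv => ?_
    have h38 : hR s κ A ν v z p =
        -(Er v * (D (Φ v p) - z • (1 : Matrix Q Q ℂ) - ((s ^ 2 : ℝ) : ℂ) • g)) +
          ((s ^ 2 : ℝ) : ℂ) • (gr κ A v z p * (mg κ A ν z p - g)) := by
      unfold hR
      rw [hdd v hv p]
      have h39 := hYl (Φ v p)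
      rw [hEr]
      simp only
      rw [sub_mul, h39]
      simp only [mul_sub, mul_smul_comm, smul_sub]
      abel
    rw [h38]
    refine (e1_add _ _).trans (add_le_add ?_ ?_)
    · rw [e1_neg]
      exact e1_mul_right (by positivity) (hNB _) _
    · rw [e1_smul, hsn]
      exact mul_le_mul_of_nonneg_left (e1_mul_left zero_le_one (hgrB v hv) _) (sq_nonneg s)

end

end Pool.Agent.Q156.GK
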