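import Pool.Agent.Q156.GK.LIP

/-!
# Project GK (helper156), job MEAS (helper256)
-/

set_option autoImplicit false

namespace Pool.Agent.Q156.GK

open Pool.Agent.W792.GK MeasureTheory Filter Topology

noncomputable section

namespace MEAS

open LIP

theorem measurable_clamp (R : ℝ) : Measurable (clamp R) := by
  unfold clamp
  fun_prop

open Classical in
/-- the iterates are measurable -/
theorem measurable_iter {Γ : Type} [AddCommGroup Γ] (h : Γ →₀ ℂ) (R : ℝ) (n : ℕ) :
    ∀ x : Γ, Measurable fun v : Γ → ℝ =>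
      ((stp h (fun x => clamp R (v x)))^[n] (fun x => if x = 0 then (1 : ℂ) else 0)) x := by
  induction n with
  | zero =>
    intro x
    simp only [Function.iterate_zero, id_eq]
    exact measurable_const
  | succ n ih =>
    intro x
    simp only [Function.iterate_succ_apply']
    unfold stp
    refine Measurable.add ?_ ?_
    · simp only [Finsupp.sum]
      refine Finset.measurable_sum _ fun y _ => ?_
      exact (ih (x - y)).const_mul _
    · refine Measurable.mul ?_ (ih x)
      exact Complex.measurable_ofReal.comp ((measurable_clamp R).comp (measurable_pi_apply x))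

theorem measurable_mom {Γ : Type} [AddCommGroup Γ] (h : Γ →₀ ℂ) (R : ℝ) (n : ℕ) :
    Measurable fun v : Γ → ℝ => mom h (fun x => clamp R (v x)) n := by
  classical
  have := measurable_iter h R n (0 : Γ)
  unfold mom
  exact this

/-- the coordinate at `0` -/
def co {ι : Type} : l2 (ι → ℤ) →ₗ[ℂ] ℂ where
  toFun f := f 0
  map_add' _ _ := rfl
  map_smul' _ _ := rfl

theorem norm_co {ι : Type} (f : l2 (ι → ℤ)) : ‖co f‖ ≤ ‖f‖ :=
  lp.norm_apply_le_norm (by norm_num) f 0

/-- trigonometric polynomials -/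
theorem meas_trig (h3 : S_PA) (h4 : S_MOP) (h1 : S_T1) (h2 : S_T2) (ι : Type) [Fintype ι]
    [DecidableEq ι] (h : (ι → ℤ) →₀ ℂ) (K : C(UnitAddTorus ι, ℝ)) (hK : ∀ k, (K k : ℂ) = trig h k)
    (R : ℝ) (hR : 0 < R) (z : ℂ) (hz : 0 < z.im) :
    Measurable fun v : (ι → ℤ) → ℝ => Jm K R v z := by
  choose P hP using fun n : ℕ => h3 (‖K‖ + R) z (1 / ((n : ℝ) + 1)) hz.ne' (by positivity)
  have hval : ∀ (n : ℕ) (v : (ι → ℤ) → ℝ),
      co ((Polynomial.aeval (hopOp K + mulOp R v) (P n)) (lp.single 2 (0 : ι → ℤ) (1 : ℂ))) =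
        ∑ i ∈ Finset.range ((P n).natDegree + 1),
          (P n).coeff i * mom h (fun x => clamp R (v x)) i := by
    intro n v
    rw [Polynomial.aeval_eq_sum_range, sum_apply, map_sum]
    refine Finset.sum_congr rfl fun i _ => ?_
    rw [← h4 ι h K hK _ (hopOp_spec h1 K) R v _ (mulOp_spec h2 R hR v) i]
    rfl
  have hlim : ∀ v : (ι → ℤ) → ℝ, Tendsto (fun n : ℕ => (∑ i ∈ Finset.range ((P n).natDegree + 1),
      (P n).coeff i * mom h (fun x => clamp R (v x)) i).im) atTop (𝓝 (Jm K R v z)) := by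
    intro v
    rw [tendsto_iff_norm_sub_tendsto_zero]
    refine squeeze_zero (fun _ => norm_nonneg _) (fun n => ?_)
      tendsto_one_div_add_atTop_nhds_zero_nat
    rw [← hval n v]
    have hL : IsSelfAdjoint (hopOp K + mulOp R v) := selfAdj h1 h2 K R hR v
    have hLn : ‖hopOp K + mulOp R v‖ ≤ ‖K‖ + R :=
      (norm_add_le _ _).trans (add_le_add (hopOp_spec h1 K).2.1 (mulOp_spec h2 R hR v).2.1)
    have h5 := (hP n (l2 (ι → ℤ)) (hopOp K + mulOp R v) hL hLn).2
    have e1 : Jm K R v z = (co ((Ring.inverse (hopOp K + mulOp R v -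
      z • (1 : l2 (ι → ℤ) →L[ℂ] l2 (ι → ℤ)))) (lp.single 2 (0 : ι → ℤ) (1 : ℂ)))).im := rfl
    rw [e1, ← Complex.sub_im, ← map_sub, Real.norm_eq_abs]
    refine (Complex.abs_im_le_norm _).trans ((norm_co _).trans ?_)
    rw [norm_sub_rev, ← sub_apply]
    refine (ContinuousLinearMap.le_opNorm _ _).trans ?_
    rw [norm_delta, mul_one]
    exact h5
  refine measurable_of_tendsto_metrizable (fun n => ?_) (tendsto_pi_nhds.2 hlim)
  refine Complex.measurable_im.comp ?_
  refine Finset.measurable_sum _ fun i _ => ?_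
  exact (measurable_mom h R i).const_mul _

end MEAS

open LIP MEAS in
/-- Job MEAS. -/
theorem main_MEAS : S_LIP → S_APPROX → S_PA → S_MOP → S_T1 → S_T2 → S_MEAS := by
  intro hlip happ hpa hmop h1 h2 ι _ _ K R hR z hz
  choose h f hsym htrig hnorm using fun n : ℕ => happ ι K (1 / ((n : ℝ) + 1)) (by positivity)
  refine measurable_of_tendsto_metrizable (f := fun (n : ℕ) (v : (ι → ℤ) → ℝ) => Jm (f n) R v z)
    (fun n => meas_trig hpa hmop h1 h2 ι (h n) (f n) (htrig n) R hR z hz) ?_
  refine tendsto_pi_nhds.2 fun v => ?_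
  rw [tendsto_iff_norm_sub_tendsto_zero]
  have hl : Tendsto (fun n : ℕ => (1 / ((n : ℝ) + 1)) / z.im ^ 2) atTop (𝓝 0) := by
    have := tendsto_one_div_add_atTop_nhds_zero_nat (𝕜 := ℝ)
    simpa using this.div_const (z.im ^ 2)
  refine squeeze_zero (fun _ => norm_nonneg _) (fun n => ?_) hl
  rw [Real.norm_eq_abs]
  refine (hlip ι (f n) K R hR v z hz).1.trans ?_
  exact div_le_div_of_nonneg_right (hnorm n) (by positivity)

end

end Pool.Agent.Q156.GK
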