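import Pool.Agent.Q156.GK.Stm

set_option autoImplicit false

namespace Pool.Agent.Q156.GK

open Pool.Agent.W792.GK MeasureTheory

noncomputable section

theorem main_MFIN : S_MFIN := by
  intro Q J _ _ _ _ _ _ h₁ h₂ v n
  classical
  set H := ham (fun x => h₁ x) (fun i j => h₂ (i - j)) v with hH
  have hstep : ∀ (u : Q × J → ℂ), H.mulVec u = stp (prodKer h₁ h₂) v u := by
    intro u
    funext p
    obtain ⟨x, i⟩ := p
    have e1 : H.mulVec u (x, i) = (∑ y, h₁ (x - y) * u (y, i)) + (∑ j, h₂ (i - j) * u (x, j)) +
        (v (x, i) : ℂ) * u (x, i) := by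
      have : H.mulVec u (x, i) = ∑ q : Q × J, ((if i = q.2 then h₁ (x - q.1) * u q else 0) +
          (if x = q.1 then h₂ (i - q.2) * u q else 0) +
          (if (x, i) = q then (v (x, i) : ℂ) * u q else 0)) := by
        rw [Matrix.mulVec, dotProduct]
        refine Finset.sum_congr rfl fun q _ => ?_
        simp only [hH, ham]
        split_ifs <;> ring
      rw [this, Finset.sum_add_distrib, Finset.sum_add_distrib]
      congr 1
      · congr 1
        · rw [Fintype.sum_prod_type]
          refine Finset.sum_congr rfl fun y _ => ?_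
          simp
        · rw [Fintype.sum_prod_type_right]
          refine Finset.sum_congr rfl fun j _ => ?_
          simp
      · simp
    rw [e1]
    unfold stp
    congr 1
    unfold prodKer
    rw [Finsupp.sum_add_index' (fun b => by simp) (fun b c c' => by ring),
      Finsupp.sum_mapDomain_index (fun b => by simp) (fun b c c' => by ring),
      Finsupp.sum_mapDomain_index (fun b => by simp) (fun b c c' => by ring)]
    rw [Finsupp.sum_fintype _ _ (fun b => by simp), Finsupp.sum_fintype _ _ (fun b => by simp)]
    congr 1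
    · rw [← (Equiv.subLeft x).sum_comp]
      refine Finset.sum_congr rfl fun y _ => ?_
      simp [Equiv.subLeft_apply]
    · rw [← (Equiv.subLeft i).sum_comp]
      refine Finset.sum_congr rfl fun y _ => ?_
      simp [Equiv.subLeft_apply]
  have hiter : ∀ m : ℕ, ∀ u : Q × J → ℂ, (H ^ m).mulVec u =
      (stp (prodKer h₁ h₂) v)^[m] u := by
    intro m
    induction m with
    | zero => intro u; simp
    | succ m ih =>
      intro u
      rw [pow_succ', ← Matrix.mulVec_mulVec, hstep, ih, Function.iterate_succ_apply']
  have h0 : (H ^ n) (0, 0) (0, 0) = (H ^ n).mulVec (fun q => if q = 0 then 1 else 0) (0, 0) := by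
    rw [Matrix.mulVec, dotProduct]
    simp [Prod.ext_iff]
    rw [Finset.sum_eq_single ((0, 0) : Q × J)]
    · simp
    · rintro ⟨a, b⟩ _ hab
      have : ¬ (a = 0 ∧ b = 0) := fun h => hab (Prod.ext h.1 h.2)
      simp [this]
    · simp
  rw [h0, hiter]
  unfold mom
  have hf : ∀ f g : Q × J → ℂ, f = g → (stp (prodKer h₁ h₂) v)^[n] f 0 =
      (stp (prodKer h₁ h₂) v)^[n] g 0 := by
    rintro f _ rfl
    rfl
  refine hf _ _ (funext fun x => ?_)
  by_cases hx : x = 0
  · rw [if_pos hx, if_pos hx]
  · rw [if_neg hx, if_neg hx]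

end

end Pool.Agent.Q156.GK
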