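import Pool.Agent.Q156.GK.Stm

set_option autoImplicit false

namespace Pool.Agent.Q156.GK

open Pool.Agent.W792.GK MeasureTheory

noncomputable section

theorem nb_succ_sub {Γ : Type} [AddCommGroup Γ] (h : Γ →₀ ℂ) (n : ℕ) {x y : Γ}
    (hx : x ∈ nb h n) (hy : y ∈ h.support) : x - y ∈ nb h (n + 1) := by
  classical
  rw [nb, Finset.mem_union]
  right
  exact Finset.mem_image.mpr ⟨(x, y), Finset.mem_product.mpr ⟨hx, hy⟩, rfl⟩

theorem nb_succ_le {Γ : Type} [AddCommGroup Γ] (h : Γ →₀ ℂ) (n : ℕ) {x : Γ}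
    (hx : x ∈ nb h n) : x ∈ nb h (n + 1) := by
  classical
  rw [nb, Finset.mem_union]
  exact Or.inl hx

theorem nb_mono {Γ : Type} [AddCommGroup Γ] (h : Γ →₀ ℂ) {m n : ℕ} (hmn : m ≤ n) {x : Γ}
    (hx : x ∈ nb h m) : x ∈ nb h n := by
  induction hmn with
  | refl => exact hx
  | step _ ih => exact nb_succ_le h _ ih

theorem zero_mem_nb {Γ : Type} [AddCommGroup Γ] (h : Γ →₀ ℂ) (n : ℕ) : (0 : Γ) ∈ nb h n :=
  nb_mono h (Nat.zero_le n) (by rw [nb]; exact Finset.mem_singleton_self _)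

/-- The steps commute with homomorphisms, as long as one stays in the ball. -/
theorem iter_map {Γ₀ Γ : Type} [AddCommGroup Γ₀] [AddCommGroup Γ] (φ : Γ₀ →+ Γ) (h : Γ₀ →₀ ℂ)
    (w : Γ → ℝ) (u : Γ → ℂ) (u₀ : Γ₀ → ℂ) (n : ℕ) (hu : ∀ x ∈ nb h n, u (φ x) = u₀ x) :
    ∀ m ≤ n, ∀ x ∈ nb h (n - m), (stp (h.mapDomain φ) w)^[m] u (φ x) =
      (stp h (fun x => w (φ x)))^[m] u₀ x := by
  intro m
  induction m with
  | zero => intro _ x hx; exact hu x hx
  | succ m ih =>
    intro hm x hx
    have hm' : m ≤ n := by omega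
    have hn : n - m = n - (m + 1) + 1 := by omega
    rw [Function.iterate_succ_apply', Function.iterate_succ_apply']
    unfold stp
    congr 1
    · rw [Finsupp.sum_mapDomain_index (fun b => by simp) (fun b c c' => by ring)]
      refine Finset.sum_congr rfl fun y hy => ?_
      dsimp only
      rw [← map_sub]
      congr 1
      refine ih hm' (x - y) ?_
      rw [hn]
      exact nb_succ_sub h _ hx hy
    · congr 1
      refine ih hm' x ?_
      rw [hn]
      exact nb_succ_le h _ hx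

theorem main_MOM : S_MOM := by
  intro Γ₀ Γ _ _ φ h n hφ w m hm
  classical
  have key := iter_map φ h w (fun x => if x = 0 then 1 else 0) (fun x => if x = 0 then 1 else 0) n
    (fun x hx => by
      by_cases h0 : x = 0
      · simp [h0]
      · have : φ x ≠ 0 := fun h1 => h0 (hφ x hx h1)
        simp [h0, this]) m hm 0 (zero_mem_nb h _)
  rw [map_zero] at key
  unfold mom
  exact key

end

end Pool.Agent.Q156.GK
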