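import Pool.Agent.Q156.GK.Stm

set_option autoImplicit false

namespace Pool.Agent.Q156.GK

open Pool.Agent.W792.GK MeasureTheory

noncomputable section

theorem main_MOP (hCOEF : S_COEF) : S_MOP := by
  intro ι _ _ h K hK T hT R v M hM n
  classical
  have hstep : ∀ (f : l2 (ι → ℤ)) (x : ι → ℤ), (T + M) f x =
      stp h (fun x => clamp R (v x)) (fun y => f y) x := by
    intro f x
    have h1 : (T + M) f x = T f x + M f x := rfl
    rw [h1, hT.2.2 f x, hM.2.2 f x]
    unfold stp
    congr 1
    have h2 : ∀ y, hop K (x - y) * f y = h (x - y) * f y := fun y => by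
      rw [hCOEF ι h K hK]
    simp_rw [h2]
    rw [← (Equiv.subLeft x).tsum_eq]
    rw [tsum_eq_sum (s := h.support)]
    · refine Finset.sum_congr rfl fun y _ => ?_
      simp [Equiv.subLeft_apply]
    · intro y hy
      have : h y = 0 := Finsupp.notMem_support_iff.mp hy
      simp [Equiv.subLeft_apply, this]
  have hiter : ∀ m : ℕ, ∀ x : ι → ℤ, ((T + M) ^ m) (lp.single 2 (0 : ι → ℤ) (1 : ℂ)) x =
      (stp h (fun x => clamp R (v x)))^[m] (fun x => if x = 0 then 1 else 0) x := by
    intro m
    induction m with
    | zero =>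
      intro x
      simp only [pow_zero, one_apply_eq_self, Function.iterate_zero, id]
      rw [lp.single_apply]
      by_cases hx : x = 0
      · subst hx; simp
      · simp [hx]
    | succ m ih =>
      intro x
      rw [pow_succ', mul_apply_eq_comp, hstep, Function.iterate_succ_apply']
      congr 1
      funext y
      exact ih y
  have := hiter n 0
  rw [this]
  unfold mom
  have hf : ∀ f g : (ι → ℤ) → ℂ, f = g → (stp h fun x => clamp R (v x))^[n] f 0 =
      (stp h fun x => clamp R (v x))^[n] g 0 := by
    rintro f _ rfl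
    rfl
  refine hf _ _ (funext fun x => ?_)
  by_cases hx : x = 0
  · rw [if_pos hx, if_pos hx]
  · rw [if_neg hx, if_neg hx]

end

end Pool.Agent.Q156.GK
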