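import Pool.Agent.Q156.GK.Stm

/-!
# Project GK (helper156): good kinetic energies have no eigenvalues (helper235)
-/

set_option autoImplicit false

namespace Pool.Agent.Q156.GK

open Pool.Agent.W792.GK MeasureTheory Filter Topology

noncomputable section

namespace NE

variable {d : ℕ}

theorem map_shift (ν : Measure ℝ) [IsProbabilityMeasure ν] (x₀ : Fin d → ℤ) :
    (Measure.infinitePi fun _ : Fin d → ℤ => ν).map
      (fun (v : (Fin d → ℤ) → ℝ) (y : Fin d → ℤ) => v (y + x₀)) =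
      Measure.infinitePi fun _ : Fin d → ℤ => ν := by
  have h := Measure.infinitePi_map_piCongrLeft (fun _ : Fin d → ℤ => ν) (Equiv.subRight x₀)
  have h2 : (fun (v : (Fin d → ℤ) → ℝ) (y : Fin d → ℤ) => v (y + x₀)) =
      MeasurableEquiv.piCongrLeft (fun _ : Fin d → ℤ => ℝ) (Equiv.subRight x₀) := by
    funext v y
    have h3 := Equiv.piCongrLeft_apply_apply (P := fun _ : Fin d → ℤ => ℝ) (Equiv.subRight x₀) v
      (y + x₀)
    have h4 : (Equiv.subRight x₀) (y + x₀) = y := by simp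
    rw [h4] at h3
    exact h3.symm
  rw [h2]
  exact h

/-- there is a normalised eigenfunction with a large value at `0` -/
def Ev (K : C(UnitAddTorus (Fin d), ℝ)) (B c : ℝ) (v : (Fin d → ℤ) → ℝ) : Prop :=
  ∃ (E : ℝ) (u : (Fin d → ℤ) → ℂ), |E| ≤ B ∧ HasSum (fun x => ‖u x‖ ^ 2) 1 ∧
    (∀ x, ∑' y, hop K (x - y) * u y + (v x : ℂ) * u x = (E : ℂ) * u x) ∧ c ≤ ‖u 0‖

theorem qz_nonneg (K : C(UnitAddTorus (Fin d), ℝ)) (η B R : ℝ) (v : (Fin d → ℤ) → ℝ) :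
    0 ≤ Qz K η B R v :=
  mul_nonneg (sq_nonneg _) (Finset.sum_nonneg fun _ _ => sq_nonneg _)

theorem qz_le (hL : S_LIP) (K : C(UnitAddTorus (Fin d), ℝ)) {η R : ℝ} (B : ℝ) (hη : 0 < η)
    (hR : 0 < R) (v : (Fin d → ℤ) → ℝ) :
    Qz K η B R v ≤ η ^ 2 * ∑ _k ∈ Finset.Icc (-⌈B / η⌉) ⌈B / η⌉, (1 / η) ^ 2 := by
  refine mul_le_mul_of_nonneg_left (Finset.sum_le_sum fun k _ => ?_) (sq_nonneg η)
  have h := hL (Fin d) K K R hR v (zk η k) hη
  exact pow_le_pow_left₀ h.2.1 h.2.2 2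

theorem qz_meas (hM : S_MEAS) (K : C(UnitAddTorus (Fin d), ℝ)) {η R : ℝ} (B : ℝ) (hη : 0 < η)
    (hR : 0 < R) : Measurable fun v : (Fin d → ℤ) → ℝ => Qz K η B R v := by
  unfold Qz
  exact (Finset.measurable_sum _ fun k _ => (hM (Fin d) K R hR (zk η k) hη).pow_const 2).const_mul _

theorem qz_int (hM : S_MEAS) (hL : S_LIP) (K : C(UnitAddTorus (Fin d), ℝ)) {η R : ℝ} (B : ℝ)
    (hη : 0 < η) (hR : 0 < R) (P : Measure ((Fin d → ℤ) → ℝ)) [IsProbabilityMeasure P] :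
    Integrable (fun v : (Fin d → ℤ) → ℝ => Qz K η B R v) P := by
  refine Integrable.of_bound (qz_meas hM K B hη hR).aestronglyMeasurable
    (η ^ 2 * ∑ _k ∈ Finset.Icc (-⌈B / η⌉) ⌈B / η⌉, (1 / η) ^ 2) (ae_of_all _ fun v => ?_)
  rw [Real.norm_eq_abs, abs_of_nonneg (qz_nonneg K η B R v)]
  exact qz_le hL K B hη hR v

theorem ev_le (hE : S_EIG) (hM : S_MEAS) (hL : S_LIP) (K : C(UnitAddTorus (Fin d), ℝ)) (m : ℕ)
    (hG : Good d K m) (ν : Measure ℝ) [IsProbabilityMeasure ν] {B c : ℝ} (hB : B ≤ m)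
    (hc : 0 < c) (hcm : 1 / ((m : ℝ) + 1) < c / 2) :
    (Measure.infinitePi fun _ : Fin d → ℤ => ν) {v | Ev K B c v} ≤
      ENNReal.ofReal (((c / 2) ^ 4 / 4)⁻¹ * (1 / ((m : ℝ) + 1))) := by
  obtain ⟨η, R, q, hη, hη1, hR, hq, hb, hint⟩ := hG
  have hε : 0 < (c / 2) ^ 4 / 4 := by positivity
  have hsub : {v | Ev K B c v} ⊆ {v | (c / 2) ^ 4 / 4 ≤ Qz K η m R v} := by
    rintro v ⟨E, u, hEB, hs, heq, hu⟩
    have h1 := hE (Fin d) K η m R hη hη1 (Nat.cast_nonneg m) hR v E u (hEB.trans hB) hs heq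
    have h2 : c / 2 ≤ max 0 (‖u 0‖ - ((m : ℝ) + ‖K‖) * (1 + (‖K‖ + m + 2) / η) / R) := by
      refine le_max_of_le_right ?_
      linarith
    have h3 := pow_le_pow_left₀ (by positivity) h2 4
    change (c / 2) ^ 4 / 4 ≤ Qz K η m R v
    linarith
  refine (measure_mono hsub).trans ?_
  have h4 := mul_meas_ge_le_integral_of_nonneg
    (μ := Measure.infinitePi fun _ : Fin d → ℤ => ν)
    (f := fun v : (Fin d → ℤ) → ℝ => Qz K η m R v)
    (ae_of_all _ fun v => qz_nonneg K η m R v) (qz_int hM hL K m hη hR _) ((c / 2) ^ 4 / 4)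
  have h5 := hint ν
  have h6 : (Measure.infinitePi fun _ : Fin d → ℤ => ν).real
      {v | (c / 2) ^ 4 / 4 ≤ Qz K η m R v} ≤ ((c / 2) ^ 4 / 4)⁻¹ * (1 / ((m : ℝ) + 1)) := by
    rw [inv_mul_eq_div, le_div_iff₀' hε]
    linarith
  rw [← ofReal_measureReal]
  exact ENNReal.ofReal_le_ofReal h6

theorem ev_null (hE : S_EIG) (hM : S_MEAS) (hL : S_LIP) (K : C(UnitAddTorus (Fin d), ℝ))
    (hG : ∀ m : ℕ, Good d K m) (ν : Measure ℝ) [IsProbabilityMeasure ν] (B : ℝ) {c : ℝ}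
    (hc : 0 < c) : ∀ᵐ v ∂(Measure.infinitePi fun _ : Fin d → ℤ => ν), ¬ Ev K B c v := by
  have h1 : Tendsto (fun m : ℕ => ((c / 2) ^ 4 / 4)⁻¹ * (1 / ((m : ℝ) + 1))) atTop (𝓝 0) := by
    have h := (tendsto_one_div_add_atTop_nhds_zero_nat (𝕜 := ℝ)).const_mul (((c / 2) ^ 4 / 4)⁻¹)
    rwa [mul_zero] at h
  have h2 : Tendsto (fun m : ℕ => ENNReal.ofReal (((c / 2) ^ 4 / 4)⁻¹ * (1 / ((m : ℝ) + 1)))) atTop
      (𝓝 0) := by
    have h := ENNReal.tendsto_ofReal h1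
    rwa [ENNReal.ofReal_zero] at h
  have h3 : ∀ᶠ m : ℕ in atTop, (Measure.infinitePi fun _ : Fin d → ℤ => ν) {v | Ev K B c v} ≤
      ENNReal.ofReal (((c / 2) ^ 4 / 4)⁻¹ * (1 / ((m : ℝ) + 1))) := by
    have h4 : ∀ᶠ m : ℕ in atTop, 1 / ((m : ℝ) + 1) < c / 2 :=
      (tendsto_one_div_add_atTop_nhds_zero_nat (𝕜 := ℝ)).eventually_lt_const (half_pos hc)
    filter_upwards [h4, eventually_ge_atTop ⌈B⌉₊] with m hm1 hm2
    exact ev_le hE hM hL K m (hG m) ν ((Nat.le_ceil B).trans (by exact_mod_cast hm2)) hc hm1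
  have h5 := ge_of_tendsto h2 h3
  rw [ae_iff]
  have h6 : {v | ¬ ¬ Ev K B c v} = {v : (Fin d → ℤ) → ℝ | Ev K B c v} := by
    ext v
    exact not_not
  rw [h6]
  exact le_antisymm h5 bot_le

theorem shift_null (hE : S_EIG) (hM : S_MEAS) (hL : S_LIP) (K : C(UnitAddTorus (Fin d), ℝ))
    (hG : ∀ m : ℕ, Good d K m) (ν : Measure ℝ) [IsProbabilityMeasure ν] (B : ℝ) {c : ℝ}
    (hc : 0 < c) (x₀ : Fin d → ℤ) :
    ∀ᵐ v ∂(Measure.infinitePi fun _ : Fin d → ℤ => ν), ¬ Ev K B c (fun y => v (y + x₀)) := by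
  have h := ev_null hE hM hL K hG ν B hc
  rw [← map_shift ν x₀] at h
  exact ae_of_ae_map (f := fun (v : (Fin d → ℤ) → ℝ) (y : Fin d → ℤ) => v (y + x₀))
    (p := fun w => ¬ Ev K B c w)
    (measurable_pi_lambda _ fun y => measurable_pi_apply (y + x₀)).aemeasurable h

theorem noEig_of (K : C(UnitAddTorus (Fin d), ℝ)) (v : (Fin d → ℤ) → ℝ)
    (h : ∀ (x₀ : Fin d → ℤ) (B j : ℕ), ¬ Ev K B (1 / ((j : ℝ) + 1)) (fun y => v (y + x₀))) :
    NoEig K v := by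
  intro E u hs heq
  by_contra hne
  obtain ⟨x₀, hx₀⟩ := Function.ne_iff.1 hne
  rw [Pi.zero_apply] at hx₀
  have hN : 0 < ∑' x, ‖u x‖ ^ 2 :=
    hs.tsum_pos (fun x => sq_nonneg _) x₀ (by positivity)
  set N : ℝ := ∑' x, ‖u x‖ ^ 2 with hNdef
  have hsN : HasSum (fun y => ‖u (y + x₀)‖ ^ 2) N :=
    (Equiv.addRight x₀).hasSum_iff.2 hs.hasSum
  set a : ℝ := (Real.sqrt N)⁻¹ with ha
  have ha0 : 0 < a := inv_pos.2 (Real.sqrt_pos.2 hN)
  have ha2 : a ^ 2 * N = 1 := by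
    rw [ha, inv_pow, Real.sq_sqrt hN.le]
    exact inv_mul_cancel₀ hN.ne'
  have h1 : HasSum (fun y => ‖(a : ℂ) * u (y + x₀)‖ ^ 2) 1 := by
    have h2 := hsN.mul_left (a ^ 2)
    rw [ha2] at h2
    have h3 : (fun y => ‖(a : ℂ) * u (y + x₀)‖ ^ 2) = fun y => a ^ 2 * ‖u (y + x₀)‖ ^ 2 := by
      funext y
      rw [norm_mul, mul_pow, Complex.norm_real, Real.norm_eq_abs, sq_abs]
    rw [h3]
    exact h2
  have h4 : ∀ x : Fin d → ℤ, ∑' y, hop K (x - y) * ((a : ℂ) * u (y + x₀)) +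
      (v (x + x₀) : ℂ) * ((a : ℂ) * u (x + x₀)) = (E : ℂ) * ((a : ℂ) * u (x + x₀)) := by
    intro x
    have h5 := heq (x + x₀)
    have h6 : ∑' y, hop K (x + x₀ - y) * u y = ∑' y, hop K (x - y) * u (y + x₀) := by
      rw [← (Equiv.addRight x₀).tsum_eq]
      refine tsum_congr fun y => ?_
      rw [Equiv.coe_addRight, add_sub_add_right_eq_sub]
    have h7 : ∑' y, hop K (x - y) * ((a : ℂ) * u (y + x₀)) =
        (a : ℂ) * ∑' y, hop K (x - y) * u (y + x₀) := by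
      rw [← tsum_mul_left]
      refine tsum_congr fun y => ?_
      ring
    rw [h6] at h5
    rw [h7]
    linear_combination (a : ℂ) * h5
  have h8 : 0 < ‖(a : ℂ) * u (0 + x₀)‖ := by
    rw [zero_add, norm_pos_iff]
    exact mul_ne_zero (by exact_mod_cast ha0.ne') hx₀
  obtain ⟨j, hj⟩ := exists_nat_one_div_lt h8
  exact h x₀ ⌈|E|⌉₊ j ⟨E, fun y => (a : ℂ) * u (y + x₀), Nat.le_ceil _, h1, h4, hj.le⟩

end NE

theorem main_NE : S_EIG → S_MEAS → S_LIP → S_NE := by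
  intro hE hM hL d K _ hG ν _
  have h : ∀ᵐ v ∂(Measure.infinitePi fun _ : Fin d → ℤ => ν), ∀ (x₀ : Fin d → ℤ) (B j : ℕ),
      ¬ NE.Ev K B (1 / ((j : ℝ) + 1)) (fun y => v (y + x₀)) := by
    rw [ae_all_iff]
    intro x₀
    rw [ae_all_iff]
    intro B
    rw [ae_all_iff]
    intro j
    exact NE.shift_null hE hM hL K hG ν B (by positivity) x₀
  filter_upwards [h] with v hv
  exact NE.noEig_of K v hv

end

end Pool.Agent.Q156.GK
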