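import Pool.Agent.Q156.GK.Stm

/-!
Project GK, job OD: the good kinetic energies of level `m` form an open dense set.
-/

set_option autoImplicit false

namespace Pool.Agent.Q156.GK

open Pool.Agent.W792.GK MeasureTheory

noncomputable section

namespace ODAux

/-- Pointwise Lipschitz bound of the functional. -/
theorem qz_lip (hLIP : S_LIP) {d : ℕ} (K K' : C(UnitAddTorus (Fin d), ℝ)) (η B R : ℝ)
    (hη : 0 < η) (hR : 0 < R) (v : (Fin d → ℤ) → ℝ) :
    Qz K' η B R v ≤ Qz K η B R v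
      + η ^ 2 * (((Finset.Icc (-⌈B / η⌉) ⌈B / η⌉).card : ℝ) * (‖K' - K‖ / η ^ 2 * (2 / η))) := by
  unfold Qz
  rw [← mul_add]
  refine mul_le_mul_of_nonneg_left ?_ (sq_nonneg η)
  rw [← nsmul_eq_mul, ← Finset.sum_const, ← Finset.sum_add_distrib]
  refine Finset.sum_le_sum fun k _ => ?_
  have hz : 0 < (zk η k).im := hη
  obtain ⟨h1, h2, h3⟩ := hLIP (Fin d) K' K R hR v (zk η k) hz
  obtain ⟨_, h4, h5⟩ := hLIP (Fin d) K K' R hR v (zk η k) hz
  have e : (zk η k).im = η := rfl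
  rw [e] at h1 h3 h5
  have h6 : (Jm K' R v (zk η k)) ^ 2 - (Jm K R v (zk η k)) ^ 2
      = (Jm K' R v (zk η k) - Jm K R v (zk η k)) * (Jm K' R v (zk η k) + Jm K R v (zk η k)) := by
    ring
  have h7 : (Jm K' R v (zk η k) - Jm K R v (zk η k)) * (Jm K' R v (zk η k) + Jm K R v (zk η k))
      ≤ ‖K' - K‖ / η ^ 2 * (2 / η) := by
    have h8 : Jm K' R v (zk η k) + Jm K R v (zk η k) ≤ 2 / η := by
      have : (2 : ℝ) / η = 1 / η + 1 / η := by ring
      linarith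
    calc (Jm K' R v (zk η k) - Jm K R v (zk η k)) * (Jm K' R v (zk η k) + Jm K R v (zk η k))
        ≤ |Jm K' R v (zk η k) - Jm K R v (zk η k)| * (Jm K' R v (zk η k) + Jm K R v (zk η k)) :=
          mul_le_mul_of_nonneg_right (le_abs_self _) (add_nonneg h2 h4)
      _ ≤ ‖K' - K‖ / η ^ 2 * (2 / η) :=
          mul_le_mul h1 h8 (add_nonneg h2 h4) (by positivity)
  linarith

theorem qz_meas (hMEAS : S_MEAS) {d : ℕ} (K : C(UnitAddTorus (Fin d), ℝ)) (η B R : ℝ)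
    (hη : 0 < η) (hR : 0 < R) : Measurable fun v : (Fin d → ℤ) → ℝ => Qz K η B R v := by
  unfold Qz
  refine Measurable.const_mul ?_ _
  refine Finset.measurable_sum _ fun k _ => ?_
  exact (hMEAS (Fin d) K R hR (zk η k) hη).pow_const 2

theorem qz_bdd (hLIP : S_LIP) {d : ℕ} (K : C(UnitAddTorus (Fin d), ℝ)) (η B R : ℝ)
    (hη : 0 < η) (hR : 0 < R) (v : (Fin d → ℤ) → ℝ) :
    0 ≤ Qz K η B R v ∧ Qz K η B R v
      ≤ η ^ 2 * (((Finset.Icc (-⌈B / η⌉) ⌈B / η⌉).card : ℝ) * (1 / η) ^ 2) := by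
  constructor
  · exact mul_nonneg (sq_nonneg _) (Finset.sum_nonneg fun _ _ => sq_nonneg _)
  · unfold Qz
    refine mul_le_mul_of_nonneg_left ?_ (sq_nonneg η)
    rw [← nsmul_eq_mul, ← Finset.sum_const]
    refine Finset.sum_le_sum fun k _ => ?_
    have hz : 0 < (zk η k).im := hη
    obtain ⟨_, h2, h3⟩ := hLIP (Fin d) K K R hR v (zk η k) hz
    exact pow_le_pow_left₀ h2 h3 2

theorem qz_int (hLIP : S_LIP) (hMEAS : S_MEAS) {d : ℕ} (K : C(UnitAddTorus (Fin d), ℝ))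
    (η B R : ℝ) (hη : 0 < η) (hR : 0 < R) (P : Measure ((Fin d → ℤ) → ℝ))
    [IsProbabilityMeasure P] : Integrable (fun v => Qz K η B R v) P := by
  refine Integrable.of_bound (qz_meas hMEAS K η B R hη hR).aestronglyMeasurable
    (η ^ 2 * (((Finset.Icc (-⌈B / η⌉) ⌈B / η⌉).card : ℝ) * (1 / η) ^ 2)) ?_
  refine Filter.Eventually.of_forall fun v => ?_
  obtain ⟨h1, h2⟩ := qz_bdd hLIP K η B R hη hR v
  rw [Real.norm_eq_abs, abs_of_nonneg h1]
  exact h2

theorem qz_int_le (hLIP : S_LIP) (hMEAS : S_MEAS) {d : ℕ} (K K' : C(UnitAddTorus (Fin d), ℝ))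
    (η B R : ℝ) (hη : 0 < η) (hR : 0 < R) (P : Measure ((Fin d → ℤ) → ℝ))
    [IsProbabilityMeasure P] :
    ∫ v, Qz K' η B R v ∂P ≤ ∫ v, Qz K η B R v ∂P
      + η ^ 2 * (((Finset.Icc (-⌈B / η⌉) ⌈B / η⌉).card : ℝ) * (‖K' - K‖ / η ^ 2 * (2 / η))) := by
  have h := integral_mono (μ := P) (qz_int hLIP hMEAS K' η B R hη hR P)
    ((qz_int hLIP hMEAS K η B R hη hR P).add (integrable_const
      (η ^ 2 * (((Finset.Icc (-⌈B / η⌉) ⌈B / η⌉).card : ℝ) * (‖K' - K‖ / η ^ 2 * (2 / η))))))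
    (fun v => qz_lip hLIP K K' η B R hη hR v)
  refine h.trans (le_of_eq ?_)
  rw [integral_add' (qz_int hLIP hMEAS K η B R hη hR P) (integrable_const _)]
  simp

theorem isSym_add {ι : Type} [DecidableEq ι] {f g : C(UnitAddTorus ι, ℝ)} (hf : IsSym f)
    (hg : IsSym g) : IsSym (f + g) := by
  constructor
  · intro σ k
    rw [ContinuousMap.add_apply, ContinuousMap.add_apply, hf.1 σ k, hg.1 σ k]
  · intro i k
    rw [ContinuousMap.add_apply, ContinuousMap.add_apply, hf.2 i k, hg.2 i k]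

theorem isOpen_good (hLIP : S_LIP) (hMEAS : S_MEAS) (d : ℕ) (m : ℕ) :
    IsOpen {K : SymSp d | Good d K.1 m} := by
  rw [isOpen_iff_mem_nhds]
  rintro K ⟨η, R, q, hη, hη1, hR, hq, hK, hν⟩
  have hc : Continuous fun K' : SymSp d => K'.1 := continuous_subtype_val
  have c1 : Continuous fun K' : SymSp d =>
      ((m : ℝ) + ‖K'.1‖) * (1 + (‖K'.1‖ + m + 2) / η) / R := by
    have h1 : Continuous fun K' : SymSp d => ‖K'.1‖ := hc.norm
    exact ((continuous_const.add h1).mul (continuous_const.add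
      (((h1.add continuous_const).add continuous_const).div_const _))).div_const _
  have c2 : Continuous fun K' : SymSp d =>
      η ^ 2 * (((Finset.Icc (-⌈(m : ℝ) / η⌉) ⌈(m : ℝ) / η⌉).card : ℝ)
        * (‖K'.1 - K.1‖ / η ^ 2 * (2 / η))) := by
    have h1 : Continuous fun K' : SymSp d => ‖K'.1 - K.1‖ := (hc.sub continuous_const).norm
    exact continuous_const.mul (continuous_const.mul ((h1.div_const _).mul continuous_const))
  have e1 := c1.continuousAt.eventually_lt (continuousAt_const (x := K)) hK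
  have hK2 : η ^ 2 * (((Finset.Icc (-⌈(m : ℝ) / η⌉) ⌈(m : ℝ) / η⌉).card : ℝ)
        * (‖K.1 - K.1‖ / η ^ 2 * (2 / η))) < (1 / (m + 1) - q) / 2 := by
    rw [sub_self, norm_zero]
    simp only [zero_div, zero_mul, mul_zero]
    linarith
  have e2 := c2.continuousAt.eventually_lt (continuousAt_const (x := K)) hK2
  filter_upwards [e1, e2] with K' h1 h2
  refine ⟨η, R, (q + 1 / (m + 1)) / 2, hη, hη1, hR, by linarith, h1, ?_⟩
  intro ν _
  have h3 := qz_int_le hLIP hMEAS K.1 K'.1 η (m : ℝ) R hη hR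
    (Measure.infinitePi fun _ : Fin d → ℤ => ν)
  have h4 := hν ν
  linarith

theorem dense_good (hKP : S_KP) (d : ℕ) (hd : 0 < d) (m : ℕ) :
    Dense {K : SymSp d | Good d K.1 m} := by
  rw [dense_iff_inter_open]
  rintro U hU ⟨K₀, hK₀⟩
  obtain ⟨V, hV, rfl⟩ := isOpen_induced_iff.1 hU
  have hK₀V : K₀.1 ∈ V := hK₀
  obtain ⟨ε, hε, hball⟩ := Metric.isOpen_iff.1 hV K₀.1 hK₀V
  have hm : (0 : ℝ) < (m : ℝ) + 1 := by positivity
  have hs : 0 < ε / 4 := by positivity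
  -- choice of η
  obtain ⟨η, hη, hη1, hη2⟩ : ∃ η : ℝ, 0 < η ∧ η ≤ 1 ∧
      (10 / (ε / 4)) * Real.sqrt (((m : ℝ) + 1) * η) ≤ 1 / (4 * (m + 1)) := by
    refine ⟨min 1 ((ε / 4 / (40 * (m + 1))) ^ 2 / (m + 1)), ?_, min_le_left _ _, ?_⟩
    · exact lt_min one_pos (by positivity)
    · have h1 : ((m : ℝ) + 1) * min 1 ((ε / 4 / (40 * (m + 1))) ^ 2 / (m + 1))
          ≤ (ε / 4 / (40 * (m + 1))) ^ 2 := by
        calc ((m : ℝ) + 1) * min 1 ((ε / 4 / (40 * (m + 1))) ^ 2 / (m + 1))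
            ≤ ((m : ℝ) + 1) * ((ε / 4 / (40 * (m + 1))) ^ 2 / (m + 1)) :=
              mul_le_mul_of_nonneg_left (min_le_right _ _) hm.le
          _ = (ε / 4 / (40 * (m + 1))) ^ 2 := by field_simp
      have h2 := Real.sqrt_le_sqrt h1
      rw [Real.sqrt_sq (by positivity)] at h2
      calc (10 / (ε / 4)) * Real.sqrt (((m : ℝ) + 1)
            * min 1 ((ε / 4 / (40 * (m + 1))) ^ 2 / (m + 1)))
          ≤ (10 / (ε / 4)) * (ε / 4 / (40 * (m + 1))) :=
            mul_le_mul_of_nonneg_left h2 (by positivity)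
        _ = 1 / (4 * (m + 1)) := by field_simp; ring
  -- choice of R
  set M : ℝ := ‖K₀.1‖ + ε with hM
  have hM0 : 0 ≤ M := by positivity
  set X : ℝ := ((m : ℝ) + M) * (1 + (M + m + 2) / η) with hX
  have hX0 : 0 ≤ X := by positivity
  have hR : 0 < ((m : ℝ) + 1) * (X + 1) := by positivity
  obtain ⟨b, hb1, hb2, hb3⟩ := hKP d hd K₀.1 (ε / 4) η (m : ℝ) (((m : ℝ) + 1) * (X + 1))
    (1 / (4 * (m + 1))) hs hη hη1 (Nat.cast_nonneg m) hR (by positivity)
  refine ⟨⟨K₀.1 + b, isSym_add K₀.2 hb1⟩, ?_, ?_⟩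
  · refine hball ?_
    rw [Metric.mem_ball, dist_eq_norm]
    have : K₀.1 + b - K₀.1 = b := by abel
    show ‖K₀.1 + b - K₀.1‖ < ε
    rw [this]
    linarith
  · refine ⟨η, ((m : ℝ) + 1) * (X + 1), 1 / (2 * (m + 1)), hη, hη1, hR, ?_, ?_, ?_⟩
    · rw [one_div_lt_one_div (by positivity) hm]
      linarith
    · show ((m : ℝ) + ‖K₀.1 + b‖) * (1 + (‖K₀.1 + b‖ + m + 2) / η) / (((m : ℝ) + 1) * (X + 1))
        < 1 / (m + 1)
      have hn : ‖K₀.1 + b‖ ≤ M := (norm_add_le _ _).trans (by rw [hM]; linarith)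
      have hn0 : 0 ≤ ‖K₀.1 + b‖ := norm_nonneg _
      have h1 : ((m : ℝ) + ‖K₀.1 + b‖) * (1 + (‖K₀.1 + b‖ + m + 2) / η) ≤ X := by
        rw [hX]
        refine mul_le_mul (by linarith) ?_ (by positivity) (by positivity)
        have : (‖K₀.1 + b‖ + m + 2) / η ≤ (M + m + 2) / η :=
          div_le_div_of_nonneg_right (by linarith) hη.le
        linarith
      rw [div_lt_div_iff₀ hR hm]
      nlinarith
    · intro ν _
      have h1 := hb3 ν
      have h2 : (1 : ℝ) / (4 * (m + 1)) + 1 / (4 * (m + 1)) = 1 / (2 * (m + 1)) := by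
        field_simp
        ring
      show ∫ v, Qz (K₀.1 + b) η (m : ℝ) (((m : ℝ) + 1) * (X + 1)) v
        ∂(Measure.infinitePi fun _ : Fin d → ℤ => ν) ≤ 1 / (2 * (m + 1))
      linarith

end ODAux

/-- OD: the good kinetic energies of level `m` form an open dense set. -/
theorem main_OD (hKP : S_KP) (hLIP : S_LIP) (hMEAS : S_MEAS) : S_OD := fun d hd m =>
  ⟨ODAux.isOpen_good hLIP hMEAS d m, ODAux.dense_good hKP d hd m⟩

end

end Pool.Agent.Q156.GK
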