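import Pool.Agent.Q156.GK.Stm

set_option autoImplicit false

namespace Pool.Agent.Q156.GK

open Pool.Agent.W792.GK MeasureTheory

noncomputable section

theorem pa_poly (C : ℝ) (z : ℂ) (ε : ℝ) (hz : z.im ≠ 0) (hε : 0 < ε) : ∃ P : Polynomial ℂ,
    ∀ x : ℝ, |x| ≤ C → ‖((x : ℂ) - z)⁻¹ - P.eval (x : ℂ)‖ ≤ ε := by
  have hne : ∀ x : ℝ, (x : ℂ) - z ≠ 0 := by
    intro x h
    have := congrArg Complex.im h
    simp at this
    exact hz this
  have hcont : Continuous fun x : ℝ => ((x : ℂ) - z)⁻¹ :=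
    (Complex.continuous_ofReal.sub continuous_const).inv₀ hne
  obtain ⟨p, hp⟩ := exists_polynomial_near_of_continuousOn (-C) C
    (fun x => (((x : ℂ) - z)⁻¹).re) (Complex.continuous_re.comp hcont).continuousOn (ε / 2)
    (by positivity)
  obtain ⟨q, hq⟩ := exists_polynomial_near_of_continuousOn (-C) C
    (fun x => (((x : ℂ) - z)⁻¹).im) (Complex.continuous_im.comp hcont).continuousOn (ε / 2)
    (by positivity)
  refine ⟨p.map (algebraMap ℝ ℂ) + Polynomial.C Complex.I * q.map (algebraMap ℝ ℂ), ?_⟩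
  intro x hx
  have hx' : x ∈ Set.Icc (-C) C := abs_le.mp hx
  have h1 := hp x hx'
  have h2 := hq x hx'
  have hev : ∀ r : Polynomial ℝ, (r.map (algebraMap ℝ ℂ)).eval (x : ℂ) = ((r.eval x : ℝ) : ℂ) := by
    intro r
    rw [Polynomial.eval_map_algebraMap]
    have : (x : ℂ) = algebraMap ℝ ℂ x := rfl
    rw [this, Polynomial.aeval_algebraMap_apply]
    rfl
  rw [Polynomial.eval_add, Polynomial.eval_mul, Polynomial.eval_C, hev, hev]
  refine (Complex.norm_le_abs_re_add_abs_im _).trans ?_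
  have hre : (((x : ℂ) - z)⁻¹ - (((p.eval x : ℝ) : ℂ) + Complex.I * ((q.eval x : ℝ) : ℂ))).re =
      (((x : ℂ) - z)⁻¹).re - p.eval x := by simp
  have him : (((x : ℂ) - z)⁻¹ - (((p.eval x : ℝ) : ℂ) + Complex.I * ((q.eval x : ℝ) : ℂ))).im =
      (((x : ℂ) - z)⁻¹).im - q.eval x := by simp
  rw [hre, him, abs_sub_comm, abs_sub_comm (((x : ℂ) - z)⁻¹).im]
  linarith

theorem main_PA : S_PA := by
  intro C z ε hz hε
  obtain ⟨P, hP⟩ := pa_poly C z ε hz hε
  refine ⟨P, ?_⟩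
  intro E _ _ _ T hT hC
  have hspec : ∀ x ∈ spectrum ℂ T, x = ((x.re : ℝ) : ℂ) ∧ |x.re| ≤ C := by
    intro x hx
    have him : x.im = 0 := hT.im_eq_zero_of_mem_spectrum hx
    refine ⟨Complex.ext (by simp) (by simp [him]), ?_⟩
    have hne : Nontrivial (E →L[ℂ] E) := by
      by_contra h
      rw [not_nontrivial_iff_subsingleton] at h
      have he : spectrum ℂ T = ∅ := spectrum.of_subsingleton T
      rw [he] at hx
      exact hx
    have h1 : ‖x‖ ≤ ‖T‖ := spectrum.norm_le_norm_of_mem hx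
    exact (Complex.abs_re_le_norm x).trans (h1.trans hC)
  have hne : ∀ x ∈ spectrum ℂ T, x - z ≠ 0 := by
    intro x hx h
    have h1 : x.im = 0 := hT.im_eq_zero_of_mem_spectrum hx
    have h2 : x = z := sub_eq_zero.mp h
    exact hz (h2 ▸ h1)
  have hcf : ContinuousOn (fun x : ℂ => (x - z)⁻¹) (spectrum ℂ T) :=
    (continuous_id.sub continuous_const).continuousOn.inv₀ hne
  have hcg : ContinuousOn (fun x : ℂ => x - z) (spectrum ℂ T) :=
    (continuous_id.sub continuous_const).continuousOn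
  have hn : IsStarNormal T := hT.isStarNormal
  have h1 : cfc (fun x : ℂ => x - z) T = T - z • (1 : E →L[ℂ] E) := by
    rw [cfc_sub (fun x : ℂ => x) (fun _ => z) T, cfc_id' ℂ T, cfc_const z T,
      Algebra.algebraMap_eq_smul_one]
  have h2 : cfc (fun x : ℂ => (x - z)⁻¹) T * (T - z • (1 : E →L[ℂ] E)) = 1 := by
    rw [← h1, ← cfc_mul _ _ T hcf hcg]
    rw [cfc_congr (g := fun _ => (1 : ℂ)) (fun x hx => inv_mul_cancel₀ (hne x hx)), cfc_const_one ℂ T]
  have h3 : (T - z • (1 : E →L[ℂ] E)) * cfc (fun x : ℂ => (x - z)⁻¹) T = 1 := by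
    rw [← h1, ← cfc_mul _ _ T hcg hcf]
    rw [cfc_congr (g := fun _ => (1 : ℂ)) (fun x hx => mul_inv_cancel₀ (hne x hx)), cfc_const_one ℂ T]
  let U : (E →L[ℂ] E)ˣ := ⟨T - z • (1 : E →L[ℂ] E), cfc (fun x : ℂ => (x - z)⁻¹) T, h3, h2⟩
  have hU : (U : E →L[ℂ] E) = T - z • (1 : E →L[ℂ] E) := rfl
  refine ⟨⟨U, hU⟩, ?_⟩
  rw [← hU, Ring.inverse_unit]
  have h4 : ((U⁻¹ : (E →L[ℂ] E)ˣ) : E →L[ℂ] E) = cfc (fun x : ℂ => (x - z)⁻¹) T := rfl
  rw [h4, ← cfc_polynomial P T hn, ← cfc_sub _ _ T hcf (P.continuous.continuousOn)]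
  refine norm_cfc_le hε.le fun x hx => ?_
  obtain ⟨hx1, hx2⟩ := hspec x hx
  rw [hx1]
  exact hP x.re hx2

end

end Pool.Agent.Q156.GK
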