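import Pool.Agent.Q156.GK.Stm

/-!
Project GK, job SER (helper299): the Chebyshev series.
-/

set_option autoImplicit false
set_option linter.unusedSectionVars false

namespace Pool.Agent.Q156.GK

open Pool.Agent.W792.GK Filter Topology
open scoped Matrix.Norms.L2Operator

noncomputable section

namespace SER

variable {Q J : Type} [Fintype Q] [DecidableEq Q] [Fintype J] [DecidableEq J]

/-- `1 ⊗ A` -/
def k1 (Q : Type) [DecidableEq Q] {J : Type} (A : Matrix J J ℂ) : Matrix (Q × J) (Q × J) ℂ :=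
  Matrix.kronecker (1 : Matrix Q Q ℂ) A

/-- `g ⊗ 1` -/
def kg {Q : Type} (J : Type) [DecidableEq J] (g : Matrix Q Q ℂ) : Matrix (Q × J) (Q × J) ℂ :=
  Matrix.kronecker g (1 : Matrix J J ℂ)

theorem k1_mul (A B : Matrix J J ℂ) : k1 Q (A * B) = k1 Q A * k1 Q B := by
  have h := Matrix.mul_kronecker_mul (1 : Matrix Q Q ℂ) (1 : Matrix Q Q ℂ) A B
  rw [one_mul] at h
  exact h

theorem kg_mul (g h : Matrix Q Q ℂ) : kg J (g * h) = kg J g * kg J h := by
  have e := Matrix.mul_kronecker_mul g h (1 : Matrix J J ℂ) (1 : Matrix J J ℂ)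
  rw [one_mul] at e
  exact e

theorem kg_one : kg J (1 : Matrix Q Q ℂ) = 1 := Matrix.one_kronecker_one

theorem k1_one : k1 Q (1 : Matrix J J ℂ) = 1 := Matrix.one_kronecker_one

theorem k1_sub (A B : Matrix J J ℂ) : k1 Q (A - B) = k1 Q A - k1 Q B := by
  ext ⟨x, i⟩ ⟨y, j⟩
  simp [k1, Matrix.kronecker, Matrix.kroneckerMap_apply, mul_sub]

theorem k1_smul (c : ℝ) (A : Matrix J J ℂ) : k1 Q (c • A) = (c : ℂ) • k1 Q A := by
  ext ⟨x, i⟩ ⟨y, j⟩
  simp [k1, Matrix.kronecker, Matrix.kroneckerMap_apply]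
  ring

theorem comm (g : Matrix Q Q ℂ) (A : Matrix J J ℂ) : kg J g * k1 Q A = k1 Q A * kg J g := by
  have h1 := Matrix.mul_kronecker_mul g (1 : Matrix Q Q ℂ) (1 : Matrix J J ℂ) A
  have h2 := Matrix.mul_kronecker_mul (1 : Matrix Q Q ℂ) g A (1 : Matrix J J ℂ)
  rw [mul_one, one_mul] at h1 h2
  exact h1.symm.trans h2

theorem prod_apply (g : Matrix Q Q ℂ) (A : Matrix J J ℂ) (x y : Q) (i j : J) :
    (kg J g * k1 Q A) (x, i) (y, j) = g x y * A i j := by
  have h1 := Matrix.mul_kronecker_mul g (1 : Matrix Q Q ℂ) (1 : Matrix J J ℂ) A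
  rw [mul_one, one_mul] at h1
  have h2 : kg J g * k1 Q A = Matrix.kronecker g A := h1.symm
  rw [h2]
  rfl

theorem kg_pow (g : Matrix Q Q ℂ) (m : ℕ) : kg J (g ^ m) = kg J g ^ m := by
  induction m with
  | zero => rw [pow_zero, pow_zero, kg_one]
  | succ m ih => rw [pow_succ, pow_succ, kg_mul, ih]

theorem kg_eq (g : Matrix Q Q ℂ) : kg J g = Matrix.blockDiagonal (fun _ : J => g) := by
  ext ⟨x, i⟩ ⟨y, j⟩
  by_cases h : i = j <;>
    simp [kg, Matrix.blockDiagonal_apply, Matrix.kronecker, Matrix.kroneckerMap_apply, h]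

theorem kg_norm {g : Matrix Q Q ℂ} {γ : ℝ} (h0 : 0 ≤ γ) (h : OpB g γ) : ‖kg J g‖ ≤ γ := by
  rw [kg_eq]
  exact OpB.norm_le (opB_blockDiagonal fun _ => h) h0

theorem k1_opB {A : Matrix J J ℂ} {c : ℝ} (h : OpB A c) : OpB (k1 Q A) c := by
  intro u
  have e : ∀ x : Q, ∀ i : J, (k1 Q A).mulVec u (x, i) = A.mulVec (fun j => u (x, j)) i := by
    intro x i
    show ∑ q : Q × J, k1 Q A (x, i) q * u q = ∑ j, A i j * u (x, j)
    rw [Fintype.sum_prod_type, Finset.sum_eq_single x]
    · refine Finset.sum_congr rfl fun j _ => ?_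
      simp [k1, Matrix.kronecker, Matrix.kroneckerMap_apply]
    · intro b _ hb
      refine Finset.sum_eq_zero fun j _ => ?_
      simp [k1, Matrix.kronecker, Matrix.kroneckerMap_apply, Matrix.one_apply_ne hb.symm]
    · simp
  rw [Fintype.sum_prod_type, Fintype.sum_prod_type, Finset.mul_sum]
  refine Finset.sum_le_sum fun x _ => ?_
  simp only [e]
  exact h fun j => u (x, j)

theorem one_norm_le {n : Type} [Fintype n] [DecidableEq n] : ‖(1 : Matrix n n ℂ)‖ ≤ 1 := by
  refine (opB_iff (1 : Matrix n n ℂ) zero_le_one).1 fun u => ?_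
  simp

/-- the Chebyshev polynomials in the large algebra -/
def C (Q : Type) [DecidableEq Q] (s : ℝ) (A : Matrix J J ℂ) (n : ℕ) :
    Matrix (Q × J) (Q × J) ℂ := k1 Q (ch (s ^ 2) A n)

theorem C_zero (s : ℝ) (A : Matrix J J ℂ) : C Q s A 0 = 1 := k1_one

theorem C_one (s : ℝ) (A : Matrix J J ℂ) : C Q s A 1 = k1 Q A := rfl

theorem C_succ (s : ℝ) (A : Matrix J J ℂ) (n : ℕ) :
    C Q s A (n + 2) = k1 Q A * C Q s A (n + 1) - ((s ^ 2 : ℝ) : ℂ) • C Q s A n := by
  unfold C
  rw [← k1_mul, ← k1_smul, ← k1_sub]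
  rfl

theorem C_norm {s : ℝ} (hs : 0 < s) {A : Matrix J J ℂ} (hA : OpB A (3 * s)) :
    ∀ n : ℕ, ‖C Q s A n‖ ≤ (4 * s) ^ n ∧ ‖C Q s A (n + 1)‖ ≤ (4 * s) ^ (n + 1) := by
  have hA' : ‖k1 Q A‖ ≤ 3 * s := OpB.norm_le (k1_opB hA) (by positivity)
  intro n
  induction n with
  | zero =>
    constructor
    · rw [C_zero, pow_zero]
      exact one_norm_le
    · rw [C_one, zero_add, pow_one]
      linarith
  | succ n ih =>
    refine ⟨ih.2, ?_⟩
    rw [C_succ]
    calc ‖k1 Q A * C Q s A (n + 1) - ((s ^ 2 : ℝ) : ℂ) • C Q s A n‖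
        ≤ ‖k1 Q A‖ * ‖C Q s A (n + 1)‖ + ‖((s ^ 2 : ℝ) : ℂ)‖ * ‖C Q s A n‖ :=
          (norm_sub_le _ _).trans (add_le_add (norm_mul_le _ _) (norm_smul_le _ _))
      _ ≤ 3 * s * (4 * s) ^ (n + 1) + s ^ 2 * (4 * s) ^ n := by
          refine add_le_add (mul_le_mul hA' ih.2 (norm_nonneg _) (by positivity))
            (mul_le_mul ?_ ih.1 (norm_nonneg _) (by positivity))
          rw [Complex.norm_real, Real.norm_of_nonneg (by positivity)]
      _ = 13 * s ^ 2 * (4 * s) ^ n := by ring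
      _ ≤ 16 * s ^ 2 * (4 * s) ^ n := by
          have : 0 ≤ s ^ 2 * (4 * s) ^ n := by positivity
          nlinarith
      _ = (4 * s) ^ (n + 1 + 1) := by ring

/-- the terms of the series -/
def tm (s : ℝ) (g : Matrix Q Q ℂ) (A : Matrix J J ℂ) (m : ℕ) : Matrix (Q × J) (Q × J) ℂ :=
  -((-kg J g) ^ m * C Q s A (m + 1))

theorem tm_norm {s γ : ℝ} (hs : 0 < s) (h0 : 0 ≤ γ) (hγ : γ ≤ 1 / (8 * (s + 1)))
    {g : Matrix Q Q ℂ} (hg : OpB g γ) {A : Matrix J J ℂ} (hA : OpB A (3 * s)) (m : ℕ) :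
    ‖tm s g A m‖ ≤ 4 * s * (1 / 2) ^ m := by
  have h1 : ∀ m : ℕ, ‖(-kg J g) ^ m‖ ≤ γ ^ m := by
    intro m
    induction m with
    | zero => simpa using one_norm_le (n := Q × J)
    | succ m ih =>
      rw [pow_succ, pow_succ]
      refine (norm_mul_le _ _).trans (mul_le_mul ih ?_ (norm_nonneg _) (by positivity))
      rw [norm_neg]
      exact kg_norm h0 hg
  have h2 : 4 * s * γ ≤ 1 / 2 := by
    calc 4 * s * γ ≤ 4 * s * (1 / (8 * (s + 1))) := mul_le_mul_of_nonneg_left hγ (by positivity)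
      _ ≤ 1 / 2 := by
        rw [mul_one_div, div_le_div_iff₀ (by positivity) (by norm_num)]
        nlinarith
  unfold tm
  rw [norm_neg]
  calc ‖(-kg J g) ^ m * C Q s A (m + 1)‖ ≤ γ ^ m * (4 * s) ^ (m + 1) :=
        (norm_mul_le _ _).trans (mul_le_mul (h1 m) (C_norm hs hA m).2 (norm_nonneg _) (by positivity))
    _ = 4 * s * (4 * s * γ) ^ m := by
        rw [mul_pow (4 * s) γ, pow_succ]
        ring
    _ ≤ 4 * s * (1 / 2) ^ m := by
        refine mul_le_mul_of_nonneg_left ?_ (by positivity)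
        exact pow_le_pow_left₀ (by positivity) h2 m

/-- the finite identity -/
theorem fin_id (s : ℝ) (g : Matrix Q Q ℂ) (A : Matrix J J ℂ) (n : ℕ) :
    (k1 Q A + ((s ^ 2 : ℝ) : ℂ) • kg J g) * (1 + kg J g * ∑ m ∈ Finset.range n, tm s g A m) =
      -(∑ m ∈ Finset.range (n + 1), tm s g A m)
        - ((s ^ 2 : ℝ) : ℂ) • ((-kg J g) ^ (n + 1) * C Q s A n) := by
  induction n with
  | zero =>
    simp only [Finset.range_zero, Finset.sum_empty, mul_zero, add_zero, mul_one, zero_add,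
      Finset.range_one, Finset.sum_singleton, pow_one, C_zero, tm, pow_zero, one_mul, C_one, neg_neg,
      smul_neg, sub_neg_eq_add]
  | succ n ih =>
    have e0 : 1 + kg J g * ∑ m ∈ Finset.range (n + 1), tm s g A m =
        (1 + kg J g * ∑ m ∈ Finset.range n, tm s g A m) + kg J g * tm s g A n := by
      rw [Finset.sum_range_succ, mul_add, add_assoc]
    rw [e0, mul_add, ih, Finset.sum_range_succ _ (n + 1)]
    have hc : Commute (-kg J g) (k1 Q A) := by
      show -kg J g * k1 Q A = k1 Q A * -kg J g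
      rw [neg_mul, mul_neg, comm]
    have h1 : kg J g * tm s g A n = (-kg J g) ^ (n + 1) * C Q s A (n + 1) := by
      unfold tm
      rw [pow_succ']
      noncomm_ring
    have h2 : k1 Q A * ((-kg J g) ^ (n + 1) * C Q s A (n + 1)) =
        (-kg J g) ^ (n + 1) * (k1 Q A * C Q s A (n + 1)) := by
      rw [← mul_assoc, ← (hc.pow_left (n + 1)).eq, mul_assoc]
    have h3 : kg J g * ((-kg J g) ^ (n + 1) * C Q s A (n + 1)) =
        -((-kg J g) ^ (n + 1 + 1) * C Q s A (n + 1)) := by
      rw [pow_succ' _ (n + 1)]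
      noncomm_ring
    rw [h1, add_mul, h2, smul_mul_assoc, h3]
    have h4 : tm s g A (n + 1) = -((-kg J g) ^ (n + 1) * (k1 Q A * C Q s A (n + 1))) +
        ((s ^ 2 : ℝ) : ℂ) • ((-kg J g) ^ (n + 1) * C Q s A n) := by
      unfold tm
      rw [C_succ, mul_sub, mul_smul_comm, neg_sub]
      abel
    rw [h4, smul_neg]
    abel

theorem tm_comm (s : ℝ) (g : Matrix Q Q ℂ) (A : Matrix J J ℂ) (m : ℕ) :
    kg J g * tm s g A m = tm s g A m * kg J g := by
  have hc : Commute (kg J g) ((-kg J g) ^ m) := (Commute.neg_right (Commute.refl _)).pow_right m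
  have hc2 : Commute (kg J g) (C Q s A (m + 1)) := comm g _
  exact ((hc.mul_right hc2).neg_right).eq

end SER

open SER in
theorem main_SER : S_SER := by
  intro Q J _ _ _ _ s γ hs h0 hγ g hg A hA
  have : CompleteSpace (Matrix (Q × J) (Q × J) ℂ) := FiniteDimensional.complete ℂ _
  have hb := tm_norm hs h0 hγ hg hA
  have hsum : Summable (tm s g A) := by
    refine Summable.of_norm_bounded (g := fun m => 4 * s * (1 / 2) ^ m) ?_ hb
    exact (summable_geometric_of_lt_one (by norm_num) (by norm_num)).mul_left _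
  obtain ⟨S, hS⟩ := hsum
  have hR : ∀ n : ℕ, ‖(∑ m ∈ Finset.range n, tm s g A m) - S‖ ≤ 8 * s * (1 / 2) ^ n := by
    intro n
    have h := norm_sub_le_of_geometric_bound_of_hasSum (r := 1 / 2) (by norm_num) hb hS n
    calc _ ≤ 4 * s * (1 / 2) ^ n / (1 - 1 / 2) := h
      _ = 8 * s * (1 / 2) ^ n := by ring
  have hlim := hS.tendsto_sum_nat
  refine ⟨S, ?_, ?_, ?_, ?_⟩
  · rw [opB_iff _ (by positivity)]
    have := hR 0
    simpa using this
  · have h1 : Tendsto (fun n => kg J g * ∑ m ∈ Finset.range n, tm s g A m) atTop (𝓝 (kg J g * S)) :=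
      hlim.const_mul _
    have h2 : Tendsto (fun n => (∑ m ∈ Finset.range n, tm s g A m) * kg J g) atTop (𝓝 (S * kg J g)) :=
      hlim.mul_const _
    have h3 : (fun n => kg J g * ∑ m ∈ Finset.range n, tm s g A m) =
        fun n => (∑ m ∈ Finset.range n, tm s g A m) * kg J g := by
      funext n
      rw [Finset.mul_sum, Finset.sum_mul]
      exact Finset.sum_congr rfl fun m _ => tm_comm s g A m
    rw [h3] at h1
    exact tendsto_nhds_unique h1 h2
  · have h1 : Tendsto (fun n => (k1 Q A + ((s ^ 2 : ℝ) : ℂ) • kg J g) *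
        (1 + kg J g * ∑ m ∈ Finset.range n, tm s g A m)) atTop
        (𝓝 ((k1 Q A + ((s ^ 2 : ℝ) : ℂ) • kg J g) * (1 + kg J g * S))) :=
      ((hlim.const_mul _).const_add _).const_mul _
    have hz : Tendsto (fun n : ℕ => ((s ^ 2 : ℝ) : ℂ) • ((-kg J g) ^ (n + 1) * C Q s A n)) atTop
        (𝓝 0) := by
      have hzb : ∀ n : ℕ, ‖((s ^ 2 : ℝ) : ℂ) • ((-kg J g) ^ (n + 1) * C Q s A n)‖ ≤
          s ^ 2 * (1 / 2) ^ n := by
        intro n
        have e1 : ∀ m : ℕ, ‖(-kg J g) ^ m‖ ≤ γ ^ m := by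
          intro m
          induction m with
          | zero => simpa using one_norm_le (n := Q × J)
          | succ m ih =>
            rw [pow_succ, pow_succ]
            refine (norm_mul_le _ _).trans (mul_le_mul ih ?_ (norm_nonneg _) (by positivity))
            rw [norm_neg]
            exact kg_norm h0 hg
        have e2 : 4 * s * γ ≤ 1 / 2 := by
          calc 4 * s * γ ≤ 4 * s * (1 / (8 * (s + 1))) := mul_le_mul_of_nonneg_left hγ (by positivity)
            _ ≤ 1 / 2 := by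
              rw [mul_one_div, div_le_div_iff₀ (by positivity) (by norm_num)]
              nlinarith
        have e3 : γ ≤ 1 := by
          refine hγ.trans ?_
          rw [div_le_one (by positivity)]
          linarith
        refine (norm_smul_le _ _).trans ?_
        rw [Complex.norm_real, Real.norm_of_nonneg (by positivity)]
        refine mul_le_mul_of_nonneg_left ?_ (by positivity)
        calc ‖(-kg J g) ^ (n + 1) * C Q s A n‖ ≤ γ ^ (n + 1) * (4 * s) ^ n :=
              (norm_mul_le _ _).trans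
                (mul_le_mul (e1 _) (C_norm hs hA n).1 (norm_nonneg _) (by positivity))
          _ = γ * (4 * s * γ) ^ n := by
              rw [mul_pow (4 * s) γ, pow_succ]
              ring
          _ ≤ 1 * (1 / 2) ^ n := by
              refine mul_le_mul e3 (pow_le_pow_left₀ (by positivity) e2 n) (by positivity) (by norm_num)
          _ = (1 / 2) ^ n := one_mul _
      refine squeeze_zero_norm hzb ?_
      have := (tendsto_pow_atTop_nhds_zero_of_lt_one (r := (1 / 2 : ℝ)) (by norm_num)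
        (by norm_num)).const_mul (s ^ 2)
      simpa using this
    have h2 : Tendsto (fun n => -(∑ m ∈ Finset.range (n + 1), tm s g A m)
        - ((s ^ 2 : ℝ) : ℂ) • ((-kg J g) ^ (n + 1) * C Q s A n)) atTop (𝓝 (-S - 0)) :=
      ((hlim.comp (tendsto_add_atTop_nat 1)).neg).sub hz
    have h3 : (fun n => (k1 Q A + ((s ^ 2 : ℝ) : ℂ) • kg J g) *
        (1 + kg J g * ∑ m ∈ Finset.range n, tm s g A m)) = fun n =>
        -(∑ m ∈ Finset.range (n + 1), tm s g A m)
        - ((s ^ 2 : ℝ) : ℂ) • ((-kg J g) ^ (n + 1) * C Q s A n) := by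
      funext n
      exact fin_id s g A n
    rw [h3] at h1
    have h4 := tendsto_nhds_unique h1 h2
    rw [sub_zero] at h4
    exact h4
  · intro δ n₀ hδ hch x i y j
    have e1 : S (x, i) (y, j) = (∑ m ∈ Finset.range n₀, tm s g A m) (x, i) (y, j) -
        ((∑ m ∈ Finset.range n₀, tm s g A m) - S) (x, i) (y, j) := by
      rw [Matrix.sub_apply]
      ring
    have e2 : ‖((∑ m ∈ Finset.range n₀, tm s g A m) - S) (x, i) (y, j)‖ ≤ 8 * s * (1 / 2) ^ n₀ :=
      norm_entry_le (by positivity) ((opB_iff _ (by positivity)).2 (hR n₀)) _ _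
    have e3 : ∀ m ∈ Finset.range n₀, ‖tm s g A m (x, i) (y, j)‖ ≤ δ * (1 / 2) ^ m := by
      intro m hm
      have hm' := Finset.mem_range.1 hm
      have f1 : tm s g A m (x, i) (y, j) = -((-g) ^ m) x y * ch (s ^ 2) A (m + 1) i j := by
        have f2 : tm s g A m = -(kg J ((-g) ^ m) * k1 Q (ch (s ^ 2) A (m + 1))) := by
          have f3 : kg J (-g) = -kg J g := by
            ext ⟨a, b⟩ ⟨c, d⟩
            simp [kg, Matrix.kronecker, Matrix.kroneckerMap_apply]
          rw [kg_pow, f3]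
          rfl
        rw [f2, Matrix.neg_apply, prod_apply]
        ring
      have f4 : ‖((-g) ^ m) x y‖ ≤ (1 / 2) ^ m := by
        have f5 : ‖(-g) ^ m‖ ≤ (1 / 2) ^ m := by
          have hγ2 : γ ≤ 1 / 2 := by
            refine hγ.trans ?_
            rw [div_le_div_iff₀ (by positivity) (by norm_num)]
            linarith
          have : ∀ k : ℕ, ‖(-g) ^ k‖ ≤ (1 / 2) ^ k := by
            intro k
            induction k with
            | zero => simpa using one_norm_le (n := Q)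
            | succ k ih =>
              rw [pow_succ, pow_succ]
              refine (norm_mul_le _ _).trans (mul_le_mul ih ?_ (norm_nonneg _) (by positivity))
              rw [norm_neg]
              exact (OpB.norm_le hg h0).trans hγ2
          exact this m
        exact norm_entry_le (by positivity) ((opB_iff _ (by positivity)).2 f5) _ _
      rw [f1, norm_mul, norm_neg]
      calc ‖((-g) ^ m) x y‖ * ‖ch (s ^ 2) A (m + 1) i j‖ ≤ (1 / 2) ^ m * δ :=
            mul_le_mul f4 (hch (m + 1) (by omega) (by omega) i j) (norm_nonneg _) (by positivity)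
        _ = _ := mul_comm _ _
    have e4 : ‖(∑ m ∈ Finset.range n₀, tm s g A m) (x, i) (y, j)‖ ≤ 2 * δ := by
      rw [Matrix.sum_apply]
      calc ‖∑ m ∈ Finset.range n₀, tm s g A m (x, i) (y, j)‖
          ≤ ∑ m ∈ Finset.range n₀, δ * (1 / 2) ^ m := norm_sum_le_of_le _ e3
        _ = δ * ∑ m ∈ Finset.range n₀, (1 / 2 : ℝ) ^ m := by rw [Finset.mul_sum]
        _ ≤ δ * 2 := by
            refine mul_le_mul_of_nonneg_left ?_ hδ
            have h := geom_sum_eq (x := (1 / 2 : ℝ)) (by norm_num) n₀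
            rw [h]
            have : (0 : ℝ) ≤ (1 / 2) ^ n₀ := by positivity
            rw [div_le_iff_of_neg (by norm_num)]
            linarith
        _ = 2 * δ := mul_comm _ _
    rw [e1]
    exact (norm_sub_le _ _).trans (add_le_add e4 e2)

end

end Pool.Agent.Q156.GK
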