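import Pool.Agent.Q156.GK.Stm

/-!
# Project GK (helper156), job SY1 (helper162): a symmetric function with semicircle law
-/

set_option autoImplicit false

namespace Pool.Agent.Q156.GK

open Pool.Agent.W792.GK MeasureTheory

noncomputable section

theorem SY1_ch_cont (c : ℝ) (n : ℕ) : Continuous (fun x : ℝ => ch c x n) ∧
    Continuous (fun x : ℝ => ch c x (n + 1)) := by
  induction n with
  | zero =>
    constructor
    · simp only [ch]
      exact continuous_const
    · simp only [ch]
      exact continuous_id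
  | succ n ih =>
    refine ⟨ih.2, ?_⟩
    simp only [ch]
    exact (continuous_id.mul ih.2).sub (ih.1.const_smul c)

/-- the maximum of the norms of the coordinates -/
def SY1_mx {ι : Type} [Fintype ι] [Nonempty ι] (k : UnitAddTorus ι) : ℝ :=
  Finset.univ.sup' Finset.univ_nonempty (fun i => ‖k i‖)

theorem SY1_mx_cont {ι : Type} [Fintype ι] [Nonempty ι] : Continuous (SY1_mx (ι := ι)) := by
  unfold SY1_mx
  refine Continuous.finset_sup'_apply _ fun i _ => ?_
  exact (continuous_apply i).norm

/-- **JOB SY1** -/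
theorem main_SY1 (hA : S_SYA) (hB : S_SYB) : Pool.Agent.W792.GK.S_SY1 := by
  intro ι _ _ _ s hs
  obtain ⟨c, hc, hcb, hci⟩ := hB s hs
  let a : C(UnitAddTorus ι, ℝ) := ⟨fun k => c ((2 * SY1_mx k) ^ (Fintype.card ι)), by
    exact hc.comp ((continuous_const.mul SY1_mx_cont).pow _)⟩
  have ha : ∀ k, a k = c ((2 * SY1_mx k) ^ (Fintype.card ι)) := fun _ => rfl
  refine ⟨a, ⟨?_, ?_⟩, ?_, ?_⟩
  · intro σ k
    rw [ha, ha]
    congr 3
    unfold SY1_mx
    apply le_antisymm
    · refine Finset.sup'_le _ _ fun i _ => ?_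
      exact Finset.le_sup' (fun i => ‖k i‖) (Finset.mem_univ (σ i))
    · refine Finset.sup'_le _ _ fun i _ => ?_
      have h := Finset.le_sup' (fun i => ‖k (σ i)‖) (Finset.mem_univ (σ.symm i))
      simpa using h
  · intro i k
    rw [ha, ha]
    congr 3
    unfold SY1_mx
    congr 1
    funext j
    by_cases h : j = i
    · subst h
      rw [Function.update_self, norm_neg]
    · rw [Function.update_of_ne h]
  · intro k
    rw [ha]
    exact hcb _
  · intro n hn
    unfold UnitAddTorus.mFourierCoeff
    have h1 : ∀ k : UnitAddTorus ι, UnitAddTorus.mFourier (-(0 : ι → ℤ)) k • ((ch (s ^ 2) (a k) n : ℝ) : ℂ) =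
        ((ch (s ^ 2) (a k) n : ℝ) : ℂ) := by
      intro k
      rw [neg_zero, UnitAddTorus.mFourier_zero]
      simp
    simp only [h1]
    rw [integral_complex_ofReal]
    have h2 := hA ι (fun t => ch (s ^ 2) (c t) n) ((SY1_ch_cont (s ^ 2) n).1.comp hc)
    have h3 : ∫ k : UnitAddTorus ι, ch (s ^ 2) (a k) n = 0 := by
      rw [← hci n hn, ← h2]
      rfl
    have hvol : (volume : Measure UnitAddCircle) = AddCircle.haarAddCircle := by
      rw [AddCircle.volume_eq_smul_haarAddCircle]
      simp
    have h4 : ∫ k : UnitAddTorus ι, ch (s ^ 2) (a k) n ∂(Measure.pi fun _ : ι => AddCircle.haarAddCircle) = 0 := by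
      rw [← hvol]
      exact h3
    have h5 : ((∫ k : UnitAddTorus ι, ch (s ^ 2) (a k) n ∂(Measure.pi fun _ : ι => AddCircle.haarAddCircle) : ℝ) : ℂ)
        = 0 := by
      rw [h4, Complex.ofReal_zero]
    exact h5

end

end Pool.Agent.Q156.GK
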