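import Pool.Agent.Q156.GK.Stm

set_option autoImplicit false

namespace Pool.Agent.Q156.GK

namespace SY2

open MeasureTheory UnitAddTorus Pool.Agent.W792.GK

noncomputable section

local instance : MeasureSpace UnitAddCircle := ⟨AddCircle.haarAddCircle⟩

local instance : Measure.IsAddHaarMeasure (volume : Measure UnitAddCircle) :=
  inferInstanceAs (Measure.IsAddHaarMeasure AddCircle.haarAddCircle)

local instance : IsProbabilityMeasure (volume : Measure UnitAddCircle) :=
  inferInstanceAs (IsProbabilityMeasure AddCircle.haarAddCircle)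

/-- Bessel. -/
theorem bessel {ι : Type} [Fintype ι] (K : C(UnitAddTorus ι, ℝ)) (S : Finset (ι → ℤ)) :
    ∑ x ∈ S, ‖hop K x‖ ^ 2 ≤ ‖K‖ ^ 2 := by
  set F : C(UnitAddTorus ι, ℂ) := ⟨fun t => (K t : ℂ), by fun_prop⟩ with hF
  have h := hasSum_sq_mFourierCoeff (F.toLp 2 (volume : Measure (UnitAddTorus ι)) ℂ)
  have h2 : (fun x : ι → ℤ => ‖mFourierCoeff (F.toLp 2 (volume : Measure (UnitAddTorus ι)) ℂ) x‖ ^ 2)
      = fun x => ‖hop K x‖ ^ 2 := by
    funext x
    rw [mFourierCoeff_toLp]
    rfl
  rw [h2] at h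
  refine (sum_le_hasSum S (fun _ _ => sq_nonneg _) h).trans ?_
  have h3 : ∫ t, ‖(F.toLp 2 (volume : Measure (UnitAddTorus ι)) ℂ) t‖ ^ 2 ≤
      ∫ _t : UnitAddTorus ι, ‖K‖ ^ 2 := by
    refine integral_mono_of_nonneg (Filter.Eventually.of_forall fun t => sq_nonneg _)
      (integrable_const _) ?_
    filter_upwards [F.coeFn_toLp (p := 2) (𝕜 := ℂ) (volume : Measure (UnitAddTorus ι))] with t ht
    rw [ht]
    have h4 : ‖F t‖ = ‖K t‖ := by
      show ‖((K t : ℝ) : ℂ)‖ = ‖K t‖
      rw [Complex.norm_real]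
    rw [h4]
    exact pow_le_pow_left₀ (norm_nonneg _) (K.norm_coe_le_norm t) 2
  refine h3.trans (le_of_eq ?_)
  rw [integral_const]
  simp

theorem hop_perm {ι : Type} [Fintype ι] [DecidableEq ι] {f : C(UnitAddTorus ι, ℝ)} (hf : IsSym f)
    (σ : Equiv.Perm ι) (γ : ι → ℤ) : hop f (fun i => γ (σ i)) = hop f γ := by
  unfold hop mFourierCoeff
  have hm := volume_measurePreserving_piCongrLeft (fun _ : ι => UnitAddCircle) σ
  have e : ∀ t : UnitAddTorus ι, MeasurableEquiv.piCongrLeft (fun _ : ι => UnitAddCircle) σ t =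
      fun j => t (σ.symm j) := by
    intro t
    funext j
    obtain ⟨i, rfl⟩ := σ.surjective j
    rw [MeasurableEquiv.coe_piCongrLeft, Equiv.piCongrLeft_apply_apply, Equiv.symm_apply_apply]
  rw [← hm.integral_comp' (g := fun t => mFourier (-γ) t • ((f t : ℝ) : ℂ))]
  refine integral_congr_ae (Filter.Eventually.of_forall fun t => ?_)
  show mFourier (-fun i => γ (σ i)) t • ((f t : ℝ) : ℂ) = mFourier (-γ)
    (MeasurableEquiv.piCongrLeft (fun _ : ι => UnitAddCircle) σ t) •
      ((f (MeasurableEquiv.piCongrLeft (fun _ : ι => UnitAddCircle) σ t) : ℝ) : ℂ)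
  rw [e t, hf.1 σ.symm t]
  congr 1
  show ∏ i, fourier ((-fun i => γ (σ i)) i) (t i) = ∏ j, fourier ((-γ) j) (t (σ.symm j))
  rw [← Equiv.prod_comp σ (fun j => fourier ((-γ) j) (t (σ.symm j)))]
  refine Finset.prod_congr rfl fun i _ => ?_
  rw [Equiv.symm_apply_apply]
  rfl

theorem hop_neg {ι : Type} [Fintype ι] [DecidableEq ι] {f : C(UnitAddTorus ι, ℝ)} (hf : IsSym f)
    (i : ι) (γ : ι → ℤ) : hop f (Function.update γ i (-γ i)) = hop f γ := by
  unfold hop mFourierCoeff
  have h0 : ∀ j : ι, MeasurePreserving (fun x : UnitAddCircle => if j = i then -x else x)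
      volume volume := by
    intro j
    by_cases h : j = i
    · simp only [h, if_true]
      exact Measure.measurePreserving_neg _
    · simp only [h, if_false]
      exact MeasurePreserving.id _
  have hm : MeasurePreserving (fun (t : UnitAddTorus ι) (j : ι) => if j = i then -(t j) else t j)
      volume volume := measurePreserving_pi _ _ h0
  have e : (fun (t : UnitAddTorus ι) (j : ι) => if j = i then -(t j) else t j) =
      fun t => Function.update t i (-(t i)) := by
    funext t j
    by_cases h : j = i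
    · subst h; simp
    · simp [h]
  rw [e] at hm
  have hg : Continuous fun t : UnitAddTorus ι => mFourier (-γ) t • ((f t : ℝ) : ℂ) := by fun_prop
  have h1 : ∫ t : UnitAddTorus ι, mFourier (-γ) t • ((f t : ℝ) : ℂ) =
      ∫ t : UnitAddTorus ι, mFourier (-γ) (Function.update t i (-(t i))) •
        ((f (Function.update t i (-(t i))) : ℝ) : ℂ) := by
    conv_lhs => rw [← hm.map_eq]
    rw [integral_map hm.measurable.aemeasurable hg.aestronglyMeasurable]
  rw [h1]
  refine integral_congr_ae (Filter.Eventually.of_forall fun t => ?_)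
  show mFourier (-Function.update γ i (-γ i)) t • ((f t : ℝ) : ℂ) =
    mFourier (-γ) (Function.update t i (-(t i))) • ((f (Function.update t i (-(t i))) : ℝ) : ℂ)
  rw [hf.2 i t]
  congr 1
  show ∏ j, fourier ((-Function.update γ i (-γ i)) j) (t j) =
    ∏ j, fourier ((-γ) j) (Function.update t i (-(t i)) j)
  refine Finset.prod_congr rfl fun j _ => ?_
  by_cases h : j = i
  · subst h
    rw [Pi.neg_apply, Pi.neg_apply, Function.update_self, Function.update_self, fourier_apply,
      fourier_apply, smul_neg, ← neg_smul, neg_neg]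
  · rw [Pi.neg_apply, Pi.neg_apply, Function.update_of_ne h, Function.update_of_ne h]

/-- many frequencies with the same coefficient -/
theorem freq {ι : Type} [Fintype ι] [DecidableEq ι] (γ : ι → ℤ) (hγ : γ ≠ 0) :
    ∃ S : Finset (ι → ℤ), Fintype.card ι ≤ 2 * S.card ∧ ∀ γ' ∈ S,
      (∃ i, γ' = Function.update γ i (-γ i)) ∨ ∃ σ : Equiv.Perm ι, γ' = fun i => γ (σ i) := by
  obtain ⟨i₀, hi₀⟩ : ∃ i, γ i ≠ 0 := by
    by_contra h
    push Not at h
    exact hγ (funext h)
  have hcard : (Finset.univ.filter fun i => γ i = 0).card +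
      (Finset.univ.filter fun i => ¬ γ i = 0).card = Fintype.card ι :=
    Finset.card_filter_add_card_filter_not _
  by_cases h : Fintype.card ι ≤ 2 * (Finset.univ.filter fun i => ¬ γ i = 0).card
  · refine ⟨(Finset.univ.filter fun i => ¬ γ i = 0).image fun i => Function.update γ i (-γ i),
      ?_, ?_⟩
    · rw [Finset.card_image_of_injOn]
      · exact h
      · intro i hi j hj hij
        by_contra hne
        have h1 : γ i ≠ 0 := (Finset.mem_filter.1 hi).2
        have h2 := congrFun hij i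
        simp only [Function.update_self] at h2
        rw [Function.update_of_ne hne] at h2
        omega
    · intro γ' hγ'
      obtain ⟨i, -, rfl⟩ := Finset.mem_image.1 hγ'
      exact Or.inl ⟨i, rfl⟩
  · refine ⟨(Finset.univ.filter fun i => γ i = 0).image fun z => fun i => γ (Equiv.swap i₀ z i),
      ?_, ?_⟩
    · rw [Finset.card_image_of_injOn]
      · omega
      · intro z hz z' hz' hzz
        by_contra hne
        have h1 : γ z = 0 := (Finset.mem_filter.1 hz).2
        have h1' : γ z' = 0 := (Finset.mem_filter.1 hz').2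
        have h2 := congrFun hzz z
        simp only [Equiv.swap_apply_right] at h2
        have h3 : z ≠ i₀ := fun h => hi₀ (h ▸ h1)
        rw [Equiv.swap_apply_of_ne_of_ne h3 hne, h1] at h2
        exact hi₀ h2
    · intro γ' hγ'
      obtain ⟨z, -, rfl⟩ := Finset.mem_image.1 hγ'
      exact Or.inr ⟨_, rfl⟩

end

end SY2

open Pool.Agent.W792.GK in
theorem main_SY2 : S_SY2 := by
  intro ι _ _ f hf γ hγ
  obtain ⟨S, hS, hS2⟩ := SY2.freq γ hγ
  have h1 : ∀ γ' ∈ S, ‖hop f γ'‖ ^ 2 = ‖hop f γ‖ ^ 2 := by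
    intro γ' hγ'
    rcases hS2 γ' hγ' with ⟨i, rfl⟩ | ⟨σ, rfl⟩
    · rw [SY2.hop_neg hf]
    · rw [SY2.hop_perm hf]
  have h2 := SY2.bessel f S
  rw [Finset.sum_congr rfl h1, Finset.sum_const, nsmul_eq_mul] at h2
  have h3 : (Fintype.card ι : ℝ) ≤ 2 * S.card := by exact_mod_cast hS
  have h4 : 0 ≤ ‖hop f γ‖ ^ 2 := sq_nonneg _
  nlinarith [mul_le_mul_of_nonneg_left h3 h4]

end Pool.Agent.Q156.GK
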