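import Pool.Agent.Q156.GK.Stm

set_option autoImplicit false

namespace Pool.Agent.Q156.GK

open Pool.Agent.W792.GK

namespace SY3

theorem ch_cont (c : ℝ) (n : ℕ) : Continuous fun x : ℝ => ch c x n := by
  induction n using Nat.strong_induction_on with
  | _ n ih =>
    match n with
    | 0 => exact continuous_const
    | 1 => exact continuous_id
    | (n + 2) =>
      have h1 := ih (n + 1) (by omega)
      have h2 := ih n (by omega)
      exact (continuous_id.mul h1).sub (h2.const_smul c)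

theorem ch_bound {s x : ℝ} (hs : 0 < s) (hx : |x| ≤ 2 * s) (n : ℕ) :
    |ch (s ^ 2) x n| ≤ (3 * s) ^ n := by
  induction n using Nat.strong_induction_on with
  | _ n ih =>
    match n with
    | 0 => show |(1 : ℝ)| ≤ _; simp
    | 1 => show |x| ≤ _; rw [pow_one]; linarith
    | (n + 2) =>
      have h1 := ih (n + 1) (by omega)
      have h2 := ih n (by omega)
      show |x * ch (s ^ 2) x (n + 1) - s ^ 2 • ch (s ^ 2) x n| ≤ _
      rw [smul_eq_mul]
      refine (abs_sub _ _).trans ?_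
      rw [abs_mul, abs_mul, abs_of_nonneg (sq_nonneg s)]
      have h3 : |x| * |ch (s ^ 2) x (n + 1)| ≤ (2 * s) * (3 * s) ^ (n + 1) :=
        mul_le_mul hx h1 (abs_nonneg _) (by linarith)
      have h4 : s ^ 2 * |ch (s ^ 2) x n| ≤ s ^ 2 * (3 * s) ^ n :=
        mul_le_mul_of_nonneg_left h2 (sq_nonneg s)
      have h5 : 0 ≤ (3 * s) ^ n := by positivity
      have e1 : (2 * s) * (3 * s) ^ (n + 1) = 6 * s ^ 2 * (3 * s) ^ n := by ring
      have e2 : (3 * s) ^ (n + 2) = 9 * s ^ 2 * (3 * s) ^ n := by ring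
      rw [e1] at h3
      rw [e2]
      nlinarith [mul_nonneg (sq_nonneg s) h5]

end SY3

theorem main_SY3 : S_SY1 → S_SY2 → S_SY3 := by
  intro h1 h2 d hd s δ n₀ hs hδ
  set M : ℝ := (3 * s + 1) ^ n₀ with hM
  obtain ⟨r, hr⟩ := exists_nat_gt (2 * M ^ 2 / δ ^ 2)
  have hM1 : 1 ≤ M := one_le_pow₀ (by linarith)
  have hδ2 : 0 < δ ^ 2 := by positivity
  have hr0 : 0 < r := by
    have : (0 : ℝ) < r := lt_of_le_of_lt (by positivity) hr
    exact_mod_cast this
  have hr2 : 2 * M ^ 2 ≤ δ ^ 2 * (d * r) := by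
    rw [div_lt_iff₀ hδ2] at hr
    have hd1 : (1 : ℝ) ≤ d := by exact_mod_cast hd
    have h3 : (r : ℝ) ≤ d * r := by
      have : (0 : ℝ) ≤ r := Nat.cast_nonneg r
      nlinarith
    nlinarith
  have : Nonempty (Fin d × Fin r) := ⟨(⟨0, hd⟩, ⟨0, hr0⟩)⟩
  obtain ⟨a, ha, hab, hac⟩ := h1 (Fin d × Fin r) s hs
  refine ⟨r, a, hr0, ha, hab, fun n hn hn0 γ => ?_⟩
  by_cases hγ : γ = 0
  · subst hγ
    rw [hac n hn, norm_zero]
    exact hδ.le
  · set F : C(UnitAddTorus (Fin d × Fin r), ℝ) :=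
      ⟨fun k => ch (s ^ 2) (a k) n, (SY3.ch_cont (s ^ 2) n).comp a.continuous⟩ with hF
    have hFs : IsSym F := by
      refine ⟨fun σ k => ?_, fun i k => ?_⟩
      · show ch (s ^ 2) (a fun i => k (σ i)) n = ch (s ^ 2) (a k) n
        rw [ha.1 σ k]
      · show ch (s ^ 2) (a (Function.update k i (-(k i)))) n = ch (s ^ 2) (a k) n
        rw [ha.2 i k]
    have hFn : ‖F‖ ≤ M := by
      refine (ContinuousMap.norm_le _ (by linarith)).2 fun k => ?_
      show |ch (s ^ 2) (a k) n| ≤ M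
      refine (SY3.ch_bound hs (hab k) n).trans ?_
      calc (3 * s) ^ n ≤ (3 * s + 1) ^ n := pow_le_pow_left₀ (by positivity) (by linarith) n
        _ ≤ (3 * s + 1) ^ n₀ := pow_le_pow_right₀ (by linarith) hn0
    have h3 := h2 (Fin d × Fin r) F hFs γ hγ
    have h4 : hop F γ = UnitAddTorus.mFourierCoeff
        (fun k => ((ch (s ^ 2) (a k) n : ℝ) : ℂ)) γ := rfl
    rw [← h4]
    rw [Fintype.card_prod, Fintype.card_fin, Fintype.card_fin] at h3
    push_cast at h3
    have h5 : ‖F‖ ^ 2 ≤ M ^ 2 := pow_le_pow_left₀ (norm_nonneg _) hFn 2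
    have h6 : ‖hop F γ‖ ^ 2 * ((d : ℝ) * r) ≤ δ ^ 2 * (d * r) := by linarith
    have hdr : (0 : ℝ) < (d : ℝ) * r := by
      have : (0 : ℝ) < d := by exact_mod_cast hd
      have : (0 : ℝ) < r := by exact_mod_cast hr0
      positivity
    have h7 : ‖hop F γ‖ ^ 2 ≤ δ ^ 2 := le_of_mul_le_mul_right h6 hdr
    exact le_of_sq_le_sq h7 hδ.le

end Pool.Agent.Q156.GK
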