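import Pool.Agent.Q156.GK.Stm

/-!
# Project GK, job SYA: the law of `(2 max ‖k i‖) ^ |ι|` is uniform
-/

set_option autoImplicit false

namespace Pool.Agent.Q156.GK.SYAaux

open MeasureTheory Set

variable {ι : Type} [Fintype ι] [DecidableEq ι] [Nonempty ι]

/-- The function `(2 max ‖k i‖) ^ |ι|`. -/
noncomputable def u (k : UnitAddTorus ι) : ℝ :=
  (2 * Finset.univ.sup' Finset.univ_nonempty (fun i => ‖k i‖)) ^ (Fintype.card ι)

lemma sup_nonneg (k : UnitAddTorus ι) :
    0 ≤ Finset.univ.sup' Finset.univ_nonempty (fun i => ‖k i‖) := by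
  obtain ⟨i⟩ := ‹Nonempty ι›
  exact (norm_nonneg (k i)).trans (Finset.le_sup' (fun i => ‖k i‖) (Finset.mem_univ i))

lemma u_nonneg (k : UnitAddTorus ι) : 0 ≤ u k :=
  pow_nonneg (mul_nonneg zero_le_two (sup_nonneg k)) _

lemma preim {t : ℝ} (ht : 0 ≤ t) : (u ⁻¹' Iic t : Set (UnitAddTorus ι)) =
    Set.pi univ fun _ : ι => Metric.closedBall (0 : UnitAddCircle)
      (t ^ ((Fintype.card ι : ℝ)⁻¹) / 2) := by
  have hN : Fintype.card ι ≠ 0 := Fintype.card_ne_zero
  set x : ℝ := t ^ ((Fintype.card ι : ℝ)⁻¹) with hx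
  have hx0 : 0 ≤ x := Real.rpow_nonneg ht _
  have hxN : x ^ (Fintype.card ι) = t := Real.rpow_inv_natCast_pow ht hN
  ext k
  simp only [mem_preimage, mem_Iic, mem_pi, mem_univ, true_implies, mem_closedBall_zero_iff]
  unfold u
  conv_lhs => rw [← hxN]
  rw [pow_le_pow_iff_left₀ (mul_nonneg zero_le_two (sup_nonneg k)) hx0 hN,
    ← le_div_iff₀' (by norm_num : (0 : ℝ) < 2), Finset.sup'_le_iff]
  simp

lemma preim_neg {t : ℝ} (ht : t < 0) : (u ⁻¹' Iic t : Set (UnitAddTorus ι)) = ∅ := by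
  ext k
  simp only [mem_preimage, mem_Iic, mem_empty_iff_false, iff_false, not_le]
  exact ht.trans_le (u_nonneg k)

lemma u_measurable : Measurable (u : UnitAddTorus ι → ℝ) := by
  refine measurable_of_Iic fun t => ?_
  rcases lt_or_ge t 0 with ht | ht
  · rw [preim_neg ht]
    exact MeasurableSet.empty
  · rw [preim ht]
    exact MeasurableSet.univ_pi fun _ => Metric.isClosed_closedBall.measurableSet

lemma min_pow {x : ℝ} (hx : 0 ≤ x) {n : ℕ} (hn : n ≠ 0) : (min 1 x) ^ n = min 1 (x ^ n) := by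
  rcases le_total 1 x with h | h
  · rw [min_eq_left h, one_pow, min_eq_left (one_le_pow₀ h)]
  · rw [min_eq_right h, min_eq_right (pow_le_one₀ hx h)]

lemma map_u : Measure.map (u : UnitAddTorus ι → ℝ) volume = volume.restrict (Ioc (0 : ℝ) 1) := by
  have h0 : IsProbabilityMeasure (volume : Measure (UnitAddTorus ι)) := ⟨by
    rw [volume_pi, Measure.pi_univ]
    simp [UnitAddCircle.measure_univ]⟩
  have h1 : IsProbabilityMeasure (Measure.map (u : UnitAddTorus ι → ℝ) volume) :=
    Measure.isProbabilityMeasure_map u_measurable.aemeasurable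
  have hN : Fintype.card ι ≠ 0 := Fintype.card_ne_zero
  refine Measure.ext_of_Iic _ _ fun t => ?_
  rw [Measure.map_apply u_measurable measurableSet_Iic, Measure.restrict_apply measurableSet_Iic]
  rcases lt_or_ge t 0 with ht | ht
  · rw [preim_neg ht, measure_empty]
    have e : Iic t ∩ Ioc (0 : ℝ) 1 = ∅ := by
      ext x
      simp only [mem_inter_iff, mem_Iic, mem_Ioc, mem_empty_iff_false, iff_false]
      rintro ⟨h1, h2, _⟩
      linarith
    rw [e, measure_empty]
  · rw [preim ht, volume_pi, Measure.pi_pi]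
    have e : Iic t ∩ Ioc (0 : ℝ) 1 = Ioc 0 (min 1 t) := by
      ext x
      simp only [mem_inter_iff, mem_Iic, mem_Ioc, le_min_iff]
      tauto
    rw [e, Real.volume_Ioc, sub_zero]
    set x : ℝ := t ^ ((Fintype.card ι : ℝ)⁻¹) with hx
    have hx0 : 0 ≤ x := Real.rpow_nonneg ht _
    have hxN : x ^ (Fintype.card ι) = t := Real.rpow_inv_natCast_pow ht hN
    rw [Finset.prod_congr rfl fun i _ => AddCircle.volume_closedBall (T := (1 : ℝ)) (x := 0) (x / 2),
      Finset.prod_const, Finset.card_univ, ← ENNReal.ofReal_pow (le_min zero_le_one (by linarith)),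
      mul_div_cancel₀ _ (two_ne_zero), min_pow hx0 hN, hxN]

end Pool.Agent.Q156.GK.SYAaux

namespace Pool.Agent.Q156.GK

open Pool.Agent.W792.GK SYAaux MeasureTheory

theorem main_SYA : S_SYA := by
  intro ι _ _ _ f hf
  rw [intervalIntegral.integral_of_le zero_le_one, ← map_u (ι := ι),
    integral_map u_measurable.aemeasurable hf.aestronglyMeasurable]
  rfl

end Pool.Agent.Q156.GK
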