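import Pool.Agent.Q156.GK.Stm

/-!
# Project GK, job SYB: a monotone parametrisation of the semicircle law
-/

set_option autoImplicit false

namespace Pool.Agent.Q156.GK.SYBaux

open Pool.Agent.W792.GK Real

/-- The distribution function. -/
noncomputable def Phi (θ : ℝ) : ℝ := (θ - sin θ * cos θ) / π

lemma Phi_eq (θ : ℝ) : Phi θ = (θ - sin (2 * θ) / 2) / π := by
  unfold Phi
  rw [sin_two_mul]
  ring

lemma Phi_strictMono : StrictMono Phi := by
  intro a b hab
  rw [Phi_eq, Phi_eq]
  apply div_lt_div_of_pos_right _ pi_pos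
  have h1 : sin (2 * b) - sin (2 * a) = 2 * sin (b - a) * cos (a + b) := by
    rw [sin_sub_sin]
    congr 2
    · congr 1
      ring
    · ring
  have h2 : |sin (b - a)| < |b - a| := abs_sin_lt_abs (by linarith)
  rw [abs_of_pos (by linarith : 0 < b - a)] at h2
  have h3 : sin (b - a) * cos (a + b) ≤ |sin (b - a)| := by
    calc sin (b - a) * cos (a + b) ≤ |sin (b - a) * cos (a + b)| := le_abs_self _
      _ = |sin (b - a)| * |cos (a + b)| := abs_mul _ _
      _ ≤ |sin (b - a)| * 1 := mul_le_mul_of_nonneg_left (abs_cos_le_one _) (abs_nonneg _)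
      _ = |sin (b - a)| := mul_one _
  linarith

lemma Phi_continuous : Continuous Phi := by
  unfold Phi
  fun_prop

lemma Phi_surjective : Function.Surjective Phi := by
  apply Phi_continuous.surjective
  · apply Filter.tendsto_atTop_mono (f := fun θ => (θ - 1) / π)
    · intro θ
      rw [Phi_eq]
      apply div_le_div_of_nonneg_right _ pi_pos.le
      linarith [sin_le_one (2 * θ)]
    · exact (Filter.tendsto_atTop_add_const_right _ (-1) Filter.tendsto_id).atTop_div_const pi_pos
  · apply Filter.tendsto_atBot_mono (f := fun θ => (θ + 1) / π)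
    · intro θ
      rw [Phi_eq]
      apply div_le_div_of_nonneg_right _ pi_pos.le
      linarith [neg_one_le_sin (2 * θ)]
    · exact (Filter.tendsto_atBot_add_const_right _ 1 Filter.tendsto_id).atBot_div_const pi_pos

/-- The order isomorphism. -/
noncomputable def iso : ℝ ≃o ℝ := Phi_strictMono.orderIsoOfSurjective Phi Phi_surjective

lemma iso_apply (θ : ℝ) : iso θ = Phi θ := rfl

lemma hasDerivAt_Phi (θ : ℝ) : HasDerivAt Phi (2 / π * sin θ ^ 2) θ := by
  have h1 := ((hasDerivAt_id θ).sub ((hasDerivAt_sin θ).mul (hasDerivAt_cos θ))).div_const π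
  refine h1.congr_deriv ?_
  have h2 := sin_sq_add_cos_sq θ
  have hp := pi_pos.ne'
  field_simp
  linear_combination -h2

lemma ch_sin (s θ : ℝ) (n : ℕ) :
    (ch (s ^ 2) (2 * s * cos θ) n : ℝ) * sin θ = s ^ n * sin ((n + 1) * θ) ∧
    (ch (s ^ 2) (2 * s * cos θ) (n + 1) : ℝ) * sin θ = s ^ (n + 1) * sin ((n + 2) * θ) := by
  induction n with
  | zero =>
    constructor
    · simp [ch]
    · simp only [ch, Nat.cast_zero, zero_add, pow_one]
      rw [sin_two_mul]
      ring
  | succ n ih =>
    refine ⟨?_, ?_⟩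
    · rw [ih.2]
      push_cast
      ring_nf
    · have e : (ch (s ^ 2) (2 * s * cos θ) (n + 1 + 1) : ℝ) =
          2 * s * cos θ * ch (s ^ 2) (2 * s * cos θ) (n + 1) -
            s ^ 2 • ch (s ^ 2) (2 * s * cos θ) n := rfl
      rw [e, smul_eq_mul, sub_mul, mul_assoc, ih.2, mul_assoc (s ^ 2), ih.1]
      push_cast
      have h1 : sin (((n : ℝ) + 1 + 2) * θ) = sin (((n : ℝ) + 2) * θ) * cos θ +
          cos (((n : ℝ) + 2) * θ) * sin θ := by
        rw [← sin_add]
        ring_nf
      have h2 : sin (((n : ℝ) + 1) * θ) = sin (((n : ℝ) + 2) * θ) * cos θ -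
          cos (((n : ℝ) + 2) * θ) * sin θ := by
        rw [← sin_sub]
        ring_nf
      rw [h1, h2]
      ring

lemma int_cos {k : ℝ} (hk : k ≠ 0) (hs : sin (k * π) = 0) : ∫ θ in (0 : ℝ)..π, cos (k * θ) = 0 := by
  rw [intervalIntegral.integral_comp_mul_left _ hk, integral_cos, hs]
  simp

lemma int_zero (n : ℕ) (hn : 1 ≤ n) :
    ∫ θ in (0 : ℝ)..π, sin ((n + 1) * θ) * sin θ = 0 := by
  have e : ∀ θ : ℝ, sin (((n : ℝ) + 1) * θ) * sin θ =
      (1 / 2) * (cos ((n : ℝ) * θ) - cos (((n : ℝ) + 2) * θ)) := by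
    intro θ
    have h1 : cos ((n : ℝ) * θ) = cos (((n : ℝ) + 1) * θ) * cos θ +
        sin (((n : ℝ) + 1) * θ) * sin θ := by
      rw [← cos_sub]
      ring_nf
    have h2 : cos (((n : ℝ) + 2) * θ) = cos (((n : ℝ) + 1) * θ) * cos θ -
        sin (((n : ℝ) + 1) * θ) * sin θ := by
      rw [← cos_add]
      ring_nf
    rw [h1, h2]
    ring
  simp only [e]
  rw [intervalIntegral.integral_const_mul, intervalIntegral.integral_sub, int_cos, int_cos]
  · simp
  · positivity
  · have := sin_nat_mul_pi (n + 2)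
    push_cast at this
    exact this
  · exact_mod_cast (by omega : n ≠ 0)
  · exact sin_nat_mul_pi n
  · apply Continuous.intervalIntegrable
    fun_prop
  · apply Continuous.intervalIntegrable
    fun_prop

lemma continuous_ch (c : ℝ) (n : ℕ) :
    Continuous (fun x : ℝ => (ch c x n : ℝ)) ∧ Continuous (fun x : ℝ => (ch c x (n + 1) : ℝ)) := by
  induction n with
  | zero =>
    constructor
    · change Continuous fun _ : ℝ => (1 : ℝ)
      exact continuous_const
    · change Continuous fun x : ℝ => x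
      exact continuous_id
  | succ n ih =>
    refine ⟨ih.2, ?_⟩
    change Continuous fun x : ℝ => x * ch c x (n + 1) - c • ch c x n
    exact (continuous_id.mul ih.2).sub (ih.1.const_smul c)

end Pool.Agent.Q156.GK.SYBaux

namespace Pool.Agent.Q156.GK

open Pool.Agent.W792.GK SYBaux Real

theorem main_SYB : S_SYB := by
  intro s hs
  refine ⟨fun t => 2 * s * cos (iso.symm t), ?_, ?_, ?_⟩
  · exact (continuous_cos.comp iso.symm.continuous).const_mul _ |>.congr fun t => rfl
  · intro t
    rw [abs_mul, abs_of_pos (by positivity : 0 < 2 * s)]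
    exact mul_le_of_le_one_right (by positivity) (abs_cos_le_one _)
  · intro n hn
    have h0 : Phi 0 = 0 := by simp [Phi]
    have h1 : Phi π = 1 := by simp [Phi]
    have hg : Continuous fun t : ℝ => (ch (s ^ 2) (2 * s * cos (iso.symm t)) n : ℝ) :=
      (continuous_ch (s ^ 2) n).1.comp
        ((continuous_cos.comp iso.symm.continuous).const_mul (2 * s))
    have h2 := intervalIntegral.integral_comp_mul_deriv (a := 0) (b := π) (f := Phi)
      (f' := fun θ => 2 / π * sin θ ^ 2)
      (g := fun t : ℝ => (ch (s ^ 2) (2 * s * cos (iso.symm t)) n : ℝ))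
      (fun θ _ => hasDerivAt_Phi θ) (by fun_prop) hg
    rw [h0, h1] at h2
    rw [← h2]
    have h3 : ∀ θ : ℝ, ((fun t : ℝ => (ch (s ^ 2) (2 * s * cos (iso.symm t)) n : ℝ)) ∘ Phi) θ *
        (2 / π * sin θ ^ 2) = 2 / π * s ^ n * (sin ((n + 1) * θ) * sin θ) := by
      intro θ
      have h4 : iso.symm (Phi θ) = θ := iso.symm_apply_apply θ
      rw [Function.comp_apply, h4]
      have h5 := (ch_sin s θ n).1
      linear_combination (2 / π * sin θ) * h5
    simp only [h3]
    rw [intervalIntegral.integral_const_mul, int_zero n hn, mul_zero]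

end Pool.Agent.Q156.GK
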