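import Pool.Agent.Q156.GK.Stm
import Pool.Agent.W918.LL.Opr

/-! GK-T1: the hopping operators on `ℓ²(ℤ^ι)` with real continuous symbol (helper288). -/

set_option autoImplicit false

namespace Pool.Agent.Q156.GK.T1P

open MeasureTheory UnitAddTorus Pool.Agent.W792.GK
open scoped ComplexConjugate

noncomputable section

section gen

variable {Γ : Type} [DecidableEq Γ]

theorem inner_sg (x : Γ) (f : l2 Γ) : inner ℂ (lp.single 2 x (1 : ℂ) : l2 Γ) f = f x := by
  rw [lp.inner_single_left]
  simp

theorem sg_smul (x : Γ) (c : ℂ) : (lp.single 2 x c : l2 Γ) = c • lp.single 2 x (1 : ℂ) := by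
  rw [← lp.single_smul]
  simp

theorem ext_sg {A B : l2 Γ →L[ℂ] l2 Γ}
    (h : ∀ y, A (lp.single 2 y (1 : ℂ)) = B (lp.single 2 y (1 : ℂ))) : A = B := by
  refine ContinuousLinearMap.ext fun u => ?_
  have h1 := (lp.hasSum_single (p := 2) (by norm_num) u).mapL A
  have h2 := (lp.hasSum_single (p := 2) (by norm_num) u).mapL B
  have h3 : (fun i => A (lp.single 2 i (u i))) = fun i => B (lp.single 2 i (u i)) := by
    funext i
    rw [sg_smul, map_smul, map_smul, h]
  rw [h3] at h1
  exact h1.unique h2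

/-- an operator with hermitian kernel is self-adjoint -/
theorem sa_of_kernel (A : l2 Γ →L[ℂ] l2 Γ)
    (h : ∀ x y, (A (lp.single 2 y (1 : ℂ))) x = conj ((A (lp.single 2 x (1 : ℂ))) y)) :
    IsSelfAdjoint A := by
  rw [ContinuousLinearMap.isSelfAdjoint_iff']
  apply ext_sg
  intro y
  refine lp.ext (funext fun x => ?_)
  rw [← inner_sg x, ContinuousLinearMap.adjoint_inner_right, ← inner_conj_symm, inner_sg, h x y]

end gen

/-- the kernel of a real symbol is hermitian -/
theorem conj_hop {ι : Type} [Fintype ι] (K : C(UnitAddTorus ι, ℝ)) (n : ι → ℤ) :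
    conj (hop K n) = hop K (-n) := by
  unfold hop mFourierCoeff
  rw [← integral_conj]
  refine integral_congr_ae (Filter.Eventually.of_forall fun t => ?_)
  simp only [smul_eq_mul, map_mul, Complex.conj_ofReal, neg_neg]
  rw [mFourier_neg]
  simp

end

end Pool.Agent.Q156.GK.T1P

namespace Pool.Agent.Q156.GK

open MeasureTheory UnitAddTorus Pool.Agent.W792.GK T1P
open scoped ComplexConjugate

theorem main_T1 : S_T1 := by
  classical
  intro ι _ K
  obtain ⟨m, hm⟩ : ∃ m : C(UnitAddTorus ι, ℂ), ∀ k, m k = (K k : ℂ) :=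
    ⟨⟨fun k => (K k : ℂ), by fun_prop⟩, fun _ => rfl⟩
  have hc : ∀ x, mFourierCoeff m x = hop K x := by
    intro x
    unfold hop
    congr 1
    funext k
    exact hm k
  have hT : ∀ (u : l2 (ι → ℤ)) (x : ι → ℤ),
      Pool.Agent.W918.LL.opT m u x = ∑' y, hop K (x - y) * u y := by
    intro u x
    rw [← (Pool.Agent.W918.LL.opT_hasSum m u x).tsum_eq]
    simp only [hc]
  refine ⟨Pool.Agent.W918.LL.opT m, ?_, ?_, hT⟩
  · refine sa_of_kernel _ fun x y => ?_
    have hs : ∀ x y : ι → ℤ, (Pool.Agent.W918.LL.opT m (lp.single 2 y (1 : ℂ))) x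
        = hop K (x - y) := by
      intro x y
      rw [hT, tsum_eq_single y]
      · rw [lp.single_apply_self, mul_one]
      · intro y' hy
        rw [lp.single_apply_ne _ _ _ hy, mul_zero]
    rw [hs, hs, conj_hop, neg_sub]
  · refine (Pool.Agent.W918.LL.norm_opT_le m).trans ?_
    refine (ContinuousMap.norm_le _ (norm_nonneg _)).2 fun k => ?_
    rw [hm, Complex.norm_real]
    exact K.norm_coe_le_norm k

end Pool.Agent.Q156.GK
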