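import Pool.Agent.Q156.GK.Stm

/-!
# Project GK, job TI: translation invariance in law of the finite model
-/

set_option autoImplicit false

namespace Pool.Agent.Q156.GK

open Pool.Agent.W792.GK MeasureTheory

/-- the translation of the first component -/
def tiE (Q J : Type) [AddCommGroup Q] (x : Q) : Q × J ≃ Q × J :=
  (Equiv.addRight x).prodCongr (Equiv.refl J)

lemma tiE_apply {Q J : Type} [AddCommGroup Q] (x : Q) (q : Q × J) :
    tiE Q J x q = (q.1 + x, q.2) := rfl

lemma ti_ham {Q J : Type} [AddCommGroup Q] [DecidableEq Q] [DecidableEq J]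
    (κ : Q → ℂ) (A : Matrix J J ℂ) (v : Q × J → ℝ) (x : Q) :
    ham κ A (fun q => v (tiE Q J x q)) = (ham κ A v).submatrix (tiE Q J x) (tiE Q J x) := by
  funext q r
  rw [Matrix.submatrix_apply]
  unfold ham
  simp only [tiE_apply, add_sub_add_right_eq_sub, add_left_inj]
  congr 2
  apply propext
  rw [Prod.ext_iff, Prod.ext_iff]
  simp only [add_left_inj]

lemma ti_gr {Q J : Type} [AddCommGroup Q] [Fintype Q] [DecidableEq Q] [Fintype J] [DecidableEq J]
    (κ : Q → ℂ) (A : Matrix J J ℂ) (v : Q × J → ℝ) (z : ℂ) (p : J) (x : Q) :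
    gr κ A (fun q => v (tiE Q J x q)) z p 0 0 = gr κ A v z p x x := by
  have h1 : z • (1 : Matrix (Q × J) (Q × J) ℂ) =
      (z • (1 : Matrix (Q × J) (Q × J) ℂ)).submatrix (tiE Q J x) (tiE Q J x) := by
    rw [Matrix.submatrix_smul, Pi.smul_apply, Pi.smul_apply, Matrix.submatrix_one_equiv]
  have h2 : ham κ A (fun q => v (tiE Q J x q)) - z • (1 : Matrix (Q × J) (Q × J) ℂ) =
      (ham κ A v - z • (1 : Matrix (Q × J) (Q × J) ℂ)).submatrix (tiE Q J x) (tiE Q J x) := by
    rw [Matrix.submatrix_sub, Pi.sub_apply, Pi.sub_apply, ← h1, ti_ham]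
  unfold gr
  rw [h2, Matrix.inv_submatrix_equiv, Matrix.submatrix_apply, tiE_apply, zero_add]

theorem main_TI : S_TI := by
  intro Q J _ _ _ _ _ κ A p ν _ F z x
  have h1 : ∀ v : Q × J → ℝ, F (gr κ A v z p x x) =
      (fun u : Q × J → ℝ => F (gr κ A u z p 0 0))
        (MeasurableEquiv.piCongrLeft (fun _ : Q × J => ℝ) (tiE Q J x).symm v) := by
    intro v
    show _ = F (gr κ A (MeasurableEquiv.piCongrLeft (fun _ : Q × J => ℝ) (tiE Q J x).symm v) z p 0 0)
    have h2 : MeasurableEquiv.piCongrLeft (fun _ : Q × J => ℝ) (tiE Q J x).symm v =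
        fun q => v (tiE Q J x q) := by
      funext q
      have := MeasurableEquiv.piCongrLeft_apply_apply (β := fun _ : Q × J => ℝ) (tiE Q J x).symm v
        (tiE Q J x q)
      rwa [Equiv.symm_apply_apply] at this
    rw [h2, ti_gr]
  simp_rw [h1]
  exact (measurePreserving_piCongrLeft (fun _ : Q × J => ν) (tiE Q J x).symm).integral_comp'
    (fun u : Q × J → ℝ => F (gr κ A u z p 0 0))

end Pool.Agent.Q156.GK
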