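import Pool.Agent.Q156.GK.Stm

/-!
Project GK, job UPD: integrating one coordinate first.
-/

set_option autoImplicit false

namespace Pool.Agent.Q156.GK

open Pool.Agent.W792.GK MeasureTheory

theorem upd_mp (J Ω : Type) [Fintype J] [DecidableEq J] [MeasurableSpace Ω] (μ : Measure Ω)
    [IsProbabilityMeasure μ] (j : J) :
    MeasurePreserving (fun p : (J → Ω) × Ω => Function.update p.1 j p.2)
      ((Measure.pi fun _ : J => μ).prod μ) (Measure.pi fun _ : J => μ) := by
  have hm : Measurable (fun p : (J → Ω) × Ω => Function.update p.1 j p.2) := measurable_update'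
  refine ⟨hm, ?_⟩
  symm
  refine Measure.pi_eq fun s hs => ?_
  rw [Measure.map_apply hm (MeasurableSet.univ_pi hs)]
  have hpre : (fun p : (J → Ω) × Ω => Function.update p.1 j p.2) ⁻¹' (Set.univ.pi s) =
      (Set.univ.pi (Function.update s j Set.univ)) ×ˢ (s j) := by
    ext ⟨ω, w⟩
    simp only [Set.mem_preimage, Set.mem_pi, Set.mem_univ, true_implies, Set.mem_prod]
    constructor
    · intro h
      refine ⟨fun i => ?_, ?_⟩
      · by_cases hi : i = j
        · subst hi
          simp
        · have := h i
          rw [Function.update_of_ne hi] at this ⊢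
          exact this
      · have := h j
        rwa [Function.update_self] at this
    · rintro ⟨h1, h2⟩ i
      by_cases hi : i = j
      · subst hi
        rw [Function.update_self]
        exact h2
      · have := h1 i
        rw [Function.update_of_ne hi] at this ⊢
        exact this
  rw [hpre, Measure.prod_prod, Measure.pi_pi, ← Finset.mul_prod_erase Finset.univ (fun i => μ (s i)) (Finset.mem_univ j),
    ← Finset.mul_prod_erase Finset.univ (fun i => μ (Function.update s j Set.univ i)) (Finset.mem_univ j),
    Function.update_self, measure_univ, one_mul, mul_comm]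
  congr 1
  refine Finset.prod_congr rfl fun i hi => ?_
  rw [Function.update_of_ne (Finset.ne_of_mem_erase hi)]

/-- Job UPD. -/
theorem main_UPD : S_UPD := by
  intro J Ω _ _ _ μ _ G C j hG hC
  have hmp := upd_mp J Ω μ j
  have h1 : ∫ ω, G ω ∂(Measure.pi fun _ : J => μ) =
      ∫ p, G (Function.update p.1 j p.2) ∂((Measure.pi fun _ : J => μ).prod μ) := by
    conv_lhs => rw [← hmp.map_eq]
    exact integral_map hmp.measurable.aemeasurable hG.aestronglyMeasurable
  rw [h1]
  refine integral_prod _ ?_
  refine Integrable.mono' (g := fun _ => C) (integrable_const _) ?_ (Filter.Eventually.of_forall fun p => hC _)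
  exact (hG.comp hmp.measurable).aestronglyMeasurable

end Pool.Agent.Q156.GK
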