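import Pool.Agent.W52.GKCoef
import Pool.Agent.Q156.GK.LFA
import Pool.Agent.Q156.GK.LFB
import Pool.Agent.Q156.GK.UPD
import Pool.Agent.Q156.GK.CUR
import Pool.Agent.Q156.GK.LFS
import Pool.Agent.Q156.GK.LF2
import Pool.Agent.Q156.GK.LF
import Pool.Agent.Q156.GK.FP
import Pool.Agent.Q156.GK.SER
import Pool.Agent.Q156.GK.ALG
import Pool.Agent.Q156.GK.LZ
import Pool.Agent.Q156.GK.CONT
import Pool.Agent.Q156.GK.HOL
import Pool.Agent.Q156.GK.GR
import Pool.Agent.Q156.GK.ALLZ
import Pool.Agent.Q156.GK.P2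
import Pool.Agent.Q156.GK.GRID
import Pool.Agent.Q156.GK.TI
import Pool.Agent.Q156.GK.FM
import Pool.Agent.Q156.GK.SYA
import Pool.Agent.Q156.GK.SYB
import Pool.Agent.Q156.GK.SY1
import Pool.Agent.Q156.GK.SY2
import Pool.Agent.Q156.GK.SY3
import Pool.Agent.Q156.GK.APPROX
import Pool.Agent.Q156.GK.CIRC1
import Pool.Agent.Q156.GK.CIRC2
import Pool.Agent.Q156.GK.PA
import Pool.Agent.Q156.GK.MOM
import Pool.Agent.Q156.GK.LAW
import Pool.Agent.Q156.GK.T1
import Pool.Agent.Q156.GK.T2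
import Pool.Agent.Q156.GK.MOP
import Pool.Agent.Q156.GK.MFIN
import Pool.Agent.Q156.GK.INJ
import Pool.Agent.Q156.GK.DIL
import Pool.Agent.Q156.GK.LIP
import Pool.Agent.Q156.GK.MEAS
import Pool.Agent.Q156.GK.EIG
import Pool.Agent.Q156.GK.KP1
import Pool.Agent.Q156.GK.KP2
import Pool.Agent.Q156.GK.KP
import Pool.Agent.Q156.GK.NE
import Pool.Agent.Q156.GK.OD
import Pool.Agent.Q156.GK.FINAL

/-!
Project GK: the final theorem.
-/

namespace Pool.Agent.Q156.GK.All

open Pool.Agent.W792.GK Pool.Agent.Q156.GK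

theorem lf1 : S_LF1 := main_LFB main_LFA
theorem lfs : S_LFS := main_LFS lf1 main_UPD
theorem lf2 : S_LF2 := main_LF2 lf1 lfs
theorem lf : S_LF := main_LF lf2
theorem lz : S_LZ := main_LZ lf main_FP main_SER main_CUR main_ALG
theorem allz : S_ALLZ := main_ALLZ lz main_CONT main_GR main_HOL
theorem fm : S_FM := main_FM main_P2 allz main_GRID main_GR main_TI
theorem sy1 : S_SY1 := main_SY1 main_SYA main_SYB
theorem sy3 : S_SY3 := main_SY3 sy1 main_SY2
theorem law : S_LAW := main_LAW main_MOM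
theorem mop : S_MOP := main_MOP Pool.Agent.W52.GKCoef.main
theorem lip : S_LIP := main_LIP main_T1 main_T2
theorem meas : S_MEAS := main_MEAS lip main_APPROX main_PA mop main_T1 main_T2
theorem eig : S_EIG := main_EIG main_T1 main_T2
theorem kp1 : S_KP1 := main_KP1 main_PA mop main_MFIN main_T1 main_T2 lip
theorem kp2 : S_KP2 :=
  main_KP2 fm sy3 main_APPROX main_CIRC1 main_CIRC2 law Pool.Agent.W52.GKCoef.main
theorem kp : S_KP := main_KP kp1 kp2 main_APPROX main_INJ main_DIL law lip meas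
theorem ne : S_NE := main_NE eig meas lip
theorem od : S_OD := main_OD kp lip meas

theorem final : S_FINAL := main_FINAL ne od

end Pool.Agent.Q156.GK.All
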