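import Pool.Agent.Q156.GK.Stm

/-!
Project GK, job LZ: auxiliary facts.
-/

set_option autoImplicit false

namespace Pool.Agent.Q156.GK.LZ

open Pool.Agent.W792.GK MeasureTheory
open scoped Matrix.Norms.L2Operator

noncomputable section

section e1

variable {n : Type} [Fintype n]

theorem e1_nonneg (A : Matrix n n ℂ) : 0 ≤ e1 A :=
  Finset.sum_nonneg fun _ _ => Finset.sum_nonneg fun _ _ => norm_nonneg _

theorem e1_add (A B : Matrix n n ℂ) : e1 (A + B) ≤ e1 A + e1 B := by
  unfold e1
  rw [← Finset.sum_add_distrib]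
  refine Finset.sum_le_sum fun x _ => ?_
  rw [← Finset.sum_add_distrib]
  exact Finset.sum_le_sum fun y _ => norm_add_le _ _

theorem e1_neg (A : Matrix n n ℂ) : e1 (-A) = e1 A := by
  unfold e1
  simp

theorem e1_smul (c : ℂ) (A : Matrix n n ℂ) : e1 (c • A) = ‖c‖ * e1 A := by
  unfold e1
  simp only [Matrix.smul_apply, smul_eq_mul, norm_mul, Finset.mul_sum]

theorem e1_sum {ι : Type} (s : Finset ι) (A : ι → Matrix n n ℂ) :
    e1 (∑ k ∈ s, A k) ≤ ∑ k ∈ s, e1 (A k) := by
  classical
  induction s using Finset.induction_on with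
  | empty => simp [e1]
  | insert a s ha ih =>
    rw [Finset.sum_insert ha, Finset.sum_insert ha]
    exact (e1_add _ _).trans (add_le_add le_rfl ih)

variable [DecidableEq n]

theorem e1_mul_left {A : Matrix n n ℂ} {a : ℝ} (ha : 0 ≤ a) (hA : OpB A a) (B : Matrix n n ℂ) :
    e1 (A * B) ≤ Fintype.card n * a * e1 B := by
  unfold e1
  calc ∑ i, ∑ j, ‖(A * B) i j‖ ≤ ∑ _i : n, ∑ j, ∑ k, a * ‖B k j‖ := by
        refine Finset.sum_le_sum fun i _ => Finset.sum_le_sum fun j _ => ?_
        rw [Matrix.mul_apply]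
        refine (norm_sum_le _ _).trans (Finset.sum_le_sum fun k _ => ?_)
        rw [norm_mul]
        exact mul_le_mul_of_nonneg_right (norm_entry_le ha hA i k) (norm_nonneg _)
    _ = Fintype.card n * a * ∑ i, ∑ j, ‖B i j‖ := by
        rw [Finset.sum_const, Finset.card_univ, nsmul_eq_mul, Finset.sum_comm, mul_assoc]
        congr 1
        rw [Finset.mul_sum]
        refine Finset.sum_congr rfl fun k _ => ?_
        rw [Finset.mul_sum]

theorem e1_mul_right {A : Matrix n n ℂ} {a : ℝ} (ha : 0 ≤ a) (hA : OpB A a) (B : Matrix n n ℂ) :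
    e1 (B * A) ≤ Fintype.card n * a * e1 B := by
  unfold e1
  calc ∑ i, ∑ j, ‖(B * A) i j‖ ≤ ∑ i : n, ∑ _j : n, ∑ k, a * ‖B i k‖ := by
        refine Finset.sum_le_sum fun i _ => Finset.sum_le_sum fun j _ => ?_
        rw [Matrix.mul_apply]
        refine (norm_sum_le _ _).trans (Finset.sum_le_sum fun k _ => ?_)
        rw [norm_mul, mul_comm]
        exact mul_le_mul_of_nonneg_right (norm_entry_le ha hA k j) (norm_nonneg _)
    _ = Fintype.card n * a * ∑ i, ∑ j, ‖B i j‖ := by
        simp only [Finset.sum_const, Finset.card_univ, nsmul_eq_mul, Finset.mul_sum, mul_assoc]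

theorem e1_le_opB {A : Matrix n n ℂ} {a : ℝ} (ha : 0 ≤ a) (hA : OpB A a) :
    e1 A ≤ (Fintype.card n : ℝ) ^ 2 * a := by
  unfold e1
  calc ∑ i, ∑ j, ‖A i j‖ ≤ ∑ _i : n, ∑ _j : n, a :=
        Finset.sum_le_sum fun i _ => Finset.sum_le_sum fun j _ => norm_entry_le ha hA i j
    _ = _ := by
        simp only [Finset.sum_const, Finset.card_univ, nsmul_eq_mul]
        ring

theorem opB_smul {A : Matrix n n ℂ} {a : ℝ} (ha : 0 ≤ a) (hA : OpB A a) (c : ℂ) :
    OpB (c • A) (‖c‖ * a) := by
  rw [opB_iff _ (by positivity), norm_smul]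
  exact mul_le_mul_of_nonneg_left ((opB_iff A ha).1 hA) (norm_nonneg _)

theorem opB_sub {A B : Matrix n n ℂ} {a b : ℝ} (ha : 0 ≤ a) (hb : 0 ≤ b) (hA : OpB A a)
    (hB : OpB B b) : OpB (A - B) (a + b) := by
  rw [opB_iff _ (add_nonneg ha hb)]
  exact (norm_sub_le _ _).trans (add_le_add ((opB_iff A ha).1 hA) ((opB_iff B hb).1 hB))

theorem opB_one : OpB (1 : Matrix n n ℂ) 1 := by
  intro u
  simp

end e1

section meas

variable {Ω : Type} [MeasurableSpace Ω] {m : Type} [Fintype m]

theorem meas_mul {A B : Ω → Matrix m m ℂ} (hA : ∀ x y, Measurable fun w => A w x y)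
    (hB : ∀ x y, Measurable fun w => B w x y) (x y : m) :
    Measurable fun w => (A w * B w) x y := by
  simp only [Matrix.mul_apply]
  exact Finset.measurable_fun_sum _ fun k _ => (hA x k).mul (hB k y)

theorem meas_pow [DecidableEq m] {A : Ω → Matrix m m ℂ} (hA : ∀ x y, Measurable fun w => A w x y)
    (k : ℕ) : ∀ x y, Measurable fun w => ((A w) ^ k) x y := by
  induction k with
  | zero =>
    intro x y
    simp only [pow_zero]
    exact measurable_const
  | succ k ih =>
    intro x y
    simp only [pow_succ]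
    exact meas_mul ih hA x y

theorem meas_e1 {A : Ω → Matrix m m ℂ} (hA : ∀ x y, Measurable fun w => A w x y) :
    Measurable fun w => e1 (A w) := by
  unfold e1
  exact Finset.measurable_fun_sum _ fun x _ => Finset.measurable_fun_sum _ fun y _ => (hA x y).norm

end meas

/-- measurability of the resolvent entries -/
theorem meas_gr {Q J : Type} [AddCommGroup Q] [Fintype Q] [DecidableEq Q] [Fintype J]
    [DecidableEq J] (κ : Q → ℂ) (A : Matrix J J ℂ) (z : ℂ) (p : J) (x y : Q) :
    Measurable fun v : Q × J → ℝ => gr κ A v z p x y := by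
  have hc : Continuous fun v : Q × J → ℝ =>
      (ham κ A v - z • (1 : Matrix (Q × J) (Q × J) ℂ)) := by
    refine continuous_matrix fun i j => ?_
    simp only [Matrix.sub_apply]
    refine Continuous.sub ?_ continuous_const
    unfold ham
    refine Continuous.add continuous_const ?_
    by_cases h : i = j
    · simp only [h, if_true]
      exact Complex.continuous_ofReal.comp (continuous_apply j)
    · simp only [h, if_false]
      exact continuous_const
  have h1 : (fun v : Q × J → ℝ => gr κ A v z p x y) = fun v =>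
      ((ham κ A v - z • (1 : Matrix (Q × J) (Q × J) ℂ)).det)⁻¹ *
        (ham κ A v - z • (1 : Matrix (Q × J) (Q × J) ℂ)).adjugate (x, p) (y, p) := by
    funext v
    unfold gr
    rw [Matrix.inv_def, Matrix.smul_apply, Ring.inverse_eq_inv', smul_eq_mul]
  rw [h1]
  refine Measurable.mul ?_ ?_
  · exact (Continuous.matrix_det hc).measurable.inv
  · exact ((Continuous.matrix_adjugate hc).matrix_elem (x, p) (y, p)).measurable

/-- the Hamiltonian in terms of blocks -/
theorem ham_eq {Q J : Type} [AddCommGroup Q] [Fintype Q] [DecidableEq Q] [Fintype J]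
    [DecidableEq J] (κ : Q → ℂ) (A : Matrix J J ℂ) (v : Q × J → ℝ) :
    ham κ A v = Matrix.blockDiagonal (fun j => dd κ v j) +
      Matrix.kronecker (1 : Matrix Q Q ℂ) A := by
  ext ⟨x, i⟩ ⟨y, j⟩
  rw [Matrix.add_apply, Matrix.blockDiagonal_apply]
  unfold ham dd
  simp only [Matrix.kronecker, Matrix.kroneckerMap_apply, Matrix.one_apply, Prod.mk.injEq]
  by_cases hij : i = j
  · subst hij
    by_cases hxy : x = y
    · subst hxy
      simp only [if_true, and_self]
      ring
    · simp [hxy]
  · by_cases hxy : x = y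
    · simp [hij, hxy]
    · simp [hij, hxy]

end

end Pool.Agent.Q156.GK.LZ
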