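import Pool.Agent.W792.GK.Stm

/-!
Project GK: facts on `OpB`, `fro`, `e1`, `blk` (for use in all jobs).
`OpB A c` is `‖A‖ ≤ c` for the operator norm of `open scoped Matrix.Norms.L2Operator`.
-/

set_option autoImplicit false

namespace Pool.Agent.Q156.GK

open Pool.Agent.W792.GK MeasureTheory
open scoped Matrix.Norms.L2Operator

noncomputable section

theorem opB_iff {n : Type} [Fintype n] [DecidableEq n] (A : Matrix n n ℂ) {c : ℝ} (hc : 0 ≤ c) :
    OpB A c ↔ ‖A‖ ≤ c := by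
  rw [Matrix.l2_opNorm_def, ContinuousLinearMap.opNorm_le_iff hc]
  constructor
  · intro h x
    have h1 := h x.ofLp
    have e1 : ‖(LinearMap.toContinuousLinearMap (Matrix.toEuclideanLin A)) x‖
        = Real.sqrt (∑ i, ‖(A.mulVec x.ofLp) i‖ ^ 2) := by
      rw [EuclideanSpace.norm_eq]
      rfl
    have e2 : ‖x‖ = Real.sqrt (∑ i, ‖x.ofLp i‖ ^ 2) := EuclideanSpace.norm_eq x
    have e3 : (LinearMap.toContinuousLinearMap (Matrix.toEuclideanLin A)) x
        = ((LinearEquiv.trans Matrix.toEuclideanLin LinearMap.toContinuousLinearMap) A) x := rfl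
    rw [← e3, e1, e2]
    calc Real.sqrt (∑ i, ‖(A.mulVec x.ofLp) i‖ ^ 2)
        ≤ Real.sqrt (c ^ 2 * ∑ i, ‖x.ofLp i‖ ^ 2) := Real.sqrt_le_sqrt h1
      _ = c * Real.sqrt (∑ i, ‖x.ofLp i‖ ^ 2) := by
          rw [Real.sqrt_mul (sq_nonneg c), Real.sqrt_sq hc]
  · intro h u
    have h1 := h (WithLp.toLp 2 u)
    have e1 : ‖((LinearEquiv.trans Matrix.toEuclideanLin LinearMap.toContinuousLinearMap) A)
        (WithLp.toLp 2 u)‖ = Real.sqrt (∑ i, ‖(A.mulVec u) i‖ ^ 2) := by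
      rw [EuclideanSpace.norm_eq]
      rfl
    have e2 : ‖(WithLp.toLp 2 u : EuclideanSpace ℂ n)‖ = Real.sqrt (∑ i, ‖u i‖ ^ 2) :=
      EuclideanSpace.norm_eq _
    rw [e1, e2] at h1
    have p1 : 0 ≤ ∑ i, ‖(A.mulVec u) i‖ ^ 2 := Finset.sum_nonneg fun i _ => sq_nonneg _
    have p2 : 0 ≤ ∑ i, ‖u i‖ ^ 2 := Finset.sum_nonneg fun i _ => sq_nonneg _
    have h2 := pow_le_pow_left₀ (Real.sqrt_nonneg _) h1 2
    rw [mul_pow, Real.sq_sqrt p1, Real.sq_sqrt p2] at h2
    exact h2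

theorem opB_mono {n : Type} [Fintype n] {A : Matrix n n ℂ} {a b : ℝ} (h : OpB A a)
    (ha : 0 ≤ a) (hab : a ≤ b) : OpB A b := fun u =>
  (h u).trans (mul_le_mul_of_nonneg_right (pow_le_pow_left₀ ha hab 2)
    (Finset.sum_nonneg fun _ _ => sq_nonneg _))

theorem OpB.norm_le {n : Type} [Fintype n] [DecidableEq n] {A : Matrix n n ℂ} {c : ℝ}
    (h : OpB A c) (hc : 0 ≤ c) : ‖A‖ ≤ c := (opB_iff A hc).1 h

theorem opB_mul {n : Type} [Fintype n] [DecidableEq n] {A B : Matrix n n ℂ} {a b : ℝ}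
    (ha : 0 ≤ a) (hb : 0 ≤ b) (hA : OpB A a) (hB : OpB B b) : OpB (A * B) (a * b) := by
  rw [opB_iff _ (mul_nonneg ha hb)]
  exact (norm_mul_le _ _).trans (mul_le_mul ((opB_iff A ha).1 hA) ((opB_iff B hb).1 hB)
    (norm_nonneg _) ha)

theorem opB_add {n : Type} [Fintype n] [DecidableEq n] {A B : Matrix n n ℂ} {a b : ℝ}
    (ha : 0 ≤ a) (hb : 0 ≤ b) (hA : OpB A a) (hB : OpB B b) : OpB (A + B) (a + b) := by
  rw [opB_iff _ (add_nonneg ha hb)]
  exact (norm_add_le _ _).trans (add_le_add ((opB_iff A ha).1 hA) ((opB_iff B hb).1 hB))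

theorem opB_conjTranspose {n : Type} [Fintype n] [DecidableEq n] {A : Matrix n n ℂ} {a : ℝ}
    (ha : 0 ≤ a) (hA : OpB A a) : OpB A.conjTranspose a := by
  rw [opB_iff _ ha, Matrix.l2_opNorm_conjTranspose]
  exact (opB_iff A ha).1 hA

theorem fro_nonneg {n : Type} [Fintype n] (A : Matrix n n ℂ) : 0 ≤ fro A :=
  Finset.sum_nonneg fun _ _ => Finset.sum_nonneg fun _ _ => sq_nonneg _

/-- `fro (A B) ≤ a² fro B`. -/
theorem fro_mul_left {n : Type} [Fintype n] {A : Matrix n n ℂ} {a : ℝ} (hA : OpB A a)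
    (B : Matrix n n ℂ) : fro (A * B) ≤ a ^ 2 * fro B := by
  unfold fro
  rw [Finset.sum_comm, Finset.sum_comm (f := fun x y => ‖B x y‖ ^ 2), Finset.mul_sum]
  refine Finset.sum_le_sum fun y _ => ?_
  exact hA fun x => B x y

theorem fro_conjTranspose {n : Type} [Fintype n] (A : Matrix n n ℂ) :
    fro A.conjTranspose = fro A := by
  unfold fro
  rw [Finset.sum_comm]
  simp [Matrix.conjTranspose_apply]

/-- `fro (A B) ≤ b² fro A`. -/
theorem fro_mul_right {n : Type} [Fintype n] [DecidableEq n] {B : Matrix n n ℂ} {b : ℝ}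
    (hb : 0 ≤ b) (hB : OpB B b) (A : Matrix n n ℂ) : fro (A * B) ≤ b ^ 2 * fro A := by
  rw [← fro_conjTranspose, Matrix.conjTranspose_mul, ← fro_conjTranspose A]
  exact fro_mul_left (opB_conjTranspose hb hB) _

/-- `fro (A + B) ≤ 2 fro A + 2 fro B`. -/
theorem fro_add {n : Type} [Fintype n] (A B : Matrix n n ℂ) :
    fro (A + B) ≤ 2 * fro A + 2 * fro B := by
  unfold fro
  rw [Finset.mul_sum, Finset.mul_sum, ← Finset.sum_add_distrib]
  refine Finset.sum_le_sum fun x _ => ?_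
  rw [Finset.mul_sum, Finset.mul_sum, ← Finset.sum_add_distrib]
  refine Finset.sum_le_sum fun y _ => ?_
  rw [Matrix.add_apply]
  have h := norm_add_le (A x y) (B x y)
  have h2 := pow_le_pow_left₀ (norm_nonneg _) h 2
  nlinarith [sq_nonneg (‖A x y‖ - ‖B x y‖)]

/-- Entries are at most the operator norm. -/
theorem norm_entry_le {n : Type} [Fintype n] [DecidableEq n] {A : Matrix n n ℂ} {a : ℝ}
    (ha : 0 ≤ a) (hA : OpB A a) (i j : n) : ‖A i j‖ ≤ a := by
  have h := hA (Pi.single j 1)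
  have e : A.mulVec (Pi.single j 1) = fun i => A i j := by
    ext i
    simp [Matrix.mulVec_single]
  have e2 : ∑ i, ‖(Pi.single j (1 : ℂ) : n → ℂ) i‖ ^ 2 = 1 := by
    rw [Finset.sum_eq_single j]
    · simp
    · intro b _ hb
      simp [Pi.single_eq_of_ne hb]
    · simp
  rw [e, e2, mul_one] at h
  have h2 : ‖A i j‖ ^ 2 ≤ a ^ 2 :=
    (Finset.single_le_sum (f := fun i => ‖A i j‖ ^ 2) (fun _ _ => sq_nonneg _)
      (Finset.mem_univ i)).trans h
  exact le_of_sq_le_sq h2 ha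

/-- `fro A ≤ |n| a²`. -/
theorem fro_le {n : Type} [Fintype n] [DecidableEq n] {A : Matrix n n ℂ} {a : ℝ}
    (hA : OpB A a) : fro A ≤ Fintype.card n * a ^ 2 := by
  have h := fro_mul_left hA (1 : Matrix n n ℂ)
  rw [mul_one] at h
  have e : fro (1 : Matrix n n ℂ) = Fintype.card n := by
    unfold fro
    have : ∀ x : n, ∑ y, ‖(1 : Matrix n n ℂ) x y‖ ^ 2 = 1 := by
      intro x
      rw [Finset.sum_eq_single x]
      · simp
      · intro b _ hb
        simp [Matrix.one_apply_ne hb.symm]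
      · simp
    simp [this]
  rw [e] at h
  linarith

/-- `e1 A ≤ |n| √(fro A)`. -/
theorem e1_le_fro {n : Type} [Fintype n] (A : Matrix n n ℂ) :
    e1 A ≤ Fintype.card n * Real.sqrt (fro A) := by
  unfold e1
  have h : (∑ i, ∑ j, ‖A i j‖) ^ 2 ≤ (Fintype.card n : ℝ) ^ 2 * fro A := by
    rw [← Finset.sum_product', fro, ← Finset.sum_product' (f := fun i j => ‖A i j‖ ^ 2)]
    have h1 := sq_sum_le_card_mul_sum_sq (s := (Finset.univ : Finset n) ×ˢ (Finset.univ : Finset n))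
      (f := fun p => ‖A p.1 p.2‖)
    refine h1.trans (le_of_eq ?_)
    rw [Finset.card_product, Finset.card_univ]
    push_cast
    ring
  have h3 := Real.sqrt_le_sqrt h
  have h4 : 0 ≤ ∑ i, ∑ j, ‖A i j‖ :=
    Finset.sum_nonneg fun _ _ => Finset.sum_nonneg fun _ _ => norm_nonneg _
  rw [Real.sqrt_sq h4, Real.sqrt_mul (sq_nonneg _), Real.sqrt_sq (Nat.cast_nonneg _)] at h3
  exact h3

/-- Blocks of a bounded matrix. -/
theorem opB_blk {Q J : Type} [Fintype Q] [Fintype J] [DecidableEq Q] [DecidableEq J]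
    {Z : Matrix (Q × J) (Q × J) ℂ} {c : ℝ} (hZ : OpB Z c) (i j : J) : OpB (blk Z i j) c := by
  intro u
  have h := hZ (fun q => if q.2 = j then u q.1 else 0)
  have e1 : ∑ q : Q × J, ‖(if q.2 = j then u q.1 else 0 : ℂ)‖ ^ 2 = ∑ x, ‖u x‖ ^ 2 := by
    rw [Fintype.sum_prod_type]
    refine Finset.sum_congr rfl fun x _ => ?_
    rw [Finset.sum_eq_single j]
    · simp
    · intro b _ hb
      simp [hb]
    · simp
  have e2 : ∀ p : Q × J, Z.mulVec (fun q => if q.2 = j then u q.1 else 0) p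
      = ∑ y, Z p (y, j) * u y := by
    intro p
    unfold Matrix.mulVec dotProduct
    rw [Fintype.sum_prod_type]
    refine Finset.sum_congr rfl fun x _ => ?_
    rw [Finset.sum_eq_single j]
    · simp
    · intro b _ hb
      simp [hb]
    · simp
  rw [e1] at h
  refine le_trans ?_ h
  rw [Fintype.sum_prod_type]
  refine Finset.sum_le_sum fun x _ => ?_
  refine le_trans (le_of_eq ?_) (Finset.single_le_sum (f := fun i' => ‖Z.mulVec
    (fun q => if q.2 = j then u q.1 else 0) (x, i')‖ ^ 2) (fun _ _ => sq_nonneg _)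
    (Finset.mem_univ i))
  rw [e2]
  rfl

/-- The columns of blocks: `∑ j, fro (blk Z j p) ≤ |Q| c²`. -/
theorem sum_fro_blk_le {Q J : Type} [Fintype Q] [Fintype J] [DecidableEq Q] [DecidableEq J]
    {Z : Matrix (Q × J) (Q × J) ℂ} {c : ℝ} (hZ : OpB Z c) (p : J) :
    ∑ j, fro (blk Z j p) ≤ Fintype.card Q * c ^ 2 := by
  have h : ∀ y : Q, ∑ q : Q × J, ‖Z q (y, p)‖ ^ 2 ≤ c ^ 2 := by
    intro y
    have h1 := hZ (Pi.single (y, p) 1)
    have e : Z.mulVec (Pi.single (y, p) 1) = fun i => Z i (y, p) := by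
      ext i
      simp [Matrix.mulVec_single]
    have e2 : ∑ i, ‖(Pi.single (y, p) (1 : ℂ) : Q × J → ℂ) i‖ ^ 2 = 1 := by
      rw [Finset.sum_eq_single (y, p)]
      · simp
      · intro b _ hb
        simp [Pi.single_eq_of_ne hb]
      · simp
    rw [e, e2, mul_one] at h1
    exact h1
  calc ∑ j, fro (blk Z j p) = ∑ y : Q, ∑ q : Q × J, ‖Z q (y, p)‖ ^ 2 := by
        unfold fro blk
        simp only [Fintype.sum_prod_type]
        rw [Finset.sum_comm]
        rw [Finset.sum_comm (f := fun (y : Q) (x : Q) => ∑ j : J, ‖Z (x, j) (y, p)‖ ^ 2)]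
        refine Finset.sum_congr rfl fun x _ => ?_
        rw [Finset.sum_comm]
    _ ≤ ∑ _y : Q, c ^ 2 := Finset.sum_le_sum fun y _ => h y
    _ = Fintype.card Q * c ^ 2 := by simp

/-- Block diagonal matrices. -/
theorem opB_blockDiagonal {Q J : Type} [Fintype Q] [Fintype J] [DecidableEq Q] [DecidableEq J]
    {X : J → Matrix Q Q ℂ} {c : ℝ} (hX : ∀ j, OpB (X j) c) : OpB (Matrix.blockDiagonal X) c := by
  intro u
  have e : ∀ x : Q, ∀ j : J, (Matrix.blockDiagonal X).mulVec u (x, j)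
      = (X j).mulVec (fun y => u (y, j)) x := by
    intro x j
    unfold Matrix.mulVec dotProduct
    rw [Fintype.sum_prod_type]
    refine Finset.sum_congr rfl fun y _ => ?_
    rw [Finset.sum_eq_single j]
    · simp [Matrix.blockDiagonal_apply]
    · intro b _ hb
      simp [Matrix.blockDiagonal_apply, hb.symm]
    · simp
  rw [Fintype.sum_prod_type, Fintype.sum_prod_type, Finset.sum_comm,
    Finset.sum_comm (f := fun x j => ‖u (x, j)‖ ^ 2), Finset.mul_sum]
  refine Finset.sum_le_sum fun j _ => ?_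
  simp only [e]
  exact hX j fun y => u (y, j)

end

end Pool.Agent.Q156.GK
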