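import Pool.Agent.Q156.GK.Stm

/-!
Project GK, part P2: the main inequality.
-/

set_option autoImplicit false

namespace Pool.Agent.Q156.GK

open Pool.Agent.W792.GK MeasureTheory
open scoped ComplexOrder

noncomputable section

namespace P2

/-! ### Bounded measurable functions -/

/-- Bounded and measurable. -/
def BM {Ω : Type} [MeasurableSpace Ω] (f : Ω → ℂ) : Prop :=
  Measurable f ∧ ∃ C : ℝ, ∀ w, ‖f w‖ ≤ C

/-- Matrices with bounded and measurable entries. -/
def BMm {Ω Q : Type} [MeasurableSpace Ω] (F : Ω → Matrix Q Q ℂ) : Prop :=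
  ∀ x y, BM fun w => F w x y

theorem BM.integrable {Ω : Type} [MeasurableSpace Ω] {μ : Measure Ω} [IsProbabilityMeasure μ]
    {f : Ω → ℂ} (hf : BM f) : Integrable f μ := by
  obtain ⟨h1, C, hC⟩ := hf
  exact Integrable.of_bound h1.aestronglyMeasurable C (Filter.Eventually.of_forall hC)

theorem BM.const {Ω : Type} [MeasurableSpace Ω] (c : ℂ) : BM (fun _ : Ω => c) :=
  ⟨measurable_const, ‖c‖, fun _ => le_rfl⟩

theorem BM.add {Ω : Type} [MeasurableSpace Ω] {f g : Ω → ℂ} (hf : BM f) (hg : BM g) :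
    BM (fun w => f w + g w) := by
  obtain ⟨h1, C, hC⟩ := hf
  obtain ⟨h2, C', hC'⟩ := hg
  exact ⟨h1.add h2, C + C', fun w => (norm_add_le _ _).trans (add_le_add (hC w) (hC' w))⟩

theorem BM.mul {Ω : Type} [MeasurableSpace Ω] {f g : Ω → ℂ} (hf : BM f) (hg : BM g) :
    BM (fun w => f w * g w) := by
  obtain ⟨h1, C, hC⟩ := hf
  obtain ⟨h2, C', hC'⟩ := hg
  refine ⟨h1.mul h2, C * C', fun w => ?_⟩
  rw [norm_mul]
  exact mul_le_mul (hC w) (hC' w) (norm_nonneg _) ((norm_nonneg _).trans (hC w))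

theorem BM.sub {Ω : Type} [MeasurableSpace Ω] {f g : Ω → ℂ} (hf : BM f) (hg : BM g) :
    BM (fun w => f w - g w) := by
  obtain ⟨h1, C, hC⟩ := hf
  obtain ⟨h2, C', hC'⟩ := hg
  exact ⟨h1.sub h2, C + C', fun w => (norm_sub_le _ _).trans (add_le_add (hC w) (hC' w))⟩

theorem BM.conj {Ω : Type} [MeasurableSpace Ω] {f : Ω → ℂ} (hf : BM f) :
    BM (fun w => star (f w)) := by
  obtain ⟨h1, C, hC⟩ := hf
  refine ⟨Complex.continuous_conj.measurable.comp h1, C, fun w => ?_⟩
  rw [norm_star]
  exact hC w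

theorem BM.sum {Ω ι : Type} [MeasurableSpace Ω] {s : Finset ι} {f : ι → Ω → ℂ}
    (hf : ∀ i ∈ s, BM (f i)) : BM (fun w => ∑ i ∈ s, f i w) := by
  classical
  induction s using Finset.induction_on with
  | empty => simpa using BM.const (Ω := Ω) 0
  | insert a s ha ih =>
    have h1 := (hf a (Finset.mem_insert_self _ _)).add
      (ih fun i hi => hf i (Finset.mem_insert_of_mem hi))
    simpa [Finset.sum_insert ha] using h1

theorem BMm.mul {Ω Q : Type} [MeasurableSpace Ω] [Fintype Q] {F G : Ω → Matrix Q Q ℂ}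
    (hF : BMm F) (hG : BMm G) : BMm (fun w => F w * G w) := fun x y => by
  simp only [Matrix.mul_apply]
  exact BM.sum fun i _ => (hF x i).mul (hG i y)

theorem BMm.add {Ω Q : Type} [MeasurableSpace Ω] {F G : Ω → Matrix Q Q ℂ}
    (hF : BMm F) (hG : BMm G) : BMm (fun w => F w + G w) := fun x y => (hF x y).add (hG x y)

theorem BMm.sub {Ω Q : Type} [MeasurableSpace Ω] {F G : Ω → Matrix Q Q ℂ}
    (hF : BMm F) (hG : BMm G) : BMm (fun w => F w - G w) := fun x y => (hF x y).sub (hG x y)

theorem BMm.smul {Ω Q : Type} [MeasurableSpace Ω] {F : Ω → Matrix Q Q ℂ} (c : ℂ)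
    (hF : BMm F) : BMm (fun w => c • F w) := fun x y => (BM.const c).mul (hF x y)

theorem BMm.const {Ω Q : Type} [MeasurableSpace Ω] (M : Matrix Q Q ℂ) :
    BMm (fun _ : Ω => M) := fun _ _ => BM.const _

theorem BMm.conjTranspose {Ω Q : Type} [MeasurableSpace Ω] {F : Ω → Matrix Q Q ℂ}
    (hF : BMm F) : BMm (fun w => (F w).conjTranspose) := fun x y => (hF y x).conj

theorem BMm.imM {Ω Q : Type} [MeasurableSpace Ω] {F : Ω → Matrix Q Q ℂ}
    (hF : BMm F) : BMm (fun w => imM (F w)) := (hF.sub hF.conjTranspose).smul _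

theorem BMm.trace {Ω Q : Type} [MeasurableSpace Ω] [Fintype Q] {F : Ω → Matrix Q Q ℂ}
    (hF : BMm F) : BM (fun w => (F w).trace) := BM.sum fun i _ => hF i i

theorem integrable_e1 {Ω Q : Type} [MeasurableSpace Ω] [Fintype Q] {μ : Measure Ω}
    [IsProbabilityMeasure μ] {F : Ω → Matrix Q Q ℂ} (hF : BMm F) :
    Integrable (fun w => e1 (F w)) μ := by
  unfold e1
  exact integrable_finsetSum _ fun i _ => integrable_finsetSum _ fun j _ => (hF i j).integrable.norm

/-- Entrywise integral. -/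
def mint {Ω Q : Type} [MeasurableSpace Ω] (μ : Measure Ω) (F : Ω → Matrix Q Q ℂ) :
    Matrix Q Q ℂ := Matrix.of fun x y => ∫ w, F w x y ∂μ

theorem mint_trace_mul {Ω Q : Type} [MeasurableSpace Ω] [Fintype Q] {μ : Measure Ω}
    [IsProbabilityMeasure μ] {F : Ω → Matrix Q Q ℂ} (hF : BMm F) (P : Matrix Q Q ℂ) :
    (mint μ F * P).trace = ∫ w, (F w * P).trace ∂μ := by
  simp only [Matrix.trace, Matrix.diag_apply, Matrix.mul_apply, mint, Matrix.of_apply]
  rw [integral_finsetSum _ fun i _ => (BM.sum fun j _ => (hF i j).mul (BM.const (P j i))).integrable]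
  refine Finset.sum_congr rfl fun i _ => ?_
  rw [integral_finsetSum _ fun j _ => ((hF i j).mul (BM.const (P j i))).integrable]
  exact Finset.sum_congr rfl fun j _ => (integral_mul_const (P j i) _).symm

theorem mint_trace {Ω Q : Type} [MeasurableSpace Ω] [Fintype Q] [DecidableEq Q] {μ : Measure Ω}
    [IsProbabilityMeasure μ] {F : Ω → Matrix Q Q ℂ} (hF : BMm F) :
    (mint μ F).trace = ∫ w, (F w).trace ∂μ := by
  have h := mint_trace_mul (μ := μ) hF 1
  simpa using h

theorem re_integral {Ω : Type} [MeasurableSpace Ω] {μ : Measure Ω}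
    [IsProbabilityMeasure μ] {f : Ω → ℂ} (hf : BM f) :
    (∫ w, f w ∂μ).re = ∫ w, (f w).re ∂μ := by
  have h := integral_re (𝕜 := ℂ) (hf.integrable (μ := μ))
  exact h.symm

/-- The integral of positive semidefinite matrices is positive semidefinite. -/
theorem mint_psd {Ω Q : Type} [MeasurableSpace Ω] [Fintype Q] {μ : Measure Ω}
    [IsProbabilityMeasure μ] {F : Ω → Matrix Q Q ℂ} (hF : BMm F)
    (hp : ∀ w, (F w).PosSemidef) : (mint μ F).PosSemidef := by
  rw [Matrix.posSemidef_iff_dotProduct_mulVec]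
  constructor
  · ext x y
    simp only [mint, Matrix.conjTranspose_apply, Matrix.of_apply]
    have e : ∀ w, F w x y = star (F w y x) := fun w => by
      have h := congrFun (congrFun (hp w).1 x) y
      simpa [Matrix.conjTranspose_apply] using h.symm
    simp_rw [e]
    exact (integral_conj (f := fun w => F w y x)).symm
  · intro u
    have e : star u ⬝ᵥ (mint μ F).mulVec u = ∫ w, (star u ⬝ᵥ (F w).mulVec u) ∂μ := by
      simp only [dotProduct, Matrix.mulVec, mint, Matrix.of_apply]
      rw [integral_finsetSum _ fun i _ => ((BM.const (star u i)).mul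
        (BM.sum fun j _ => (hF i j).mul (BM.const (u j)))).integrable]
      refine Finset.sum_congr rfl fun i _ => ?_
      rw [integral_const_mul, integral_finsetSum _ fun j _ =>
        ((hF i j).mul (BM.const (u j))).integrable]
      congr 1
      exact Finset.sum_congr rfl fun j _ => (integral_mul_const (u j) _).symm
    rw [e]
    have hb : BM fun w => star u ⬝ᵥ (F w).mulVec u := by
      simp only [dotProduct, Matrix.mulVec]
      exact BM.sum fun i _ => (BM.const (star u i)).mul
        (BM.sum fun j _ => (hF i j).mul (BM.const (u j)))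
    have h0 : ∀ w, (0 : ℂ) ≤ star u ⬝ᵥ (F w).mulVec u := fun w =>
      (Matrix.posSemidef_iff_dotProduct_mulVec.1 (hp w)).2 u
    have h1 : ∀ w, 0 ≤ (star u ⬝ᵥ (F w).mulVec u).re := fun w => (Complex.nonneg_iff.1 (h0 w)).1
    have h2 : ∀ w, (star u ⬝ᵥ (F w).mulVec u).im = 0 := fun w =>
      (Complex.nonneg_iff.1 (h0 w)).2.symm
    have e2 : ∫ w, (star u ⬝ᵥ (F w).mulVec u) ∂μ
        = ((∫ w, (star u ⬝ᵥ (F w).mulVec u).re ∂μ : ℝ) : ℂ) := by
      rw [← integral_complex_ofReal]
      refine integral_congr_ae (Filter.Eventually.of_forall fun w => ?_)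
      exact Complex.ext (by simp) (by simp [h2 w])
    rw [e2]
    exact_mod_cast integral_nonneg h1

/-! ### The trace inequality -/

theorem trace_key {Q : Type} [Fintype Q] [DecidableEq Q] (M P : Matrix Q Q ℂ) (y a : ℝ)
    (hy : 0 < y) (ha : 0 < a) (hM : M.PosSemidef) (hP : P.PosSemidef)
    (hMP : (((y : ℂ)⁻¹) • P - M).PosSemidef) :
    M.trace.re ≤ Fintype.card Q * (a / y) + (1 / a) * (M * P).trace.re := by
  have hH := hP.1
  let U : Matrix Q Q ℂ := (hH.eigenvectorUnitary : Matrix Q Q ℂ)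
  let lam := hH.eigenvalues
  have hU1 : star U * U = 1 := Unitary.coe_star_mul_self hH.eigenvectorUnitary
  have hU2 : U * star U = 1 := Unitary.coe_mul_star_self hH.eigenvectorUnitary
  have hsp : P = U * Matrix.diagonal (fun i => (lam i : ℂ)) * star U := by
    have h := hH.spectral_theorem
    rw [Unitary.conjStarAlgAut_apply] at h
    exact h
  have hlam : ∀ i, 0 ≤ lam i := fun i => hP.eigenvalues_nonneg i
  set M' := star U * M * U with hM'
  have hM'p : M'.PosSemidef := by
    have h := hM.conjTranspose_mul_mul_same U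
    exact h
  have hMPp : (star U * (((y : ℂ)⁻¹) • P - M) * U).PosSemidef :=
    hMP.conjTranspose_mul_mul_same U
  have eP : star U * P * U = Matrix.diagonal (fun i => (lam i : ℂ)) := by
    rw [hsp]
    calc star U * (U * Matrix.diagonal (fun i => (lam i : ℂ)) * star U) * U
        = (star U * U) * Matrix.diagonal (fun i => (lam i : ℂ)) * (star U * U) := by
          simp only [Matrix.mul_assoc]
      _ = _ := by rw [hU1]; simp
  have e3 : star U * (((y : ℂ)⁻¹) • P - M) * U
      = ((y : ℂ)⁻¹) • Matrix.diagonal (fun i => (lam i : ℂ)) - M' := by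
    rw [Matrix.mul_sub, Matrix.sub_mul, Matrix.mul_smul, Matrix.smul_mul, eP]
  rw [e3] at hMPp
  have hd1 : ∀ i, 0 ≤ (M' i i).re := fun i => (Complex.nonneg_iff.1 hM'p.diag_nonneg).1
  have hd2 : ∀ i, (M' i i).re ≤ lam i / y := fun i => by
    have h := (Complex.nonneg_iff.1 (hMPp.diag_nonneg (i := i))).1
    rw [Matrix.sub_apply, Matrix.smul_apply, Matrix.diagonal_apply_eq, Complex.sub_re,
      smul_eq_mul, ← Complex.ofReal_inv, ← Complex.ofReal_mul, Complex.ofReal_re] at h
    rw [div_eq_inv_mul]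
    linarith
  have t1 : M.trace = M'.trace := by
    rw [hM', Matrix.trace_mul_comm, ← Matrix.mul_assoc, hU2, Matrix.one_mul]
  have t2 : (M * P).trace = ∑ i, M' i i * (lam i : ℂ) := by
    have h1 : (M * P).trace = (M' * Matrix.diagonal (fun i => (lam i : ℂ))).trace := by
      have h2 : star U * M * U * (star U * P * U) = star U * (M * P) * U := by
        calc star U * M * U * (star U * P * U) = star U * M * (U * star U) * P * U := by
              simp only [Matrix.mul_assoc]
          _ = _ := by rw [hU2]; simp only [Matrix.mul_assoc, Matrix.one_mul]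
      rw [hM', ← eP, h2, Matrix.trace_mul_comm (star U * (M * P)) U, ← Matrix.mul_assoc, hU2,
        Matrix.one_mul]
    rw [h1, Matrix.trace]
    refine Finset.sum_congr rfl fun i _ => ?_
    rw [Matrix.diag_apply, Matrix.mul_diagonal]
  rw [t1, t2, Matrix.trace, Complex.re_sum, Complex.re_sum]
  have h3 : ∀ i, (M' i i).re ≤ a / y + (1 / a) * ((M' i i).re * lam i) := by
    intro i
    rcases le_or_gt (lam i) a with h | h
    · have h4 : (M' i i).re ≤ a / y := (hd2 i).trans (div_le_div_of_nonneg_right h hy.le)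
      have h5 : 0 ≤ (1 / a) * ((M' i i).re * lam i) :=
        mul_nonneg (by positivity) (mul_nonneg (hd1 i) (hlam i))
      linarith
    · have h4 : (M' i i).re ≤ (1 / a) * ((M' i i).re * lam i) := by
        rw [one_div, inv_mul_eq_div, le_div_iff₀ ha]
        exact mul_le_mul_of_nonneg_left h.le (hd1 i)
      have h5 : 0 ≤ a / y := by positivity
      linarith
  calc ∑ i, (M'.diag i).re ≤ ∑ i, (a / y + (1 / a) * ((M' i i).re * lam i)) :=
        Finset.sum_le_sum fun i _ => h3 i
    _ = Fintype.card Q * (a / y) + (1 / a) * ∑ i, (M' i i * (lam i : ℂ)).re := by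
        rw [Finset.sum_add_distrib, ← Finset.mul_sum]
        simp

/-! ### Imaginary parts -/

theorem imM_trace {Q : Type} [Fintype Q] (M : Matrix Q Q ℂ) :
    (imM M).trace = ((M.trace.im : ℝ) : ℂ) := by
  unfold imM
  rw [Matrix.trace_smul, Matrix.trace_sub, Matrix.trace_conjTranspose]
  generalize M.trace = t
  have h : t - star t = 2 * Complex.I * (t.im : ℂ) := by
    apply Complex.ext
    · simp
    · simp
      ring
  rw [h, smul_eq_mul]
  field_simp

theorem imM_conj {Q : Type} [Fintype Q] (A X : Matrix Q Q ℂ) :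
    A.conjTranspose * imM X * A = imM (A.conjTranspose * X * A) := by
  unfold imM
  rw [Matrix.mul_smul, Matrix.smul_mul, Matrix.mul_sub, Matrix.sub_mul]
  congr 2
  rw [Matrix.conjTranspose_mul, Matrix.conjTranspose_mul, Matrix.conjTranspose_conjTranspose,
    Matrix.mul_assoc]

theorem imM_sub {Q : Type} (A B : Matrix Q Q ℂ) : imM (A - B) = imM A - imM B := by
  unfold imM
  rw [Matrix.conjTranspose_sub, ← smul_sub]
  congr 1
  abel

theorem imM_adj {Q : Type} (A : Matrix Q Q ℂ) : imM A.conjTranspose = - imM A := by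
  unfold imM
  rw [Matrix.conjTranspose_conjTranspose, ← smul_neg, neg_sub]

theorem imM_real {Q : Type} (r : ℝ) (A : Matrix Q Q ℂ) : imM ((r : ℂ) • A) = (r : ℂ) • imM A := by
  unfold imM
  have h : star (r : ℂ) = (r : ℂ) := by simp
  rw [Matrix.conjTranspose_smul, h, ← smul_sub, smul_comm]

theorem imM_herm {Q : Type} {A : Matrix Q Q ℂ} (h : A.IsHermitian) : imM A = 0 := by
  unfold imM
  rw [h.eq, sub_self, smul_zero]

theorem imM_one {Q : Type} [DecidableEq Q] (z : ℂ) :
    imM (z • (1 : Matrix Q Q ℂ)) = (z.im : ℂ) • (1 : Matrix Q Q ℂ) := by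
  unfold imM
  rw [Matrix.conjTranspose_smul, Matrix.conjTranspose_one, ← sub_smul, smul_smul]
  congr 1
  have h : z - star z = 2 * Complex.I * (z.im : ℂ) := by
    apply Complex.ext
    · simp
    · simp
      ring
  rw [h]
  field_simp

theorem imM_isHermitian {Q : Type} (A : Matrix Q Q ℂ) : (imM A).conjTranspose = imM A := by
  unfold imM
  rw [Matrix.conjTranspose_smul, Matrix.conjTranspose_sub, Matrix.conjTranspose_conjTranspose]
  have h : star (1 / (2 * Complex.I)) = -(1 / (2 * Complex.I)) := by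
    simp
  rw [h, neg_smul, ← smul_neg, neg_sub]

theorem imM_X {Q : Type} [DecidableEq Q] {D g : Matrix Q Q ℂ} (hD : D.IsHermitian) (z : ℂ)
    (r : ℝ) : imM (D - z • (1 : Matrix Q Q ℂ) - (r : ℂ) • g)
      = -((z.im : ℂ) • (1 : Matrix Q Q ℂ)) - (r : ℂ) • imM g := by
  rw [imM_sub, imM_sub, imM_herm hD, imM_one, imM_real, zero_sub]

theorem norm_trace_mul_le {Q : Type} [Fintype Q] {A B : Matrix Q Q ℂ} {c : ℝ}
    (hA : ∀ x y, ‖A x y‖ ≤ c) : ‖(A * B).trace‖ ≤ c * e1 B := by
  unfold e1
  rw [Matrix.trace]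
  refine (norm_sum_le _ _).trans ?_
  rw [Finset.sum_comm, Finset.mul_sum]
  refine Finset.sum_le_sum fun x _ => ?_
  rw [Matrix.diag_apply, Matrix.mul_apply, Finset.mul_sum]
  refine (norm_sum_le _ _).trans (Finset.sum_le_sum fun y _ => ?_)
  rw [norm_mul]
  exact mul_le_mul_of_nonneg_right (hA x y) (norm_nonneg _)

/-- First trace inequality. -/
theorem tr1 {Q : Type} [Fintype Q] [DecidableEq Q] {D G g : Matrix Q Q ℂ} (hD : D.IsHermitian)
    {z : ℂ} (hz : 0 < z.im) (r : ℝ) (hG : ∀ x y, ‖G x y‖ ≤ 1 / z.im) :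
    r * (G.conjTranspose * imM g * G).trace.re ≤ (imM G).trace.re
      + (1 / z.im) * e1 (1 - (D - z • (1 : Matrix Q Q ℂ) - (r : ℂ) • g) * G) := by
  have hXi := imM_X (g := g) hD z r
  generalize D - z • (1 : Matrix Q Q ℂ) - (r : ℂ) • g = X at hXi ⊢
  obtain ⟨h, hh⟩ : ∃ h, h = 1 - X * G := ⟨_, rfl⟩
  rw [← hh]
  have e1' : G.conjTranspose * X * G = G.conjTranspose - G.conjTranspose * h := by
    rw [hh, Matrix.mul_sub, Matrix.mul_one, sub_sub_cancel, Matrix.mul_assoc]
  have e2 := imM_conj G X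
  rw [e1', imM_sub, imM_adj, hXi, Matrix.mul_sub, Matrix.sub_mul, Matrix.mul_neg,
    Matrix.neg_mul, Matrix.mul_smul, Matrix.smul_mul, Matrix.mul_smul, Matrix.smul_mul,
    Matrix.mul_one] at e2
  have e3 := congrArg (fun M : Matrix Q Q ℂ => M.trace.re) e2
  simp only [Matrix.trace_sub, Matrix.trace_neg, Matrix.trace_smul, Complex.sub_re,
    Complex.neg_re, smul_eq_mul, Complex.re_ofReal_mul, imM_trace, Complex.ofReal_re] at e3
  have h1 : 0 ≤ (G.conjTranspose * G).trace.re :=
    (Complex.nonneg_iff.1 (Matrix.posSemidef_conjTranspose_mul_self G).trace_nonneg).1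
  have h2 : ‖(G.conjTranspose * h).trace‖ ≤ (1 / z.im) * e1 h :=
    norm_trace_mul_le fun x y => by
      rw [Matrix.conjTranspose_apply, norm_star]
      exact hG y x
  have h3 := (Complex.abs_im_le_norm (G.conjTranspose * h).trace).trans h2
  have h4 := le_abs_self (G.conjTranspose * h).trace.im
  have h5 : 0 ≤ z.im * (G.conjTranspose * G).trace.re := mul_nonneg hz.le h1
  rw [imM_trace, Complex.ofReal_re]
  linarith

/-- Second trace inequality. -/
theorem tr2 {Q : Type} [Fintype Q] [DecidableEq Q] {D G g : Matrix Q Q ℂ} (hD : D.IsHermitian)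
    {z : ℂ} (hz : 0 < z.im) (r : ℝ) (hG : ∀ x y, ‖G x y‖ ≤ 1 / z.im) :
    r * (G * imM g * G.conjTranspose).trace.re ≤ (imM G).trace.re
      + (1 / z.im) * e1 (1 - G * (D - z • (1 : Matrix Q Q ℂ) - (r : ℂ) • g)) := by
  have hXi := imM_X (g := g) hD z r
  generalize D - z • (1 : Matrix Q Q ℂ) - (r : ℂ) • g = X at hXi ⊢
  obtain ⟨h, hh⟩ : ∃ h, h = 1 - G * X := ⟨_, rfl⟩
  rw [← hh]
  have e1' : G * X * G.conjTranspose = G.conjTranspose - h * G.conjTranspose := by
    rw [hh, Matrix.sub_mul, Matrix.one_mul, sub_sub_cancel]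
  have e2 := imM_conj G.conjTranspose X
  rw [Matrix.conjTranspose_conjTranspose, e1', imM_sub, imM_adj, hXi, Matrix.mul_sub,
    Matrix.sub_mul, Matrix.mul_neg, Matrix.neg_mul, Matrix.mul_smul, Matrix.smul_mul,
    Matrix.mul_smul, Matrix.smul_mul, Matrix.mul_one] at e2
  have e3 := congrArg (fun M : Matrix Q Q ℂ => M.trace.re) e2
  simp only [Matrix.trace_sub, Matrix.trace_neg, Matrix.trace_smul, Complex.sub_re,
    Complex.neg_re, smul_eq_mul, Complex.re_ofReal_mul, imM_trace, Complex.ofReal_re] at e3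
  have h1 : 0 ≤ (G * G.conjTranspose).trace.re :=
    (Complex.nonneg_iff.1 (Matrix.posSemidef_self_mul_conjTranspose G).trace_nonneg).1
  have h2 : ‖(h * G.conjTranspose).trace‖ ≤ (1 / z.im) * e1 h := by
    rw [Matrix.trace_mul_comm]
    exact norm_trace_mul_le fun x y => by
      rw [Matrix.conjTranspose_apply, norm_star]
      exact hG y x
  have h3 := (Complex.abs_im_le_norm (h * G.conjTranspose).trace).trans h2
  have h4 := le_abs_self (h * G.conjTranspose).trace.im
  have h5 : 0 ≤ z.im * (G * G.conjTranspose).trace.re := mul_nonneg hz.le h1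
  rw [imM_trace, Complex.ofReal_re]
  linarith

/-- Third trace inequality. -/
theorem tr3 {Q : Type} [Fintype Q] [DecidableEq Q] {G P : Matrix Q Q ℂ} (hP : P.PosSemidef) :
    2 * (imM G * imM G * P).trace.re ≤ (G.conjTranspose * P * G).trace.re
      + (G * P * G.conjTranspose).trace.re := by
  have e : G - G.conjTranspose = (2 * Complex.I) • imM G := by
    unfold imM
    rw [smul_smul]
    have : (2 * Complex.I) * (1 / (2 * Complex.I)) = 1 := by
      field_simp
    rw [this, one_smul]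
  have h1 : (G + G.conjTranspose).conjTranspose * P * (G + G.conjTranspose)
      + (G - G.conjTranspose).conjTranspose * P * (G - G.conjTranspose)
      = (2 : ℂ) • (G.conjTranspose * P * G) + (2 : ℂ) • (G * P * G.conjTranspose) := by
    rw [Matrix.conjTranspose_add, Matrix.conjTranspose_sub, Matrix.conjTranspose_conjTranspose]
    rw [two_smul, two_smul]
    noncomm_ring
  have h2 : (G - G.conjTranspose).conjTranspose * P * (G - G.conjTranspose)
      = (4 : ℂ) • (imM G * P * imM G) := by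
    rw [e, Matrix.conjTranspose_smul, imM_isHermitian, Matrix.smul_mul, Matrix.smul_mul,
      Matrix.mul_smul, smul_smul]
    congr 1
    have h3 : star (2 * Complex.I) = -(2 * Complex.I) := by
      simp
    rw [h3]
    have h4 : Complex.I * Complex.I = -1 := Complex.I_mul_I
    linear_combination (-4) * h4
  rw [h2] at h1
  have h5 := congrArg (fun M : Matrix Q Q ℂ => M.trace.re) h1
  simp only [Matrix.trace_add, Matrix.trace_smul, Complex.add_re, smul_eq_mul, Complex.mul_re,
    Complex.re_ofNat, Complex.im_ofNat, zero_mul, sub_zero] at h5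
  have h6 : 0 ≤ ((G + G.conjTranspose).conjTranspose * P * (G + G.conjTranspose)).trace.re :=
    (Complex.nonneg_iff.1 (hP.conjTranspose_mul_mul_same (G + G.conjTranspose)).trace_nonneg).1
  have h7 : (imM G * P * imM G).trace = (imM G * imM G * P).trace := by
    rw [Matrix.trace_mul_comm, ← Matrix.mul_assoc]
  rw [h7] at h5
  linarith

theorem sq_trace {Q : Type} [Fintype Q] (G : Matrix Q Q ℂ) :
    (imM G * imM G).trace.re = ∑ x, ∑ y, ‖imM G x y‖ ^ 2 := by
  rw [Matrix.trace, Complex.re_sum]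
  refine Finset.sum_congr rfl fun x _ => ?_
  rw [Matrix.diag_apply, Matrix.mul_apply, Complex.re_sum]
  refine Finset.sum_congr rfl fun y _ => ?_
  have h : imM G y x = star (imM G x y) := by
    have h := congrFun (congrFun (imM_isHermitian G) y) x
    rw [Matrix.conjTranspose_apply] at h
    exact h.symm
  rw [h]
  have h2 := Complex.mul_conj (imM G x y)
  rw [Complex.star_def, h2, Complex.ofReal_re, Complex.normSq_eq_norm_sq]

end P2

open P2 in
/-- Job P2. -/
theorem main_P2 : S_P2 := by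
  intro Q _ _ _ Ω _ μ _ D G s z hs hz hDm hGm hDb hDh hGp hGq hGb g hg a ha
  have hy : 0 < 1 / z.im := by positivity
  have hGe : ∀ w x y, ‖G w x y‖ ≤ 1 / z.im := fun w x y => norm_entry_le hy.le (hGb w) x y
  obtain ⟨C, hC⟩ := hDb
  have hC' : ∀ w x y, ‖D w x y‖ ≤ |C| := fun w x y =>
    norm_entry_le (abs_nonneg C) (fun u => by
      have h := hC w u
      rwa [← sq_abs C] at h) x y
  have bG : BMm G := fun x y => ⟨hGm x y, _, fun w => hGe w x y⟩
  have bD : BMm D := fun x y => ⟨hDm x y, _, fun w => hC' w x y⟩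
  have bB : BMm fun w => imM (G w) := bG.imM
  have bBB : BMm fun w => imM (G w) * imM (G w) := bB.mul bB
  set N : ℝ := (Fintype.card Q : ℝ) with hN
  have hN1 : 1 ≤ N := by
    rw [hN]
    exact_mod_cast Fintype.card_pos
  -- the mean
  have hP : imM g = mint μ fun w => imM (G w) := by
    ext x y
    have e : ∀ w, imM (G w) x y = (1 / (2 * Complex.I)) * (G w x y - star (G w y x)) :=
      fun w => rfl
    have e' : imM g x y = (1 / (2 * Complex.I)) * (g x y - star (g y x)) := rfl
    change imM g x y = ∫ w, imM (G w) x y ∂μ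
    simp_rw [e]
    rw [e', integral_const_mul, integral_sub (bG x y).integrable (bG y x).conj.integrable, hg x y,
      ← hg y x]
    congr 2
    exact (integral_conj (f := fun w => G w y x)).symm
  have hPp : (imM g).PosSemidef := by
    rw [hP]
    exact mint_psd bB hGp
  set M := mint μ fun w => imM (G w) * imM (G w) with hM
  have hMp : M.PosSemidef := mint_psd bBB fun w => by
    have h := Matrix.posSemidef_conjTranspose_mul_self (imM (G w))
    rwa [imM_isHermitian] at h
  have hMP : (((z.im : ℂ)⁻¹) • imM g - M).PosSemidef := by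
    have e : ((z.im : ℂ)⁻¹) • imM g - M
        = mint μ fun w => (z.im : ℂ)⁻¹ • imM (G w) - imM (G w) * imM (G w) := by
      rw [hP, hM]
      ext x y
      change (z.im : ℂ)⁻¹ * (∫ w, imM (G w) x y ∂μ) - ∫ w, (imM (G w) * imM (G w)) x y ∂μ
        = ∫ w, ((z.im : ℂ)⁻¹ * imM (G w) x y - (imM (G w) * imM (G w)) x y) ∂μ
      rw [integral_sub (((BM.const _).mul (bB x y)).integrable) (bBB x y).integrable,
        integral_const_mul]
    rw [e]
    exact mint_psd ((bB.smul _).sub bBB) hGq
  have key := trace_key M (imM g) z.im a hz ha hMp hPp hMP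
  have k1 : M.trace.re = ∫ w, ∑ x, ∑ y, ‖imM (G w) x y‖ ^ 2 ∂μ := by
    rw [hM, mint_trace bBB, re_integral bBB.trace]
    simp_rw [sq_trace]
  have k2 : (M * imM g).trace.re = ∫ w, (imM (G w) * imM (G w) * imM g).trace.re ∂μ := by
    rw [hM, mint_trace_mul bBB, re_integral (bBB.mul (BMm.const _)).trace]
  have bX : BMm fun w => D w - z • (1 : Matrix Q Q ℂ) - ((s ^ 2 : ℝ) : ℂ) • g :=
    (bD.sub (BMm.const _)).sub (BMm.const _)
  have b1 : BMm fun w => 1 - (D w - z • (1 : Matrix Q Q ℂ) - ((s ^ 2 : ℝ) : ℂ) • g) * G w :=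
    (BMm.const _).sub (bX.mul bG)
  have b2 : BMm fun w => 1 - G w * (D w - z • (1 : Matrix Q Q ℂ) - ((s ^ 2 : ℝ) : ℂ) • g) :=
    (BMm.const _).sub (bG.mul bX)
  set E1 := ∫ w, e1 (1 - (D w - z • (1 : Matrix Q Q ℂ) - ((s ^ 2 : ℝ) : ℂ) • g) * G w) ∂μ with hE1
  set E2 := ∫ w, e1 (1 - G w * (D w - z • (1 : Matrix Q Q ℂ) - ((s ^ 2 : ℝ) : ℂ) • g)) ∂μ with hE2
  have e1n : ∀ A : Matrix Q Q ℂ, 0 ≤ e1 A := fun A =>
    Finset.sum_nonneg fun _ _ => Finset.sum_nonneg fun _ _ => norm_nonneg _
  have hE10 : 0 ≤ E1 := integral_nonneg fun w => e1n _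
  have hE20 : 0 ≤ E2 := integral_nonneg fun w => e1n _
  have pw : ∀ w, (s ^ 2 * 2) * (imM (G w) * imM (G w) * imM g).trace.re
      ≤ 2 * (∑ x, (G w x x).im)
        + ((1 / z.im) * e1 (1 - (D w - z • (1 : Matrix Q Q ℂ) - ((s ^ 2 : ℝ) : ℂ) • g) * G w)
          + (1 / z.im) * e1 (1 - G w * (D w - z • (1 : Matrix Q Q ℂ) - ((s ^ 2 : ℝ) : ℂ) • g))) := by
    intro w
    have h1 := tr1 (g := g) (hDh w) hz (s ^ 2) (hGe w)
    have h2 := tr2 (g := g) (hDh w) hz (s ^ 2) (hGe w)
    have h3 := tr3 (G := G w) hPp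
    have h4 : (imM (G w)).trace.re = ∑ x, (G w x x).im := by
      rw [imM_trace, Complex.ofReal_re, Matrix.trace, Complex.im_sum]
      rfl
    rw [h4] at h1 h2
    have h5 := mul_le_mul_of_nonneg_left h3 (sq_nonneg s)
    linarith
  have i1 : Integrable (fun w => (imM (G w) * imM (G w) * imM g).trace.re) μ :=
    ((bBB.mul (BMm.const (imM g))).trace.integrable (μ := μ)).re
  have i2 : Integrable (fun w => ∑ x, (G w x x).im) μ :=
    integrable_finsetSum _ fun x _ => ((bG x x).integrable (μ := μ)).im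
  have i3 := integrable_e1 (μ := μ) b1
  have i4 := integrable_e1 (μ := μ) b2
  have K := integral_mono (i1.const_mul (s ^ 2 * 2))
    ((i2.const_mul 2).add ((i3.const_mul (1 / z.im)).add (i4.const_mul (1 / z.im)))) pw
  rw [integral_const_mul, integral_add' (i2.const_mul 2)
    ((i3.const_mul (1 / z.im)).add (i4.const_mul (1 / z.im))), integral_add'
    (i3.const_mul (1 / z.im)) (i4.const_mul (1 / z.im)), integral_const_mul, integral_const_mul,
    integral_const_mul, ← hE1, ← hE2, ← k2] at K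
  rw [k1] at key
  set T := ∫ w, ∑ x, (G w x x).im ∂μ with hT
  set L := ∫ w, ∑ x, ∑ y, ‖imM (G w) x y‖ ^ 2 ∂μ with hL
  set V := (M * imM g).trace.re with hV
  have hs2 : 0 < s ^ 2 := by positivity
  have hN0 : 0 < N := by linarith
  have hV2 : V ≤ (T + (1 / z.im) * (E1 + E2) / 2) / s ^ 2 := by
    rw [le_div_iff₀ hs2]
    linarith
  have hL2 : L / N ≤ a / z.im + (1 / a) * (V / N) := by
    rw [div_le_iff₀ hN0]
    have : (a / z.im + (1 / a) * (V / N)) * N = N * (a / z.im) + (1 / a) * V := by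
      field_simp
    rw [this]
    exact key
  have hW : V / N ≤ (1 / s ^ 2) * (T / N + (1 / z.im) * (E1 + E2)) := by
    have h1 : V / N ≤ ((T + (1 / z.im) * (E1 + E2) / 2) / s ^ 2) / N :=
      div_le_div_of_nonneg_right hV2 hN0.le
    have h2 : ((T + (1 / z.im) * (E1 + E2) / 2) / s ^ 2) / N
        = (1 / s ^ 2) * (T / N + ((1 / z.im) * (E1 + E2) / 2) / N) := by
      field_simp
    rw [h2] at h1
    refine h1.trans (mul_le_mul_of_nonneg_left ?_ (by positivity))
    have h3 : 0 ≤ (1 / z.im) * (E1 + E2) := by positivity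
    have h4 : ((1 / z.im) * (E1 + E2) / 2) / N ≤ (1 / z.im) * (E1 + E2) := by
      rw [div_le_iff₀ hN0]
      nlinarith
    linarith
  calc L / N ≤ a / z.im + (1 / a) * (V / N) := hL2
    _ ≤ a / z.im + (1 / a) * ((1 / s ^ 2) * (T / N + (1 / z.im) * (E1 + E2))) := by
        have := mul_le_mul_of_nonneg_left hW (show 0 ≤ 1 / a by positivity)
        linarith
    _ = a / z.im + 1 / (a * s ^ 2) * (T / N + (1 / z.im) * (E1 + E2)) := by
        rw [← mul_assoc, one_div_mul_one_div]

end

end Pool.Agent.Q156.GK
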