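import Pool.Agent.Q156.GK.Stm

/-!
# Project GK: proofs of the statements of `Pool.Agent.W792.GK.Stm` (starting library)

Every job: prove `theorem Pool.Agent.Q156.GK.main_XX : S_XX` (assumptions as arrows, see the job) in
the file `Pool/Agent/Q156/GK/XX.lean`, importing `Pool.Agent.Q156.GK.Stm`. Facts on `OpB`, `fro`,
`e1`, `blk` are in `Nm.lean` (`opB_iff`: `OpB A c ↔ ‖A‖ ≤ c` for the norm of
`open scoped Matrix.Norms.L2Operator`). `S_COEF` is proved: `Pool.Agent.W52.GKCoef.main`.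
Every job may assume `S_COEF` and any other statement as an arrow if it helps (say so), except
circularly: the order is LFA, LFB, UPD, LFS, LF2, LF, FP, SER, CUR, ALG, LZ; CONT, HOL, GR, ALLZ;
P2, GRID, TI, FM; SYA, SYB, SY1, SY2, SY3, APPROX, CIRC1, CIRC2; PA, MOM, LAW, T1, T2, MOP, MFIN,
INJ, DIL, LIP, MEAS, EIG, KP1, KP2, KP, NE, OD, FINAL.

## LF (assume `S_LF2`)
`e1 M ≤ |Q| √(fro M)` (`e1_le_fro`), and `E √(fro) ≤ √(E fro)` (Jensen or `∫ ‖·‖ ≤ (∫ ‖·‖²)^(1/2)`,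
probability measure, bounded measurable functions). The integrand is `e1` of the block `(p,p)` of
`Zk T X k`. Constant `c' = |Q| √c`.

## FP
`‖z‖ ≥ 8 (C+s+1)`. In `Matrix Q Q ℂ` with the operator norm (finite dimensional, complete) let
`Bal = {g : ‖g‖ ≤ 2/‖z‖}`. For `g ∈ Bal` and all `w` the matrix `z + s² g - D w` is invertible with
inverse bounded by `1/(‖z‖ - C - 2 s²/‖z‖) ≤ 2/‖z‖`; `Y_g w = (D w - z - s² g)⁻¹` (matrix inverse, its
entries are measurable in `w`: determinant and adjugate). `Ψ g = E Y_g` (entrywise integral; norm at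
most `2/‖z‖`: the integral of the matrix valued function has norm at most the bound) maps `Bal` to
itself and `‖Y_g - Y_h‖ ≤ ‖Y_g‖ s² ‖g-h‖ ‖Y_h‖ ≤ (4 s²/‖z‖²) ‖g-h‖ ≤ ‖g-h‖/16`. Banach fixed point
(`ContractingWith` on the complete set, or iterate from `0`).

## SER
`g₁ = kronecker g 1`, `A₁ = kronecker 1 A` commute. `c n := ch (s²) A n` satisfies
`OpB (c n) ((4 s)^n)` (`‖A‖ ≤ 3 s`: `3 s (4 s)^(n+1) + s² (4 s)^n ≤ (4 s)^(n+2)`). Put
`S = ∑_{m ≥ 0} (-1)^(m+1) kronecker (g^m) (c (m+1))`; summable since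
`‖g‖^m (4 s)^(m+1) ≤ 4 s (1/2)^m` (`4 s γ ≤ 1/2`), so `‖S‖ ≤ 8 s`. `S` commutes with `g₁`.
Coefficientwise: `(A₁ + s² g₁)(1 + g₁ S) = -S` follows from `c (m+1) = A c m - s² c (m-1)`:
`1 + g₁ S = ∑ (-g₁)^m c m` (with `c 0 = 1`), and `(A₁ + s² g₁) ∑ (-g₁)^m c m =
∑ (-g₁)^m (A c m - s² c (m-1)) = ∑ (-g₁)^m c (m+1) = -S`. Entries: for `m < n₀` the entry of
`kronecker (g^m) (c (m+1))` is at most `γ^m δ ≤ (1/8)^m δ`, sum at most `2 δ`; the rest has norm at
most `∑_{m ≥ n₀} 4 s (1/2)^m = 8 s (1/2)^n₀`.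

## CONT
`f` is holomorphic in the ball of radius `Rad` and bounded by 1, `a_n` its Taylor coefficients at
`z₀`: `|a_n| ≤ Rad^(-n)` (Cauchy), `f(w) = ∑ a_n (w-z₀)^n`, so `|f(w)| ≤ ∑_{n<N} |a_n| Rad^n +
tail`, tail `≤ q^N/(1-q)`, `q = |w-z₀|/Rad < 1`. For the `M`-th roots of unity `ζ_l = z₀ + ρ ω^l`:
`(1/M) ∑_l f(ζ_l) ω^(-ln) = ∑_{j ≡ n mod M} a_j ρ^j`, so for `n < N ≤ M`:
`|a_n| ρ^n ≤ max_l |f(ζ_l)| + ∑_{i ≥ 1} (ρ/Rad)^(n+iM)`. Hence `|a_n| Rad^n ≤ (Rad/ρ)^N (∑_l |f ζ_l|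
+ (ρ/Rad)^M/(1-ρ/Rad))`. Choose `N`, then `M`. (If `w` is such that ... no condition on `ρ` versus
`|w-z₀|` is needed.)

## GR
`ham κ A v` is hermitian (`κ (-x) = conj κ x`, `A` hermitian, `v` real). For `Im z ≠ 0` the matrix
`H - z` is invertible (no real eigenvalue; or `Im ⟨u,(H-z)u⟩ = -Im z ‖u‖²`). Continuity in `v`:
matrix inverse is continuous at units (determinant and adjugate). For `Im z > 0`, `G = (H-z)⁻¹`:
`(G - G^*)/(2i) = Im z G^* G`, so the block `imM (gr) = (Im z) ∑_j (blk G j p)^* (blk G j p)`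
is positive semidefinite. `OpB G (1/Im z)`, so also the block (`opB_blk`). Third:
`(Im z)⁻¹ imM(gr) - imM(gr)²`: for the whole matrix `M = imM G`, `0 ≤ M ≤ 1/Im z` gives
`M² ≤ M/Im z` (`M` hermitian, `M = Im z G^*G`, `M/Im z - M² = G^* (1 - (Im z)² G G^*) G` as `G` is
normal), and compression: `blk(M²) p p = ∑_j blk M p j (blk M p j)^* ≥ (blk M p p)²`.
Differentiability in `z`: entries are `adjugate/det`, polynomials in `z` (or `HasDerivAt` of
`Ring.inverse`).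

## ALLZ (assume `S_LZ`, `S_CONT`, `S_GR`, `S_HOL`)
Fix `z` with `y = Im z > 0`. `C := ‖κ‖₁ + R` bounds `κ(x-y) + diag w` (entrywise, e.g. `OpB` by
the Frobenius norm; any `C` depending on `Q, κ, R`). Take `z₀ = i Y`, `Rad = Y - y/2`, `ρ = 1`, with
`Y` so large that `Y - 1 ≥ 64 (C+s+1)`, `|z - z₀| < Rad` (true for `Y` large:
`(Y-y/2)² - (Y-y)² = y (Y - 3y/4)`). On the ball `Im ζ ≥ y/2`, so for every `v` the entries of
`gr`, `mg`, `hL`, `hR` are bounded there by some `M` independent of `J, A, p, ν, v` with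
`|v| ≤ R` - for other `v` replace by `0` (null set) or cut `v` off - and holomorphic (`S_GR`,
`S_HOL`). Apply `S_CONT` to `f = (entry of hL)/M` with `ε' `: `‖f z‖ ≤ L ∑_{ζ∈S} ‖f ζ‖ + ε'`,
integrate over `v`, sum over the entries, and use `S_LZ` at the finitely many `ζ ∈ S`
(`‖ζ‖ ≥ Y - 1`) with a small `ε''`; `δ` = minimum, `n₀` = maximum over `ζ` (`Adm` is monotone).

## P2
Put `P = imM g = E imM G` (entrywise), `B = imM G`, `N = |Q|`, `y = Im z`. Let `h = 1 - (D-z-s²g)G`,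
`h' = 1 - G(D-z-s²g)`. From `G^* (D-z-s²g) G = G^* - G^* h` take imaginary parts (`D` hermitian):
`y G^*G + s² G^*PG = imM G + imM(G^* h)`, so `s² tr(G^*PG) ≤ tr B + (1/y) e1 h`
(`|tr (G^* h)| ≤ ‖G‖ e1 h`). Likewise `s² tr(G P G^*) ≤ tr B + (1/y) e1 h'`. As `B = (G - G^*)/(2i)`
and `P ≥ 0`: `tr(B P B) ≤ (tr(G^*PG) + tr(GPG^*))/2`. So
`s² E tr(BPB) ≤ E tr B + (1/(2y)) (E e1 h + E e1 h')`.
Diagonalise `P` (eigenvectors `u_i`, eigenvalues `λ_i ≥ 0`): `tr B² = ∑_i ⟨u_i,B²u_i⟩`. If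
`λ_i ≤ a`: `E⟨u_i,B²u_i⟩ ≤ (1/y) E⟨u_i,Bu_i⟩ = λ_i/y ≤ a/y`. If `λ_i > a`: `⟨u_i,B²u_i⟩ ≤
(λ_i/a)⟨u_i,B²u_i⟩`, and `∑_i λ_i ⟨u_i,B²u_i⟩ = tr(BPB)`. Sum: `E tr B² ≤ N a/y + (1/a) E tr(BPB)`;
`∑_{x,y} |B x y|² = tr B²`, divide by `N ≥ 1`. (`N ≥ 1`: the error terms may be divided by `N` or
not.)

## GRID
Spectral theorem: `(H - z)⁻¹ i i = ∑_j |u_j(i)|²/(λ_j - z)`, imaginary part at `z = kη + iη`:
`∑_j |u_j(i)|² η/((λ_j - kη)² + η²) ≥ 0`, `∑_j |u_j(i)|² = 1`. With `t = λ_j/η`: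
`∑_k 1/((t-k)²+1) ≤ 5`: if `k₀` is a nearest integer and `|k - k₀| = j ≥ 1` then
`|t-k| ≥ j - 1/2`; `1/((j-1/2)²+1) ≤ 4/5` for `j = 1` and `≤ 1/((j-1/2)²-1/4) = 1/(j-1) - 1/j` for
`j ≥ 2`; total `≤ 1 + 2 (4/5 + 1) ≤ 5`.

## TI
Translation `τ_x : (q,j) ↦ (q+x,j)` of the first component: `ham κ A (v ∘ τ_x) = ham κ A v`
reindexed, so `gr κ A (v∘τ_x) z p 0 0 = gr κ A v z p x x` (inverse of a reindexed matrix,
`Matrix.inv_submatrix_equiv`), and `pm` is invariant under `v ↦ v ∘ τ_x`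
(`measurePreserving_piCongrLeft`, equal laws).

## FM (assume `S_P2`, `S_ALLZ`, `S_GRID`, `S_GR`, `S_TI`)
`c₁ = 1`-points: the number of `k` is `2⌈B/η⌉+1 ≤ 2B/η + 3`. For every such `k` take `S_ALLZ` at
`zk η k` with `ε₁`; `δ` minimum, `n₀` maximum. `E (Im gr 0 0)² = (1/N) ∑_x E (Im gr x x)² ≤ (1/N)
E ∑_{x,y} ‖imM(gr) x y‖²` (`S_TI`; `imM(gr) x x = Im gr x x`), `S_P2` with `Ω = potentials`,
`D = dd κ v p`, `G = gr`, `g = mg` (for `|v| ≤ R` only: replace `D`, `G` on the null set of the other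
potentials by the values at `v = clamp`, or use `ν` supported in `[-R,R]`):
`≤ a/η + (1/(a s²)) (E Im gr 0 0 + (1/η) 2 ε₁)` (`S_TI` again for the trace). Sum over `k` times `η²`:
`η² (2B/η+3) a/η ≤ 3 a (B+1)`; `S_GRID`: `∑_k Im gr 0 0 ≤ 5/η`, giving `5 η/(a s²)`; the rest is
small by the choice of `ε₁`. With `a = (1/s) √(5 η/(3 (B+1)))`: the sum of the main terms is
`(2/s) √(15 (B+1) η) ≤ (10/s) √((B+1) η)`.

## SY1 (assume `S_SYA`, `S_SYB`)
`a k = c ((2 max_i ‖k i‖)^|ι|)`: symmetric (`max` over all coordinates, `‖-k‖ = ‖k‖`), continuous,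
`|a| ≤ 2 s`. `mFourierCoeff _ 0 = ∫ ch (s²) (a k) n dk = ∫₀¹ ch (s²) (c t) n dt = 0` (`mFourier 0 = 1`,
integral of a real function).

## SY2
`‖hop f γ‖ = ‖hop f (γ∘σ)‖`, and sign changes of one coordinate: change of variables in the integral
(the measure on the torus is invariant under permutations and negation of a coordinate). Let `i₀`
with `γ i₀ ≠ 0`, `Z` = zero coordinates, `S` = the others. If `2|S| ≥ |ι|`: the `|S|` images `γ` with
one sign changed in `S` are distinct. Otherwise `2|Z| ≥ |ι|` and the images under the transpositions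
`(i₀ z)`, `z ∈ Z`, are distinct. So at least `|ι|/2` distinct frequencies have the same modulus;
Parseval / Bessel: `∑ ‖hop f‖² ≤ ∫ f² ≤ ‖f‖²` (`hasSum_sq_mFourierCoeff`, see
`Pool.Agent.W792.GKLap.hop_sq_summable`).

## SY3 (assume `S_SY1`, `S_SY2`)
`r` large, `a` of `S_SY1` for `ι = Fin d × Fin r`. `k ↦ ch (s²) (a k) n` is continuous and symmetric
with sup norm at most `(3 s)^n`. Its coefficient at `0` vanishes for `n ≥ 1`, at `γ ≠ 0` it is at
most `√2 (3 s)^n/√(d r) ≤ δ` for all `n ≤ n₀` if `r` is large.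

## APPROX
`mFourierSubalgebra_closure_eq_top` (or `span_mFourier_closure_eq_top`): there is a complex
trigonometric polynomial `p = ∑ c_n mFourier n` with `‖p - f‖ ≤ ε`; take `h n = (c_n + conj c_(-n))/2`,
`f' = Re p`; `trig h = Re p` because `conj (mFourier n) = mFourier (-n)`; `|Re p - f| ≤ |p - f|`.

## CIRC1
Hermitian: clear. Bound: `G = (ι → ZMod ℓ)`. For a character `χ : AddChar G ℂ` choose `θ_i ∈ ℝ` with
`χ(e_i) = exp(2π i θ_i)` (`‖χ(e_i)‖ = 1`), `k_χ = (θ_i)`; then `χ(n mod ℓ) = mFourier n k_χ` for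
`n ∈ ℤ^ι`, and `circ ℓ h` acts on the eigenvector `χ` (or its conjugate) with eigenvalue
`∑ h n mFourier (-n) ..= conj-type value of f at ± k_χ`, a value of `f`, of modulus at most `‖f‖`.
The characters are orthogonal and there are `|G|` of them (Mathlib: `AddChar.linearIndependent`,
`AddChar.complexBasis`, `Analysis/Fourier/FiniteAbelian/*`: orthogonality
`AddChar.wInner_cWeight_eq_boole`), so `‖circ u‖² ≤ ‖f‖² ‖u‖²` by Parseval.
Another way: `OpB` from `circ u (x) = ∫ ...`: for `u` on `G` and `t` in the torus ... any proof.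

## CIRC2
The maps `h ↦ trig h` and `h ↦ circ ℓ h` are algebra homomorphisms from the convolution algebra
`AddMonoidAlgebra ℂ (ι → ℤ)`: so `ch c (circ ℓ h) n = circ ℓ (H n)` and `ch c (trig h) n =
trig (H n)`, `H n = ch c h n` in the convolution algebra. `circ ℓ (H n) i j = ∑ H n γ` over the `γ` in
the (finite) support with `γ ≡ i - j mod ℓ`; if `ℓ > 2 max |γ_i|` for all `n ≤ n₀` there is at most
one such `γ`, and `mFourierCoeff` of `trig (H n)` at `γ` is `H n γ` (as in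
`Pool.Agent.W52.GKCoef.coef_mono`); if there is none take any `γ` (the entry is `0`).

## PA
`T` self-adjoint, `‖T‖ ≤ C`: spectrum in `[-C,C] ⊂ ℝ`. `f x = 1/(x - z)` is continuous on `ℝ`
(`Im z ≠ 0`). Weierstrass for real and imaginary part: `P` complex with `‖f x - P x‖ ≤ ε` on `[-C,C]`.
Continuous functional calculus of `E →L[ℂ] E`: `Ring.inverse (T - z) = cfc f T`
(`cfc (x - z) * cfc f = 1`), `aeval T P = cfc (eval · P) T`, `norm_cfc_le`. If `C < 0` there is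
nothing (then `‖T‖ ≤ C` is impossible).

## MOM, LAW
MOM: claim, for `m ≤ n` and `x ∈ nb h (n - m)`: `(stp (h.mapDomain φ) w)^[m] δ_Γ (φ x) =
(stp h (w ∘ φ))^[m] δ_Γ₀ x`. Induction on `m` (`Function.iterate_succ_apply'`): `m = 0` is the
hypothesis (`φ x = 0` iff `x = 0` on `nb h n`); step: `stp (h.mapDomain φ) w u (φ x) =
h.sum (fun y c => c * u (φ x - φ y)) + w (φ x) u (φ x)` (`Finsupp.sum_mapDomain_index`) and
`x - y, x ∈ nb h (n - m)` for `x ∈ nb h (n - m - 1)`, `y ∈ h.support`. Then `x = 0`, `nb` is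
increasing.
LAW: by MOM-type argument (the hypothesis on `φ` for pairs gives that of `S_MOM`, `0 ∈ nb h n`)
`mom (h.mapDomain φ) (c ∘ v) m = mom h (c ∘ v ∘ φ) m`, and `mom h w m` only depends on `w` restricted
to `nb h n` (induction). The law of `(v (φ x))_{x ∈ nb h n}` under `infinitePi` on `Γ` is the
product law since `φ` is injective on `nb h n` (`Measure.infinitePi_map_restrict` and
reindexing, or `iIndepFun` of coordinates), the same as that of `(v x)_{x ∈ nb h n}`.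

## T1, T2
T1: `mFourierBasis : HilbertBasis (ι → ℤ) ℂ (Lp ℂ 2)`, `T = repr ∘ (multiplication by K) ∘ repr.symm`
(multiplication by a continuous function on `Lp`: self-adjoint for real `K`, norm at most `‖K‖`).
`T u x = ⟨mFourier x, K f⟩ = ⟨K mFourier x, f⟩ = ∑' y, conj ⟨mFourier y, K mFourier x⟩ .. =
∑' y, hop K (x - y) u y`. (Similar: `Pool.Agent.W792.LL` for the operator with kernel `hopK`; look
there first.) T2: pointwise multiplication by a real function bounded by `R` on `lp`.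

## MOP, MFIN
MOP (assume `S_COEF`): `hop K x = h x`, so `T u x = ∑' y, h (x - y) u y = h.sum (fun y c => c * u (x - y))`;
by induction the function of `(T + M)^n (lp.single 2 0 1)` is the `n`-th iterate of
`stp h (clamp R ∘ v)` on the delta function. MFIN: the same for the finite matrix:
`(ham ..).mulVec u = stp (prodKer h₁ h₂) v u` (sum over `y = (q, j')`), and `(H^n) (0,0) (0,0)` is the value at
`0` of `H^n` applied to the delta.

## INJ, DIL
INJ: `N l = M^(l+1)` with `M` larger than `4` times all coordinates of the elements of `F`, as a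
number: `x_i + ∑_l N l j_(i,l) = 0` with all `|·| < M/2` forces `x_i = 0`, `j_(i,l) = 0` (uniqueness
of balanced expansions in base `M`; or choose the `N l` inductively, each avoiding finitely many
values). DIL: direct; for the second part `trig` of `prodKer` pushed forward: `mFourier (φ (x,j)) k =
mFourier x k * mFourier j (N • k)`.

## LIP (assume `S_T1`, `S_T2`)
`hopOp K` satisfies `IsHop`. `hopOp K - hopOp K' ` is the operator of `K - K'`
(`hop` is linear, sums converge, see `GKLap.hop_summable`), and an operator with `IsHop` is unique,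
so its norm is at most `‖K - K'‖`. `L = hopOp K + mulOp R v` is self-adjoint, `L - z` invertible,
`‖(L - z)⁻¹‖ ≤ 1/Im z`, resolvent identity; `Im ⟨δ,(L-z)⁻¹δ⟩ = Im z ‖(L-z)⁻¹δ‖² ∈ [0, 1/Im z]`; the
coordinate `0` of `w` is `⟨δ₀, w⟩`.

## MEAS (assume `S_LIP`, `S_APPROX`, `S_PA`, `S_MOP`, `S_T1`, `S_T2`)
By `S_LIP` and `S_APPROX`, `Jm K R v z` is the limit of `Jm K_n R v z` with trigonometric
polynomials `K_n` (norm distance `1/n`); for these `Jm` is by `S_PA` a limit of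
`Im ∑_j P.coeff j * mom h (clamp ∘ v) j` (`S_MOP`), which is measurable in `v` (a polynomial in
finitely many coordinates: induction on the number of steps, value at every point).

## EIG (assume `S_T1`, `S_T2`, `S_LIP`)
`T = hopOp K`, `M = mulOp R v`, `L = T + M`. `v u = E u - T u` is in `ℓ²` with norm `≤ B + ‖K‖`
(`‖u‖ = 1`; the hypothesis says `T u x + v x u x = E u x`). Put `u' x = u x` if `|v x| ≤ R` and
`u' x = v x u x/clamp R (v x)` otherwise. Then `clamp R (v x) u' x = v x u x`, and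
`‖u' - u‖ ≤ ‖v u‖/R ≤ τ := (B+‖K‖)/R` (`|v/clamp - 1| |u| ≤ |v| |u|/R`). So
`(L - E) u' = (T - E)(u' - u)` has norm `≤ (‖K‖+B) τ`. Let `k` be a nearest integer to `E/η`,
`z = zk η k`: `|k| ≤ ⌈B/η⌉`, `|E - z| ≤ (√5/2) η`. `u' = (L - z)⁻¹ ((L - E) u' + (E - z) u')`, so
`|u' 0| ≤ ‖((L-z)⁻¹)^* δ₀‖ (|E-z| (1+τ) + (‖K‖+B) τ)`, and `‖((L-z)⁻¹)^* δ₀‖² = Jm/η`, `Jm ≤ 1/η`. So
`|u 0| ≤ τ + (√5/2) √(η Jm) + (1/η) ((√5/2) η τ + (‖K‖+B) τ)`; since `η ≤ 1`, `√5/2 ≤ 2/η`, the error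
terms are at most `τ (1 + (‖K‖+B+2)/η)`, and `((√5/2) √(η Jm))^4 ≤ 4 η² Jm² ≤ 4 Qz` (the other terms of
`Qz` are nonnegative).

## KP (assume `S_KP1`, `S_KP2`, `S_APPROX`, `S_INJ`, `S_DIL`, `S_LAW`, `S_LIP`, `S_MEAS`)
Let `ε₁ = ε/8`. `S_APPROX` for `K₀` and a small `τ ≤ 1` gives `h₁`, `K₁`. `C = ‖K₀‖ + 1 + 3 s + 1`;
`S_KP1` with `C`, `ε₁` gives `n`, `F`. `S_KP2` (its hypothesis is the second part of `S_KP1`) gives
`r`, `a` and, for `τ ≤ s` small, `h₂`, `a₁`. `S_INJ` for the finite set of differences `x - y`,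
`x, y ∈ nb (prodKer h₁ h₂) n` gives `N`; so `phiN N` is injective on `nb ..`. `b = dil N a`:
symmetric, `‖b‖ ≤ 2 s`. Caution: `b` must not depend on `ν`: it does not. `‖(K₀+b) - (K₁ + dil N a₁)‖ ≤
2 τ`; by `S_LIP` `|Qz (K₀+b) - Qz (K₁+dil N a₁)| ≤ (2⌈B/η⌉+1) (2/η) 2 τ ≤ ε₁`. By `S_DIL`
`K₁ + dil N a₁ = trig ((prodKer h₁ h₂).mapDomain (phiN N))`, by `S_KP1` the integral of `Qz` is at
most that of `F (mom (mapDomain ..) (clamp ∘ v))` plus `ε₁` (the integrands are bounded and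
measurable), by `S_LAW` this is the integral over `(ℤ^d × ℤ^(d r))`, at most
`(10/s) √((B+1) η) + 2 ε₁` by `S_KP2`.

## FINAL (assume `S_NE`, `S_OD`)
`SymSp d` is a closed subset of the complete metric space `C(torus, ℝ)`, hence a Baire space. The
intersection of the sets `{K | Good d K.1 m}`, `m ∈ ℕ`, is in the residual filter (`S_OD`,
`residual_of_dense_open`), and on it `S_NE` applies. Second part: the intersection is dense
(`dense_of_mem_residual`), so it meets the ball of radius `ε` around `K₀`.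
-/
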