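import Pool.Agent.Q156.GK.Nm

/-!
# Project GK, second statement file

The goal is `Pool.Agent.W792.GK.S_FINAL`: for comeagre many lattice symmetric kinetic energies `K`
on the torus, simultaneously for all i.i.d. laws, the Anderson operator has almost surely no
eigenvalue. Definitions and the main statements are in `Pool.Agent.W792.GK.Defs` and
`Pool.Agent.W792.GK.Stm` (starting library, never edited); here are auxiliary statements and, in the
docstrings of the plan file `Plan.lean`, the proofs of all of them.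
-/

set_option autoImplicit false

namespace Pool.Agent.Q156.GK

open Pool.Agent.W792.GK MeasureTheory
open scoped ComplexOrder

noncomputable section

/-! ## Measures on finite products -/

/-- UPD. Integrating one coordinate first.
Proof. The map `(ω, w) ↦ update ω j w` from `pi × μ` to `pi` is measure preserving: check on
measurable boxes with `Measure.pi_eq` (the preimage of a box is a box). Then
`MeasurePreserving.integral_comp'`-type change of variables (`integral_map`) and Fubini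
(`integral_prod`; `G` is bounded and measurable, hence integrable). -/
def S_UPD : Prop :=
  ∀ (J Ω : Type) [Fintype J] [DecidableEq J] [MeasurableSpace Ω] (μ : Measure Ω)
    [IsProbabilityMeasure μ] (G : (J → Ω) → ℂ) (C : ℝ) (j : J), Measurable G → (∀ ω, ‖G ω‖ ≤ C) →
    ∫ ω, G ω ∂(Measure.pi fun _ : J => μ) =
      ∫ ω, (∫ w, G (Function.update ω j w) ∂μ) ∂(Measure.pi fun _ : J => μ)

/-- CUR. Currying is measure preserving.
Proof. The map is measurable (coordinatewise), and `Measure.pi_eq`: the preimage of a box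
`∏ j, s j`; it suffices to test boxes of boxes - or use `Measure.pi_eq_generateFrom`, or compare with
`MeasureTheory.measurePreserving_piCongrLeft` and the uniqueness of product measures through
`Measure.infinitePi` (`infinitePi_map_curry` exists in Mathlib for `infinitePi`; and
`infinitePi_eq_pi` for finite index sets). -/
def S_CUR : Prop :=
  ∀ (Q J : Type) [Fintype Q] [Fintype J] (ν : Measure ℝ) [IsProbabilityMeasure ν],
    MeasurePreserving (fun (v : Q × J → ℝ) (j : J) (x : Q) => v (x, j)) (pm Q J ν)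
      (Measure.pi fun _ : J => Measure.pi fun _ : Q => ν)

/-! ## The freeness lemma -/

/-- LFA: the identity and the first two bounds of `S_LF1`.
Proof. `D := blockDiagonal X`, `D' := blockDiagonal (kil X j)`, so `D - D'` has the only nonzero
block `X j` at `(j,j)`. Telescoping:
`T (D T)^k = T (D' T)^k + ∑_{i<k} T (D' T)^i (D - D') T (D T)^(k-1-i)` (induction on `k`, or
`Commute`-free geometric sum), and the block `(j,p)` of `Z (D - D') Z'` is
`blk Z j j * X j * blk Z' j p`. All matrices `Zk T X k` satisfy `OpB _ 1` (`opB_mul`,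
`opB_blockDiagonal`). The second clause is `sum_fro_blk_le`. Third clause: by the identity
`blk (Zk T (kil X j) k) j p = blk (Zk T X k) j p - ∑_i ...`; `fro (a * b * c) ≤ fro c` if `a`, `b`
are bounded by 1 (`fro_mul_left`), `fro (∑ of n terms) ≤ n ∑ fro`, and `sum_fro_blk_le` again:
`C = (k+1)(k+1)|Q|` works. -/
def S_LFA : Prop :=
  ∀ (k : ℕ) (Q : Type) [Fintype Q] [DecidableEq Q], ∃ C : ℝ, 0 ≤ C ∧
    ∀ (J : Type) [Fintype J] [DecidableEq J] (T : Matrix (Q × J) (Q × J) ℂ), OpB T 1 →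
      ∀ X : J → Matrix Q Q ℂ, (∀ j, OpB (X j) 1) → ∀ p : J,
      (∀ j, blk (Zk T X k) j p = blk (Zk T (kil X j) k) j p +
        ∑ i ∈ Finset.range k, blk (Zk T (kil X j) i) j j * X j * blk (Zk T X (k - 1 - i)) j p) ∧
      (∑ j, fro (blk (Zk T X k) j p) ≤ C) ∧
      (∑ j, fro (blk (Zk T (kil X j) k) j p) ≤ C)

/-- LFB: the third bound of `S_LF1` (assume `S_LFA`; then `S_LF1` follows, prove `S_LF1` itself).
Proof. Let `j ≠ j'`. Replacing the block `j'` of `kil X j` by zero (identity of `S_LFA`, telescoped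
version, for the blocks `(j, p)`): `blk (Zk T (kil X j) k) j p - blk (Zk T (kil (kil X j) j') k) j p
= ∑_{i<k} A_i * X j' * B_i`, `A_i = blk (Zk T (kil (kil X j) j') i) j j'`,
`B_i = blk (Zk T (kil X j) (k-1-i)) j' p`. Now expand `B_i` in the block `j`:
`B_i = blk (Zk T X m) j' p - ∑_{a<m} E_a * X j * F_a`, `m = k-1-i`,
`E_a = blk (Zk T (kil X j) a) j' j`, `F_a = blk (Zk T X (m-1-a)) j p`.
First part: `fro (A_i * X j' * blk (Zk T X m) j' p) ≤ fro (A_i) * fro (blk (Zk T X m) j' p)`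
(`fro (a b) ≤ fro a * fro b`, `fro (a * x) ≤ fro a`), and for fixed `j'` the sum over `j ≠ j'` of
`fro (A_i)` is bounded: `A_i = blk (Zk T (kil (kil X j) j') i) j j'` is the second type of bound
(clause 3 of `S_LFA` with `kil X j'` instead of `X`, target `p := j'`, since `kil (kil X j) j' =
kil (kil X j') j`). Then the sum over `j'` of `fro (blk (Zk T X m) j' p)` is bounded (clause 2).
Second part: `fro (A_i X j' E_a X j F_a) ≤ fro (E_a) * fro (F_a)` (`A_i` has norm at most 1); for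
fixed `j` the sum over `j'` of `fro (E_a)` is at most `|Q|` (`sum_fro_blk_le` for the matrix
`Zk T (kil X j) a` and the column `j`); the sum over `j` of `fro (F_a)` is bounded. -/
def S_LFB : Prop := S_LF1

/-- LFS: the single sum.
Proof (assume `S_LF1`, `S_UPD`). Write `X j = f j (ω j)`, `a_j = blk T p j * X j * Y j`,
`Y j = blk (Zk T (kil X j) k) j p`. `fro (∑ a_j) = ∑_{j,j'} ⟨a_j, a_j'⟩` with
`⟨a,b⟩ = ∑_{x,y} conj (a x y) * b x y` (real part). Diagonal terms: `fro a_j ≤ fro (blk T p j) *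
fro (Y j) ≤ |Q|² ε² fro (Y j)`, sum over `j` bounded by `|Q|² ε² C` (clause 3 of `S_LF1`).
Off-diagonal `j ≠ j'`: put `Y' j j' = blk (Zk T (kil (kil X j) j') k) j p`. It does not depend on
`ω j`, `ω j'`; `Y j` does not depend on `ω j`. With `S_UPD` (integrate the coordinate `j'` first, all
factors except `X j'` are independent of it) `E ⟨blk T p j X j Y' j j', blk T p j' X j' Y j'⟩ = 0`,
and similarly with the roles exchanged and for both `Y'`. Hence
`E ⟨a_j, a_j'⟩ = E ⟨T X_j (Y_j - Y'_{jj'}), T X_j' (Y_j' - Y'_{j'j})⟩`, whose absolute value is at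
most `|Q|² ε² (E fro (Y_j - Y'_{jj'}) + E fro (Y_j' - Y'_{j'j})) / 2`; sum with clause 4 of `S_LF1`.
All functions are bounded and measurable (entries of products and sums of measurable matrices). -/
def S_LFS : Prop :=
  ∀ (k : ℕ) (Q : Type) [Fintype Q] [DecidableEq Q], ∃ c : ℝ, 0 ≤ c ∧
    ∀ (J : Type) [Fintype J] [DecidableEq J] (Ω : Type) [MeasurableSpace Ω] (μ : Measure Ω)
      [IsProbabilityMeasure μ] (f : J → Ω → Matrix Q Q ℂ),
      (∀ j x y, Measurable fun w => f j w x y) → (∀ j w, OpB (f j w) 1) →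
      (∀ j x y, ∫ w, f j w x y ∂μ = 0) →
      ∀ T : Matrix (Q × J) (Q × J) ℂ, OpB T 1 → ∀ ε : ℝ, 0 ≤ ε →
      (∀ i j x y, ‖T (x, i) (y, j)‖ ≤ ε) → ∀ p : J,
      ∫ ω, fro (∑ j, blk T p j * f j (ω j) * blk (Zk T (kil (fun j => f j (ω j)) j) k) j p)
          ∂(Measure.pi fun _ : J => μ) ≤ c * ε ^ 2

/-- LF2: the freeness lemma in mean square.
Proof (assume `S_LF1`, `S_LFS`), strong induction on `k`. `k = 0`: `Zk T X 0 = T` has entries at most
`ε`. `k + 1`: `blk (Zk T X (k+1)) p p = ∑_j blk T p j * X j * blk (Zk T X k) j p`; insert the identity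
of `S_LF1`: the first term is that of `S_LFS`; the others are, for `i < k`,
`∑_j (blk T p j * X j * M_j * X j) * N_j`, `M_j = blk (Zk T (kil X j) i) j j`,
`N_j = blk (Zk T X (k-1-i)) j p`, and `fro (∑_j A_j N_j) ≤ (∑_j fro A_j) (∑_j fro N_j)`
(Cauchy-Schwarz), `∑_j fro N_j ≤ |Q|` (`sum_fro_blk_le`), `fro (blk T p j X j M_j X j) ≤
fro (blk T p j) * fro M_j`, `E fro M_j ≤ c_i ε²` by the induction hypothesis for the family
`f` with `f j` replaced by `0`, and `∑_j fro (blk T p j) ≤ |Q|` (rows: `sum_fro_blk_le` for the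
conjugate transpose). -/
def S_LF2 : Prop :=
  ∀ (k : ℕ) (Q : Type) [Fintype Q] [DecidableEq Q], ∃ c : ℝ, 0 ≤ c ∧
    ∀ (J : Type) [Fintype J] [DecidableEq J] (Ω : Type) [MeasurableSpace Ω] (μ : Measure Ω)
      [IsProbabilityMeasure μ] (f : J → Ω → Matrix Q Q ℂ),
      (∀ j x y, Measurable fun w => f j w x y) → (∀ j w, OpB (f j w) 1) →
      (∀ j x y, ∫ w, f j w x y ∂μ = 0) →
      ∀ T : Matrix (Q × J) (Q × J) ℂ, OpB T 1 → ∀ ε : ℝ, 0 ≤ ε →
      (∀ i j x y, ‖T (x, i) (y, j)‖ ≤ ε) → ∀ p : J,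
      ∫ ω, fro (blk (Zk T (fun j => f j (ω j)) k) p p) ∂(Measure.pi fun _ : J => μ) ≤ c * ε ^ 2

/-! ## The finite model for large `z` -/

/-- ALG: the expansion of the resolvent (deterministic).
Proof. Write `g₁ = kronecker g 1`, `B = kronecker 1 A + s² g₁`, `Yd = blockDiagonal Y`,
`Xd = Yd - g₁ = blockDiagonal (Y - g)`, `U = 1 + g₁ S`. Then `g₁` commutes with `S` and `U`, `B U =
-S`, hence `(1 + B g₁) U = U + B U g₁ = U - S g₁ = 1`, so `1 + B g₁ = U⁻¹`, `B = -U⁻¹ S`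
(`S U = U S`), and `H - z = Yd⁻¹ + B`, `(H - z) Yd = 1 + B g₁ + B Xd = U⁻¹ (1 - S Xd)`.
With `W = (1 - S Xd)⁻¹` (norm of `S Xd` at most `1/2`): `(H - z)⁻¹ = Yd W U`. Finally
`W = ∑_{k<K} (S Xd)^k + (S Xd)^K W`, `W U = W + W S g₁`, and
`blk (Yd M) p p = Y p * blk M p p`, `blk (M Xd) p p = blk M p p * (Y p - g)`,
`blk (M g₁) p p = blk M p p * g`. With `M_K = ∑_{k<K} S (Xd S)^k = ∑_{k<K} (S Xd)^k S` and
`M = W S = M_K + (S Xd)^K W S` one has `W = 1 + W S Xd = 1 + M Xd`, `W U = 1 + M Xd + M g₁`, so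
`blk ((H-z)⁻¹) p p = Y p + Y p * blk M p p * Y p`. The remainder `Rm = blk ((S Xd)^K W S) p p` has
norm at most `(1/2)^K * 2 * 8 s`. (`8 s * 4/‖z‖ ≤ 1/2` because `‖z‖ ≥ 64 s`; the norm of
`Y - g` is at most `4/‖z‖`.) -/
def S_ALG : Prop :=
  ∀ (Q J : Type) [Fintype Q] [DecidableEq Q] [Fintype J] [DecidableEq J] (s : ℝ) (z : ℂ),
    0 < s → 64 * (s + 1) ≤ ‖z‖ → ∀ (g : Matrix Q Q ℂ) (D Y : J → Matrix Q Q ℂ)
    (A : Matrix J J ℂ) (S : Matrix (Q × J) (Q × J) ℂ), OpB g (2 / ‖z‖) →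
    (∀ j, OpB (Y j) (2 / ‖z‖)) →
    (∀ j, Y j * (D j - z • (1 : Matrix Q Q ℂ) - ((s ^ 2 : ℝ) : ℂ) • g) = 1) →
    (∀ j, (D j - z • (1 : Matrix Q Q ℂ) - ((s ^ 2 : ℝ) : ℂ) • g) * Y j = 1) → OpB S (8 * s) →
    (Matrix.kronecker g (1 : Matrix J J ℂ)) * S = S * (Matrix.kronecker g (1 : Matrix J J ℂ)) →
    (Matrix.kronecker (1 : Matrix Q Q ℂ) A
        + ((s ^ 2 : ℝ) : ℂ) • Matrix.kronecker g (1 : Matrix J J ℂ))
        * (1 + (Matrix.kronecker g (1 : Matrix J J ℂ)) * S) = -S →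
    IsUnit (Matrix.blockDiagonal D + Matrix.kronecker (1 : Matrix Q Q ℂ) A
        - z • (1 : Matrix (Q × J) (Q × J) ℂ)) ∧
    ∀ (p : J) (K : ℕ), ∃ Rm : Matrix Q Q ℂ, OpB Rm (16 * s * (1 / 2) ^ K) ∧
      blk (Matrix.blockDiagonal D + Matrix.kronecker (1 : Matrix Q Q ℂ) A
        - z • (1 : Matrix (Q × J) (Q × J) ℂ))⁻¹ p p
      = Y p + Y p * (∑ k ∈ Finset.range K, blk (Zk S (fun j => Y j - g) k) p p + Rm) * Y p

/-- LZ = `S_LZ` (assume `S_LF`, `S_FP`, `S_SER`, `S_CUR`, `S_ALG`).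
Proof. For `w : Q → ℝ` put `D w x y = κ (x-y) + if x = y then w x` if all `|w x| ≤ R`, and `D w = 0`
otherwise: bounded by `C`, entries measurable. `S_FP` on `Ω = (Q → ℝ)`, `μ = Measure.pi ν` gives
`g`, `Y w`, with `E Y = g`. `S_SER` with `γ = 2/‖z‖` gives `S`, entries at most
`τ := 2 δ + 8 s (1/2)^n₀`. By `S_CUR` the integrals over `pm Q J ν` are integrals over
`ω : J → Ω`, and almost surely all potentials are in `[-R,R]`, so `dd κ v j = D (ω j)` and
`ham κ A v = blockDiagonal (D (ω j)) + kronecker 1 A`, whose block `(p,p)` of the resolvent is given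
by `S_ALG`. Apply `S_LF` to `T = S/(8s)`, `f j w = (‖z‖/4) • (Y w - g)` (centred, bounded by 1):
`Zk S (Y - g) k = 8 s (32 s/‖z‖)^k Zk T f k` with `32 s/‖z‖ ≤ 1/2`; so
`E e1 (∑_{k<K} blk (Zk S (Y-g) k) p p + Rm) ≤ 8 s ∑_{k<K} c_k τ/(8s) + |Q|² 16 s (1/2)^K`: small if
first `K`, then `δ`, `n₀` are chosen. With `E_p := gr - Y p`: `e1 E_p` has small mean (`e1 (a b) ≤
e1 a * e1 b`, `e1 a ≤ |Q|² c` if `OpB a c`); `e1 (mg - g) ≤ E e1 E_p`. Finally
`hL = -(D_p - z - s² g) E_p + s² (mg - g) gr`, `hR = -E_p (D_p - z - s² g) + s² gr (mg - g)`,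
`‖D_p - z - s² g‖ ≤ C + ‖z‖ + s²`, and `gr` is bounded (`gr = Y p + Y p M Y p`,
`‖M‖ ≤ 16 s`). Measurability of the entries of the inverse matrix: `Matrix.inv_def`, determinant and
adjugate are polynomials in `v`. The constants `c_k`, `K`, `δ`, `n₀` do not depend on `J`, `A`, `p`,
`ν` (they depend on `Q`, `s`, `C`, `z`, `ε`). -/
def S_LZ' : Prop := S_LZ

/-- HOL: integrals of bounded holomorphic functions are holomorphic.
Proof. `hasDerivAt_integral_of_dominated_loc_of_deriv_le` at each point; the derivative is bounded on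
a smaller ball by the Cauchy estimate (`Complex.norm_deriv_le_of_forall_mem_sphere_norm_le`);
measurability of the derivative in `ω`: limit of difference quotients. -/
def S_HOL : Prop :=
  ∀ (Ω : Type) [MeasurableSpace Ω] (μ : Measure Ω) [IsProbabilityMeasure μ] (F : Ω → ℂ → ℂ)
    (U : Set ℂ) (M : ℝ), IsOpen U → (∀ z ∈ U, Measurable fun w => F w z) →
    (∀ w, DifferentiableOn ℂ (F w) U) → (∀ w, ∀ z ∈ U, ‖F w z‖ ≤ M) →
    DifferentiableOn ℂ (fun z => ∫ w, F w z ∂μ) U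

/-! ## The symbols -/

/-- SYA: the law of `(2 max ‖k i‖) ^ |ι|` is uniform.
Proof. The sets `{k | ∀ i, ‖k i‖ ≤ r}`, `0 ≤ r ≤ 1/2`, are boxes of balls of the circle, of measure
`(2 r)^|ι|` (`AddCircle.volume_closedBall` on `UnitAddCircle`; `volume` on the torus is the product
measure). So the map `u k = (2 max ‖k i‖)^|ι|` pushes `volume` to a measure on `ℝ` whose values on
`Iic t` agree with those of `volume.restrict (Icc 0 1)` (`Measure.ext_of_Iic`); `integral_map`. -/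
def S_SYA : Prop :=
  ∀ (ι : Type) [Fintype ι] [DecidableEq ι] [Nonempty ι] (f : ℝ → ℝ), Continuous f →
    ∫ k : UnitAddTorus ι, f ((2 * Finset.univ.sup' Finset.univ_nonempty (fun i => ‖k i‖))
      ^ (Fintype.card ι)) = ∫ t in (0 : ℝ)..1, f t

/-- SYB: a monotone parametrisation of the semicircle law.
Proof. `Φ θ = (θ - sin θ cos θ)/π` is continuous and strictly increasing from `[0,π]` onto `[0,1]`
with derivative `(2/π) sin² θ`; let `Θ` be its inverse, continuous on `[0,1]`, extended constantly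
(`Set.projIcc`), `c t = 2 s cos (Θ t)`. With `x = 2 s cos θ`: `ch (s²) x n * sin θ =
s^n sin ((n+1) θ)` (induction). Substitution `t = Φ θ`: `∫₀¹ ch (s²) (c t) n dt = ∫₀^π
ch (s²) (2 s cos θ) n (2/π) sin² θ dθ = (2 s^n/π) ∫₀^π sin ((n+1) θ) sin θ dθ = 0` for `n ≥ 1`. -/
def S_SYB : Prop :=
  ∀ s : ℝ, 0 < s → ∃ c : ℝ → ℝ, Continuous c ∧ (∀ t, |c t| ≤ 2 * s) ∧
    ∀ n : ℕ, 1 ≤ n → ∫ t in (0 : ℝ)..1, (ch (s ^ 2) (c t) n : ℝ) = 0

/-! ## The key proposition -/

/-- KP1: a measurable function of finitely many moments which is close to `Qz` and to `Qf`.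
Proof (assume `S_PA`, `S_MOP`, `S_MFIN`, `S_T1`, `S_T2`, `S_LIP`). For every `k` in the finite set
`Icc (-⌈B/η⌉) ⌈B/η⌉` let `P k` be the polynomial of `S_PA` for the bound `C + R`, the point
`zk η k` and a small `ε₁`; let `n` be at least all degrees and
`F m = η² ∑_k (Im ∑_{j ≤ n} (P k).coeff j * m j)²`.
(a) `E = l2 (Fin d → ℤ)`, `T = hopOp K + mulOp R v`, self-adjoint, norm at most `C + R`: the entry at
`(0,0)` of `Ring.inverse (T - z)` differs from `∑_j (P k).coeff j * (T^j δ₀) 0 =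
∑_j (P k).coeff j * mom h (clamp ∘ v) j` (`S_MOP`) by at most `ε₁`; `|a² - b²| ≤ |a-b| (2|a| + |a-b|)`
and `|Jm| ≤ 1/η`.
(b) the same in `E = EuclideanSpace ℂ (Q × J)` with `T = ham` (hermitian, norm at most
`C + R`), and `S_MFIN`; the resolvent as matrix inverse. `IsUnit` holds since `Im z > 0`.
The difference is at most `η² (2 ⌈B/η⌉ + 1) ε₁ (2/η + ε₁)`. -/
def S_KP1 : Prop :=
  ∀ (C η B R ε : ℝ), 0 ≤ C → 0 < η → η ≤ 1 → 0 ≤ B → 0 < R → 0 < ε →
    ∃ (n : ℕ) (F : (Fin (n + 1) → ℂ) → ℝ), Continuous F ∧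
    (∀ (d : ℕ) (h : (Fin d → ℤ) →₀ ℂ) (K : C(UnitAddTorus (Fin d), ℝ)),
      (∀ k, (K k : ℂ) = trig h k) → ‖K‖ ≤ C → ∀ v : (Fin d → ℤ) → ℝ,
      |Qz K η B R v - F (fun m => mom h (fun x => clamp R (v x)) m)| ≤ ε) ∧
    (∀ (Q J : Type) [AddCommGroup Q] [Fintype Q] [DecidableEq Q] [AddCommGroup J] [Fintype J]
      [DecidableEq J] (h₁ : Q →₀ ℂ) (h₂ : J →₀ ℂ) (C₁ C₂ : ℝ), 0 ≤ C₁ → 0 ≤ C₂ → C₁ + C₂ ≤ C →
      (∀ x, h₁ (-x) = (starRingEnd ℂ) (h₁ x)) → (∀ x, h₂ (-x) = (starRingEnd ℂ) (h₂ x)) →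
      OpB (fun x y : Q => h₁ (x - y)) C₁ → OpB (fun i j : J => h₂ (i - j)) C₂ →
      ∀ v : Q × J → ℝ, (∀ x, |v x| ≤ R) →
      |Qf (fun x => h₁ x) (fun i j => h₂ (i - j)) η B v 0
        - F (fun m => mom (prodKer h₁ h₂) v m)| ≤ ε)

/-- KP2: the finite part.
Proof (assume `S_FM`, `S_SY3`, `S_APPROX`, `S_CIRC1`, `S_CIRC2`, `S_LAW`). Choose `ℓ₁` so large that
the reduction `(Fin d → ℤ) → (Fin d → ZMod ℓ₁)` is injective on `nb h₁ n` (finite set, e.g.
`ℓ₁` larger than twice all coordinates). `Q = (Fin d → ZMod ℓ₁)`, `κ` = push forward of `h₁`,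
`circ ℓ₁ h₁ x y = κ (x - y)`, bounded by `‖K₁‖` (`S_CIRC1`). `S_FM` for `Q`, `κ` and `ε` gives
`δ`, `n₀`; `S_SY3` for `δ/2`, `n₀` gives `r`, `a`. Given `τ`, `S_APPROX` gives `h₂`, `a₁` with
`‖a₁ - a‖ ≤ τ' ≤ τ`, so small that `‖a₁‖ ≤ 3 s` and that the Fourier coefficients of
`ch (s²) a₁ n`, `n ≤ n₀`, differ by at most `δ/2` from those of `ch (s²) a n` (uniform continuity of
the polynomials `ch (s²) · n` on `[-3s,3s]`; a Fourier coefficient is at most the sup norm). Choose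
`ℓ₂` by `S_CIRC2` and such that reduction mod `ℓ₂` is injective on the second components of
`nb (prodKer h₁ h₂) n`; `A = circ ℓ₂ h₂` is admissible (`S_CIRC1`, `S_CIRC2`). The reduction `φ'` of
both components is injective on `nb (prodKer h₁ h₂) n` (the first components of its elements lie in
`nb h₁ n`), `(prodKer h₁ h₂).mapDomain φ' = prodKer (h₁.mapDomain _) (h₂.mapDomain _)`, so by
`S_LAW` (with `c = clamp R`, `Γ = Q × J`) the integral is
`∫ F (mom (prodKer ..) (clamp ∘ v)) d(infinitePi ν on Q × J)` (`infinitePi_eq_pi`; replace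
`ν` by `ν' = ν.map (clamp R)`, supported in `[-R,R]`: `Measure.pi_map_pi`), which by the hypothesis
on `F` is at most `∫ Qf dν' + ε ≤ (10/s) √((B+1) η) + 2 ε`. -/
def S_KP2 : Prop :=
  ∀ (d : ℕ) (s η B R ε : ℝ), 0 < d → 0 < s → 0 < η → η ≤ 1 → 0 ≤ B → 0 < R → 0 < ε →
    ∀ (h₁ : (Fin d → ℤ) →₀ ℂ) (K₁ : C(UnitAddTorus (Fin d), ℝ)), (∀ k, (K₁ k : ℂ) = trig h₁ k) →
    (∀ x, h₁ (-x) = (starRingEnd ℂ) (h₁ x)) → ∀ (n : ℕ) (F : (Fin (n + 1) → ℂ) → ℝ),
    Continuous F →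
    (∀ (Q J : Type) [AddCommGroup Q] [Fintype Q] [DecidableEq Q] [AddCommGroup J] [Fintype J]
      [DecidableEq J] (g₁ : Q →₀ ℂ) (g₂ : J →₀ ℂ),
      (∀ x, g₁ (-x) = (starRingEnd ℂ) (g₁ x)) → (∀ x, g₂ (-x) = (starRingEnd ℂ) (g₂ x)) →
      OpB (fun x y : Q => g₁ (x - y)) ‖K₁‖ → OpB (fun i j : J => g₂ (i - j)) (3 * s) →
      ∀ v : Q × J → ℝ, (∀ x, |v x| ≤ R) →
      |Qf (fun x => g₁ x) (fun i j => g₂ (i - j)) η B v 0
        - F (fun m => mom (prodKer g₁ g₂) v m)| ≤ ε) →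
    ∃ (r : ℕ) (a : C(UnitAddTorus (Fin d × Fin r), ℝ)), 0 < r ∧ IsSym a ∧ (∀ k, |a k| ≤ 2 * s) ∧
      ∀ τ : ℝ, 0 < τ → ∃ (h₂ : (Fin d × Fin r → ℤ) →₀ ℂ) (a₁ : C(UnitAddTorus (Fin d × Fin r), ℝ)),
        (∀ x, h₂ (-x) = (starRingEnd ℂ) (h₂ x)) ∧ (∀ k, (a₁ k : ℂ) = trig h₂ k) ∧ ‖a₁ - a‖ ≤ τ ∧
        ∀ (ν : Measure ℝ) [IsProbabilityMeasure ν],
          ∫ v, F (fun m => mom (prodKer h₁ h₂) (fun x => clamp R (v x)) m)
            ∂(Measure.infinitePi fun _ : (Fin d → ℤ) × (Fin d × Fin r → ℤ) => ν)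
          ≤ (10 / s) * Real.sqrt ((B + 1) * η) + 2 * ε

/-! ## The conclusion -/

/-- `K` is good at level `m`. -/
def Good (d : ℕ) (K : C(UnitAddTorus (Fin d), ℝ)) (m : ℕ) : Prop :=
  ∃ η R q : ℝ, 0 < η ∧ η ≤ 1 ∧ 0 < R ∧ q < 1 / (m + 1) ∧
    ((m : ℝ) + ‖K‖) * (1 + (‖K‖ + m + 2) / η) / R < 1 / (m + 1) ∧
    ∀ (ν : Measure ℝ) [IsProbabilityMeasure ν],
      ∫ v, Qz K η m R v ∂(Measure.infinitePi fun _ : Fin d → ℤ => ν) ≤ q

/-- NE: good kinetic energies have no eigenvalues.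
Proof (assume `S_EIG`, `S_MEAS`, `S_LIP`). Fix `ν`, `P = infinitePi ν`, `B ∈ ℕ`, `c > 0`. For
`m ≥ B` with `1/(m+1) < c/2` let `η, R` be those of `Good d K m`. If `v` admits a normalised
eigenfunction `u` of an energy `|E| ≤ B ≤ m` with `‖u 0‖ ≥ c`, then by `S_EIG` (with `B := m`)
`(c/2)^4 ≤ 4 Qz K η m R v`. By Markov's inequality (`Qz ≥ 0` is measurable and bounded) the
probability of this last event is at most `4 (c/2)^(-4) /(m+1)`; so the set of these `v` is contained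
in measurable sets of arbitrarily small measure and is null. Countable unions: for a.e. `v` no
normalised eigenfunction has `u 0 ≠ 0`. The measure `P` is invariant under the shifts
`v ↦ v (· + x)` (`Measure.infinitePi` of equal laws, `infinitePi_map_piCongrLeft`-type lemma), and
`u(· + x)` is an eigenfunction for the shifted potential; so for a.e. `v` all eigenfunctions vanish
at every `x`. A nonzero square summable `u` can be normalised. -/
def S_NE : Prop :=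
  ∀ (d : ℕ) (K : C(UnitAddTorus (Fin d), ℝ)), 0 < d → (∀ m : ℕ, Good d K m) →
    ∀ (ν : Measure ℝ) [IsProbabilityMeasure ν],
      ∀ᵐ v ∂(Measure.infinitePi fun _ : Fin d → ℤ => ν), NoEig K v

/-- OD: the good kinetic energies of level `m` form an open dense set.
Proof (assume `S_KP`, `S_LIP`, `S_MEAS`). Open: the first inequality is continuous in `K`; by `S_LIP`
`|Jm K - Jm K'| ≤ ‖K - K'‖/η²` and `0 ≤ Jm ≤ 1/η`, so `|Qz K - Qz K'| ≤
η² (2⌈m/η⌉+1) (2/η) ‖K - K'‖/η²` for all `v`; enlarge `q` a little. Dense: given `K₀` symmetric and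
`ε > 0` take `s` with `2 s < ε`, then `η ≤ 1` with `(10/s) √((m+1) η) < 1/(4(m+1))`, then `R` large,
with `‖K₀‖ + ε` in place of `‖K‖`; `S_KP` with `B = m` gives `b` symmetric, `‖b‖ ≤ 2 s`, and
`∫ Qz (K₀+b) ≤ 1/(2(m+1)) =: q`. Sums of symmetric functions are symmetric. -/
def S_OD : Prop :=
  ∀ (d : ℕ), 0 < d → ∀ m : ℕ, IsOpen {K : SymSp d | Good d K.1 m} ∧
    Dense {K : SymSp d | Good d K.1 m}

end

end Pool.Agent.Q156.GK
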