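import Pool.Agent.Q156.GK.T1

/-! GK-T2: multiplication by the cut off potential (helper288). -/

set_option autoImplicit false

namespace Pool.Agent.Q156.GK

open MeasureTheory Pool.Agent.W792.GK T1P
open scoped ComplexConjugate

theorem main_T2 : S_T2 := by
  classical
  intro Γ R hR v
  have hcl : ∀ t : ℝ, |clamp R t| ≤ R := by
    intro t
    unfold clamp
    rw [abs_le]
    exact ⟨le_max_left _ _, max_le (by linarith) (min_le_left _ _)⟩
  obtain ⟨c, hc⟩ : ∃ c : Γ → ℂ, ∀ x, c x = (clamp R (v x) : ℂ) := ⟨_, fun _ => rfl⟩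
  have hcn : ∀ x, ‖c x‖ ≤ R := by
    intro x
    rw [hc, Complex.norm_real, Real.norm_eq_abs]
    exact hcl _
  have h2 : (0 : ℝ) < (2 : ENNReal).toReal := by norm_num
  have hmem : ∀ u : l2 Γ, Memℓp (fun x => c x * u x) 2 := by
    intro u
    have h1 := (lp.memℓp u).const_smul (R : ℂ)
    rw [memℓp_gen_iff h2] at h1 ⊢
    refine Summable.of_nonneg_of_le (fun x => by positivity) (fun x => ?_) h1
    rw [norm_mul, Pi.smul_apply, norm_smul, Complex.norm_real, Real.norm_of_nonneg hR.le]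
    have : ‖c x‖ * ‖u x‖ ≤ R * ‖u x‖ := mul_le_mul_of_nonneg_right (hcn x) (norm_nonneg _)
    gcongr
  let L : l2 Γ →ₗ[ℂ] l2 Γ :=
    { toFun := fun u => ⟨fun x => c x * u x, hmem u⟩
      map_add' := by
        intro u u'
        ext x
        change c x * ((u + u' : l2 Γ) x) = c x * u x + c x * u' x
        rw [lp.coeFn_add, Pi.add_apply, mul_add]
      map_smul' := by
        intro a u
        ext x
        change c x * ((a • u : l2 Γ) x) = a * (c x * u x)
        rw [lp.coeFn_smul, Pi.smul_apply, smul_eq_mul]; ring }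
  have hLe : ∀ (u : l2 Γ) (x : Γ), L u x = c x * u x := fun u x => rfl
  have hL : ∀ u : l2 Γ, ‖L u‖ ≤ R * ‖u‖ := by
    intro u
    have h3 : ‖(R : ℂ) • u‖ = R * ‖u‖ := by
      rw [norm_smul, Complex.norm_real, Real.norm_of_nonneg hR.le]
    rw [← h3, lp.norm_eq_tsum_rpow h2, lp.norm_eq_tsum_rpow h2]
    refine Real.rpow_le_rpow (tsum_nonneg fun _ => by positivity) ?_ (by norm_num)
    have hs1 := (memℓp_gen_iff h2).1 (lp.memℓp (L u))
    have hs2 := (memℓp_gen_iff h2).1 (lp.memℓp ((R : ℂ) • u))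
    refine hs1.tsum_le_tsum (fun x => ?_) hs2
    rw [hLe, norm_mul, lp.coeFn_smul, Pi.smul_apply, norm_smul, Complex.norm_real,
      Real.norm_of_nonneg hR.le]
    have : ‖c x‖ * ‖u x‖ ≤ R * ‖u x‖ := mul_le_mul_of_nonneg_right (hcn x) (norm_nonneg _)
    gcongr
  refine ⟨L.mkContinuous R hL, ?_, LinearMap.mkContinuous_norm_le _ hR.le _, fun u x => ?_⟩
  · refine sa_of_kernel _ fun x y => ?_
    change c x * (lp.single 2 y (1 : ℂ) : l2 Γ) x = conj (c y * (lp.single 2 x (1 : ℂ) : l2 Γ) y)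
    by_cases hxy : x = y
    · subst hxy
      rw [lp.single_apply_self, mul_one, hc, Complex.conj_ofReal]
    · rw [lp.single_apply_ne _ _ _ hxy, lp.single_apply_ne _ _ _ (Ne.symm hxy), mul_zero, mul_zero,
        map_zero]
  · change c x * u x = _
    rw [hc]

end Pool.Agent.Q156.GK
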